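import Pool.Agent.Lib.H24S.D

/-!
# H24S chunk A1: one bid of the auction

`amin f l` is a minimiser of `f` on the list `l`. `AInv` is the invariant of the auction: everything
except that all persons have objects, and in addition the number `k` of bids equals the sum of the
prices, and prices are at most `R + 1`, where `R` bounds the costs.

`bid_inv`: if some person is unassigned (the `find?` succeeds with `a`, which is in `Ps` and owns
nothing) then `S` is nonempty (there are at least as many objects as persons, `Ps` is nonempty), the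
minimiser is `y = (b, p, o)` in `S`, and the new state replaces the entry of the object `b` (the entries
have different objects) by `(b, p+1, some a)`.
* `cs`: for the new entry: `p + cost a b ≤ p' + cost a b'` for every old entry `(b', p', _)`, prices only
  increase: `p + 1 + cost a b ≤ p'_new + cost a b' + 1`. For an old entry with owner `a' ≠ a` nothing
  changed on the left, prices on the right did not decrease.
* `inj`: `a` owned nothing before; the old owner of `b` owns nothing now.
* `free`: the new entry has an owner. `own`: `a ∈ Ps`.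
* `le`: some object has no owner: at most `|Ps| - 1` persons own an object (`a` does not), each owner owns
  one object, and there are `≥ |Ps|` objects. That object `(b0, 0, none)` has price 0, so
  `p + cost a b ≤ 0 + cost a b0 ≤ R`, hence `p + 1 ≤ R + 1`.
* `sum`: one price was increased by one.
-/

set_option autoImplicit false

namespace Pool.Agent.H24S

variable {α β : Type} [DecidableEq α] [DecidableEq β]

omit [DecidableEq β] in
lemma a1_fold (f : β → ℕ) (l : List β) (y : β) :
    ∃ z, l.foldl (fun o z => match o with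
      | none => some z
      | some y => if f z < f y then some z else some y) (some y) = some z ∧ (z = y ∨ z ∈ l) ∧
      f z ≤ f y ∧ ∀ w ∈ l, f z ≤ f w := by
  induction l generalizing y with
  | nil => exact ⟨y, rfl, Or.inl rfl, le_rfl, fun w hw => absurd hw List.not_mem_nil⟩
  | cons a l ih =>
    rw [List.foldl_cons]
    by_cases h : f a < f y
    · obtain ⟨z, h1, h2, h3, h4⟩ := ih a
      refine ⟨z, ?_, Or.inr ?_, h3.trans h.le, fun w hw => ?_⟩
      · simp only [h, if_true]
        exact h1
      · rcases h2 with h2 | h2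
        · rw [h2]
          exact List.mem_cons_self
        · exact List.mem_cons_of_mem _ h2
      · rcases List.mem_cons.1 hw with hw | hw
        · rw [hw]
          exact h3
        · exact h4 w hw
    · obtain ⟨z, h1, h2, h3, h4⟩ := ih y
      refine ⟨z, ?_, ?_, h3, fun w hw => ?_⟩
      · simp only [h, if_false]
        exact h1
      · rcases h2 with h2 | h2
        · exact Or.inl h2
        · exact Or.inr (List.mem_cons_of_mem _ h2)
      · rcases List.mem_cons.1 hw with hw | hw
        · rw [hw]
          exact h3.trans (not_lt.1 h)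
        · exact h4 w hw

omit [DecidableEq β] in
lemma a1_cons (f : β → ℕ) (a : β) (l : List β) :
    ∃ z, amin f (a :: l) = some z ∧ z ∈ a :: l ∧ ∀ w ∈ a :: l, f z ≤ f w := by
  obtain ⟨z, h1, h2, h3, h4⟩ := a1_fold f l a
  refine ⟨z, h1, ?_, fun w hw => ?_⟩
  · rcases h2 with h2 | h2
    · rw [h2]
      exact List.mem_cons_self
    · exact List.mem_cons_of_mem _ h2
  · rcases List.mem_cons.1 hw with hw | hw
    · rw [hw]
      exact h3
    · exact h4 w hw

lemma amin_none {f : β → ℕ} {l : List β} : amin f l = none ↔ l = [] := by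
  constructor
  · intro h
    rcases l with _ | ⟨a, l⟩
    · rfl
    · obtain ⟨z, h1, -⟩ := a1_cons f a l
      rw [h1] at h
      exact absurd h (Option.some_ne_none z)
  · rintro rfl
    rfl

lemma amin_spec {f : β → ℕ} {l : List β} {y : β} (h : amin f l = some y) :
    y ∈ l ∧ ∀ z ∈ l, f y ≤ f z := by
  rcases l with _ | ⟨a, l⟩
  · exact absurd h.symm (Option.some_ne_none y)
  · obtain ⟨z, h1, h2, h3⟩ := a1_cons f a l
    rw [h1] at h
    obtain rfl := Option.some.inj h
    exact ⟨h2, h3⟩

/-- invariant of the auction after `k` bids -/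
structure AInv (Ps : List α) (Os : List β) (cost : α → β → ℕ) (R k : ℕ)
    (A : List (β × ℕ × Option α)) : Prop where
  objs : A.map (fun z => z.1) = Os
  own : ∀ z ∈ A, ∀ a, z.2.2 = some a → a ∈ Ps
  inj : ∀ z ∈ A, ∀ z' ∈ A, ∀ a, z.2.2 = some a → z'.2.2 = some a → z = z'
  cs : ∀ z ∈ A, ∀ a, z.2.2 = some a → ∀ z' ∈ A, z.2.1 + cost a z.1 ≤ z'.2.1 + cost a z'.1 + 1
  free : ∀ z ∈ A, z.2.2 = none → z.2.1 = 0
  le : ∀ z ∈ A, z.2.1 ≤ R + 1
  sum : (A.map fun z => z.2.1).sum = k

lemma ainv_init (Ps : List α) (Os : List β) (cost : α → β → ℕ) (R : ℕ) :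
    AInv Ps Os cost R 0 (Os.map fun b => (b, 0, none)) := by
  have hm : ∀ z ∈ (Os.map fun b => ((b, 0, none) : β × ℕ × Option α)), z.2.1 = 0 ∧ z.2.2 = none := by
    intro z hz
    obtain ⟨b, -, rfl⟩ := List.mem_map.1 hz
    exact ⟨rfl, rfl⟩
  refine ⟨?_, ?_, ?_, ?_, ?_, ?_, ?_⟩
  · rw [List.map_map]
    exact List.map_id _
  · intro z hz a ha
    rw [(hm z hz).2] at ha
    exact absurd ha.symm (Option.some_ne_none a)
  · intro z hz z' _ a ha
    rw [(hm z hz).2] at ha
    exact absurd ha.symm (Option.some_ne_none a)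
  · intro z hz a ha
    rw [(hm z hz).2] at ha
    exact absurd ha.symm (Option.some_ne_none a)
  · intro z hz _
    exact (hm z hz).1
  · intro z hz
    rw [(hm z hz).1]
    exact Nat.zero_le _
  · rw [List.map_map]
    apply List.sum_eq_zero
    intro x hx
    obtain ⟨b, -, rfl⟩ := List.mem_map.1 hx
    rfl

omit [DecidableEq α] in
lemma a1_sum (a : α) (b : β) (A : List (β × ℕ × Option α)) (hn : (A.map fun z => z.1).Nodup)
    (hb : b ∈ A.map fun z => z.1) :
    (A.map fun z => (if z.1 = b then (z.1, z.2.1 + 1, some a) else z).2.1).sum =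
      (A.map fun z => z.2.1).sum + 1 := by
  induction A with
  | nil => exact absurd hb List.not_mem_nil
  | cons z A ih =>
    rw [List.map_cons, List.nodup_cons] at hn
    rw [List.map_cons, List.map_cons, List.sum_cons, List.sum_cons]
    rw [List.map_cons, List.mem_cons] at hb
    by_cases h : z.1 = b
    · have h1 : (A.map fun z => (if z.1 = b then (z.1, z.2.1 + 1, some a) else z).2.1) =
          A.map fun z => z.2.1 := by
        apply List.map_congr_left
        intro w hw
        have h2 : w.1 ≠ b := by
          intro h3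
          apply hn.1
          rw [h, ← h3]
          exact List.mem_map.2 ⟨w, hw, rfl⟩
        rw [if_neg h2]
      rw [h1, if_pos h]
      show z.2.1 + 1 + _ = _
      omega
    · have h2 : b ∈ A.map fun z => z.1 := by
        rcases hb with hb | hb
        · exact absurd hb.symm h
        · exact hb
      rw [if_neg h, ih hn.2 h2]
      omega

omit [DecidableEq α] [DecidableEq β] in
lemma a1_free {Ps : List α} {Os : List β} (hOs : Os.Nodup)
    (hlen : Ps.length ≤ Os.length) {cost : α → β → ℕ} {R : ℕ} {k : ℕ} {A : List (β × ℕ × Option α)}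
    (h : AInv Ps Os cost R k A) {a : α} (ha : a ∈ Ps) (hun : ∀ z ∈ A, z.2.2 ≠ some a) :
    ∃ z ∈ A, z.2.2 = none := by
  classical
  by_contra hcon
  push Not at hcon
  have hA : A.Nodup := List.Nodup.of_map (fun z => z.1) (by rw [h.objs]; exact hOs)
  have h1 : (A.map fun z => z.2.2).Nodup := by
    refine List.Nodup.map_on ?_ hA
    intro z hz z' hz' he
    obtain ⟨c, hc⟩ := Option.ne_none_iff_exists'.1 (hcon z hz)
    exact h.inj z hz z' hz' c hc (he ▸ hc)
  have h2 : (A.map fun z => z.2.2) ⊆ (Ps.erase a).map some := by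
    intro o ho
    obtain ⟨z, hz, rfl⟩ := List.mem_map.1 ho
    obtain ⟨c, hc⟩ := Option.ne_none_iff_exists'.1 (hcon z hz)
    rw [hc]
    refine List.mem_map.2 ⟨c, ?_, rfl⟩
    have h3 : c ≠ a := by
      rintro rfl
      exact hun z hz hc
    exact (List.mem_erase_of_ne h3).2 (h.own z hz c hc)
  have h3 := (List.subperm_of_subset h1 h2).length_le
  rw [List.length_map, List.length_map, List.length_erase_of_mem ha] at h3
  have h4 : A.length = Os.length := by rw [← h.objs, List.length_map]
  have h5 : 0 < Ps.length := List.length_pos_of_mem ha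
  omega

theorem bid_inv {Ps : List α} {Os : List β} (hPs : Ps.Nodup) (hOs : Os.Nodup)
    (hlen : Ps.length ≤ Os.length) {cost : α → β → ℕ} {R : ℕ}
    (hR : ∀ a ∈ Ps, ∀ b ∈ Os, cost a b ≤ R) {k : ℕ} {A : List (β × ℕ × Option α)}
    (h : AInv Ps Os cost R k A) (hun : ∃ a ∈ Ps, ∀ z ∈ A, z.2.2 ≠ some a) :
    AInv Ps Os cost R (k + 1) (bid Ps cost A) := by
  obtain ⟨a0, ha0, hun0⟩ := hun
  have hf : ∃ a, Ps.find? (fun a => !(A.any fun z => decide (z.2.2 = some a))) = some a := by
    rw [← Option.isSome_iff_exists, List.find?_isSome]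
    refine ⟨a0, ha0, ?_⟩
    rw [Bool.not_eq_true', List.any_eq_false]
    intro z hz
    simpa using hun0 z hz
  obtain ⟨a, ha⟩ := hf
  have haP : a ∈ Ps := List.mem_of_find?_eq_some ha
  have hun : ∀ z ∈ A, z.2.2 ≠ some a := by
    have h1 := List.find?_some ha
    rw [Bool.not_eq_true', List.any_eq_false] at h1
    intro z hz
    have := h1 z hz
    simpa using this
  obtain ⟨y, hy⟩ : ∃ y, amin (fun z : β × ℕ × Option α => z.2.1 + cost a z.1) A = some y := by
    rcases hA : amin (fun z : β × ℕ × Option α => z.2.1 + cost a z.1) A with _ | y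
    · exfalso
      rw [amin_none] at hA
      have h1 : Os = [] := by rw [← h.objs, hA]; rfl
      have h2 : 0 < Ps.length := List.length_pos_of_mem haP
      rw [h1, List.length_nil] at hlen
      omega
    · exact ⟨y, rfl⟩
  obtain ⟨hyA, hymin⟩ := amin_spec hy
  have hbid : bid Ps cost A = A.map fun z => if z.1 = y.1 then (z.1, z.2.1 + 1, some a) else z := by
    unfold bid
    simp only [ha, hy]
  rw [hbid]
  have hOsA : (A.map fun z => z.1).Nodup := by rw [h.objs]; exact hOs
  have hinj : ∀ z ∈ A, z.1 = y.1 → z = y := fun z hz he =>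
    List.inj_on_of_nodup_map hOsA hz hyA he
  have hmem : ∀ z ∈ (A.map fun z => if z.1 = y.1 then (z.1, z.2.1 + 1, some a) else z),
      z = (y.1, y.2.1 + 1, some a) ∨ (z ∈ A ∧ z.1 ≠ y.1) := by
    intro z hz
    obtain ⟨w, hw, rfl⟩ := List.mem_map.1 hz
    by_cases h1 : w.1 = y.1
    · left
      obtain rfl := hinj w hw h1
      rw [if_pos rfl]
    · right
      rw [if_neg h1]
      exact ⟨hw, h1⟩
  refine ⟨?_, ?_, ?_, ?_, ?_, ?_, ?_⟩
  · rw [List.map_map, ← h.objs]
    apply List.map_congr_left
    intro z _
    simp only [Function.comp_apply]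
    split_ifs <;> rfl
  · intro z hz a' ha'
    rcases hmem z hz with rfl | ⟨h1, -⟩
    · obtain rfl := Option.some.inj ha'
      exact haP
    · exact h.own z h1 a' ha'
  · intro z hz z' hz' a' ha' ha''
    rcases hmem z hz with rfl | ⟨h1, -⟩
    · rcases hmem z' hz' with rfl | ⟨h2, -⟩
      · rfl
      · obtain rfl := Option.some.inj ha'
        exact absurd ha'' (hun z' h2)
    · rcases hmem z' hz' with rfl | ⟨h2, -⟩
      · obtain rfl := Option.some.inj ha''
        exact absurd ha' (hun z h1)
      · exact h.inj z h1 z' h2 a' ha' ha''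
  · intro z hz a' ha' z' hz'
    rcases hmem z hz with rfl | ⟨h1, -⟩
    · obtain rfl := Option.some.inj ha'
      rcases hmem z' hz' with rfl | ⟨h2, -⟩
      · omega
      · have h3 := hymin z' h2
        show y.2.1 + 1 + cost a y.1 ≤ _
        omega
    · rcases hmem z' hz' with rfl | ⟨h2, -⟩
      · have h3 := h.cs z h1 a' ha' y hyA
        show _ ≤ y.2.1 + 1 + cost a' y.1 + 1
        omega
      · exact h.cs z h1 a' ha' z' h2
  · intro z hz hz2
    rcases hmem z hz with rfl | ⟨h1, -⟩
    · exact absurd hz2 (Option.some_ne_none a)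
    · exact h.free z h1 hz2
  · obtain ⟨z0, hz0, hz0n⟩ := a1_free hOs hlen h haP hun
    intro z hz
    rcases hmem z hz with rfl | ⟨h1, -⟩
    · have h2 := hymin z0 hz0
      have h3 := h.free z0 hz0 hz0n
      have h4 : z0.1 ∈ Os := by
        rw [← h.objs]
        exact List.mem_map.2 ⟨z0, hz0, rfl⟩
      have h5 := hR a haP z0.1 h4
      show y.2.1 + 1 ≤ R + 1
      omega
    · exact h.le z h1
  · rw [List.map_map]
    have h1 := a1_sum a y.1 A hOsA (List.mem_map.2 ⟨y, hyA, rfl⟩)
    rw [← h.sum]
    exact h1

lemma bid_done {Ps : List α} {cost : α → β → ℕ} {A : List (β × ℕ × Option α)}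
    (h : ∀ a ∈ Ps, ∃ z ∈ A, z.2.2 = some a) : bid Ps cost A = A := by
  have h1 : Ps.find? (fun a => !(A.any fun z => decide (z.2.2 = some a))) = none := by
    rw [List.find?_eq_none]
    intro a ha h2
    rw [Bool.not_eq_true', List.any_eq_false] at h2
    obtain ⟨z, hz, hz2⟩ := h a ha
    have := h2 z hz
    simp [hz2] at this
  unfold bid
  simp only [h1]

end Pool.Agent.H24S
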