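import Pool.Agent.Lib.H24S.A1

/-!
# H24S chunk A2: the auction ends with an almost optimal assignment

`auction_spec`: after `k` bids either everybody has an object (then nothing changes any more,
`bid_done`) or the sum of the prices is `k` (`bid_inv`, induction). The owned objects are at most `|Ps|`
many (`inj`: different entries have different owners), the others have price 0, all prices
are `≤ R + 1`: the sum is `≤ |Ps| (R + 1)`. So if somebody were unassigned after `steps ≥ |Ps| (R+1)` bids,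
one more bid would give a sum of prices `steps + 1 > |Ps| (R+1)`, contradiction.

`auction_zero`: if there is an injective assignment `τ` of cost 0 then the assignment found has cost 0,
if nonzero costs are `> |Ps|`: for a person `a` let `(s a, p(s a))` be its entry. By `cs`,
`p(s a) + cost a (s a) ≤ p(τ a) + 0 + 1`. Sum over `a`: `Σ p(s a) + Σ cost ≤ Σ p(τ a) + |Ps|`. The
`τ a` are different objects, so `Σ p(τ a) ≤ Σ_{all objects} p = Σ_a p(s a)` (unowned objects have price
0, every owned object is `s a` for exactly one `a`). Hence `Σ cost a (s a) ≤ |Ps|`, so each cost is `≤ |Ps|`,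
so it is 0.
-/

set_option autoImplicit false

namespace Pool.Agent.H24S

variable {α β : Type} [DecidableEq α] [DecidableEq β]

/-- the result of an auction -/
structure Auc (Ps : List α) (Os : List β) (cost : α → β → ℕ) (A : List (β × ℕ × Option α)) :
    Prop where
  objs : A.map (fun z => z.1) = Os
  tot : ∀ a ∈ Ps, ∃ z ∈ A, z.2.2 = some a
  own : ∀ z ∈ A, ∀ a, z.2.2 = some a → a ∈ Ps
  inj : ∀ z ∈ A, ∀ z' ∈ A, ∀ a, z.2.2 = some a → z'.2.2 = some a → z = z'
  cs : ∀ z ∈ A, ∀ a, z.2.2 = some a → ∀ z' ∈ A, z.2.1 + cost a z.1 ≤ z'.2.1 + cost a z'.1 + 1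
  free : ∀ z ∈ A, z.2.2 = none → z.2.1 = 0

omit [DecidableEq α] [DecidableEq β] in
lemma a2_sum (R : ℕ) (A : List (β × ℕ × Option α)) (h0 : ∀ z ∈ A, z.2.2 = none → z.2.1 = 0)
    (h1 : ∀ z ∈ A, z.2.1 ≤ R + 1) :
    (A.map fun z => z.2.1).sum ≤ (A.filter fun z => z.2.2.isSome).length * (R + 1) := by
  induction A with
  | nil => exact Nat.zero_le _
  | cons z A ih =>
    have ih' := ih (fun w hw => h0 w (List.mem_cons_of_mem _ hw))
      (fun w hw => h1 w (List.mem_cons_of_mem _ hw))
    rw [List.map_cons, List.sum_cons]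
    by_cases hz : z.2.2.isSome = true
    · rw [List.filter_cons_of_pos (p := fun z : β × ℕ × Option α => z.2.2.isSome) hz,
        List.length_cons, Nat.succ_mul]
      have := h1 z List.mem_cons_self
      omega
    · rw [List.filter_cons_of_neg (p := fun z : β × ℕ × Option α => z.2.2.isSome) hz]
      have h2 : z.2.2 = none := by simpa using hz
      rw [h0 z List.mem_cons_self h2, zero_add]
      exact ih'

omit [DecidableEq α] [DecidableEq β] in
lemma a2_le {Ps : List α} {Os : List β} (hOs : Os.Nodup) {cost : α → β → ℕ} {R k : ℕ}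
    {A : List (β × ℕ × Option α)} (h : AInv Ps Os cost R k A) : k ≤ Ps.length * (R + 1) := by
  classical
  rw [← h.sum]
  refine (a2_sum R A h.free h.le).trans (Nat.mul_le_mul_right _ ?_)
  have hA : A.Nodup := List.Nodup.of_map (fun z => z.1) (by rw [h.objs]; exact hOs)
  have h1 : ((A.filter fun z => z.2.2.isSome).map fun z => z.2.2).Nodup := by
    refine List.Nodup.map_on ?_ (hA.filter _)
    intro z hz z' hz' he
    rw [List.mem_filter] at hz hz'
    obtain ⟨c, hc⟩ := Option.isSome_iff_exists.1 hz.2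
    exact h.inj z hz.1 z' hz'.1 c hc (he ▸ hc)
  have h2 : ((A.filter fun z => z.2.2.isSome).map fun z => z.2.2) ⊆ Ps.map some := by
    intro o ho
    obtain ⟨z, hz, rfl⟩ := List.mem_map.1 ho
    rw [List.mem_filter] at hz
    obtain ⟨c, hc⟩ := Option.isSome_iff_exists.1 hz.2
    rw [hc]
    exact List.mem_map.2 ⟨c, h.own z hz.1 c hc, rfl⟩
  have h3 := (List.subperm_of_subset h1 h2).length_le
  rwa [List.length_map, List.length_map] at h3

theorem auction_spec {Ps : List α} {Os : List β} (hPs : Ps.Nodup) (hOs : Os.Nodup)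
    (hlen : Ps.length ≤ Os.length) {cost : α → β → ℕ} {R : ℕ}
    (hR : ∀ a ∈ Ps, ∀ b ∈ Os, cost a b ≤ R) {steps : ℕ} (hs : Ps.length * (R + 1) ≤ steps) :
    Auc Ps Os cost (auction Ps Os cost steps) := by
  have key : ∀ k : ℕ, ∃ j, AInv Ps Os cost R j (auction Ps Os cost k) ∧
      (j = k ∨ ∀ a ∈ Ps, ∃ z ∈ auction Ps Os cost k, z.2.2 = some a) := by
    intro k
    induction k with
    | zero => exact ⟨0, ainv_init Ps Os cost R, Or.inl rfl⟩
    | succ k ih =>
      obtain ⟨j, h1, h2⟩ := ih
      have hst : auction Ps Os cost (k + 1) = bid Ps cost (auction Ps Os cost k) := by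
        unfold auction
        rw [Function.iterate_succ_apply']
      by_cases ht : ∀ a ∈ Ps, ∃ z ∈ auction Ps Os cost k, z.2.2 = some a
      · rw [hst, bid_done ht]
        exact ⟨j, h1, Or.inr ht⟩
      · have hj : j = k := h2.resolve_right ht
        subst hj
        push Not at ht
        rw [hst]
        exact ⟨j + 1, bid_inv hPs hOs hlen hR h1 ht, Or.inl rfl⟩
  obtain ⟨j, h1, h2⟩ := key steps
  have ht : ∀ a ∈ Ps, ∃ z ∈ auction Ps Os cost steps, z.2.2 = some a := by
    by_contra hcon
    have hj : j = steps := h2.resolve_right hcon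
    subst hj
    push Not at hcon
    have h3 := a2_le hOs (bid_inv hPs hOs hlen hR h1 hcon)
    omega
  exact ⟨h1.objs, ht, h1.own, h1.inj, h1.cs, h1.free⟩

lemma a2_prc {Os : List β} (hOs : Os.Nodup) {A : List (β × ℕ × Option α)}
    (h : A.map (fun z => z.1) = Os) {z : β × ℕ × Option α} (hz : z ∈ A) : prc A z.1 = z.2.1 := by
  unfold prc
  have h1 : (A.find? fun w => decide (w.1 = z.1)).isSome = true := by
    rw [List.find?_isSome]
    exact ⟨z, hz, by simp⟩
  obtain ⟨w, hw⟩ := Option.isSome_iff_exists.1 h1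
  have h2 := List.mem_of_find?_eq_some hw
  have h3 := List.find?_some hw
  rw [decide_eq_true_eq] at h3
  have h4 : (A.map fun z => z.1).Nodup := by rw [h]; exact hOs
  have h5 : w = z := List.inj_on_of_nodup_map h4 h2 hz h3
  rw [hw, h5]
  rfl

theorem auction_zero {Ps : List α} {Os : List β} (hPs : Ps.Nodup) (hOs : Os.Nodup)
    {cost : α → β → ℕ} {A : List (β × ℕ × Option α)} (h : Auc Ps Os cost A) (τ : α → β)
    (hτ : ∀ a ∈ Ps, τ a ∈ Os) (hinj : ∀ a ∈ Ps, ∀ a' ∈ Ps, τ a = τ a' → a = a')
    (hz : ∀ a ∈ Ps, cost a (τ a) = 0) (hc : ∀ a b, cost a b = 0 ∨ Ps.length < cost a b) :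
    ∀ z ∈ A, ∀ a, z.2.2 = some a → cost a z.1 = 0 := by
  intro z hzA a hza
  have haP := h.own z hzA a hza
  have hne : Nonempty (β × ℕ × Option α) := ⟨z⟩
  choose! f hfA hf using h.tot
  have hprc : ∀ w ∈ A, prc A w.1 = w.2.1 := fun w hw => a2_prc hOs h.objs hw
  have hmem : ∀ w ∈ A, w.1 ∈ Os := by
    intro w hw
    rw [← h.objs]
    exact List.mem_map.2 ⟨w, hw, rfl⟩
  have hobj : ∀ b ∈ Os, ∃ w ∈ A, w.1 = b := by
    intro b hb
    rw [← h.objs] at hb
    obtain ⟨w, hw, rfl⟩ := List.mem_map.1 hb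
    exact ⟨w, hw, rfl⟩
  have hAinj : ∀ w ∈ A, ∀ w' ∈ A, w.1 = w'.1 → w = w' := by
    intro w hw w' hw' he
    exact List.inj_on_of_nodup_map (show (A.map fun z => z.1).Nodup by rw [h.objs]; exact hOs)
      hw hw' he
  -- the prices of the objects found
  have e1 : ∑ b ∈ Os.toFinset, prc A b = ∑ a ∈ Ps.toFinset, prc A (f a).1 := by
    have e2 : ∑ b ∈ Ps.toFinset.image (fun a => (f a).1), prc A b =
        ∑ a ∈ Ps.toFinset, prc A (f a).1 := by
      refine Finset.sum_image ?_
      intro a ha a' ha' he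
      rw [Finset.mem_coe, List.mem_toFinset] at ha ha'
      have h1 := hAinj _ (hfA a ha) _ (hfA a' ha') he
      have h2 := hf a ha
      rw [h1, hf a' ha'] at h2
      exact (Option.some.inj h2).symm
    rw [← e2]
    symm
    refine Finset.sum_subset ?_ ?_
    · intro b hb
      rw [Finset.mem_image] at hb
      obtain ⟨a, ha, rfl⟩ := hb
      rw [List.mem_toFinset] at ha ⊢
      exact hmem _ (hfA a ha)
    · intro b hb hb'
      rw [List.mem_toFinset] at hb
      obtain ⟨w, hw, rfl⟩ := hobj b hb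
      rw [hprc w hw]
      apply h.free w hw
      by_contra hcon
      obtain ⟨c, hcw⟩ := Option.ne_none_iff_exists'.1 hcon
      have hcP := h.own w hw c hcw
      have h3 := h.inj w hw (f c) (hfA c hcP) c hcw (hf c hcP)
      apply hb'
      rw [Finset.mem_image]
      exact ⟨c, List.mem_toFinset.2 hcP, by rw [← h3]⟩
  have e3 : ∑ a ∈ Ps.toFinset, prc A (τ a) ≤ ∑ b ∈ Os.toFinset, prc A b := by
    have e4 : ∑ b ∈ Ps.toFinset.image τ, prc A b = ∑ a ∈ Ps.toFinset, prc A (τ a) := by
      refine Finset.sum_image ?_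
      intro a ha a' ha' he
      rw [Finset.mem_coe, List.mem_toFinset] at ha ha'
      exact hinj a ha a' ha' he
    rw [← e4]
    refine Finset.sum_le_sum_of_subset ?_
    intro b hb
    rw [Finset.mem_image] at hb
    obtain ⟨a, ha, rfl⟩ := hb
    rw [List.mem_toFinset] at ha ⊢
    exact hτ a ha
  have e5 : ∑ a ∈ Ps.toFinset, (prc A (f a).1 + cost a (f a).1) ≤
      ∑ a ∈ Ps.toFinset, (prc A (τ a) + 1) := by
    refine Finset.sum_le_sum fun a ha => ?_
    rw [List.mem_toFinset] at ha
    obtain ⟨w, hw, hwb⟩ := hobj (τ a) (hτ a ha)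
    have h1 := h.cs (f a) (hfA a ha) a (hf a ha) w hw
    rw [hprc _ (hfA a ha), ← hwb, hprc w hw]
    rw [hwb, hz a ha] at h1
    omega
  rw [Finset.sum_add_distrib, Finset.sum_add_distrib, Finset.sum_const, smul_eq_mul, mul_one,
    List.toFinset_card_of_nodup hPs] at e5
  have e6 : ∑ a ∈ Ps.toFinset, cost a (f a).1 ≤ Ps.length := by omega
  have e7 : cost a (f a).1 ≤ ∑ a ∈ Ps.toFinset, cost a (f a).1 :=
    Finset.single_le_sum (f := fun a => cost a (f a).1) (fun _ _ => Nat.zero_le _)
      (List.mem_toFinset.2 haP)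
  have e8 : z = f a := h.inj z hzA (f a) (hfA a haP) a hza (hf a haP)
  rw [e8]
  rcases hc a (f a).1 with h1 | h1
  · exact h1
  · omega

end Pool.Agent.H24S
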