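import Pool.Agent.Lib.H24S.D

/-!
# H24S chunk B1: counting arcs (pure finite combinatorics, all statements one or two lines)

All names are used by the other chunks. `ee E A B` = number of arcs from `A` to `B`,
`ww E A` = number of arcs starting in `A`, `bb E A` = number of arcs leaving `A`.
Everything is additivity of cardinalities of filters of `E`.
`bb_union`: the arcs leaving `A ∪ S` are the arcs leaving `A` not ending in `S` and the arcs leaving
`S` not ending in `A`; by symmetry `ee E A S = ee E S A`.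
-/

set_option autoImplicit false

namespace Pool.Agent.H24S

variable {V : Type*} [DecidableEq V] {E : Finset (V × V)}

lemma ee_union_left {A B C : Finset V} (h : Disjoint A B) :
    ee E (A ∪ B) C = ee E A C + ee E B C := by
  unfold ee
  rw [← Finset.card_union_of_disjoint]
  · congr 1
    ext x
    simp only [Finset.mem_filter, Finset.mem_union]
    tauto
  · rw [Finset.disjoint_left]
    intro x hx hy
    rw [Finset.mem_filter] at hx hy
    exact Finset.disjoint_left.1 h hx.2.1 hy.2.1

lemma ee_union_right {A B C : Finset V} (h : Disjoint B C) :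
    ee E A (B ∪ C) = ee E A B + ee E A C := by
  unfold ee
  rw [← Finset.card_union_of_disjoint]
  · congr 1
    ext x
    simp only [Finset.mem_filter, Finset.mem_union]
    tauto
  · rw [Finset.disjoint_left]
    intro x hx hy
    rw [Finset.mem_filter] at hx hy
    exact Finset.disjoint_left.1 h hx.2.2 hy.2.2

lemma ee_comm (hE : ∀ x ∈ E, x.swap ∈ E) (A B : Finset V) : ee E A B = ee E B A := by
  unfold ee
  refine Finset.card_bij (fun x _ => x.swap) ?_ ?_ ?_
  · intro x hx
    rw [Finset.mem_filter] at hx ⊢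
    exact ⟨hE x hx.1, hx.2.2, hx.2.1⟩
  · intro x _ y _ h
    exact Prod.swap_injective h
  · intro y hy
    rw [Finset.mem_filter] at hy
    exact ⟨y.swap, Finset.mem_filter.2 ⟨hE y hy.1, hy.2.2, hy.2.1⟩, Prod.swap_swap y⟩

lemma ee_mono {A A' B B' : Finset V} (h : A ⊆ A') (h' : B ⊆ B') : ee E A B ≤ ee E A' B' := by
  unfold ee
  refine Finset.card_le_card fun x hx => ?_
  rw [Finset.mem_filter] at hx ⊢
  exact ⟨hx.1, h hx.2.1, h' hx.2.2⟩

lemma ee_le_ww (A B : Finset V) : ee E A B ≤ ww E A := by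
  unfold ee ww
  refine Finset.card_le_card fun x hx => ?_
  rw [Finset.mem_filter] at hx ⊢
  exact ⟨hx.1, hx.2.1⟩

lemma ee_le_mul (A B : Finset V) : ee E A B ≤ A.card * B.card := by
  unfold ee
  rw [← Finset.card_product]
  refine Finset.card_le_card fun x hx => ?_
  rw [Finset.mem_filter] at hx
  exact Finset.mem_product.2 hx.2

lemma ee_empty_left (B : Finset V) : ee E ∅ B = 0 := by
  simp [ee]

lemma ee_empty_right (A : Finset V) : ee E A ∅ = 0 := by
  simp [ee]

lemma ee_eq_zero {A B : Finset V} (h : ∀ x ∈ E, x.1 ∈ A → x.2 ∉ B) : ee E A B = 0 := by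
  unfold ee
  rw [Finset.card_eq_zero, Finset.filter_eq_empty_iff]
  intro x hx h'
  exact h x hx h'.1 h'.2

lemma ee_sum_left (A B : Finset V) : ee E A B = ∑ a ∈ A, ee E {a} B := by
  induction A using Finset.induction_on with
  | empty => simp [ee]
  | insert a A ha ih =>
    rw [Finset.sum_insert ha, Finset.insert_eq, ee_union_left (Finset.disjoint_singleton_left.2 ha),
      ih]

lemma ww_sum (A : Finset V) : ww E A = ∑ a ∈ A, ww E {a} := by
  have h : ∀ A : Finset V, ww E A = ee E A (E.image Prod.snd) := by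
    intro A
    unfold ww ee
    congr 1
    ext x
    simp only [Finset.mem_filter]
    constructor
    · rintro ⟨h1, h2⟩
      exact ⟨h1, h2, Finset.mem_image_of_mem _ h1⟩
    · rintro ⟨h1, h2, _⟩
      exact ⟨h1, h2⟩
  rw [h, ee_sum_left]
  exact Finset.sum_congr rfl fun a _ => (h {a}).symm

lemma ww_union {A B : Finset V} (h : Disjoint A B) : ww E (A ∪ B) = ww E A + ww E B := by
  unfold ww
  rw [← Finset.card_union_of_disjoint]
  · congr 1
    ext x
    simp only [Finset.mem_filter, Finset.mem_union]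
    tauto
  · rw [Finset.disjoint_left]
    intro x hx hy
    rw [Finset.mem_filter] at hx hy
    exact Finset.disjoint_left.1 h hx.2 hy.2

lemma ww_mono {A B : Finset V} (h : A ⊆ B) : ww E A ≤ ww E B := by
  unfold ww
  refine Finset.card_le_card fun x hx => ?_
  rw [Finset.mem_filter] at hx ⊢
  exact ⟨hx.1, h hx.2⟩

lemma ww_sdiff_add {A B : Finset V} : ww E (A \ B) + ww E (A ∩ B) = ww E A := by
  rw [← ww_union (Finset.disjoint_sdiff_inter A B), Finset.sdiff_union_inter]

lemma ww_eq_ee {P : Finset V} (h : ∀ x ∈ E, x.2 ∈ P) (A : Finset V) : ww E A = ee E A P := by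
  unfold ww ee
  congr 1
  ext x
  simp only [Finset.mem_filter]
  exact ⟨fun hx => ⟨hx.1, hx.2, h x hx.1⟩, fun hx => ⟨hx.1, hx.2.1⟩⟩

lemma bb_eq_ee {P : Finset V} (h : ∀ x ∈ E, x.2 ∈ P) (A : Finset V) :
    bb E A = ee E A (P \ A) := by
  unfold bb ee
  congr 1
  ext x
  simp only [Finset.mem_filter, Finset.mem_sdiff]
  exact ⟨fun hx => ⟨hx.1, hx.2.1, h x hx.1, hx.2.2⟩, fun hx => ⟨hx.1, hx.2.1, hx.2.2.2⟩⟩

lemma bb_le_ww (A : Finset V) : bb E A ≤ ww E A := by
  unfold bb ww
  refine Finset.card_le_card fun x hx => ?_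
  rw [Finset.mem_filter] at hx ⊢
  exact ⟨hx.1, hx.2.1⟩

lemma ee_le_bb {A B : Finset V} (h : Disjoint A B) : ee E A B ≤ bb E A := by
  unfold bb ee
  refine Finset.card_le_card fun x hx => ?_
  rw [Finset.mem_filter] at hx ⊢
  exact ⟨hx.1, hx.2.1, fun h' => Finset.disjoint_left.1 h h' hx.2.2⟩

lemma bb_union (hE : ∀ x ∈ E, x.swap ∈ E) {A S : Finset V} (h : Disjoint A S) :
    bb E (A ∪ S) + 2 * ee E S A = bb E A + bb E S := by
  have hP : ∀ x ∈ E, x.2 ∈ (A ∪ S) ∪ E.image Prod.snd := fun x hx =>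
    Finset.mem_union_right _ (Finset.mem_image_of_mem _ hx)
  set P := (A ∪ S) ∪ E.image Prod.snd with hPd
  have h1 : P \ A = S ∪ (P \ (A ∪ S)) := by
    ext x
    simp only [hPd, Finset.mem_sdiff, Finset.mem_union]
    have hx : x ∈ A → x ∉ S := fun h0 => Finset.disjoint_left.1 h h0
    tauto
  have h2 : P \ S = A ∪ (P \ (A ∪ S)) := by
    ext x
    simp only [hPd, Finset.mem_sdiff, Finset.mem_union]
    have hx : x ∈ A → x ∉ S := fun h0 => Finset.disjoint_left.1 h h0
    tauto
  have d1 : Disjoint S (P \ (A ∪ S)) := by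
    rw [Finset.disjoint_left]
    intro x hx hy
    exact (Finset.mem_sdiff.1 hy).2 (Finset.mem_union_right _ hx)
  have d2 : Disjoint A (P \ (A ∪ S)) := by
    rw [Finset.disjoint_left]
    intro x hx hy
    exact (Finset.mem_sdiff.1 hy).2 (Finset.mem_union_left _ hx)
  rw [bb_eq_ee hP, bb_eq_ee hP A, bb_eq_ee hP S, h1, h2, ee_union_right d1, ee_union_right d2,
    ee_union_left h, ee_comm hE A S]
  ring

lemma nu_union (K : ℕ) {A B : Finset V} (h : Disjoint A B) :
    nu K E (A ∪ B) = nu K E A + nu K E B := by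
  unfold nu
  rw [Finset.card_union_of_disjoint h, ww_union h]
  ring

lemma nu_mono (K : ℕ) {A B : Finset V} (h : A ⊆ B) : nu K E A ≤ nu K E B := by
  unfold nu
  have h1 := Finset.card_le_card h
  have h2 := ww_mono (E := E) h
  gcongr

omit [DecidableEq V] in
lemma Gr.inP' {P : Finset V} (h : Gr E P) : ∀ x ∈ E, x.2 ∈ P := by
  intro x hx
  exact h.inP x.swap (h.symm x hx)

end Pool.Agent.H24S
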