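import Pool.Agent.Lib.H24S.B1

/-!
# H24S chunk B2: sums over lists of disjoint sets

`L` is a list of pairwise disjoint sets (or of objects `a` with sets `f a`). All by induction on the
list with `ee_union_left` etc. `xe E L` = number of arcs between different parts.
-/

set_option autoImplicit false

namespace Pool.Agent.H24S

variable {V : Type*} [DecidableEq V] {E : Finset (V × V)} {ι : Type*}

/-- the union of a list of sets -/
def b2_un (f : ι → Finset V) (L : List ι) : Finset V := L.foldr (fun a P => f a ∪ P) ∅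

omit [DecidableEq V] in
lemma b2_mem_un [DecidableEq V] (f : ι → Finset V) (L : List ι) (v : V) :
    v ∈ b2_un f L ↔ ∃ a ∈ L, v ∈ f a := by
  induction L with
  | nil => simp [b2_un]
  | cons a L ih =>
    have h : b2_un f (a :: L) = f a ∪ b2_un f L := rfl
    rw [h, Finset.mem_union, ih]
    simp

lemma b2_disj {f : ι → Finset V} {a : ι} {L : List ι}
    (hd : (a :: L).Pairwise fun a b => Disjoint (f a) (f b)) : Disjoint (f a) (b2_un f L) := by
  rw [Finset.disjoint_left]
  intro x hx hx'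
  obtain ⟨b, hb, hxb⟩ := (b2_mem_un f L x).1 hx'
  exact Finset.disjoint_left.1 ((List.pairwise_cons.1 hd).1 b hb) hx hxb

lemma b2_eq {f : ι → Finset V} {L : List ι} {P : Finset V} (h : ∀ v, v ∈ P ↔ ∃ a ∈ L, v ∈ f a) :
    P = b2_un f L := by
  ext v
  rw [h, b2_mem_un]

lemma b2_add (g : Finset V → ℕ) (g0 : g ∅ = 0)
    (gu : ∀ A B : Finset V, Disjoint A B → g (A ∪ B) = g A + g B) {f : ι → Finset V} {L : List ι}
    (hd : L.Pairwise fun a b => Disjoint (f a) (f b)) :
    (L.map fun a => g (f a)).sum = g (b2_un f L) := by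
  induction L with
  | nil => simp [b2_un, g0]
  | cons a L ih =>
    have h : b2_un f (a :: L) = f a ∪ b2_un f L := rfl
    rw [List.map_cons, List.sum_cons, ih (List.pairwise_cons.1 hd).2, h, gu _ _ (b2_disj hd)]

lemma b2_sub {f : ι → Finset V} {L : List ι} {P : Finset V} (h : ∀ a ∈ L, f a ⊆ P) :
    b2_un f L ⊆ P := by
  intro v hv
  obtain ⟨a, ha, hva⟩ := (b2_mem_un f L v).1 hv
  exact h a ha hva

lemma b2_ww : ww E (∅ : Finset V) = 0 := by simp [ww]

lemma sum_ww_le {L : List ι} {f : ι → Finset V} {P : Finset V}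
    (hd : L.Pairwise fun a b => Disjoint (f a) (f b)) (h : ∀ a ∈ L, f a ⊆ P) :
    (L.map fun a => ww E (f a)).sum ≤ ww E P := by
  rw [b2_add (ww E) b2_ww (fun A B h => ww_union h) hd]
  exact ww_mono (b2_sub h)

lemma sum_card_le {L : List ι} {f : ι → Finset V} {P : Finset V}
    (hd : L.Pairwise fun a b => Disjoint (f a) (f b)) (h : ∀ a ∈ L, f a ⊆ P) :
    (L.map fun a => (f a).card).sum ≤ P.card := by
  rw [b2_add Finset.card Finset.card_empty (fun A B h => Finset.card_union_of_disjoint h) hd]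
  exact Finset.card_le_card (b2_sub h)

lemma sum_ww_eq {L : List ι} {f : ι → Finset V} {P : Finset V}
    (hd : L.Pairwise fun a b => Disjoint (f a) (f b)) (h : ∀ v, v ∈ P ↔ ∃ a ∈ L, v ∈ f a) :
    (L.map fun a => ww E (f a)).sum = ww E P := by
  rw [b2_add (ww E) b2_ww (fun A B h => ww_union h) hd, ← b2_eq h]

lemma sum_card_eq {L : List ι} {f : ι → Finset V} {P : Finset V}
    (hd : L.Pairwise fun a b => Disjoint (f a) (f b)) (h : ∀ v, v ∈ P ↔ ∃ a ∈ L, v ∈ f a) :
    (L.map fun a => (f a).card).sum = P.card := by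
  rw [b2_add Finset.card Finset.card_empty (fun A B h => Finset.card_union_of_disjoint h) hd,
    ← b2_eq h]

lemma sum_ee_left {L : List ι} {f : ι → Finset V} {P : Finset V}
    (hd : L.Pairwise fun a b => Disjoint (f a) (f b)) (h : ∀ v, v ∈ P ↔ ∃ a ∈ L, v ∈ f a)
    (B : Finset V) : (L.map fun a => ee E (f a) B).sum = ee E P B := by
  rw [b2_add (fun A => ee E A B) (ee_empty_left B) (fun A B h => ee_union_left h) hd, ← b2_eq h]

lemma sum_ee_right {L : List ι} {f : ι → Finset V} {P : Finset V}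
    (hd : L.Pairwise fun a b => Disjoint (f a) (f b)) (h : ∀ v, v ∈ P ↔ ∃ a ∈ L, v ∈ f a)
    (A : Finset V) : (L.map fun a => ee E A (f a)).sum = ee E A P := by
  rw [b2_add (fun B => ee E A B) (ee_empty_right A) (fun A B h => ee_union_right h) hd, ← b2_eq h]

/-- the arcs between different parts, with the first end in the union `Q` of a list -/
lemma b2_part {L : List (Finset V)} (hd : L.Pairwise fun a b => Disjoint a b) {A B : Finset V}
    (hA : A ∈ L) (hB : B ∈ L) {v : V} (hvA : v ∈ A) (hvB : v ∈ B) : A = B := by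
  by_contra hne
  have : Std.Symm (fun a b : Finset V => Disjoint a b) := ⟨fun a b h => h.symm⟩
  exact Finset.disjoint_left.1 (hd.forall hA hB hne) hvA hvB

/-- `xe` in terms of boundaries inside the union `P` -/
lemma xe_eq {L : List (Finset V)} {P : Finset V} (hd : L.Pairwise fun a b => Disjoint a b)
    (h : ∀ v, v ∈ P ↔ ∃ A ∈ L, v ∈ A) :
    xe E L = (L.map fun A => ee E A (P \ A)).sum := by
  -- count the arcs with first end in the union of a sublist
  have key : ∀ M : List (Finset V), (M.Pairwise fun a b => Disjoint a b) → M ⊆ L →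
      (M.map fun A => ee E A (P \ A)).sum =
        (E.filter fun x => ∃ A ∈ M, ∃ B ∈ L, A ≠ B ∧ x.1 ∈ A ∧ x.2 ∈ B).card := by
    intro M
    induction M with
    | nil => intro _ _; simp
    | cons A M ih =>
      intro hdM hM
      rw [List.map_cons, List.sum_cons, ih (List.pairwise_cons.1 hdM).2
        (fun x hx => hM (List.mem_cons_of_mem _ hx))]
      unfold ee
      rw [← Finset.card_union_of_disjoint]
      · congr 1
        ext x
        simp only [Finset.mem_union, Finset.mem_filter, Finset.mem_sdiff, List.mem_cons]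
        constructor
        · rintro (⟨h1, h2, h3, h4⟩ | ⟨h1, A', hA', B, hB, h2, h3, h4⟩)
          · obtain ⟨B, hB, hxB⟩ := (h x.2).1 h3
            exact ⟨h1, A, Or.inl rfl, B, hB, fun e => h4 (e ▸ hxB), h2, hxB⟩
          · exact ⟨h1, A', Or.inr hA', B, hB, h2, h3, h4⟩
        · rintro ⟨h1, A', hA' | hA', B, hB, h2, h3, h4⟩
          · subst hA'
            refine Or.inl ⟨h1, h3, (h x.2).2 ⟨B, hB, h4⟩, fun h5 => h2 ?_⟩
            exact b2_part hd (hM (List.mem_cons_self)) hB h5 h4
          · exact Or.inr ⟨h1, A', hA', B, hB, h2, h3, h4⟩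
      · rw [Finset.disjoint_left]
        intro x hx hx'
        rw [Finset.mem_filter] at hx hx'
        obtain ⟨-, A', hA', B, hB, h2, h3, h4⟩ := hx'
        exact Finset.disjoint_left.1 ((List.pairwise_cons.1 hdM).1 A' hA') hx.2.1 h3
  rw [key L hd (List.Subset.refl _)]
  rfl

lemma xe_perm {L L' : List (Finset V)} (h : L.Perm L') : xe E L = xe E L' := by
  unfold xe
  simp only [h.mem_iff]

lemma xe_append (hE : ∀ x ∈ E, x.swap ∈ E) {L L' : List (Finset V)} {P P' : Finset V}
    (hd : (L ++ L').Pairwise fun a b => Disjoint a b) (h : ∀ v, v ∈ P ↔ ∃ A ∈ L, v ∈ A)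
    (h' : ∀ v, v ∈ P' ↔ ∃ A ∈ L', v ∈ A) :
    xe E (L ++ L') = xe E L + xe E L' + 2 * ee E P P' := by
  obtain ⟨hd1, hd2, hd3⟩ := List.pairwise_append.1 hd
  have hPP : Disjoint P P' := by
    rw [Finset.disjoint_left]
    intro v hv hv'
    obtain ⟨A, hA, hvA⟩ := (h v).1 hv
    obtain ⟨B, hB, hvB⟩ := (h' v).1 hv'
    exact Finset.disjoint_left.1 (hd3 A hA B hB) hvA hvB
  have hu : ∀ v, v ∈ P ∪ P' ↔ ∃ A ∈ L ++ L', v ∈ A := by
    intro v
    rw [Finset.mem_union, h, h']
    simp only [List.mem_append]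
    constructor
    · rintro (⟨A, hA, hv⟩ | ⟨A, hA, hv⟩)
      · exact ⟨A, Or.inl hA, hv⟩
      · exact ⟨A, Or.inr hA, hv⟩
    · rintro ⟨A, hA | hA, hv⟩
      · exact Or.inl ⟨A, hA, hv⟩
      · exact Or.inr ⟨A, hA, hv⟩
  rw [xe_eq hd hu, xe_eq hd1 h, xe_eq hd2 h', List.map_append, List.sum_append]
  have e1 : (L.map fun A => ee E A ((P ∪ P') \ A)).sum =
      (L.map fun A => ee E A (P \ A)).sum + ee E P P' := by
    rw [← sum_ee_left hd1 h P', ← List.sum_map_add]
    congr 1
    refine List.map_congr_left fun A hA => ?_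
    have hAP : A ⊆ P := fun v hv => (h v).2 ⟨A, hA, hv⟩
    have hs : (P ∪ P') \ A = (P \ A) ∪ P' := by
      ext v
      simp only [Finset.mem_sdiff, Finset.mem_union]
      have : v ∈ P' → v ∉ A := fun hv hvA => Finset.disjoint_left.1 hPP (hAP hvA) hv
      tauto
    rw [hs, ee_union_right]
    exact hPP.mono_left Finset.sdiff_subset
  have e2 : (L'.map fun A => ee E A ((P ∪ P') \ A)).sum =
      (L'.map fun A => ee E A (P' \ A)).sum + ee E P P' := by
    rw [ee_comm hE P P', ← sum_ee_left hd2 h' P, ← List.sum_map_add]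
    congr 1
    refine List.map_congr_left fun A hA => ?_
    have hAP : A ⊆ P' := fun v hv => (h' v).2 ⟨A, hA, hv⟩
    have hs : (P ∪ P') \ A = (P' \ A) ∪ P := by
      ext v
      simp only [Finset.mem_sdiff, Finset.mem_union]
      have : v ∈ P → v ∉ A := fun hv hvA => Finset.disjoint_left.1 hPP hv (hAP hvA)
      tauto
    rw [hs, ee_union_right]
    exact hPP.symm.mono_left Finset.sdiff_subset
  rw [e1, e2]
  ring

lemma xe_cons (hE : ∀ x ∈ E, x.swap ∈ E) {L : List (Finset V)} {T P : Finset V}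
    (hd : (T :: L).Pairwise fun a b => Disjoint a b) (h : ∀ v, v ∈ P ↔ ∃ A ∈ L, v ∈ A) :
    xe E (T :: L) = xe E L + 2 * ee E P T := by
  have h1 := xe_append (E := E) hE (L := [T]) (L' := L) (P := T) (P' := P) hd (by simp) h
  have h2 : xe E [T] = 0 := by
    unfold xe
    rw [Finset.card_eq_zero, Finset.filter_eq_empty_iff]
    rintro x hx ⟨A, hA, B, hB, hne, -⟩
    rw [List.mem_singleton] at hA hB
    exact hne (hA.trans hB.symm)
  rw [List.singleton_append] at h1
  rw [h1, h2, ee_comm hE T P]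
  ring

end Pool.Agent.H24S
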