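import Pool.Agent.Lib.H24S.B1

/-!
# H24S chunk B3: the counts of the algorithm (lists) are the counts of finite sets
-/

set_option autoImplicit false

namespace Pool.Agent.H24S

lemma b3_count {α : Type*} [DecidableEq α] {E : List α} (hE : E.Nodup) (p : α → Bool) (q : α → Prop)
    [DecidablePred q] (h : ∀ x, p x = true ↔ q x) :
    (E.filter p).length = (E.toFinset.filter q).card := by
  rw [← List.toFinset_card_of_nodup (hE.filter p)]
  congr 1
  ext x
  simp [h]

lemma eL_eq {E : AS} (hE : E.Nodup) (A B : VS) :
    eL E A B = ee E.toFinset A.toFinset B.toFinset := by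
  unfold eL ee
  refine b3_count hE _ _ fun x => ?_
  simp

lemma wL_eq {E : AS} (hE : E.Nodup) (A : VS) : wL E A = ww E.toFinset A.toFinset := by
  unfold wL ww
  refine b3_count hE _ _ fun x => ?_
  simp

lemma bL_eq {E : AS} (hE : E.Nodup) (A : VS) : bL E A = bb E.toFinset A.toFinset := by
  unfold bL bb
  refine b3_count hE _ _ fun x => ?_
  simp

lemma nL_eq {E : AS} (hE : E.Nodup) (K : ℕ) {A : VS} (hA : A.Nodup) :
    nL K E A = nu K E.toFinset A.toFinset := by
  unfold nL nu
  rw [wL_eq hE, List.toFinset_card_of_nodup hA]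

lemma dif_toFinset (P A : VS) : (dif P A).toFinset = P.toFinset \ A.toFinset := by
  ext v
  simp [dif]

lemma itr_toFinset (P A : VS) : (itr P A).toFinset = P.toFinset ∩ A.toFinset := by
  ext v
  simp [itr]

lemma mem_dif {P A : VS} {v : ℕ} : v ∈ dif P A ↔ v ∈ P ∧ v ∉ A := by
  simp [dif]

lemma mem_itr {P A : VS} {v : ℕ} : v ∈ itr P A ↔ v ∈ P ∧ v ∈ A := by
  simp [itr]

lemma dif_nodup {P : VS} (A : VS) (hP : P.Nodup) : (dif P A).Nodup := hP.filter _

lemma itr_nodup {P : VS} (A : VS) (hP : P.Nodup) : (itr P A).Nodup := hP.filter _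

lemma adjS_iff {E : AS} {F : VS} {y : ℕ} : adjS E F y = true ↔ ∃ f ∈ F, (f, y) ∈ E := by
  simp [adjS]

lemma wL_cons (E : AS) {v : ℕ} {T : VS} (h : v ∉ T) : wL E (v :: T) = wL E [v] + wL E T := by
  unfold wL
  induction E with
  | nil => simp
  | cons x E ih =>
    simp only [List.filter_cons]
    by_cases h1 : x.1 = v
    · have h2 : x.1 ∉ T := h1 ▸ h
      simp only [h1, List.mem_cons, true_or, decide_true, if_true, List.length_cons, h,
        decide_false, Bool.false_eq_true, if_false]
      simp only [List.mem_cons] at ih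
      rw [ih]
      simp only [List.mem_nil_iff, List.not_mem_nil]
      omega
    · by_cases h2 : x.1 ∈ T
      · simp only [h1, h2, List.mem_cons, or_true, decide_true, if_true, List.length_cons,
          List.not_mem_nil, or_false, decide_false, Bool.false_eq_true, if_false]
        simp only [List.mem_cons, List.not_mem_nil, or_false] at ih
        rw [ih]
        omega
      · simp only [h1, h2, List.mem_cons, List.not_mem_nil, or_false, decide_false,
          Bool.false_eq_true, if_false]
        simp only [List.mem_cons, List.not_mem_nil, or_false] at ih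
        rw [ih]

/-- weights are sums of the degrees -/
lemma wL_sum (E : AS) {A : VS} (hA : A.Nodup) : wL E A = (A.map fun v => wL E [v]).sum := by
  induction A with
  | nil => simp [wL]
  | cons v A ih =>
    rw [List.nodup_cons] at hA
    rw [wL_cons E hA.1, ih hA.2]
    simp

lemma wL_mono (E : AS) {A B : VS} (h : ∀ v ∈ A, v ∈ B) : wL E A ≤ wL E B := by
  unfold wL
  rw [← List.countP_eq_length_filter, ← List.countP_eq_length_filter]
  refine List.countP_mono_left fun x _ hx => ?_
  simp only [decide_eq_true_eq] at hx ⊢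
  exact h _ hx

/-- the test `vio` says that the set is a violation -/
lemma vio_iff {E : AS} (hE : E.Nodup) (K : ℕ) {P A : VS} (hP : P.Nodup) (hA : A.Nodup) :
    vio K E P A = true ↔ A ≠ [] ∧ 2 * nu K E.toFinset A.toFinset ≤ nu K E.toFinset P.toFinset ∧
      K * bb E.toFinset A.toFinset < nu K E.toFinset A.toFinset := by
  unfold vio
  rw [nL_eq hE K hA, nL_eq hE K hP, bL_eq hE]
  simp [and_assoc]

/-- disjointness of the parts of a list with duplicate free union -/
lemma pairwise_of_flatten {L : List VS} (h : L.flatten.Nodup) :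
    (L.map List.toFinset).Pairwise fun a b => Disjoint a b := by
  rw [List.nodup_flatten] at h
  rw [List.pairwise_map]
  refine h.2.imp fun {a b} hab => ?_
  rw [Finset.disjoint_left]
  intro x hx hy
  exact hab (List.mem_toFinset.1 hx) (List.mem_toFinset.1 hy)

lemma mem_map_toFinset {L : List VS} {v : ℕ} :
    v ∈ L.flatten ↔ ∃ A ∈ L.map List.toFinset, v ∈ A := by
  simp

end Pool.Agent.H24S
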