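import Pool.Agent.Lib.H24S.B1

/-!
# H24S chunk C1: connected sets

`Cn E P`: every `S` splitting `P` has an arc of `E` from `P ∩ S` to `P \ S`. `E` is symmetric.
* `cn_singleton`: nothing splits a singleton.
* `cn_union`: `A`, `B` connected, an arc from `A` to `B` (or `A ∩ B` nonempty): let `S` split `A ∪ B`. If `S`
  splits `A` or `B`, done. Otherwise one of them is inside `S` and the other disjoint from it; use the
  arc or its reverse.
* `cn_leaves`: `F` connected and nonempty, `F ⊆ T`, every `t ∈ T \ F` has an arc from some `f ∈ F`: if `S`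
  splits `F`, done. Otherwise `F` is on one side (say inside `S`), some `t ∈ T` is on the other side; it is
  not in `F`, and the arc `(f, t)` or its reverse does it.
* `cn_insert`: special case.
-/

set_option autoImplicit false

namespace Pool.Agent.H24S

variable {V : Type*} [DecidableEq V] {E : Finset (V × V)}

lemma cn_singleton (v : V) : Cn E {v} := by
  intro S h1 h2
  exfalso
  obtain ⟨x, hx⟩ := h1
  obtain ⟨y, hy⟩ := h2
  simp only [Finset.mem_inter, Finset.mem_singleton, Finset.mem_sdiff] at hx hy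
  exact hy.2 (hy.1 ▸ hx.1 ▸ hx.2)

lemma cn_union (hE : ∀ x ∈ E, x.swap ∈ E) {A B : Finset V} (hA : Cn E A) (hB : Cn E B)
    {a b : V} (ha : a ∈ A) (hb : b ∈ B) (hab : (a, b) ∈ E) : Cn E (A ∪ B) := by
  intro S h1 h2
  by_cases hsA : (A ∩ S).Nonempty ∧ (A \ S).Nonempty
  · obtain ⟨x, hx, h3, h4⟩ := hA S hsA.1 hsA.2
    refine ⟨x, hx, ?_, ?_⟩
    · simp only [Finset.mem_inter, Finset.mem_union] at h3 ⊢
      exact ⟨Or.inl h3.1, h3.2⟩
    · simp only [Finset.mem_sdiff, Finset.mem_union] at h4 ⊢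
      exact ⟨Or.inl h4.1, h4.2⟩
  by_cases hsB : (B ∩ S).Nonempty ∧ (B \ S).Nonempty
  · obtain ⟨x, hx, h3, h4⟩ := hB S hsB.1 hsB.2
    refine ⟨x, hx, ?_, ?_⟩
    · simp only [Finset.mem_inter, Finset.mem_union] at h3 ⊢
      exact ⟨Or.inr h3.1, h3.2⟩
    · simp only [Finset.mem_sdiff, Finset.mem_union] at h4 ⊢
      exact ⟨Or.inr h4.1, h4.2⟩
  have cA : ∀ {x y}, x ∈ A → y ∈ A → x ∈ S → y ∈ S := by
    intro x y hx hy hxS
    by_contra hyS
    exact hsA ⟨⟨x, Finset.mem_inter.2 ⟨hx, hxS⟩⟩, ⟨y, Finset.mem_sdiff.2 ⟨hy, hyS⟩⟩⟩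
  have cB : ∀ {x y}, x ∈ B → y ∈ B → x ∈ S → y ∈ S := by
    intro x y hx hy hxS
    by_contra hyS
    exact hsB ⟨⟨x, Finset.mem_inter.2 ⟨hx, hxS⟩⟩, ⟨y, Finset.mem_sdiff.2 ⟨hy, hyS⟩⟩⟩
  obtain ⟨p, hp⟩ := h1
  obtain ⟨q, hq⟩ := h2
  simp only [Finset.mem_inter, Finset.mem_union, Finset.mem_sdiff] at hp hq
  by_cases haS : a ∈ S
  · by_cases hbS : b ∈ S
    · exfalso
      rcases hq.1 with h | h
      · exact hq.2 (cA ha h haS)
      · exact hq.2 (cB hb h hbS)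
    · refine ⟨(a, b), hab, ?_, ?_⟩
      · simp only [Finset.mem_inter, Finset.mem_union]
        exact ⟨Or.inl ha, haS⟩
      · simp only [Finset.mem_sdiff, Finset.mem_union]
        exact ⟨Or.inr hb, hbS⟩
  · by_cases hbS : b ∈ S
    · refine ⟨(b, a), hE _ hab, ?_, ?_⟩
      · simp only [Finset.mem_inter, Finset.mem_union]
        exact ⟨Or.inr hb, hbS⟩
      · simp only [Finset.mem_sdiff, Finset.mem_union]
        exact ⟨Or.inl ha, haS⟩
    · exfalso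
      rcases hp.1 with h | h
      · exact haS (cA h ha hp.2)
      · exact hbS (cB h hb hp.2)

lemma cn_leaves (hE : ∀ x ∈ E, x.swap ∈ E) {F T : Finset V} (hF : Cn E F) (hne : F.Nonempty)
    (hFT : F ⊆ T) (hT : ∀ t ∈ T, t ∉ F → ∃ f ∈ F, (f, t) ∈ E) : Cn E T := by
  intro S h1 h2
  by_cases hs : (F ∩ S).Nonempty ∧ (F \ S).Nonempty
  · obtain ⟨x, hx, h3, h4⟩ := hF S hs.1 hs.2
    exact ⟨x, hx, Finset.inter_subset_inter_right hFT h3, Finset.sdiff_subset_sdiff hFT subset_rfl h4⟩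
  have c : ∀ {x y}, x ∈ F → y ∈ F → x ∈ S → y ∈ S := by
    intro x y hx hy hxS
    by_contra hyS
    exact hs ⟨⟨x, Finset.mem_inter.2 ⟨hx, hxS⟩⟩, ⟨y, Finset.mem_sdiff.2 ⟨hy, hyS⟩⟩⟩
  obtain ⟨f0, hf0⟩ := hne
  by_cases h0 : f0 ∈ S
  · obtain ⟨t, ht⟩ := h2
    rw [Finset.mem_sdiff] at ht
    have htF : t ∉ F := fun h => ht.2 (c hf0 h h0)
    obtain ⟨f, hf, hft⟩ := hT t ht.1 htF
    exact ⟨(f, t), hft, Finset.mem_inter.2 ⟨hFT hf, c hf0 hf h0⟩, Finset.mem_sdiff.2 ht⟩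
  · obtain ⟨t, ht⟩ := h1
    rw [Finset.mem_inter] at ht
    have htF : t ∉ F := fun h => h0 (c h hf0 ht.2)
    obtain ⟨f, hf, hft⟩ := hT t ht.1 htF
    exact ⟨(t, f), hE _ hft, Finset.mem_inter.2 ht,
      Finset.mem_sdiff.2 ⟨hFT hf, fun h => h0 (c hf hf0 h)⟩⟩

lemma cn_insert (hE : ∀ x ∈ E, x.swap ∈ E) {F : Finset V} (hF : Cn E F) {f v : V} (hf : f ∈ F)
    (hv : (f, v) ∈ E) : Cn E (insert v F) := by
  refine cn_leaves hE hF ⟨f, hf⟩ (Finset.subset_insert _ _) fun t ht htF => ?_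
  rcases Finset.mem_insert.1 ht with rfl | h
  · exact ⟨f, hf, hv⟩
  · exact absurd h htF

/-- depends only on the arcs inside `P` -/
lemma cn_congr {E' : Finset (V × V)} {P : Finset V}
    (h : ∀ x, x.1 ∈ P → x.2 ∈ P → (x ∈ E ↔ x ∈ E')) : Cn E P ↔ Cn E' P := by
  constructor
  · intro hc S h1 h2
    obtain ⟨x, hx, h3, h4⟩ := hc S h1 h2
    exact ⟨x, (h x (Finset.mem_inter.1 h3).1 (Finset.mem_sdiff.1 h4).1).1 hx, h3, h4⟩
  · intro hc S h1 h2
    obtain ⟨x, hx, h3, h4⟩ := hc S h1 h2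
    exact ⟨x, (h x (Finset.mem_inter.1 h3).1 (Finset.mem_sdiff.1 h4).1).2 hx, h3, h4⟩

lemma tree_congr {E' : Finset (V × V)} {P : Finset V} {T : List (V × V)}
    (h : ∀ x, x.1 ∈ P → x.2 ∈ P → (x ∈ E ↔ x ∈ E')) : Tree E P T ↔ Tree E' P T := by
  constructor
  · intro hc
    exact ⟨fun t ht => ⟨(h t (hc.sub t ht).2.1 (hc.sub t ht).2.2).1 (hc.sub t ht).1,
      (hc.sub t ht).2⟩, hc.len, hc.conn⟩
  · intro hc
    exact ⟨fun t ht => ⟨(h t (hc.sub t ht).2.1 (hc.sub t ht).2.2).2 (hc.sub t ht).1,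
      (hc.sub t ht).2⟩, hc.len, hc.conn⟩

lemma cong_congr {E' : Finset (V × V)} {P : Finset V} {T : List (V × V)} {K X : ℕ}
    (h : ∀ x, x.1 ∈ P → x.2 ∈ P → (x ∈ E ↔ x ∈ E')) : Cong E P T K X ↔ Cong E' P T K X := by
  have key : ∀ S : Finset V, ee E (P ∩ S) (P \ S) = ee E' (P ∩ S) (P \ S) := by
    intro S
    unfold ee
    congr 1
    ext x
    simp only [Finset.mem_filter, Finset.mem_inter, Finset.mem_sdiff]
    constructor
    · rintro ⟨h1, h2, h3⟩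
      exact ⟨(h x h2.1 h3.1).1 h1, h2, h3⟩
    · rintro ⟨h1, h2, h3⟩
      exact ⟨(h x h2.1 h3.1).2 h1, h2, h3⟩
  unfold Cong
  simp only [key]

/-- a connected set smaller than a connected set is joined to the rest -/
lemma cn_exists_arc {P S : Finset V} (hP : Cn E P) (h1 : (P ∩ S).Nonempty) (h2 : (P \ S).Nonempty) :
    0 < ee E (P ∩ S) (P \ S) := by
  obtain ⟨x, hx, h3, h4⟩ := hP S h1 h2
  unfold ee
  rw [Finset.card_pos]
  exact ⟨x, Finset.mem_filter.2 ⟨hx, h3, h4⟩⟩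

end Pool.Agent.H24S
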