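import Mathlib
import Pool.Agent.Lib.PolyTime.Final
import Pool.Agent.Lib.PolyTime.More
import Pool.Agent.Lib.PolyTime.Lists
import Pool.Agent.Lib.PolyTime.Eq
import Pool.Agent.Lib.PolyTime.Nat

/-!
# H24S (MP_00a0c1_lc): spanning trees of congestion O(sqrt(mn)) in polynomial time: definitions

See `PROOF.md` in this directory. First part: counts of arcs in finite graphs, trees as lists of
arcs, congestion. Second part: the algorithm, as functions on lists of natural numbers.
-/

set_option autoImplicit false

namespace Pool.Agent.H24S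

open Pool.Agent.PolyTime

/-! ## Graphs as finite sets of arcs -/

section math

variable {V : Type*} [DecidableEq V]

/-- number of arcs from `A` to `B` -/
def ee (E : Finset (V × V)) (A B : Finset V) : ℕ := (E.filter fun x => x.1 ∈ A ∧ x.2 ∈ B).card

/-- weight of `A`: sum of the degrees -/
def ww (E : Finset (V × V)) (A : Finset V) : ℕ := (E.filter fun x => x.1 ∈ A).card

/-- boundary of `A` -/
def bb (E : Finset (V × V)) (A : Finset V) : ℕ := (E.filter fun x => x.1 ∈ A ∧ x.2 ∉ A).card

/-- `K` times the measure `nu` of the paper proof, with `alpha = 16` -/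
def nu (K : ℕ) (E : Finset (V × V)) (A : Finset V) : ℕ := 16 * (K * K * A.card + ww E A)

/-- number of arcs between different parts -/
def xe (E : Finset (V × V)) (L : List (Finset V)) : ℕ :=
  (E.filter fun x => ∃ A ∈ L, ∃ B ∈ L, A ≠ B ∧ x.1 ∈ A ∧ x.2 ∈ B).card

/-- a simple graph with vertex set `P` as a set of arcs (both orientations of each edge) -/
structure Gr (E : Finset (V × V)) (P : Finset V) : Prop where
  symm : ∀ x ∈ E, x.swap ∈ E
  irr : ∀ x ∈ E, x.1 ≠ x.2
  inP : ∀ x ∈ E, x.1 ∈ P

/-- the set `P` is connected -/
def Cn (E : Finset (V × V)) (P : Finset V) : Prop :=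
  ∀ S : Finset V, (P ∩ S).Nonempty → (P \ S).Nonempty → ∃ x ∈ E, x.1 ∈ P ∩ S ∧ x.2 ∈ P \ S

/-- the arc `t` crosses the cut `S` -/
def Crs (S : Finset V) (t : V × V) : Prop := ¬ (t.1 ∈ S ↔ t.2 ∈ S)

/-- at most one edge of `T` crosses `S`, namely `t0` -/
def Only (T : List (V × V)) (S : Finset V) (t0 : V × V) : Prop :=
  ∀ t ∈ T, Crs S t → t = t0 ∨ t = t0.swap

/-- `T` (one arc for each edge) is a spanning tree of the graph induced on `P` -/
structure Tree (E : Finset (V × V)) (P : Finset V) (T : List (V × V)) : Prop where
  sub : ∀ t ∈ T, t ∈ E ∧ t.1 ∈ P ∧ t.2 ∈ P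
  len : T.length + 1 = P.card
  conn : ∀ S : Finset V, (P ∩ S).Nonempty → (P \ S).Nonempty → ∃ t ∈ T, Crs S t

/-- `K` times the congestion of `T` inside `P` is at most `X` -/
def Cong (E : Finset (V × V)) (P : Finset V) (T : List (V × V)) (K X : ℕ) : Prop :=
  ∀ (t0 : V × V) (S : Finset V), Only T S t0 → K * ee E (P ∩ S) (P \ S) ≤ X

/-- the fundamental cuts of the tree `T` of `D` have at most `X` edges to the rest of `M` -/
def SC (E : Finset (V × V)) (M D : Finset V) (T : List (V × V)) (X : ℕ) : Prop :=
  ∀ (t0 : V × V) (S : Finset V), Only T S t0 → ee E (D ∩ S) (M \ (D ∩ S)) ≤ X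

/-- `T` is a spanning tree of the quotient by the parts in the list `L` -/
structure QT (E : Finset (V × V)) (L : List (Finset V)) (T : List (V × V)) : Prop where
  sub : ∀ t ∈ T, t ∈ E ∧ (∃ A ∈ L, t.1 ∈ A) ∧ (∃ B ∈ L, t.2 ∈ B)
  len : T.length + 1 = L.length
  conn : ∀ S : Finset V, (∀ A ∈ L, A ⊆ S ∨ Disjoint A S) → (∃ A ∈ L, A.Nonempty ∧ A ⊆ S) →
    (∃ B ∈ L, B.Nonempty ∧ Disjoint B S) → ∃ t ∈ T, Crs S t

/-- the bound of the induction (times `K`) for the part `Q` -/
def Bd (n K : ℕ) (E : Finset (V × V)) (Q : Finset V) : ℕ :=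
  150 * K * (n * K) + 3 * nu K (E.filter fun x => x.1 ∈ Q ∧ x.2 ∈ Q) Q

end math

/-! ## The algorithm -/

/-- vertex sets -/
abbrev VS := List ℕ
/-- arc sets -/
abbrev AS := List (ℕ × ℕ)

/-- number of arcs from `A` to `B` -/
def eL (E : AS) (A B : VS) : ℕ := (E.filter fun x => decide (x.1 ∈ A) && decide (x.2 ∈ B)).length
/-- weight -/
def wL (E : AS) (A : VS) : ℕ := (E.filter fun x => decide (x.1 ∈ A)).length
/-- boundary -/
def bL (E : AS) (A : VS) : ℕ := (E.filter fun x => decide (x.1 ∈ A) && !decide (x.2 ∈ A)).length
/-- measure -/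
def nL (K : ℕ) (E : AS) (A : VS) : ℕ := 16 * (K * K * A.length + wL E A)

/-- the set `A` violates the expansion condition -/
def vio (K : ℕ) (E : AS) (P A : VS) : Bool :=
  !A.isEmpty && decide (2 * nL K E A ≤ nL K E P) && decide (K * bL E A < nL K E A)

/-- difference -/
def dif (P A : VS) : VS := P.filter fun v => !decide (v ∈ A)
/-- intersection, in the order of `P` -/
def itr (P A : VS) : VS := P.filter fun v => decide (v ∈ A)

/-! ### Kruskal -/

/-- the arc `x` has an end in `Q` -/
def meets (x : ℕ × ℕ) (Q : VS) : Bool := decide (x.1 ∈ Q) || decide (x.2 ∈ Q)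

/-- one step: merge the two parts joined by `x` -/
def kstep (s : List VS × AS) (x : ℕ × ℕ) : List VS × AS :=
  if (s.1.filter (meets x)).length = 2 then
    ((s.1.filter (meets x)).flatten :: s.1.filter (fun Q => !meets x Q), x :: s.2)
  else s

/-- the connected components of the quotient by the parts `L`, and a spanning forest -/
def kruskal (E : AS) (L : List VS) : List VS × AS := E.foldl kstep (L, [])

/-- singletons -/
def sing (A : VS) : List VS := A.map fun v => [v]
/-- components of `G[A]` -/
def comps (E : AS) (A : VS) : List VS := (kruskal E (sing A)).1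
/-- spanning forest of `G[A]` -/
def spt (E : AS) (A : VS) : AS := (kruskal E (sing A)).2

/-! ### Growth -/

/-- neighbours of `x` in `U` outside `T` -/
def fresh (E : AS) (U T : VS) (x : ℕ) : VS :=
  U.filter fun u => decide ((x, u) ∈ E) && !decide (u ∈ T)

/-- conquer the vertices of `l` one by one until the weight is at least `k5` -/
def conq (E : AS) (k5 : ℕ) (T l : VS) : VS :=
  l.foldl (fun T u => if k5 ≤ wL E T then T else u :: T) T

/-- one growth step, `s = (F, T)` -/
def growStep (K k5 : ℕ) (E : AS) (U : VS) (s : VS × VS) : VS × VS :=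
  if k5 ≤ wL E s.2 then s else
    match (dif s.2 s.1).find? (fun x => decide (wL E [x] ≤ K * (fresh E U s.2 x).length)) with
    | none => s
    | some x => (x :: s.1, conq E k5 s.2 (fresh E U s.2 x))

/-- growth from `v` inside `U` -/
def grow (K k5 : ℕ) (E : AS) (U : VS) (v : ℕ) : VS × VS :=
  (growStep K k5 E U)^[U.length] ([], [v])

/-- one step of the partition of `U` into items; state: rest of `U`, items, new blob -/
def itemStep (K k5 : ℕ) (E : AS) (s : VS × List VS × Option (VS × VS)) :
    VS × List VS × Option (VS × VS) :=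
  match s.2.2 with
  | some _ => s
  | none =>
    match s.1 with
    | [] => s
    | v :: _ =>
      if k5 ≤ wL E (grow K k5 E s.1 v).2 then (s.1, s.2.1, some (grow K k5 E s.1 v))
      else (dif s.1 (grow K k5 E s.1 v).2, (grow K k5 E s.1 v).2 :: s.2.1, none)

/-- partition of `U` into items, or a new blob -/
def growAll (K k5 : ℕ) (E : AS) (U : VS) : VS × List VS × Option (VS × VS) :=
  (itemStep K k5 E)^[U.length] (U, [], none)

/-! ### Auction -/

section auction

variable {α β : Type} [DecidableEq α] [DecidableEq β]

/-- first element of the list minimising `f` -/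
def amin (f : β → ℕ) (l : List β) : Option β :=
  l.foldl (fun o z => match o with
    | none => some z
    | some y => if f z < f y then some z else some y) none

/-- one bid; the state is the list of (object, price, owner) -/
def bid (Ps : List α) (cost : α → β → ℕ) (S : List (β × ℕ × Option α)) :
    List (β × ℕ × Option α) :=
  match Ps.find? (fun a => !(S.any fun z => decide (z.2.2 = some a))) with
  | none => S
  | some a =>
    match amin (fun z : β × ℕ × Option α => z.2.1 + cost a z.1) S with
    | none => S
    | some y => S.map fun z => if z.1 = y.1 then (z.1, z.2.1 + 1, some a) else z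

/-- the auction -/
def auction (Ps : List α) (Os : List β) (cost : α → β → ℕ) (steps : ℕ) :
    List (β × ℕ × Option α) :=
  (bid Ps cost)^[steps] (Os.map fun b => (b, 0, none))

/-- the object of a person -/
def fwd (A : List (β × ℕ × Option α)) (x : α) : Option β :=
  (A.find? fun z => decide (z.2.2 = some x)).map fun z => z.1

/-- the least value of price + cost -/
def qv (cost : α → β → ℕ) (A : List (β × ℕ × Option α)) (x : α) : ℕ :=
  ((amin (fun z : β × ℕ × Option α => z.2.1 + cost x z.1) A).map
    fun z => z.2.1 + cost x z.1).getD 0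

/-- the price of an object -/
def prc (A : List (β × ℕ × Option α)) (y : β) : ℕ :=
  ((A.find? fun z => decide (z.1 = y)).map fun z => z.2.1).getD 0

end auction

/-! ### Legs or cut -/

/-- the core `F` is adjacent to `y` -/
def adjS (E : AS) (F : VS) (y : ℕ) : Bool := F.any fun f => decide ((f, y) ∈ E)

/-- the factor `c` -/
def legc (V1 : VS) (J : List VS) : ℕ := V1.length + J.length + 1
/-- the cost of forbidden pairs -/
def legBig (V1 : VS) (J : List VS) (kap : ℕ) : ℕ :=
  legc V1 J * (J.length * (5 * kap + 1) + kap + 1)

/-- the costs of the leg problem; persons and objects are the vertices of `V1` and the heads of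
the cores `J` -/
def legC (E : AS) (V1 : VS) (J : List VS) (r kap : ℕ) (x y : ℕ) : ℕ :=
  if x ∈ V1 then
    if y ∈ V1 then
      if x = y then 0
      else if (x, y) ∈ E then legc V1 J * wL E [x] else legBig V1 J kap
    else if (x, r) ∈ E then legc V1 J * wL E [x] else legBig V1 J kap
  else
    if y ∈ V1 then
      if (J.any fun F => decide (x ∈ F) && adjS E F y) then 0 else legBig V1 J kap
    else legc V1 J * (5 * kap + 1)

/-- persons = objects of the leg problem -/
def legN (V1 : VS) (J : List VS) : VS := V1 ++ J.map fun F => F.headD 0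

/-- the auction of the leg problem -/
def legA (E : AS) (V1 : VS) (J : List VS) (r kap : ℕ) : List (ℕ × ℕ × Option ℕ) :=
  auction (legN V1 J) (legN V1 J) (legC E V1 J r kap)
    ((legN V1 J).length * (legBig V1 J kap + 1))

/-- the value `q` -/
def legQ (E : AS) (V1 : VS) (J : List VS) (r kap : ℕ) (A : List (ℕ × ℕ × Option ℕ)) (x : ℕ) : ℕ :=
  qv (legC E V1 J r kap) A x

/-- the set `W` of level `th` -/
def cutW (E : AS) (V1 : VS) (J : List VS) (r kap : ℕ) (A : List (ℕ × ℕ × Option ℕ)) (th : ℕ) :
    VS :=
  V1.filter fun v => decide (th + legc V1 J * wL E [v] < legQ E V1 J r kap A v)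

/-- the set `X` of level `th` -/
def cutX (E : AS) (V1 : VS) (J : List VS) (r kap : ℕ) (A : List (ℕ × ℕ × Option ℕ)) (th : ℕ) :
    VS :=
  V1.filter fun v => decide (legQ E V1 J r kap A v ≤ th + legc V1 J * wL E [v]) &&
    decide (th < prc A v)

/-- is this a good cut? -/
def cutOK (K : ℕ) (E : AS) (V1 : VS) (r : ℕ) (F W X : VS) : Bool :=
  decide (X.length < K) &&
  (V1.all fun u => !(adjS E F u || adjS E W u) || decide (u ∈ W) || decide (u ∈ X)) &&
  !adjS E W r

/-- candidate levels -/
def cutTh (E : AS) (V1 : VS) (J : List VS) (r kap : ℕ) (A : List (ℕ × ℕ × Option ℕ)) : List ℕ :=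
  (A.map fun z => z.2.1) ++ V1.map fun v => legQ E V1 J r kap A v - legc V1 J * wL E [v]

/-- a cut `(F, W, X)` if there is one -/
def findCut (K : ℕ) (E : AS) (V1 : VS) (J : List VS) (r kap : ℕ)
    (A : List (ℕ × ℕ × Option ℕ)) : Option (VS × VS × VS) :=
  ((J ×ˢ cutTh E V1 J r kap A).map fun x =>
    (x.1, cutW E V1 J r kap A x.2, cutX E V1 J r kap A x.2)).find? fun y =>
      cutOK K E V1 r y.1 y.2.1 y.2.2

/-- one step along a leg -/
def legStep (V1 : VS) (A : List (ℕ × ℕ × Option ℕ)) (s : ℕ × VS) : ℕ × VS :=
  match fwd A s.1 with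
  | none => s
  | some y => if y ∈ V1 then (y, y :: s.2) else s

/-- the leg of the core with head `x` -/
def legOf (V1 : VS) (A : List (ℕ × ℕ × Option ℕ)) (x : ℕ) : VS :=
  ((legStep V1 A)^[V1.length] (x, [])).2

/-! ### The main loop -/

/-- state: cut off set, blobs (core, tree), root -/
abbrev St := VS × List (VS × VS) × ℕ
/-- result: state, violating set, or (branches, items) -/
abbrev Out := St × Option VS × Option (List VS × List VS)

/-- the set `V0` of the vertices that are neither cut off nor in a core -/
def vFree (P : VS) (s : St) : VS :=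
  P.filter fun v => !decide (v ∈ s.1) && !(s.2.1.any fun b => decide (v ∈ b.1))

/-- `V1` -/
def vOne (P : VS) (s : St) : VS := (vFree P s).filter fun v => !decide (v = s.2.2)

/-- the cores that are not adjacent to the root -/
def farJ (E : AS) (s : St) : List VS := (s.2.1.map fun b => b.1).filter fun F => !adjS E F s.2.2

/-- move the set `S` to the cut off set -/
def moveS (P S : VS) (bl : List (VS × VS)) (s : St) (r : ℕ) : St :=
  (P.filter fun v => decide (v ∈ S) || decide (v ∈ s.1), bl.map fun b => (b.1, dif b.2 S), r)

/-- tests of `S` and of the new cut off set -/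
def tryMove (K : ℕ) (E : AS) (P S : VS) (bl : List (VS × VS)) (s : St) (r : ℕ) : Out :=
  if vio K E P S then (s, some S, none)
  else if vio K E P (moveS P S bl s r).1 then (s, some (moveS P S bl s r).1, none)
  else (moveS P S bl s r, none, none)

/-- use the cut `(F, W, X)` -/
def cutStep (K : ℕ) (E : AS) (P : VS) (s : St) (F W X : VS) : Out :=
  if 2 * nL K E (itr P (F ++ W)) ≤ nL K E P then
    tryMove K E P (itr P (F ++ W)) (s.2.1.filter fun b => !decide (b.1 = F)) s s.2.2
  else tryMove K E P (dif (vFree P s) (W ++ X)) s.2.1 s (W.headD 0)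

/-- blobs with legs -/
def withLegs (E : AS) (V1 : VS) (A : List (ℕ × ℕ × Option ℕ)) (s : St) : List (VS × VS × VS) :=
  s.2.1.map fun b => (b.1, b.2, bif adjS E b.1 s.2.2 then [] else legOf V1 A (b.1.headD 0))

/-- union of the legs -/
def legsU (bl : List (VS × VS × VS)) : VS := bl.flatMap fun b => b.2.2

/-- the branches -/
def branches (bl : List (VS × VS × VS)) (r : ℕ) : List VS :=
  bl.map fun b => b.2.2 ++ b.2.1.filter fun v => !decide (v ∈ legsU bl) && !decide (v = r)

/-- the set in which items are grown -/
def growU (P : VS) (s : St) (bl : List (VS × VS × VS)) : VS :=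
  (vOne P s).filter fun v => !(s.2.1.any fun b => decide (v ∈ b.2)) && !decide (v ∈ legsU bl)

/-- growth phase, given the blobs with their legs -/
def growPhase (K k5 : ℕ) (E : AS) (P : VS) (s : St) (bl : List (VS × VS × VS)) : Out :=
  match (growAll K k5 E (growU P s bl)).2.2 with
  | some b => ((s.1, b :: s.2.1, s.2.2), none, none)
  | none => (s, none, some (branches bl s.2.2, (growAll K k5 E (growU P s bl)).2.1))

/-- one round of the main loop, given the auction -/
def roundA (n K : ℕ) (E : AS) (P : VS) (s : St) (A : List (ℕ × ℕ × Option ℕ)) : Out :=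
  match findCut K E (vOne P s) (farJ E s) s.2.2 (n * K) A with
  | some c => cutStep K E P s c.1 c.2.1 c.2.2
  | none => growPhase K (5 * (n * K)) E P s (withLegs E (vOne P s) A s)

/-- one round of the main loop -/
def mainStep (n K : ℕ) (E : AS) (P : VS) (o : Out) : Out :=
  if o.2.1.isSome || o.2.2.isSome then o
  else roundA n K E P o.1 (legA E (vOne P o.1) (farJ E o.1) o.1.2.2 (n * K))

/-- the main loop -/
def mainLoop (n K : ℕ) (E : AS) (P : VS) : Out :=
  (mainStep n K E P)^[P.length + K + 1] (([], [], P.headD 0), none, none)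

/-! ### The final assembly -/

/-- the largest power of two that is at most `b` (for `b > 0`) -/
def pw (b : ℕ) : ℕ := val ((b.bits.tail.map fun _ => false) ++ [true])

/-- accepted items -/
def accB (E : AS) (M0 Q : VS) : Bool := decide (bL E Q ≤ 4 * eL E Q M0)

/-- capacity of the branch `br` for the class `p` -/
def cap (E : AS) (acc : List VS) (br : VS) (p : ℕ) : ℕ :=
  4 * eL E (acc.filter fun Q => decide (pw (bL E Q) = p)).flatten br / p + 1

/-- the slots: class, index of the branch, number -/
def slots (E : AS) (k5 : ℕ) (acc brs : List VS) : List (ℕ × ℕ × ℕ) :=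
  ((List.range (k5 + 1)).filter fun p => acc.any fun Q => decide (pw (bL E Q) = p)).flatMap
    fun p => brs.zipIdx.flatMap fun bi =>
      (List.range (cap E acc bi.1 p)).map fun t => (p, bi.2, t)

/-- costs of the assignment of the items -/
def asgC (E : AS) (acc brs : List VS) (Q : VS) (o : ℕ × ℕ × ℕ) : ℕ :=
  if pw (bL E Q) = o.1 ∧ 0 < eL E Q ((brs[o.2.1]?).getD []) then 0 else acc.length + 1

/-- assignment of the items -/
def asg (E : AS) (k5 : ℕ) (acc brs : List VS) : List ((ℕ × ℕ × ℕ) × ℕ × Option VS) :=
  auction acc (slots E k5 acc brs) (asgC E acc brs) (acc.length * (acc.length + 2))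

/-- the items hung on the branch number `i` -/
def hung (acc : List VS) (A : List ((ℕ × ℕ × ℕ) × ℕ × Option VS)) (i : ℕ) : List VS :=
  acc.filter fun Q => A.any fun z => decide (z.2.2 = some Q) && decide (z.1.2.1 = i)

/-- a spanning tree of the union of the parts `L` that is a tree on every part -/
def joinT (E : AS) (L : List VS) : AS := (kruskal E L).2 ++ L.flatMap fun Q => spt E Q

/-- one arc from `D` to `r` -/
def hook (E : AS) (D : VS) (r : ℕ) : AS :=
  (E.filter fun x => decide (x.1 ∈ D) && decide (x.2 = r)).take 1

/-- the branches with their items, and the items at the root, with spanning trees -/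
def dList (E : AS) (k5 : ℕ) (brs acc rit : List VS) : List (VS × AS) :=
  (brs.zipIdx.map fun bi => ((bi.1 :: hung acc (asg E k5 acc brs) bi.2).flatten,
    joinT E (bi.1 :: hung acc (asg E k5 acc brs) bi.2))) ++ rit.map fun Q => (Q, spt E Q)

/-- items adjacent to the root -/
def rootI (E : AS) (r : ℕ) (its : List VS) : List VS := its.filter fun Q => adjS E Q r
/-- accepted items that are not adjacent to the root -/
def accI (E : AS) (r : ℕ) (brs its : List VS) : List VS :=
  its.filter fun Q => !adjS E Q r && accB E (r :: brs.flatten) Q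
/-- items that are not accepted -/
def unaI (E : AS) (r : ℕ) (brs its : List VS) : List VS :=
  its.filter fun Q => !adjS E Q r && !accB E (r :: brs.flatten) Q

/-- vertex set of the main part -/
def mainV (r : ℕ) (Ds : List (VS × AS)) : VS := r :: Ds.flatMap fun D => D.1
/-- spanning tree of the main part -/
def mainT (E : AS) (r : ℕ) (Ds : List (VS × AS)) : AS :=
  Ds.flatMap fun D => hook E D.1 r ++ D.2

/-- the parts at the end -/
def finParts (E : AS) (A : VS) (r : ℕ) (Ds : List (VS × AS)) (una : List VS) : List VS :=
  mainV r Ds :: (una ++ comps E A)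

/-- the output of the last phase, given the list `Ds` -/
def finishD (E : AS) (A : VS) (r : ℕ) (Ds : List (VS × AS)) (una : List VS) : List VS × AS :=
  (comps E A, (kruskal E (finParts E A r Ds una)).2 ++
    (mainT E r Ds ++ una.flatMap fun Q => spt E Q))

/-- the output of the last phase -/
def finish (k5 : ℕ) (E : AS) (A : VS) (r : ℕ) (brs its : List VS) : List VS × AS :=
  finishD E A r (dList E k5 brs (accI E r brs its) (rootI E r its)) (unaI E r brs its)

/-- split along the violating set `A` -/
def split (E : AS) (P A : VS) : List VS × AS :=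
  (comps E (itr P A) ++ comps E (dif P A), (kruskal E (comps E (itr P A) ++ comps E (dif P A))).2)

/-- arcs inside `P` -/
def inside (E : AS) (P : VS) : AS := E.filter fun x => decide (x.1 ∈ P) && decide (x.2 ∈ P)

/-- treat the result of the main loop -/
def useOut (n K : ℕ) (E : AS) (P : VS) (o : Out) : List VS × AS :=
  match o.2.1 with
  | some A => split E P A
  | none => match o.2.2 with
    | some x => finish (5 * (n * K)) E o.1.1 o.1.2.2 x.1 x.2
    | none => ([], spt E P)

/-- one step of the recursion, on the graph with vertex set `P` and arcs `E` -/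
def stepE (n K : ℕ) (E : AS) (P : VS) : List VS × AS :=
  if wL E P ≤ n * K then ([], spt E P)
  else match P.find? fun v => vio K E P [v] with
    | some v => split E P [v]
    | none => useOut n K E P (mainLoop n K E P)

/-- discard the pending parts if they are not nonempty subsets of `P` of total size at most `|P|` (this
never happens for a graph) -/
def guardP (P : VS) (out : List VS × AS) : List VS × AS :=
  if (decide (out.1.flatten.length ≤ P.length) &&
    out.1.all fun Q => !Q.isEmpty && Q.all fun v => decide (v ∈ P)) = true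
  then out else ([], out.2)

/-- one step of the recursion -/
def stepF (n K : ℕ) (E : AS) (P : VS) : List VS × AS := guardP P (stepE n K (inside E P) P)

/-- one round: all pending parts -/
def roundF (n K : ℕ) (E : AS) (s : List VS × AS) : List VS × AS :=
  (s.1.flatMap fun P => (stepF n K E P).1, (s.1.flatMap fun P => (stepF n K E P).2) ++ s.2)

/-- the whole recursion -/
def solve (n K : ℕ) (E : AS) : AS := ((roundF n K E)^[n] ([List.range n], [])).2

/-! ### Input and output -/

/-- number of vertices -/
def parseN (l : List Bool) : ℕ :=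
  ((List.range (l.length + 1)).find? fun k => decide (k * k = l.length)).getD 0

/-- arcs -/
def parseE (n : ℕ) (l : List Bool) : AS :=
  ((List.range n) ×ˢ (List.range n)).filter fun x => (l[x.1 * n + x.2]?).getD false

/-- least `K` with `m ≤ n K^2` -/
def getK (n : ℕ) (E : AS) : ℕ :=
  ((List.range (n + 1)).find? fun k => decide (E.length ≤ 2 * (n * (k * k)))).getD 0

/-- the tree -/
def theTree (n : ℕ) (E : AS) : AS :=
  if getK n E < 8 then spt E (List.range n) else solve n (getK n E) E

/-- output: adjacency matrix -/
def outBits (n : ℕ) (T : AS) : List Bool :=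
  ((List.range n) ×ˢ (List.range n)).map fun x => decide (x ∈ T) || decide (x.swap ∈ T)

/-- the whole algorithm on strings -/
def algo (l : List Bool) : List Bool :=
  outBits (parseN l) (theTree (parseN l) (parseE (parseN l) l))

end Pool.Agent.H24S
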