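import Pool.Agent.Lib.H24S.I1
import Pool.Agent.Lib.H24S.B3

/-!
# H24S: properties of the states of the algorithm (definitions only)
-/

set_option autoImplicit false

namespace Pool.Agent.H24S

/-- the graph in the main case, as lists -/
structure CtxL (n K : ℕ) (E : AS) (P : VS) : Prop where
  nE : E.Nodup
  nP : P.Nodup
  ctx : Ctx n K E.toFinset P.toFinset

/-- blobs as finite sets -/
def fin2 (bl : List (VS × VS)) : List (Finset ℕ × Finset ℕ) :=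
  bl.map fun b => (b.1.toFinset, b.2.toFinset)

/-- the invariant for the states of the main loop -/
structure InvL (n K : ℕ) (E : AS) (P : VS) (s : St) (Ne Nc SF : ℕ) : Prop where
  nA : s.1.Nodup
  nd : ∀ b ∈ s.2.1, b.1.Nodup ∧ b.2.Nodup
  inv : Inv n K E.toFinset P.toFinset s.1.toFinset (fin2 s.2.1) s.2.2 Ne Nc SF

/-- a violating set -/
def VioL (K : ℕ) (E : AS) (P Z : VS) : Prop :=
  Z.Nodup ∧ (∀ v ∈ Z, v ∈ P) ∧ vio K E P Z = true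

/-- the situation at the end of the main loop: cut off set `A`, root `r`, branches, items -/
structure FinP (n K : ℕ) (E : AS) (P A : VS) (r : ℕ) (brs its : List VS) : Prop where
  perm : (A ++ r :: (brs.flatten ++ its.flatten)).Perm P
  bcn : ∀ b ∈ brs, b ≠ [] ∧ Cn E.toFinset b.toFinset ∧ adjS E b r = true ∧
    wL E b ≤ 11 * (n * K)
  icn : ∀ Q ∈ its, Q ≠ [] ∧ Cn E.toFinset Q.toFinset ∧ wL E Q ≤ 5 * (n * K)
  ixe : K * xe E.toFinset (its.map List.toFinset) ≤ 2 * wL E P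
  hA : 8 * nL K E A ≤ nL K E P
  hb : 8 * (K * bL E A) ≤ nL K E P

/-- outcome of one round of the main loop from the state `s` -/
def RoundOK (n K : ℕ) (E : AS) (P : VS) (s : St) (Ne : ℕ) (o : Out) : Prop :=
  (∃ Z, o.2.1 = some Z ∧ VioL K E P Z) ∨
  (o.2.1 = none ∧ o.2.2 = none ∧ ∃ Ne' Nc' SF', InvL n K E P o.1 Ne' Nc' SF' ∧
    s.1.length + Ne < o.1.1.length + Ne') ∨
  (o.2.1 = none ∧ ∃ brs its, o.2.2 = some (brs, its) ∧ FinP n K E P o.1.1 o.1.2.2 brs its)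

/-- hypotheses for the legs -/
structure LegH (K kap : ℕ) (E : AS) (V1 : VS) (J : List VS) (r : ℕ) : Prop where
  nE : E.Nodup
  sym : ∀ x ∈ E, x.swap ∈ E
  nV : V1.Nodup
  rV : r ∉ V1
  nJ : J.flatten.Nodup
  neJ : ∀ F ∈ J, F ≠ []
  dJ : ∀ F ∈ J, ∀ v ∈ F, v ∉ V1
  cJ : ∀ F ∈ J, Cn E.toFinset F.toFinset
  deg : ∀ v ∈ V1, 0 < wL E [v]
  w : wL E V1 ≤ 2 * kap * K
  J2 : 2 * J.length ≤ K
  K8 : 8 ≤ K
  k1 : 1 ≤ kap

/-- good legs: `leg x` is the leg of the core with head `x` -/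
structure LegsOK (kap : ℕ) (E : AS) (V1 : VS) (J : List VS) (r : ℕ) (leg : ℕ → VS) : Prop where
  nd : ∀ F ∈ J, (leg (F.headD 0)).Nodup
  sub : ∀ F ∈ J, ∀ v ∈ leg (F.headD 0), v ∈ V1
  cn : ∀ F ∈ J, Cn E.toFinset (F.toFinset ∪ (leg (F.headD 0)).toFinset)
  adj : ∀ F ∈ J, ∃ v ∈ leg (F.headD 0), (v, r) ∈ E
  wt : ∀ F ∈ J, wL E (leg (F.headD 0)) ≤ 5 * kap
  dj : ∀ F ∈ J, ∀ F' ∈ J, F ≠ F' → ∀ v ∈ leg (F.headD 0), v ∉ leg (F'.headD 0)

/-- properties of the cut `(F, W, X)` -/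
structure CutP (K : ℕ) (E : AS) (V1 : VS) (J : List VS) (r : ℕ) (F W X : VS) : Prop where
  mF : F ∈ J
  mW : W.Nodup ∧ ∀ v ∈ W, v ∈ V1
  mX : X.Nodup ∧ ∀ v ∈ X, v ∈ V1
  dis : ∀ v ∈ W, v ∉ X
  len : X.length < K
  nb : ∀ u ∈ V1, (∃ f ∈ F ++ W, (f, u) ∈ E) → u ∈ W ∨ u ∈ X
  rW : ∀ v ∈ W, (v, r) ∉ E

/-- one step of the recursion is correct -/
structure StepOK (n K : ℕ) (E : AS) (P : VS) (out : List VS × AS) : Prop where
  nd : out.1.flatten.Nodup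
  sub : ∀ Q ∈ out.1, Q ≠ [] ∧ (∀ v ∈ Q, v ∈ P) ∧ Q.length < P.length ∧
    Cn E.toFinset Q.toFinset
  tree : ∀ tr : VS → AS, (∀ Q ∈ out.1, Tree E.toFinset Q.toFinset (tr Q) ∧
      Cong E.toFinset Q.toFinset (tr Q) K (Bd n K E.toFinset Q.toFinset)) →
    Tree E.toFinset P.toFinset (out.2 ++ out.1.flatMap tr) ∧
      Cong E.toFinset P.toFinset (out.2 ++ out.1.flatMap tr) K (Bd n K E.toFinset P.toFinset)

end Pool.Agent.H24S
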