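import Pool.Agent.Lib.H24S.D2

/-!
# H24S: hypotheses for the assignment of the items (definitions only)
-/

set_option autoImplicit false

namespace Pool.Agent.H24S

/-- accepted items `acc` (not adjacent to the root) and branches `brs` -/
structure AccH (k5 : ℕ) (E : AS) (acc brs : List VS) : Prop where
  nE : E.Nodup
  sym : ∀ x ∈ E, x.swap ∈ E
  nd : (brs.flatten ++ acc.flatten).Nodup
  ne : ∀ Q ∈ acc, Q ≠ []
  pos : ∀ Q ∈ acc, 0 < bL E Q
  le : ∀ Q ∈ acc, bL E Q ≤ k5
  ac : ∀ Q ∈ acc, bL E Q ≤ 4 * eL E Q brs.flatten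

end Pool.Agent.H24S
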