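import Pool.Agent.Lib.H24S.B2
import Pool.Agent.Lib.H24S.B3

/-!
# H24S chunk F1: powers of two

* `pw_spec`: `pw b = val (replicate (b.bits.length - 1) false ++ [true]) = 2 ^ (b.bits.length - 1)`
  (`val_append`, `val_map_false`), and `2 ^ (len - 1) ≤ b < 2 ^ len` for `b > 0` (`b.bits.length = b.size`,
  `Nat.size_eq_bits_len`, `Nat.lt_size`, `Nat.lt_size_self`).
* `sum_pow_le`: different powers of two, all `≤ X`: their sum is `< 2 max ≤ 2 X`. Proof: `S` is the image of a
  finite set of exponents contained in `range (k+1)` with `2^k ≤ X` the maximal element; the sum of `2^j`,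
  `j ≤ k` is `2^(k+1) - 1` (`Nat.geomSum_eq` or `Finset.sum_range_succ` induction).
-/

set_option autoImplicit false

namespace Pool.Agent.H24S

open Pool.Agent.PolyTime

lemma pw_spec {b : ℕ} (hb : 0 < b) : pw b ≤ b ∧ b < 2 * pw b ∧ ∃ k, pw b = 2 ^ k := by
  have h1 : pw b = 2 ^ b.bits.tail.length := by
    unfold pw
    rw [val_append, val_map_false, List.length_map]
    simp
  have h2 : b.bits.length = b.size := Nat.size_eq_bits_len b
  have h3 : 0 < b.size := Nat.size_pos.2 hb
  have h4 : b.bits.tail.length = b.size - 1 := by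
    rw [List.length_tail, h2]
  rw [h1, h4]
  refine ⟨Nat.lt_size.1 (by omega), ?_, _, rfl⟩
  have h5 := Nat.lt_size_self b
  have h6 : 2 * 2 ^ (b.size - 1) = 2 ^ b.size := by
    rw [← pow_succ']
    congr 1
    omega
  rw [h6]
  exact h5

lemma f1_geom (n : ℕ) : ∑ k ∈ Finset.range n, 2 ^ k + 1 = 2 ^ n := by
  induction n with
  | zero => simp
  | succ n ih =>
    rw [Finset.sum_range_succ, pow_succ]
    omega

lemma sum_pow_le (S : Finset ℕ) (X : ℕ) (hS : ∀ p ∈ S, p ≤ X ∧ ∃ k, p = 2 ^ k) :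
    ∑ p ∈ S, p ≤ 2 * X := by
  rcases S.eq_empty_or_nonempty with rfl | ⟨p0, hp0⟩
  · simp
  have hX : X ≠ 0 := by
    obtain ⟨h1, k, hk⟩ := hS p0 hp0
    have : 0 < 2 ^ k := by positivity
    omega
  have hsub : S ⊆ (Finset.range (Nat.log 2 X + 1)).image (fun k => 2 ^ k) := by
    intro p hp
    obtain ⟨h1, k, hk⟩ := hS p hp
    rw [Finset.mem_image]
    refine ⟨k, ?_, hk.symm⟩
    rw [Finset.mem_range]
    have : k ≤ Nat.log 2 X := (Nat.le_log_iff_pow_le (by norm_num) hX).2 (hk ▸ h1)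
    omega
  calc ∑ p ∈ S, p ≤ ∑ p ∈ (Finset.range (Nat.log 2 X + 1)).image (fun k => 2 ^ k), p :=
        Finset.sum_le_sum_of_subset hsub
    _ = ∑ k ∈ Finset.range (Nat.log 2 X + 1), 2 ^ k :=
        Finset.sum_image fun a _ b _ hab => Nat.pow_right_injective (le_refl 2) hab
    _ ≤ 2 * X := by
        have h1 := f1_geom (Nat.log 2 X + 1)
        have h2 := Nat.pow_log_le_self 2 hX
        rw [pow_succ] at h1
        omega

end Pool.Agent.H24S
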