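import Pool.Agent.Lib.H24S.D3
import Pool.Agent.Lib.H24S.F1

/-!
# H24S chunk F2: Hall's theorem for items and slots

`slots` = triples `(p, i, t)` with `p` a class of some accepted item, `i` the index of a branch `β`,
`t < cap E acc β p`, `cap = 4 e(class p, β) / p + 1`. A slot `(p, i, t)` may be used by the item `Q` if `pw (bL Q) = p` and
`e(Q, β_i) > 0`.
`slots_nodup`, `mem_slots`: direct (`List.zipIdx`, `List.mem_zipIdx_iff_getElem?`).
`hall`: `Finset.all_card_le_biUnion_card_iff_exists_injective` for `ι = {Q // Q ∈ acc}`. Let `S` be a set of items. For a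
class `p` let `S_p = {Q ∈ S : pw (bL Q) = p}` and `I_p` the set of `i` with `e(Q, β_i) > 0` for some `Q ∈ S_p`. The slots
`(p, i, t)`, `i ∈ I_p`, `t < cap β_i p`, are neighbours of `S`, they are different for different `(p, i, t)`, so it is
enough that `|S_p| ≤ ∑_{i ∈ I_p} cap β_i p`. Now (`p > 0`)
`p |S_p| ≤ ∑_{Q ∈ S_p} bL Q ≤ ∑_{Q ∈ S_p} 4 e(Q, brs.flatten) = ∑_i ∑_{Q ∈ S_p} 4 e(Q, β_i)
 = ∑_{i ∈ I_p} 4 ∑_{Q ∈ S_p} e(Q, β_i) ≤ ∑_{i ∈ I_p} 4 e(class p, β_i) ≤ ∑_{i ∈ I_p} p cap β_i p`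
(`x < p (x / p + 1)`, `Nat.lt_mul_div_succ`). Items are disjoint, so `∑_{Q ∈ S_p} e(Q, β) ≤ e((class p).flatten, β)`.
-/

set_option autoImplicit false

namespace Pool.Agent.H24S

lemma mem_slots {E : AS} {k5 : ℕ} {acc brs : List VS} {o : ℕ × ℕ × ℕ} :
    o ∈ slots E k5 acc brs ↔ (o.1 ≤ k5 ∧ ∃ Q ∈ acc, pw (bL E Q) = o.1) ∧
      ∃ br, brs[o.2.1]? = some br ∧ o.2.2 < cap E acc br o.1 := by
  unfold slots
  simp only [List.mem_flatMap, List.mem_filter, List.mem_range, List.any_eq_true, decide_eq_true_eq,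
    List.mem_map, List.mem_zipIdx_iff_getElem?]
  constructor
  · rintro ⟨p, ⟨hp, Q, hQ, hQp⟩, bi, hbi, t, ht, rfl⟩
    exact ⟨⟨by omega, Q, hQ, hQp⟩, bi.1, hbi, ht⟩
  · rintro ⟨⟨hp, Q, hQ, hQp⟩, br, hbr, ht⟩
    exact ⟨o.1, ⟨by omega, Q, hQ, hQp⟩, (br, o.2.1), hbr, o.2.2, ht, rfl⟩

lemma slots_nodup (E : AS) (k5 : ℕ) (acc brs : List VS) : (slots E k5 acc brs).Nodup := by
  unfold slots
  rw [List.nodup_flatMap]
  constructor
  · intro p _
    rw [List.nodup_flatMap]
    constructor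
    · intro bi _
      refine List.Nodup.map ?_ List.nodup_range
      intro t t' h
      exact (Prod.mk.inj (Prod.mk.inj h).2).2
    · have h1 : (brs.zipIdx.map Prod.snd).Nodup := by
        rw [List.zipIdx_map_snd]
        exact List.nodup_range' 1
      have h2 : List.Pairwise (fun a b : VS × ℕ => a.2 ≠ b.2) brs.zipIdx := by
        have := h1
        unfold List.Nodup at this
        rwa [List.pairwise_map] at this
      refine h2.imp ?_
      intro a b hab o ho ho'
      rw [List.mem_map] at ho ho'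
      obtain ⟨t, -, rfl⟩ := ho
      obtain ⟨t', -, h⟩ := ho'
      exact hab (Prod.mk.inj (Prod.mk.inj h).2).1.symm
  · refine (List.nodup_range.filter _).imp ?_
    intro a b hab o ho ho'
    rw [List.mem_flatMap] at ho ho'
    obtain ⟨x, -, hx⟩ := ho
    obtain ⟨x', -, hx'⟩ := ho'
    rw [List.mem_map] at hx hx'
    obtain ⟨t, -, rfl⟩ := hx
    obtain ⟨t', -, h⟩ := hx'
    exact hab (Prod.mk.inj h).1.symm

lemma f2_right {E : Finset (ℕ × ℕ)} (A : Finset ℕ) {ι : Type} [DecidableEq ι] (I : Finset ι)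
    (g : ι → Finset ℕ) (h : ∀ i ∈ I, ∀ j ∈ I, i ≠ j → Disjoint (g i) (g j)) :
    ee E A (I.biUnion g) = ∑ i ∈ I, ee E A (g i) := by
  induction I using Finset.induction_on with
  | empty =>
    rw [Finset.biUnion_empty, ee_empty_right, Finset.sum_empty]
  | insert a I ha ih =>
    rw [Finset.biUnion_insert, Finset.sum_insert ha, ee_union_right, ih]
    · exact fun i hi j hj => h i (Finset.mem_insert_of_mem hi) j (Finset.mem_insert_of_mem hj)
    · rw [Finset.disjoint_biUnion_right]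
      intro i hi
      exact h a (Finset.mem_insert_self a I) i (Finset.mem_insert_of_mem hi)
        (fun he => ha (he ▸ hi))

lemma f2_left {E : Finset (ℕ × ℕ)} (B : Finset ℕ) {ι : Type} [DecidableEq ι] (I : Finset ι)
    (g : ι → Finset ℕ) (h : ∀ i ∈ I, ∀ j ∈ I, i ≠ j → Disjoint (g i) (g j)) :
    ee E (I.biUnion g) B = ∑ i ∈ I, ee E (g i) B := by
  induction I using Finset.induction_on with
  | empty =>
    rw [Finset.biUnion_empty, ee_empty_left, Finset.sum_empty]
  | insert a I ha ih =>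
    rw [Finset.biUnion_insert, Finset.sum_insert ha, ee_union_left, ih]
    · exact fun i hi j hj => h i (Finset.mem_insert_of_mem hi) j (Finset.mem_insert_of_mem hj)
    · rw [Finset.disjoint_biUnion_right]
      intro i hi
      exact h a (Finset.mem_insert_self a I) i (Finset.mem_insert_of_mem hi)
        (fun he => ha (he ▸ hi))

lemma f2_idx (brs : List VS) : brs.flatten.toFinset =
    (Finset.range brs.length).biUnion fun i => ((brs[i]?).getD []).toFinset := by
  ext v
  rw [List.mem_toFinset, Finset.mem_biUnion, List.mem_flatten]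
  constructor
  · rintro ⟨l, hl, hv⟩
    obtain ⟨i, hi, rfl⟩ := List.getElem_of_mem hl
    refine ⟨i, Finset.mem_range.2 hi, ?_⟩
    rw [List.getElem?_eq_getElem hi, Option.getD_some, List.mem_toFinset]
    exact hv
  · rintro ⟨i, hi, hv⟩
    rw [Finset.mem_range] at hi
    rw [List.getElem?_eq_getElem hi, Option.getD_some, List.mem_toFinset] at hv
    exact ⟨_, List.getElem_mem hi, hv⟩

lemma f2_dis {brs : List VS} (h : brs.flatten.Nodup) (i : ℕ) (hi : i ∈ Finset.range brs.length)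
    (j : ℕ) (hj : j ∈ Finset.range brs.length) (hij : i ≠ j) :
    Disjoint ((brs[i]?).getD []).toFinset ((brs[j]?).getD []).toFinset := by
  rw [Finset.mem_range] at hi hj
  rw [List.getElem?_eq_getElem hi, List.getElem?_eq_getElem hj, Option.getD_some, Option.getD_some,
    List.disjoint_toFinset_iff_disjoint]
  have h1 := (List.nodup_flatten.1 h).2
  rw [List.pairwise_iff_getElem] at h1
  rcases lt_or_gt_of_ne hij with h2 | h2
  · exact h1 i j hi hj h2
  · exact (h1 j i hj hi h2).symm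

lemma f2_items {acc : List VS} (h : acc.flatten.Nodup) (Q : VS) (hQ : Q ∈ acc) (Q' : VS)
    (hQ' : Q' ∈ acc) (hne : Q ≠ Q') : Disjoint Q.toFinset Q'.toFinset := by
  rw [List.disjoint_toFinset_iff_disjoint]
  have hs : Std.Symm (List.Disjoint : VS → VS → Prop) := ⟨fun a b hab => List.Disjoint.symm hab⟩
  exact (List.nodup_flatten.1 h).2.forall hQ hQ' hne

/-- admissible slots -/
def f2_t (k5 : ℕ) (E : AS) (acc brs : List VS) (Q : {Q // Q ∈ acc}) : Finset (ℕ × ℕ × ℕ) :=
  (slots E k5 acc brs).toFinset.filter fun o => asgC E acc brs Q.1 o = 0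

lemma f2_mem {k5 : ℕ} {E : AS} {acc brs : List VS} {Q : {Q // Q ∈ acc}} {o : ℕ × ℕ × ℕ} :
    o ∈ f2_t k5 E acc brs Q ↔ o ∈ slots E k5 acc brs ∧ pw (bL E Q.1) = o.1 ∧
      0 < eL E Q.1 ((brs[o.2.1]?).getD []) := by
  unfold f2_t
  rw [Finset.mem_filter, List.mem_toFinset]
  refine and_congr_right fun _ => ?_
  unfold asgC
  split_ifs with h
  · exact ⟨fun _ => h, fun _ => rfl⟩
  · exact ⟨fun h' => absurd h' (by simp), fun h' => absurd h' h⟩

/-- the items of one class -/
lemma f2_class {k5 : ℕ} {E : AS} {acc brs : List VS} (h : AccH k5 E acc brs) (p : ℕ)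
    (S : Finset {Q // Q ∈ acc}) (hS : ∀ Q ∈ S, pw (bL E Q.1) = p) :
    S.card ≤ (S.biUnion (f2_t k5 E acc brs)).card := by
  classical
  rcases S.eq_empty_or_nonempty with rfl | ⟨Q0, hQ0⟩
  · simp
  have hnd := List.nodup_append.1 h.nd
  have hp0 : 0 < p := by
    have h1 := pw_spec (h.pos Q0.1 Q0.2)
    have h2 := h.pos Q0.1 Q0.2
    rw [hS Q0 hQ0] at h1
    omega
  have hpk : p ≤ k5 := by
    have h1 := pw_spec (h.pos Q0.1 Q0.2)
    have h2 := h.le Q0.1 Q0.2
    rw [hS Q0 hQ0] at h1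
    omega
  obtain ⟨br, hbr⟩ : ∃ br : ℕ → VS, br = fun i => (brs[i]?).getD [] := ⟨_, rfl⟩
  obtain ⟨I, hI⟩ : ∃ I : Finset ℕ, I = (Finset.range brs.length).filter fun i =>
      ∃ Q ∈ S, 0 < eL E Q.1 (br i) := ⟨_, rfl⟩
  -- the slots
  have h1 : ∑ i ∈ I, cap E acc (br i) p ≤ (S.biUnion (f2_t k5 E acc brs)).card := by
    have h2 : (I.sigma fun i => Finset.range (cap E acc (br i) p)).card =
        ∑ i ∈ I, cap E acc (br i) p := by
      rw [Finset.card_sigma]
      exact Finset.sum_congr rfl fun i _ => Finset.card_range _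
    rw [← h2]
    refine Finset.card_le_card_of_injOn (fun x => (p, x.1, x.2)) ?_ ?_
    · intro x hx
      have hx' := Finset.mem_sigma.1 (Finset.mem_coe.1 hx)
      obtain ⟨hx1, hx2⟩ := hx'
      rw [hI, Finset.mem_filter, Finset.mem_range] at hx1
      rw [Finset.mem_range] at hx2
      obtain ⟨hx1, Q, hQ, hQ2⟩ := hx1
      rw [Finset.mem_coe, Finset.mem_biUnion]
      refine ⟨Q, hQ, f2_mem.2 ⟨mem_slots.2 ⟨⟨hpk, Q.1, Q.2, hS Q hQ⟩, br x.1, ?_, hx2⟩, hS Q hQ, ?_⟩⟩
      · show brs[x.1]? = some (br x.1)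
        rw [hbr]
        show brs[x.1]? = some ((brs[x.1]?).getD [])
        rw [List.getElem?_eq_getElem hx1, Option.getD_some]
      · rw [hbr] at hQ2
        exact hQ2
    · intro x _ y _ hxy
      have h3 := Prod.mk.inj (Prod.mk.inj hxy).2
      exact Sigma.ext h3.1 (heq_of_eq h3.2)
  refine le_trans ?_ h1
  have key : p * S.card ≤ p * ∑ i ∈ I, cap E acc (br i) p := by
    calc p * S.card = ∑ Q ∈ S, p := by rw [Finset.sum_const, smul_eq_mul, mul_comm]
      _ ≤ ∑ Q ∈ S, 4 * ∑ i ∈ Finset.range brs.length, eL E Q.1 (br i) := by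
        refine Finset.sum_le_sum fun Q hQ => ?_
        have e1 := (pw_spec (h.pos Q.1 Q.2)).1
        rw [hS Q hQ] at e1
        have e2 := h.ac Q.1 Q.2
        refine (e1.trans e2).trans (Nat.mul_le_mul_left 4 (le_of_eq ?_))
        rw [eL_eq h.nE, f2_idx, f2_right _ _ _ (f2_dis hnd.1)]
        refine Finset.sum_congr rfl fun i _ => ?_
        rw [eL_eq h.nE, hbr]
      _ = ∑ i ∈ Finset.range brs.length, 4 * ∑ Q ∈ S, eL E Q.1 (br i) := by
        rw [← Finset.mul_sum, Finset.sum_comm, Finset.mul_sum]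
      _ = ∑ i ∈ I, 4 * ∑ Q ∈ S, eL E Q.1 (br i) := by
        symm
        rw [hI]
        refine Finset.sum_subset (Finset.filter_subset _ _) fun i hi hi' => ?_
        rw [Nat.mul_eq_zero]
        right
        refine Finset.sum_eq_zero fun Q hQ => ?_
        by_contra hne
        exact hi' (Finset.mem_filter.2 ⟨hi, Q, hQ, Nat.pos_of_ne_zero hne⟩)
      _ ≤ ∑ i ∈ I, p * cap E acc (br i) p := by
        refine Finset.sum_le_sum fun i _ => ?_
        have e1 : ∑ Q ∈ S, eL E Q.1 (br i) ≤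
            eL E (acc.filter fun Q => decide (pw (bL E Q) = p)).flatten (br i) := by
          rw [eL_eq h.nE]
          have e2 : ∑ Q ∈ S, eL E Q.1 (br i) =
              ∑ Q ∈ S, ee E.toFinset Q.1.toFinset (br i).toFinset :=
            Finset.sum_congr rfl fun Q _ => eL_eq h.nE _ _
          rw [e2, ← f2_left _ S (fun Q => Q.1.toFinset)]
          · refine ee_mono ?_ (Finset.Subset.refl _)
            intro v hv
            rw [Finset.mem_biUnion] at hv
            obtain ⟨Q, hQ, hv⟩ := hv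
            rw [List.mem_toFinset] at hv
            rw [List.mem_toFinset, List.mem_flatten]
            exact ⟨Q.1, List.mem_filter.2 ⟨Q.2, by simpa using hS Q hQ⟩, hv⟩
          · intro Q _ Q' _ hne
            exact f2_items hnd.2.1 Q.1 Q.2 Q'.1 Q'.2 (fun he => hne (Subtype.ext he))
        have e3 := Nat.lt_mul_div_succ
          (4 * eL E (acc.filter fun Q => decide (pw (bL E Q) = p)).flatten (br i)) hp0
        unfold cap
        exact (Nat.mul_le_mul_left 4 e1).trans e3.le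
      _ = p * ∑ i ∈ I, cap E acc (br i) p := by rw [Finset.mul_sum]
  exact Nat.le_of_mul_le_mul_left key hp0

theorem hall {k5 : ℕ} {E : AS} {acc brs : List VS} (h : AccH k5 E acc brs) :
    ∃ τ : VS → ℕ × ℕ × ℕ, (∀ Q ∈ acc, τ Q ∈ slots E k5 acc brs) ∧
      (∀ Q ∈ acc, ∀ Q' ∈ acc, τ Q = τ Q' → Q = Q') ∧
      ∀ Q ∈ acc, asgC E acc brs Q (τ Q) = 0 := by
  classical
  have hH : ∀ S : Finset {Q // Q ∈ acc}, S.card ≤ (S.biUnion (f2_t k5 E acc brs)).card := by
    intro S
    have h1 := Finset.card_eq_sum_card_image (fun Q : {Q // Q ∈ acc} => pw (bL E Q.1)) S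
    have h2 : ∑ p ∈ S.image (fun Q : {Q // Q ∈ acc} => pw (bL E Q.1)),
        ((S.biUnion (f2_t k5 E acc brs)).filter fun o => o.1 = p).card ≤
        (S.biUnion (f2_t k5 E acc brs)).card := by
      rw [← Finset.card_biUnion]
      · refine Finset.card_le_card ?_
        intro o ho
        rw [Finset.mem_biUnion] at ho
        obtain ⟨p, -, ho⟩ := ho
        exact (Finset.mem_filter.1 ho).1
      · intro p _ p' _ hne
        rw [Function.onFun, Finset.disjoint_left]
        intro o ho ho'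
        exact hne ((Finset.mem_filter.1 ho).2.symm.trans (Finset.mem_filter.1 ho').2)
    rw [h1]
    refine le_trans (Finset.sum_le_sum fun p _ => ?_) h2
    refine (f2_class h p (S.filter fun Q => pw (bL E Q.1) = p)
      fun Q hQ => (Finset.mem_filter.1 hQ).2).trans (Finset.card_le_card ?_)
    intro o ho
    rw [Finset.mem_biUnion] at ho
    obtain ⟨Q, hQ, ho⟩ := ho
    rw [Finset.mem_filter] at hQ
    refine Finset.mem_filter.2 ⟨Finset.mem_biUnion.2 ⟨Q, hQ.1, ho⟩, ?_⟩
    rw [← (f2_mem.1 ho).2.1, hQ.2]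
  obtain ⟨f, hf, hft⟩ := (Finset.all_card_le_biUnion_card_iff_exists_injective _).1 hH
  refine ⟨fun Q => if hQ : Q ∈ acc then f ⟨Q, hQ⟩ else (0, 0, 0), ?_, ?_, ?_⟩
  · intro Q hQ
    simp only [hQ, dif_pos]
    exact (f2_mem.1 (hft ⟨Q, hQ⟩)).1
  · intro Q hQ Q' hQ' he
    simp only [hQ, hQ', dif_pos] at he
    exact congrArg Subtype.val (hf he)
  · intro Q hQ
    simp only [hQ, dif_pos]
    have h1 := hft ⟨Q, hQ⟩
    unfold f2_t at h1
    exact (Finset.mem_filter.1 h1).2

end Pool.Agent.H24S
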