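import Pool.Agent.Lib.H24S.F2
import Pool.Agent.Lib.H24S.A2

/-!
# H24S chunk F3: the assignment of the items, loads

`acc` is duplicate free (items are nonempty and disjoint). `|acc| ≤ |slots|` by the injection `τ` of `hall`.
`auction_spec` (costs `≤ |acc| + 1`, steps `|acc| (|acc| + 2)`), `auction_zero` with `τ`: for every `Q ∈ acc` there is exactly
one entry `z` with owner `Q`, its object `z.1 = (p, i, t) ∈ slots` has `p = pw (bL Q)` and `e(Q, β_i) > 0`.

* `hung_perm`: the lists `hung acc A i`, `i < |brs|`, partition `acc`.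
* `load`: `∑_{Q hung on i} bL Q ≤ ∑_Q 2 pw (bL Q) = ∑_p 2 p |{Q hung on i, class p}| ≤ ∑_p 2 p cap β_i p`
  (different `Q` have different `t < cap`) `≤ ∑_p (8 e(class p, β_i) + 2 p) ≤ 8 e(acc.flatten, β_i) + 2 ∑_p p
  ≤ 8 wL β_i + 4 k5`; here `p` runs over the classes, which are different powers of two `≤ k5` (`sum_pow_le`), and
  `e(acc.flatten, β) = e(β, acc.flatten) ≤ wL β`.
-/

set_option autoImplicit false

namespace Pool.Agent.H24S

private lemma F3_acc_nodup {k5 : ℕ} {E : AS} {acc brs : List VS} (h : AccH k5 E acc brs) :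
    acc.Nodup := by
  have h1 := (List.nodup_append.1 h.nd).2.1
  have h2 := (List.nodup_flatten.1 h1).2
  have h3 : acc.Pairwise fun a b => List.Disjoint a b := h2
  refine (List.Pairwise.imp_of_mem ?_ h3)
  intro a b ha hb hd hab
  subst hab
  have hne := h.ne a ha
  obtain ⟨v, hv⟩ := List.exists_mem_of_ne_nil a hne
  exact hd hv hv

private lemma F3_cost {E : AS} {acc brs : List VS} (Q : VS) (o : ℕ × ℕ × ℕ) :
    asgC E acc brs Q o = 0 ∨ asgC E acc brs Q o = acc.length + 1 := by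
  unfold asgC
  split_ifs
  · exact Or.inl rfl
  · exact Or.inr rfl

private lemma F3_auc {k5 : ℕ} {E : AS} {acc brs : List VS} (h : AccH k5 E acc brs) :
    Auc acc (slots E k5 acc brs) (asgC E acc brs) (asg E k5 acc brs) := by
  obtain ⟨τ, h1, h2, h3⟩ := hall h
  unfold asg
  refine auction_spec (F3_acc_nodup h) (slots_nodup E k5 acc brs) ?_ (R := acc.length + 1) ?_ ?_
  · -- injection
    have h4 : (acc.map τ).Nodup := (F3_acc_nodup h).map_on h2
    have h5 : acc.map τ ⊆ slots E k5 acc brs := by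
      intro o ho
      obtain ⟨Q, hQ, rfl⟩ := List.mem_map.1 ho
      exact h1 Q hQ
    have h6 := (h4.subperm h5).length_le
    rwa [List.length_map] at h6
  · intro a _ b _
    rcases F3_cost (E := E) (acc := acc) (brs := brs) a b with h0 | h0 <;> omega
  · exact le_of_eq (by ring)

theorem asg_spec {k5 : ℕ} {E : AS} {acc brs : List VS} (h : AccH k5 E acc brs) :
    Auc acc (slots E k5 acc brs) (asgC E acc brs) (asg E k5 acc brs) ∧
    ∀ z ∈ asg E k5 acc brs, ∀ Q, z.2.2 = some Q → pw (bL E Q) = z.1.1 ∧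
      ∃ br, brs[z.1.2.1]? = some br ∧ 0 < eL E Q br := by
  refine ⟨F3_auc h, ?_⟩
  obtain ⟨τ, h1, h2, h3⟩ := hall h
  intro z hz Q hQ
  have h4 := auction_zero (F3_acc_nodup h) (slots_nodup E k5 acc brs) (F3_auc h) τ h1 h2 h3
    (fun a b => by
      rcases F3_cost (E := E) (acc := acc) (brs := brs) a b with h0 | h0
      · exact Or.inl h0
      · right; omega) z hz Q hQ
  have h5 : z.1 ∈ slots E k5 acc brs := by
    rw [← (F3_auc h).objs]
    exact List.mem_map_of_mem hz
  obtain ⟨_, br, hbr, _⟩ := mem_slots.1 h5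
  unfold asgC at h4
  split_ifs at h4 with hc
  refine ⟨hc.1, br, hbr, ?_⟩
  have h6 := hc.2
  rw [hbr] at h6
  exact h6

private lemma F3_mem_hung {acc : List VS} {A : List ((ℕ × ℕ × ℕ) × ℕ × Option VS)} {i : ℕ} {Q : VS} :
    Q ∈ hung acc A i ↔ Q ∈ acc ∧ ∃ z ∈ A, z.2.2 = some Q ∧ z.1.2.1 = i := by
  unfold hung
  rw [List.mem_filter, List.any_eq_true]
  simp only [Bool.and_eq_true, decide_eq_true_eq]

theorem hung_perm {k5 : ℕ} {E : AS} {acc brs : List VS} (h : AccH k5 E acc brs) :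
    ((List.range brs.length).flatMap fun i => hung acc (asg E k5 acc brs) i).Perm acc := by
  obtain ⟨hA, hS⟩ := asg_spec h
  have hnd := F3_acc_nodup h
  rw [List.perm_ext_iff_of_nodup]
  · intro Q
    rw [List.mem_flatMap]
    constructor
    · rintro ⟨i, _, hQ⟩
      exact (F3_mem_hung.1 hQ).1
    · intro hQ
      obtain ⟨z, hz, hzQ⟩ := hA.tot Q hQ
      obtain ⟨_, br, hbr, _⟩ := hS z hz Q hzQ
      refine ⟨z.1.2.1, ?_, F3_mem_hung.2 ⟨hQ, z, hz, hzQ, rfl⟩⟩
      rw [List.mem_range]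
      exact (List.getElem?_eq_some_iff.1 hbr).1
  · rw [List.nodup_flatMap]
    constructor
    · intro i _
      exact hnd.filter _
    · refine List.nodup_range.imp ?_
      intro i j hij
      change List.Disjoint _ _
      intro Q h1 h2
      obtain ⟨_, z, hz, hzQ, hi⟩ := F3_mem_hung.1 h1
      obtain ⟨_, z', hz', hzQ', hj⟩ := F3_mem_hung.1 h2
      have := hA.inj z hz z' hz' Q hzQ hzQ'
      subst this
      exact hij (hi.symm.trans hj)
  · exact hnd

lemma hung_adj {k5 : ℕ} {E : AS} {acc brs : List VS} (h : AccH k5 E acc brs) {i : ℕ} {Q : VS}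
    (hQ : Q ∈ hung acc (asg E k5 acc brs) i) : Q ∈ acc ∧ ∃ br, brs[i]? = some br ∧
      0 < eL E Q br := by
  obtain ⟨h1, z, hz, hzQ, hi⟩ := F3_mem_hung.1 hQ
  obtain ⟨_, br, hbr, hpos⟩ := (asg_spec h).2 z hz Q hzQ
  rw [hi] at hbr
  exact ⟨h1, br, hbr, hpos⟩

/-- the arcs to the classes -/
private lemma F3_sum_e {k5 : ℕ} {E : AS} {acc brs : List VS} (h : AccH k5 E acc brs) (br : VS)
    (S : Finset ℕ) :
    ∑ p ∈ S, eL E (acc.filter fun Q => decide (pw (bL E Q) = p)).flatten br ≤ wL E br := by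
  have hsym : ∀ x ∈ E.toFinset, x.swap ∈ E.toFinset := by
    intro x hx
    rw [List.mem_toFinset] at hx ⊢
    exact h.sym x hx
  rw [wL_eq h.nE]
  have h1 : ∀ p ∈ S, eL E (acc.filter fun Q => decide (pw (bL E Q) = p)).flatten br =
      (E.toFinset.filter fun x => x.1 ∈ br.toFinset ∧
        x.2 ∈ (acc.filter fun Q => decide (pw (bL E Q) = p)).flatten.toFinset).card := by
    intro p _
    rw [eL_eq h.nE, ee_comm hsym]
    rfl
  rw [Finset.sum_congr rfl h1, ← Finset.card_biUnion]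
  · unfold ww
    apply Finset.card_le_card
    intro x hx
    rw [Finset.mem_biUnion] at hx
    obtain ⟨p, _, hx⟩ := hx
    rw [Finset.mem_filter] at hx ⊢
    exact ⟨hx.1, hx.2.1⟩
  · intro p _ q _ hpq
    rw [Function.onFun, Finset.disjoint_left]
    intro x hx hy
    rw [Finset.mem_filter] at hx hy
    have hx2 := hx.2.2
    have hy2 := hy.2.2
    rw [List.mem_toFinset, List.mem_flatten] at hx2 hy2
    obtain ⟨Q, hQ, hxQ⟩ := hx2
    obtain ⟨Q', hQ', hxQ'⟩ := hy2
    rw [List.mem_filter, decide_eq_true_eq] at hQ hQ'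
    have hne : Q ≠ Q' := by
      rintro rfl
      exact hpq (hQ.2.symm.trans hQ'.2)
    have h2 := (List.nodup_flatten.1 (List.nodup_append.1 h.nd).2.1).2
    have h3 : acc.Pairwise fun a b => List.Disjoint a b := h2
    have h5 : ∀ a ∈ acc, ∀ b ∈ acc, a ≠ b → List.Disjoint a b := by
      intro a ha b hb hab
      have hsymm : Std.Symm (fun a b : VS => List.Disjoint a b) := ⟨fun _ _ h => h.symm⟩
      exact List.Pairwise.forall (R := fun a b : VS => List.Disjoint a b) h3 ha hb hab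
    exact h5 Q hQ.1 Q' hQ'.1 hne hxQ hxQ'

theorem load {k5 : ℕ} {E : AS} {acc brs : List VS} (h : AccH k5 E acc brs) {i : ℕ} {br : VS}
    (hi : brs[i]? = some br) :
    ((hung acc (asg E k5 acc brs) i).map fun Q => bL E Q).sum ≤ 8 * wL E br + 4 * k5 := by
  classical
  obtain ⟨hA, hS⟩ := asg_spec h
  have hnd := F3_acc_nodup h
  have hHnd : (hung acc (asg E k5 acc brs) i).Nodup := hnd.filter _
  set H : Finset VS := (hung acc (asg E k5 acc brs) i).toFinset with hH
  have hmemH : ∀ Q, Q ∈ H ↔ Q ∈ acc ∧ ∃ z ∈ asg E k5 acc brs, z.2.2 = some Q ∧ z.1.2.1 = i := by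
    intro Q
    rw [hH, List.mem_toFinset]
    exact F3_mem_hung
  have h1 : ((hung acc (asg E k5 acc brs) i).map fun Q => bL E Q).sum = ∑ Q ∈ H, bL E Q := by
    rw [hH, List.sum_toFinset _ hHnd]
  rw [h1]
  let S : Finset ℕ := H.image fun Q => pw (bL E Q)
  have h2 : ∑ Q ∈ H, bL E Q ≤ ∑ Q ∈ H, 2 * pw (bL E Q) := by
    apply Finset.sum_le_sum
    intro Q hQ
    have := pw_spec (h.pos Q ((hmemH Q).1 hQ).1)
    omega
  have h3 : ∑ Q ∈ H, 2 * pw (bL E Q) = ∑ p ∈ S, ∑ Q ∈ H with pw (bL E Q) = p, 2 * pw (bL E Q) :=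
    (Finset.sum_fiberwise_of_maps_to (fun Q hQ => Finset.mem_image_of_mem _ hQ) _).symm
  have h4 : ∀ p ∈ S, ∑ Q ∈ H with pw (bL E Q) = p, 2 * pw (bL E Q) ≤
      8 * eL E (acc.filter fun Q => decide (pw (bL E Q) = p)).flatten br + 2 * p := by
    intro p hp
    obtain ⟨Q0, hQ0, hQ0p⟩ := Finset.mem_image.1 hp
    have hp0 : 0 < p := by
      obtain ⟨_, hb, k, hk⟩ := pw_spec (h.pos Q0 ((hmemH Q0).1 hQ0).1)
      rw [← hQ0p]
      rw [hk]
      positivity
    have h5 : ∑ Q ∈ H with pw (bL E Q) = p, 2 * pw (bL E Q) =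
        (H.filter fun Q => pw (bL E Q) = p).card * (2 * p) := by
      rw [Finset.sum_congr rfl (g := fun _ => 2 * p), Finset.sum_const, smul_eq_mul]
      intro Q hQ
      rw [(Finset.mem_filter.1 hQ).2]
    have h6 : (H.filter fun Q => pw (bL E Q) = p).card ≤ cap E acc br p := by
      have h7 : ∀ Q ∈ H, ∃ t, ∃ z ∈ asg E k5 acc brs, z.2.2 = some Q ∧ z.1.2.1 = i ∧ z.1.2.2 = t := by
        intro Q hQ
        obtain ⟨_, z, hz, hzQ, hzi⟩ := (hmemH Q).1 hQ
        exact ⟨_, z, hz, hzQ, hzi, rfl⟩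
      choose! t ht using h7
      rw [← Finset.card_range (cap E acc br p)]
      apply Finset.card_le_card_of_injOn t
      · intro Q hQ
        have hQ' := Finset.mem_filter.1 hQ
        obtain ⟨z, hz, hzQ, hzi, hzt⟩ := ht Q hQ'.1
        have h8 : z.1 ∈ slots E k5 acc brs := by
          rw [← hA.objs]
          exact List.mem_map_of_mem hz
        obtain ⟨_, br', hbr', hlt⟩ := mem_slots.1 h8
        rw [hzi, hi] at hbr'
        cases hbr'
        have h9 := (hS z hz Q hzQ).1
        rw [hQ'.2] at h9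
        rw [← h9, hzt] at hlt
        exact Finset.mem_coe.2 (Finset.mem_range.2 hlt)
      · intro Q hQ Q' hQ' htt
        have hQ1 := Finset.mem_filter.1 hQ
        have hQ1' := Finset.mem_filter.1 hQ'
        obtain ⟨z, hz, hzQ, hzi, hzt⟩ := ht Q hQ1.1
        obtain ⟨z', hz', hzQ', hzi', hzt'⟩ := ht Q' hQ1'.1
        have h9 := (hS z hz Q hzQ).1
        have h9' := (hS z' hz' Q' hzQ').1
        rw [hQ1.2] at h9
        rw [hQ1'.2] at h9'
        have h10 : z.1 = z'.1 := by
          refine Prod.ext (h9.symm.trans h9') (Prod.ext (hzi.trans hzi'.symm) ?_)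
          exact hzt.trans (htt.trans hzt'.symm)
        -- same object, nodup of the objects
        have h11 : ((asg E k5 acc brs).map fun z => z.1).Nodup := by
          rw [hA.objs]
          exact slots_nodup E k5 acc brs
        have h12 : z = z' := List.inj_on_of_nodup_map h11 hz hz' h10
        rw [← h12, hzQ] at hzQ'
        exact Option.some.inj hzQ'
    rw [h5]
    calc (H.filter fun Q => pw (bL E Q) = p).card * (2 * p) ≤ cap E acc br p * (2 * p) :=
          Nat.mul_le_mul_right _ h6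
      _ = 2 * (4 * eL E (acc.filter fun Q => decide (pw (bL E Q) = p)).flatten br / p * p) +
          2 * p := by
          unfold cap
          ring
      _ ≤ 2 * (4 * eL E (acc.filter fun Q => decide (pw (bL E Q) = p)).flatten br) + 2 * p := by
          have := Nat.div_mul_le_self
            (4 * eL E (acc.filter fun Q => decide (pw (bL E Q) = p)).flatten br) p
          omega
      _ = _ := by ring
  have h5 : ∑ p ∈ S, p ≤ 2 * k5 := by
    apply sum_pow_le
    intro p hp
    obtain ⟨Q, hQ, hQp⟩ := Finset.mem_image.1 hp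
    obtain ⟨ha, _, hk⟩ := pw_spec (h.pos Q ((hmemH Q).1 hQ).1)
    rw [← hQp]
    exact ⟨ha.trans (h.le Q ((hmemH Q).1 hQ).1), hk⟩
  calc ∑ Q ∈ H, bL E Q ≤ ∑ p ∈ S, ∑ Q ∈ H with pw (bL E Q) = p, 2 * pw (bL E Q) := h2.trans h3.le
    _ ≤ ∑ p ∈ S, (8 * eL E (acc.filter fun Q => decide (pw (bL E Q) = p)).flatten br + 2 * p) :=
        Finset.sum_le_sum h4
    _ = 8 * (∑ p ∈ S, eL E (acc.filter fun Q => decide (pw (bL E Q) = p)).flatten br) +
        2 * ∑ p ∈ S, p := by
        rw [Finset.sum_add_distrib, Finset.mul_sum, Finset.mul_sum]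
    _ ≤ 8 * wL E br + 4 * k5 := by
        have := F3_sum_e h br S
        omega

end Pool.Agent.H24S
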