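import Pool.Agent.Lib.H24S.K2
import Pool.Agent.Lib.H24S.B3

/-!
# H24S chunk K3: Kruskal, results used by the other chunks

* `kruskal_QT`: if the union of the parts is connected, there is one final part: two final parts
  `Q ≠ Q'` (both nonempty): apply `Cn` with `S = Q`: some arc of `E` goes from `Q` to the union minus
  `Q`, against `kruskal_closed`. So `length (kruskal E L).1 = 1`, `kruskal_len` gives `len`.
  `conn`: if no arc of the forest crosses `S`, `kruskal_conn` says that the one final part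
  (= the whole union) is inside `S` or disjoint from `S`; but it contains a nonempty part inside `S`
  and a nonempty part disjoint from `S`.
* `comps_perm`: `(sing A).flatten = A`.
* `comps_spec`: nonempty by `kruskal_ne`; closed by `kruskal_closed`; connected: let `S` split the
  component `Q` and suppose that no arc of `E` goes from `Q ∩ S` to `Q \ S`. Put `S' = Q ∩ S`. An arc `t` of
  the forest crossing `S'` has both ends in `A`, so both ends in `Q` (closed), so it (or its
  reverse, `hs`) goes from `Q ∩ S` to `Q \ S`, contradiction; hence `kruskal_conn` for `S'`: singletons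
  are never split, so `Q` is inside `S'` or disjoint from `S'`, contradiction.
* `spt_tree`: `kruskal_QT` for `L = sing A`.
-/

set_option autoImplicit false

namespace Pool.Agent.H24S

lemma k3_one (E : AS) {L : List VS} (h : L.flatten.Nodup) (hne : ∀ Q ∈ L, Q ≠ [])
    (hL : L ≠ []) (hc : Cn E.toFinset L.flatten.toFinset) :
    (kruskal E L).1.length = 1 := by
  have hp := kruskal_perm E L
  have hnd : (kruskal E L).1.flatten.Nodup := hp.nodup_iff.2 h
  have hne' := kruskal_ne E hne
  have hcl := kruskal_closed E h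
  obtain ⟨Z, hZ⟩ := List.exists_mem_of_ne_nil L hL
  obtain ⟨z, hz⟩ := List.exists_mem_of_ne_nil Z (hne Z hZ)
  have hzF : z ∈ (kruskal E L).1.flatten := hp.mem_iff.2 (List.mem_flatten.2 ⟨Z, hZ, hz⟩)
  generalize (kruskal E L).1 = F at *
  match F, hp, hnd, hne', hcl, hzF with
  | [], _, _, _, _, hzF => simp at hzF
  | [_], _, _, _, _, _ => rfl
  | Q :: Q' :: R, hp, hnd, hne', hcl, _ =>
    exfalso
    obtain ⟨q, hq⟩ := List.exists_mem_of_ne_nil Q (hne' Q (by simp))
    obtain ⟨q', hq'⟩ := List.exists_mem_of_ne_nil Q' (hne' Q' (by simp))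
    have hqL : q ∈ L.flatten := hp.mem_iff.1 (List.mem_flatten.2 ⟨Q, by simp, hq⟩)
    have hqL' : q' ∈ L.flatten := hp.mem_iff.1 (List.mem_flatten.2 ⟨Q', by simp, hq'⟩)
    have hqn : q' ∉ Q := by
      intro hcon
      rw [List.flatten_cons] at hnd
      exact List.disjoint_of_nodup_append hnd hcon (List.mem_flatten.2 ⟨Q', by simp, hq'⟩)
    obtain ⟨x, hxE, hx1, hx2⟩ := hc Q.toFinset
      ⟨q, Finset.mem_inter.2 ⟨List.mem_toFinset.2 hqL, List.mem_toFinset.2 hq⟩⟩
      ⟨q', Finset.mem_sdiff.2 ⟨List.mem_toFinset.2 hqL', fun hh => hqn (List.mem_toFinset.1 hh)⟩⟩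
    rw [Finset.mem_inter, List.mem_toFinset, List.mem_toFinset] at hx1
    rw [Finset.mem_sdiff, List.mem_toFinset, List.mem_toFinset] at hx2
    exact hx2.2 ((hcl x (List.mem_toFinset.1 hxE) Q (by simp)).1 hx1.2 hx2.1)

theorem kruskal_QT (E : AS) {L : List VS} (h : L.flatten.Nodup) (hne : ∀ Q ∈ L, Q ≠ [])
    (hL : L ≠ []) (hc : Cn E.toFinset L.flatten.toFinset) :
    QT E.toFinset (L.map List.toFinset) (kruskal E L).2 := by
  have h1 := k3_one E h hne hL hc
  have hsub := kruskal_sub E h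
  have hlen := kruskal_len E L
  constructor
  · intro t ht
    obtain ⟨h2, h3, h4⟩ := hsub t ht
    obtain ⟨A, hA, hA'⟩ := List.mem_flatten.1 h3
    obtain ⟨B, hB, hB'⟩ := List.mem_flatten.1 h4
    exact ⟨List.mem_toFinset.2 h2,
      ⟨A.toFinset, List.mem_map.2 ⟨A, hA, rfl⟩, List.mem_toFinset.2 hA'⟩,
      ⟨B.toFinset, List.mem_map.2 ⟨B, hB, rfl⟩, List.mem_toFinset.2 hB'⟩⟩
  · rw [List.length_map]
    omega
  · intro S hS hin hout
    by_contra hno
    have hno' : ∀ t ∈ (kruskal E L).2, ¬ Crs S t := fun t ht hcr => hno ⟨t, ht, hcr⟩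
    have hconn := kruskal_conn E h S hno' (fun Q hQ => hS _ (List.mem_map.2 ⟨Q, hQ, rfl⟩))
    obtain ⟨Q, hQ⟩ := List.length_eq_one_iff.1 h1
    have hp := kruskal_perm E L
    rw [hQ] at hconn hp
    have hmem : ∀ v ∈ L.flatten, v ∈ Q := by
      intro v hv
      have := hp.mem_iff.2 hv
      simpa using this
    obtain ⟨A, hA, ⟨a, ha⟩, hAS⟩ := hin
    obtain ⟨B, hB, ⟨b, hb⟩, hBS⟩ := hout
    obtain ⟨A', hA', rfl⟩ := List.mem_map.1 hA
    obtain ⟨B', hB', rfl⟩ := List.mem_map.1 hB
    have haQ : a ∈ Q := hmem a (List.mem_flatten.2 ⟨A', hA', List.mem_toFinset.1 ha⟩)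
    have hbQ : b ∈ Q := hmem b (List.mem_flatten.2 ⟨B', hB', List.mem_toFinset.1 hb⟩)
    rcases hconn Q (by simp) with hc | hc
    · exact Finset.disjoint_left.1 hBS hb (hc (List.mem_toFinset.2 hbQ))
    · exact Finset.disjoint_left.1 hc (List.mem_toFinset.2 haQ) (hAS ha)

lemma k3_sing (A : VS) : (sing A).flatten = A := by
  unfold sing
  induction A with
  | nil => rfl
  | cons a A ih =>
    rw [List.map_cons, List.flatten_cons, ih]
    rfl

lemma comps_perm (E : AS) (A : VS) : (comps E A).flatten.Perm A := by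
  have := kruskal_perm E (sing A)
  rw [k3_sing] at this
  exact this

lemma k3_closed {E : AS} {A : VS} (hA : A.Nodup) :
    ∀ x ∈ E, ∀ Q ∈ comps E A, (x.1 ∈ Q → x.2 ∈ A → x.2 ∈ Q) ∧ (x.2 ∈ Q → x.1 ∈ A → x.1 ∈ Q) := by
  have h := kruskal_closed E (L := sing A) (by rw [k3_sing]; exact hA)
  rw [k3_sing] at h
  exact h

theorem comps_spec {E : AS} (hs : ∀ x ∈ E, x.swap ∈ E) {A : VS} (hA : A.Nodup) :
    ∀ Q ∈ comps E A, Q ≠ [] ∧ Cn E.toFinset Q.toFinset ∧
      ∀ x ∈ E, x.1 ∈ Q → x.2 ∈ A → x.2 ∈ Q := by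
  intro Q hQ
  have hnd : (sing A).flatten.Nodup := by rw [k3_sing]; exact hA
  have hcl := k3_closed (E := E) hA
  refine ⟨?_, ?_, fun x hx h1 h2 => (hcl x hx Q hQ).1 h1 h2⟩
  · refine kruskal_ne E ?_ Q hQ
    intro Z hZ
    unfold sing at hZ
    obtain ⟨v, _, rfl⟩ := List.mem_map.1 hZ
    simp
  · intro S hS1 hS2
    by_contra hno
    have hcr : ∀ t ∈ (kruskal E (sing A)).2, ¬ Crs (Q.toFinset ∩ S) t := by
      intro t ht hc
      obtain ⟨htE, ht1, ht2⟩ := kruskal_sub E hnd t ht
      rw [k3_sing] at ht1 ht2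
      have h1 := hcl t htE Q hQ
      unfold Crs at hc
      apply hc
      constructor
      · intro h3
        rw [Finset.mem_inter, List.mem_toFinset] at h3 ⊢
        have h4 := h1.1 h3.1 ht2
        refine ⟨h4, ?_⟩
        by_contra h5
        exact hno ⟨t, List.mem_toFinset.2 htE,
          Finset.mem_inter.2 ⟨List.mem_toFinset.2 h3.1, h3.2⟩,
          Finset.mem_sdiff.2 ⟨List.mem_toFinset.2 h4, h5⟩⟩
      · intro h3
        rw [Finset.mem_inter, List.mem_toFinset] at h3 ⊢
        have h4 := h1.2 h3.1 ht1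
        refine ⟨h4, ?_⟩
        by_contra h5
        exact hno ⟨t.swap, List.mem_toFinset.2 (hs t htE),
          Finset.mem_inter.2 ⟨List.mem_toFinset.2 h3.1, h3.2⟩,
          Finset.mem_sdiff.2 ⟨List.mem_toFinset.2 h4, h5⟩⟩
    have hun := kruskal_conn E hnd (Q.toFinset ∩ S) hcr (by
      intro Z hZ
      unfold sing at hZ
      obtain ⟨v, _, rfl⟩ := List.mem_map.1 hZ
      by_cases hv : v ∈ Q.toFinset ∩ S
      · left
        intro w hw
        rw [List.mem_toFinset, List.mem_singleton] at hw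
        rw [hw]
        exact hv
      · right
        rw [Finset.disjoint_left]
        intro w hw
        rw [List.mem_toFinset, List.mem_singleton] at hw
        rw [hw]
        exact hv) Q hQ
    obtain ⟨a, ha⟩ := hS1
    obtain ⟨b, hb⟩ := hS2
    rw [Finset.mem_inter] at ha
    rw [Finset.mem_sdiff] at hb
    rcases hun with h2 | h2
    · exact hb.2 (Finset.mem_inter.1 (h2 hb.1)).2
    · exact Finset.disjoint_left.1 h2 ha.1 (Finset.mem_inter.2 ha)

theorem spt_tree (E : AS) {A : VS} (hA : A.Nodup) (hne : A ≠ []) (hc : Cn E.toFinset A.toFinset) :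
    Tree E.toFinset A.toFinset (spt E A) := by
  have hnd : (sing A).flatten.Nodup := by rw [k3_sing]; exact hA
  have hq := kruskal_QT E (L := sing A) hnd (by
      intro Z hZ
      unfold sing at hZ
      obtain ⟨v, _, rfl⟩ := List.mem_map.1 hZ
      simp) (by
      intro h0
      unfold sing at h0
      exact hne (List.map_eq_nil_iff.1 h0)) (by rw [k3_sing]; exact hc)
  change QT E.toFinset ((sing A).map List.toFinset) (spt E A) at hq
  have hsing : ∀ Z ∈ (sing A).map List.toFinset, ∃ v ∈ A, Z = {v} := by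
    intro Z hZ
    unfold sing at hZ
    rw [List.map_map] at hZ
    obtain ⟨v, hv, rfl⟩ := List.mem_map.1 hZ
    exact ⟨v, hv, by simp⟩
  have hsing' : ∀ v ∈ A, ({v} : Finset ℕ) ∈ (sing A).map List.toFinset := by
    intro v hv
    unfold sing
    rw [List.map_map]
    exact List.mem_map.2 ⟨v, hv, by simp⟩
  constructor
  · intro t ht
    obtain ⟨h1, ⟨Z, hZ, h2⟩, ⟨W, hW, h3⟩⟩ := hq.sub t ht
    obtain ⟨v, hv, rfl⟩ := hsing Z hZ
    obtain ⟨w, hw, rfl⟩ := hsing W hW
    rw [Finset.mem_singleton] at h2 h3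
    exact ⟨h1, List.mem_toFinset.2 (h2 ▸ hv), List.mem_toFinset.2 (h3 ▸ hw)⟩
  · have h1 := hq.len
    rw [List.length_map] at h1
    rw [List.toFinset_card_of_nodup hA, h1]
    unfold sing
    rw [List.length_map]
  · intro S hS1 hS2
    obtain ⟨a, ha⟩ := hS1
    obtain ⟨b, hb⟩ := hS2
    rw [Finset.mem_inter, List.mem_toFinset] at ha
    rw [Finset.mem_sdiff, List.mem_toFinset] at hb
    refine hq.conn S ?_ ⟨{a}, hsing' a ha.1, Finset.singleton_nonempty a, ?_⟩
      ⟨{b}, hsing' b hb.1, Finset.singleton_nonempty b, ?_⟩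
    · intro Z hZ
      obtain ⟨v, hv, rfl⟩ := hsing Z hZ
      by_cases hvS : v ∈ S
      · exact Or.inl (Finset.singleton_subset_iff.2 hvS)
      · exact Or.inr (Finset.disjoint_singleton_left.2 hvS)
    · exact Finset.singleton_subset_iff.2 ha.2
    · exact Finset.disjoint_singleton_left.2 hb.2

/-- no arcs between different components -/
lemma comps_xe {E : AS} (hs : ∀ x ∈ E, x.swap ∈ E) {A : VS} (hA : A.Nodup) :
    xe E.toFinset ((comps E A).map List.toFinset) = 0 := by
  have _ := hs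
  unfold xe
  rw [Finset.card_eq_zero, Finset.filter_eq_empty_iff]
  rintro x hx ⟨P, hP, Q, hQ, hPQ, h1, h2⟩
  obtain ⟨P', hP', rfl⟩ := List.mem_map.1 hP
  obtain ⟨Q', hQ', rfl⟩ := List.mem_map.1 hQ
  rw [List.mem_toFinset] at h1 h2 hx
  have hnd : (comps E A).flatten.Nodup := (comps_perm E A).nodup_iff.2 hA
  have hx2 : x.2 ∈ A := (comps_perm E A).mem_iff.1 (List.mem_flatten.2 ⟨Q', hQ', h2⟩)
  have h3 := (k3_closed hA x hx P' hP').1 h1 hx2
  exact hPQ (by rw [k2_uniq hnd hP' hQ' h3 h2])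

/-- the size of the components is the size of `A` (also for lists with repetitions) -/
lemma comps_length (E : AS) (A : VS) : (comps E A).flatten.length = A.length :=
  (comps_perm E A).length_eq

end Pool.Agent.H24S
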