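import Pool.Agent.Lib.H24S.T1

/-!
# H24S chunk T2: the star tree and the fundamental cuts of a branch

`L` = list of `(D, T, h)`: a connected set `D`, a spanning tree `T` of `D`, an arc `h` from `D` to the root
`r`. The sets `D` are disjoint and do not contain `r`. `M = {r}` union all the `D`. The star tree is
`L.flatMap (h :: T)`.

* `star_tree`: `len`: `sum (|T| + 1) + 1 = sum |D| + 1 = |M|`. `conn`: let `S` split `M`. If `S` splits some `D`,
  its tree crosses. Otherwise some `D` is on the other side than `r` and its hook `h` crosses.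
* `star_cong`: let at most `t0` cross `S`. Both sides are similar (`ee` is symmetric, `M ∩ S`
  and `M \ S` exchange roles when `S` is replaced by `M \ S`, and crossing of arcs of `T`, which have
  their ends in `M`, does not change), so assume `r ∉ S`. If `M ∩ S` is empty, nothing to prove. If two
  different `D`, `D'` meet `S`: for each of them either it is split by `S`, so an arc of its tree (both
  ends in it) crosses, or it is inside `S` and its hook crosses. All crossing arcs are `t0` or its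
  reverse. This is impossible for two disjoint sets not containing `r` (an arc crossing for
  `D` has an end in `D` and the other end in `D` or equal to `r`). So `M ∩ S = D ∩ S` for one `D` and `SC` for
  `D` gives the bound `ee E (D ∩ S) (M \ (D ∩ S)) ≤ X`.
* `sc_branch`: `D` = union of the disjoint parts `a.1`, `a ∈ b :: L`, trees `a.2`; at most `t0` crosses `S`.
  `ee E (D ∩ S) (M \ (D ∩ S)) = sum over the parts of ee E (a.1 ∩ S) (M \ (D ∩ S))` (`sum_ee_left`-like).
  For the part `b`: at most `ww E b.1`. For `a ∈ L`: at most `bb E a.1` if `a.1 ⊆ S` (the target set does not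
  meet `a.1`), `0` if `a.1` is disjoint from `S`, and if `a.1` is split, at most `ww E a.1 ≤ W`. At most one
  part is split (as in T1). Total: `ww b + sum bb + W ≤ X`.
* `sc_one`: one part: `ee E (D ∩ S) _ ≤ ww E D`.
-/

set_option autoImplicit false

namespace Pool.Agent.H24S

variable {V : Type*} [DecidableEq V] {E : Finset (V × V)}

omit [DecidableEq V] in
lemma t2_len (L : List (Finset V × List (V × V) × (V × V)))
    (hT : ∀ a ∈ L, a.2.1.length + 1 = a.1.card) :
    (L.flatMap fun a => a.2.2 :: a.2.1).length = (L.map fun a => a.1.card).sum := by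
  induction L with
  | nil => simp
  | cons a L ih =>
    have h1 := hT a List.mem_cons_self
    have h2 := ih (fun b hb => hT b (List.mem_cons_of_mem _ hb))
    simp only [List.flatMap_cons, List.length_append, List.map_cons, List.sum_cons,
      List.length_cons]
    omega

theorem star_tree {M : Finset V} {r : V} (L : List (Finset V × List (V × V) × (V × V)))
    (hd : L.Pairwise fun a b => Disjoint a.1 b.1) (hr : ∀ a ∈ L, r ∉ a.1)
    (hM : ∀ v, v ∈ M ↔ v = r ∨ ∃ a ∈ L, v ∈ a.1)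
    (hT : ∀ a ∈ L, Tree E a.1 a.2.1)
    (hh : ∀ a ∈ L, a.2.2 ∈ E ∧ a.2.2.1 ∈ a.1 ∧ a.2.2.2 = r) :
    Tree E M (L.flatMap fun a => a.2.2 :: a.2.1) := by
  have hrM : r ∈ M := (hM r).2 (Or.inl rfl)
  refine ⟨?_, ?_, ?_⟩
  · intro t ht
    obtain ⟨a, ha, hta⟩ := List.mem_flatMap.1 ht
    rcases List.mem_cons.1 hta with h | h
    · have h1 := hh a ha
      rw [h]
      refine ⟨h1.1, (hM _).2 (Or.inr ⟨a, ha, h1.2.1⟩), ?_⟩
      rw [h1.2.2]
      exact hrM
    · have h1 := (hT a ha).sub t h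
      exact ⟨h1.1, (hM _).2 (Or.inr ⟨a, ha, h1.2.1⟩), (hM _).2 (Or.inr ⟨a, ha, h1.2.2⟩)⟩
  · rw [t2_len L (fun a ha => (hT a ha).len)]
    have hP : ∀ v, v ∈ M.erase r ↔ ∃ a ∈ L, v ∈ a.1 := by
      intro v
      rw [Finset.mem_erase, hM v]
      constructor
      · rintro ⟨h1, h2⟩
        rcases h2 with h2 | h2
        · exact absurd h2 h1
        · exact h2
      · rintro ⟨a, ha, hv⟩
        refine ⟨?_, Or.inr ⟨a, ha, hv⟩⟩
        rintro rfl
        exact hr a ha hv
    rw [sum_card_eq (f := fun a : Finset V × List (V × V) × (V × V) => a.1) hd hP]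
    rw [Finset.card_erase_of_mem hrM]
    have : 0 < M.card := Finset.card_pos.2 ⟨r, hrM⟩
    omega
  · intro S h1 h2
    by_cases hs : ∃ a ∈ L, (a.1 ∩ S).Nonempty ∧ (a.1 \ S).Nonempty
    · obtain ⟨a, ha, h3, h4⟩ := hs
      obtain ⟨t, ht, htc⟩ := (hT a ha).conn S h3 h4
      exact ⟨t, List.mem_flatMap.2 ⟨a, ha, List.mem_cons_of_mem _ ht⟩, htc⟩
    · have h5 : ∀ a ∈ L, ∀ v ∈ a.1, ∀ w ∈ a.1, v ∈ S → w ∈ S := by
        intro a ha v hv w hw hvS
        by_contra hwS
        exact hs ⟨a, ha, ⟨v, Finset.mem_inter.2 ⟨hv, hvS⟩⟩, ⟨w, Finset.mem_sdiff.2 ⟨hw, hwS⟩⟩⟩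
      obtain ⟨v, hv⟩ := h1
      obtain ⟨w, hw⟩ := h2
      rw [Finset.mem_inter] at hv
      rw [Finset.mem_sdiff] at hw
      by_cases hrS : r ∈ S
      · rcases (hM w).1 hw.1 with h | ⟨a, ha, hwa⟩
        · rw [h] at hw
          exact absurd hrS hw.2
        · have h6 := hh a ha
          refine ⟨a.2.2, List.mem_flatMap.2 ⟨a, ha, List.mem_cons_self⟩, ?_⟩
          intro hc
          rw [h6.2.2] at hc
          exact hw.2 (h5 a ha _ h6.2.1 w hwa (hc.2 hrS))
      · rcases (hM v).1 hv.1 with h | ⟨a, ha, hva⟩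
        · rw [h] at hv
          exact absurd hv.2 hrS
        · have h6 := hh a ha
          refine ⟨a.2.2, List.mem_flatMap.2 ⟨a, ha, List.mem_cons_self⟩, ?_⟩
          intro hc
          rw [h6.2.2] at hc
          exact hrS (hc.1 (h5 a ha v hva _ h6.2.1 hv.2))

/-- a crossing arc for a set `D` that meets `S`, when `r ∉ S` -/
lemma t2_arc {D S : Finset V} {r : V} {T : List (V × V)} {h t0 : V × V} (hT : Tree E D T)
    (hr : r ∉ D) (hh : h.1 ∈ D ∧ h.2 = r) (hrS : r ∉ S) (hO : Only (h :: T) S t0)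
    (hS : (D ∩ S).Nonempty) :
    (t0.1 ∈ D ∧ (t0.2 ∈ D ∨ t0.2 = r)) ∨ (t0.2 ∈ D ∧ (t0.1 ∈ D ∨ t0.1 = r)) := by
  have h1 : ∃ t ∈ h :: T, Crs S t ∧ t.1 ∈ D ∧ (t.2 ∈ D ∨ t.2 = r) := by
    by_cases hs : (D \ S).Nonempty
    · obtain ⟨t, ht, htc⟩ := hT.conn S hS hs
      have h2 := hT.sub t ht
      exact ⟨t, List.mem_cons_of_mem _ ht, htc, h2.2.1, Or.inl h2.2.2⟩
    · refine ⟨h, List.mem_cons_self, ?_, hh.1, Or.inr hh.2⟩
      rw [Finset.sdiff_nonempty, not_not] at hs
      intro hc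
      rw [hh.2] at hc
      exact hrS (hc.1 (hs hh.1))
  obtain ⟨t, ht, htc, h2, h3⟩ := h1
  rcases hO t ht htc with h4 | h4
  · rw [h4] at h2 h3
    exact Or.inl ⟨h2, h3⟩
  · rw [h4] at h2 h3
    exact Or.inr ⟨h2, h3⟩

lemma t2_side {M : Finset V} {r : V}
    (L : List (Finset V × List (V × V) × (V × V)))
    (hd : L.Pairwise fun a b => Disjoint a.1 b.1) (hr : ∀ a ∈ L, r ∉ a.1)
    (hM : ∀ v, v ∈ M ↔ v = r ∨ ∃ a ∈ L, v ∈ a.1)
    (hT : ∀ a ∈ L, Tree E a.1 a.2.1)
    (hh : ∀ a ∈ L, a.2.2 ∈ E ∧ a.2.2.1 ∈ a.1 ∧ a.2.2.2 = r) (X : ℕ)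
    (hX : ∀ a ∈ L, SC E M a.1 a.2.1 X) (t0 : V × V) (S : Finset V)
    (hO : Only (L.flatMap fun a => a.2.2 :: a.2.1) S t0) (hrS : r ∉ S) :
    ee E (M ∩ S) (M \ S) ≤ X := by
  by_cases hS : (M ∩ S).Nonempty
  · have hO' : ∀ a ∈ L, Only (a.2.2 :: a.2.1) S t0 := by
      intro a ha t ht hc
      exact hO t (List.mem_flatMap.2 ⟨a, ha, ht⟩) hc
    have hin : ∀ v ∈ M ∩ S, ∃ a ∈ L, v ∈ a.1 := by
      intro v hv
      rw [Finset.mem_inter] at hv
      rcases (hM v).1 hv.1 with h | h
      · rw [h] at hv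
        exact absurd hv.2 hrS
      · exact h
    obtain ⟨v, hv⟩ := hS
    obtain ⟨a, ha, hva⟩ := hin v hv
    have hvS := (Finset.mem_inter.1 hv).2
    have h1 : M ∩ S = a.1 ∩ S := by
      ext w
      constructor
      · intro hw
        have hwS := (Finset.mem_inter.1 hw).2
        obtain ⟨b, hb, hwb⟩ := hin w hw
        by_cases hab : a = b
        · rw [← hab] at hwb
          exact Finset.mem_inter.2 ⟨hwb, hwS⟩
        · exfalso
          have hdis : Disjoint a.1 b.1 :=
            t1_disj (f := fun a : Finset V × List (V × V) × (V × V) => a.1) hd ha hb hab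
          have h2 := t2_arc (hT a ha) (hr a ha) (hh a ha).2 hrS (hO' a ha)
            ⟨v, Finset.mem_inter.2 ⟨hva, hvS⟩⟩
          have h3 := t2_arc (hT b hb) (hr b hb) (hh b hb).2 hrS (hO' b hb)
            ⟨w, Finset.mem_inter.2 ⟨hwb, hwS⟩⟩
          have h4 : ∀ x, x ∈ a.1 → x ∉ b.1 := fun x hx => Finset.disjoint_left.1 hdis hx
          have h5 : ∀ x, x ∈ a.1 → x ≠ r := by
            intro x hx hxr
            rw [hxr] at hx
            exact hr a ha hx
          have h6 : ∀ x, x ∈ b.1 → x ≠ r := by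
            intro x hx hxr
            rw [hxr] at hx
            exact hr b hb hx
          have h41 := h4 t0.1
          have h42 := h4 t0.2
          have h51 := h5 t0.1
          have h52 := h5 t0.2
          have h61 := h6 t0.1
          have h62 := h6 t0.2
          tauto
      · intro hw
        rw [Finset.mem_inter] at hw ⊢
        exact ⟨(hM w).2 (Or.inr ⟨a, ha, hw.1⟩), hw.2⟩
    have h2 : M \ S = M \ (a.1 ∩ S) := by
      rw [← h1]
      ext x
      simp only [Finset.mem_sdiff, Finset.mem_inter]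
      tauto
    rw [h2, h1]
    exact hX a ha t0 S fun t ht hc => hO' a ha t (List.mem_cons_of_mem _ ht) hc
  · rw [Finset.not_nonempty_iff_eq_empty] at hS
    rw [hS, ee_empty_left]
    exact Nat.zero_le _

theorem star_cong (hE : ∀ x ∈ E, x.swap ∈ E) {M : Finset V} {r : V}
    (L : List (Finset V × List (V × V) × (V × V)))
    (hd : L.Pairwise fun a b => Disjoint a.1 b.1) (hr : ∀ a ∈ L, r ∉ a.1)
    (hM : ∀ v, v ∈ M ↔ v = r ∨ ∃ a ∈ L, v ∈ a.1)
    (hT : ∀ a ∈ L, Tree E a.1 a.2.1)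
    (hh : ∀ a ∈ L, a.2.2 ∈ E ∧ a.2.2.1 ∈ a.1 ∧ a.2.2.2 = r) (X : ℕ)
    (hX : ∀ a ∈ L, SC E M a.1 a.2.1 X) :
    Cong E M (L.flatMap fun a => a.2.2 :: a.2.1) 1 X := by
  intro t0 S hO
  rw [one_mul]
  by_cases hrS : r ∈ S
  · have h1 : M ∩ (M \ S) = M \ S := by
      ext x
      simp only [Finset.mem_sdiff, Finset.mem_inter]
      tauto
    have h2 : M \ (M \ S) = M ∩ S := by
      ext x
      simp only [Finset.mem_sdiff, Finset.mem_inter]
      tauto
    have h3 : r ∉ M \ S := by
      rw [Finset.mem_sdiff]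
      exact fun h => h.2 hrS
    have hst := star_tree L hd hr hM hT hh
    have h4 := t2_side L hd hr hM hT hh X hX t0 (M \ S) ?_ h3
    · rw [h1, h2] at h4
      rw [ee_comm hE]
      exact h4
    · intro t ht hc
      apply hO t ht
      have h5 := hst.sub t ht
      unfold Crs at hc ⊢
      rw [Finset.mem_sdiff, Finset.mem_sdiff] at hc
      tauto
  · exact t2_side L hd hr hM hT hh X hX t0 S hO hrS

lemma t2_sum {ι : Type*} (L : List ι) (f g : ι → ℕ) (W : ℕ) (s : ι → Prop)
    (h1 : ∀ a ∈ L, ¬ s a → f a ≤ g a) (h2 : ∀ a ∈ L, f a ≤ W)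
    (h3 : L.Pairwise fun a b => ¬ (s a ∧ s b)) : (L.map f).sum ≤ (L.map g).sum + W := by
  induction L with
  | nil => simp
  | cons a L ih =>
    rw [List.pairwise_cons] at h3
    simp only [List.map_cons, List.sum_cons]
    by_cases hs : s a
    · have h4 : (L.map f).sum ≤ (L.map g).sum := by
        apply List.sum_le_sum
        intro b hb
        apply h1 b (List.mem_cons_of_mem _ hb)
        intro hsb
        exact h3.1 b hb ⟨hs, hsb⟩
      have h5 := h2 a List.mem_cons_self
      omega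
    · have h4 := ih (fun b hb => h1 b (List.mem_cons_of_mem _ hb))
        (fun b hb => h2 b (List.mem_cons_of_mem _ hb)) h3.2
      have h5 := h1 a List.mem_cons_self hs
      omega

theorem sc_branch {M D : Finset V} (b : Finset V × List (V × V))
    (L : List (Finset V × List (V × V)))
    (hd : (b :: L).Pairwise fun a b => Disjoint a.1 b.1)
    (hD : ∀ v, v ∈ D ↔ ∃ a ∈ b :: L, v ∈ a.1)
    (hT : ∀ a ∈ b :: L, Tree E a.1 a.2) (T' : List (V × V)) {W X : ℕ}
    (hW : ∀ a ∈ L, ww E a.1 ≤ W)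
    (hX : ww E b.1 + (L.map fun a => bb E a.1).sum + W ≤ X) :
    SC E M D (T' ++ (b :: L).flatMap fun a => a.2) X := by
  intro t0 S hO
  have hO' : ∀ a ∈ b :: L, Only a.2 S t0 := by
    intro a ha t ht hc
    exact hO t (List.mem_append.2 (Or.inr (List.mem_flatMap.2 ⟨a, ha, ht⟩))) hc
  have hd' : (b :: L).Pairwise fun x y => Disjoint (x.1 ∩ S) (y.1 ∩ S) :=
    hd.imp fun h => Finset.disjoint_of_subset_left Finset.inter_subset_left
      (Finset.disjoint_of_subset_right Finset.inter_subset_left h)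
  have hD' : ∀ v, v ∈ D ∩ S ↔ ∃ a ∈ b :: L, v ∈ a.1 ∩ S := by
    intro v
    rw [Finset.mem_inter, hD v]
    constructor
    · rintro ⟨⟨a, ha, h1⟩, h2⟩
      exact ⟨a, ha, Finset.mem_inter.2 ⟨h1, h2⟩⟩
    · rintro ⟨a, ha, h1⟩
      rw [Finset.mem_inter] at h1
      exact ⟨⟨a, ha, h1.1⟩, h1.2⟩
  have h1 := sum_ee_left (E := E) (f := fun a : Finset V × List (V × V) => a.1 ∩ S) hd' hD'
    (M \ (D ∩ S))
  rw [← h1, List.map_cons, List.sum_cons]
  have h2 : ee E (b.1 ∩ S) (M \ (D ∩ S)) ≤ ww E b.1 :=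
    le_trans (ee_le_ww _ _) (ww_mono Finset.inter_subset_left)
  have h3 : (L.map fun a => ee E (a.1 ∩ S) (M \ (D ∩ S))).sum ≤
      (L.map fun a => bb E a.1).sum + W := by
    apply t2_sum L _ _ W (fun a => (a.1 ∩ S).Nonempty ∧ (a.1 \ S).Nonempty)
    · intro a ha hs
      by_cases hS : (a.1 ∩ S).Nonempty
      · have h4 : a.1 ⊆ S := by
          by_contra hcon
          exact hs ⟨hS, Finset.sdiff_nonempty.2 hcon⟩
        have h5 : a.1 ∩ S = a.1 := Finset.inter_eq_left.2 h4
        rw [h5]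
        apply ee_le_bb
        rw [Finset.disjoint_left]
        intro x hx hx'
        rw [Finset.mem_sdiff, Finset.mem_inter] at hx'
        exact hx'.2 ⟨(hD x).2 ⟨a, List.mem_cons_of_mem _ ha, hx⟩, h4 hx⟩
      · rw [Finset.not_nonempty_iff_eq_empty] at hS
        rw [hS, ee_empty_left]
        exact Nat.zero_le _
    · intro a ha
      exact le_trans (le_trans (ee_le_ww _ _) (ww_mono Finset.inter_subset_left)) (hW a ha)
    · have h4 := (List.pairwise_cons.1 hd).2
      refine List.Pairwise.imp_of_mem ?_ h4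
      intro x y hx hy hxy hs
      have h5 := t1_split (hT x (List.mem_cons_of_mem _ hx)) (hO' x (List.mem_cons_of_mem _ hx))
        hs.1.1 hs.1.2
      have h6 := t1_split (hT y (List.mem_cons_of_mem _ hy)) (hO' y (List.mem_cons_of_mem _ hy))
        hs.2.1 hs.2.2
      exact Finset.disjoint_left.1 hxy h5.1 h6.1
  omega

lemma sc_one {M D : Finset V} (T : List (V × V)) {X : ℕ} (h : ww E D ≤ X) : SC E M D T X := by
  intro t0 S _
  exact le_trans (le_trans (ee_le_ww _ _) (ww_mono Finset.inter_subset_left)) h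

end Pool.Agent.H24S
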