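import Pool.Agent.Lib.H24S.F3
import Pool.Agent.Lib.H24S.K3
import Pool.Agent.Lib.H24S.T2

/-!
# H24S chunk F4: the list `Ds` of the branches with their items

`Ds = dList E k5 brs acc rit`: for every branch `β_i` the set `D = (β_i :: hung_i).flatten` with the tree
`joinT E (β_i :: hung_i) = (kruskal E L).2 ++ L.flatMap (spt E)`, `L = β_i :: hung_i`; for every root item `Q` the pair
`(Q, spt E Q)`.
* `dList_perm`: `hung_perm`, and the branches are listed once (`List.zipIdx`).
* `dList_ok`: nonempty. Connected: every hung item has `e(Q, β_i) > 0`, so `β_i ∪ items` is connected: `cn_union`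
  step by step, so `kruskal_QT` applies to `L`, and `join_tree` with the trees `spt_tree` gives `Tree`. Adjacent to `r`:
  `adjS E β_i r` or `adjS E Q r`.
  `SC`: `sc_branch` with `b = (β_i, spt)`, `L' = ` items with trees, `W = k5`, `ww β_i ≤ 11 x`, load
  `∑ bb Q ≤ 8 * 11 x + 4 k5`, `k5 = 5 x`: total `11 x + 88 x + 20 x + 5 x = 124 x`, `x = n K`. Root items: `sc_one`.
-/

set_option autoImplicit false

namespace Pool.Agent.H24S

/-- hypotheses for `dList` -/
structure DH (x : ℕ) (E : AS) (r : ℕ) (brs acc rit : List VS) : Prop where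
  ah : AccH (5 * x) E acc brs
  nd : (brs.flatten ++ acc.flatten ++ rit.flatten).Nodup
  bcn : ∀ b ∈ brs, b ≠ [] ∧ Cn E.toFinset b.toFinset ∧ adjS E b r = true ∧ wL E b ≤ 11 * x
  acn : ∀ Q ∈ acc, Cn E.toFinset Q.toFinset ∧ wL E Q ≤ 5 * x
  rcn : ∀ Q ∈ rit, Q ≠ [] ∧ Cn E.toFinset Q.toFinset ∧ adjS E Q r = true ∧ wL E Q ≤ 5 * x

private lemma F4_zip (g : ℕ → List ℕ) (l : List VS) (k : ℕ) :
    ((l.zipIdx k).flatMap fun bi => bi.1 ++ g bi.2).Perm
      (l.flatten ++ (List.range' k l.length).flatMap g) := by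
  induction l generalizing k with
  | nil => simp
  | cons a l ih =>
    rw [List.zipIdx_cons, List.flatMap_cons, List.flatten_cons, List.length_cons,
      List.range'_succ, List.flatMap_cons]
    have h1 := ih (k + 1)
    refine ((List.Perm.refl _).append h1).trans ?_
    -- (a ++ g k) ++ (l.flatten ++ R) ~ (a ++ l.flatten) ++ (g k ++ R)
    rw [List.append_assoc, List.append_assoc]
    refine (List.Perm.refl a).append ?_
    rw [← List.append_assoc, ← List.append_assoc]
    exact (List.perm_append_comm).append (List.Perm.refl _)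

private lemma F4_ff (f : ℕ → List VS) (l : List ℕ) :
    (l.flatMap fun i => (f i).flatten) = (l.flatMap f).flatten := by
  induction l with
  | nil => simp
  | cons a l ih => rw [List.flatMap_cons, List.flatMap_cons, List.flatten_append, ih]

theorem dList_perm {x : ℕ} {E : AS} {r : ℕ} {brs acc rit : List VS} (h : DH x E r brs acc rit) :
    ((dList E (5 * x) brs acc rit).flatMap fun D => D.1).Perm
      (brs.flatten ++ acc.flatten ++ rit.flatten) := by
  unfold dList
  rw [List.flatMap_append, List.flatMap_map, List.flatMap_map]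
  have h1 : (rit.flatMap fun Q => Q) = rit.flatten := by
    rw [List.flatMap_id']
  refine List.Perm.append ?_ (by rw [h1])
  have h2 := F4_zip (fun i => (hung acc (asg E (5 * x) acc brs) i).flatten) brs 0
  refine (List.Perm.trans ?_ h2).trans ?_
  · exact List.Perm.of_eq rfl
  · refine (List.Perm.refl _).append ?_
    rw [← List.range_eq_range', F4_ff]
    exact (hung_perm h.ah).flatten

private lemma F4_cn {E : AS} (hE : ∀ x ∈ E, x.swap ∈ E) {β : VS} (hβ : Cn E.toFinset β.toFinset)
    (l : List VS) (hl : ∀ Q ∈ l, Cn E.toFinset Q.toFinset ∧ 0 < eL E Q β) :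
    Cn E.toFinset (β :: l).flatten.toFinset := by
  have hsym : ∀ x ∈ E.toFinset, x.swap ∈ E.toFinset := by
    intro x hx
    rw [List.mem_toFinset] at hx ⊢
    exact hE x hx
  induction l with
  | nil => simpa using hβ
  | cons Q l ih =>
    have h1 := ih fun Q' hQ' => hl Q' (List.mem_cons_of_mem _ hQ')
    obtain ⟨h2, h3⟩ := hl Q List.mem_cons_self
    obtain ⟨a, ha⟩ := List.exists_mem_of_length_pos h3
    rw [List.mem_filter] at ha
    simp only [Bool.and_eq_true, decide_eq_true_eq] at ha
    have h4 : (β :: Q :: l).flatten.toFinset = Q.toFinset ∪ (β :: l).flatten.toFinset := by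
      ext v
      simp only [List.flatten_cons, List.mem_toFinset, List.mem_append, Finset.mem_union]
      tauto
    rw [h4]
    refine cn_union hsym h2 h1 (a := a.1) (b := a.2) (by simpa using ha.2.1) ?_
      (by simpa using ha.1)
    simp only [List.flatten_cons, List.mem_toFinset, List.mem_append]
    exact Or.inl ha.2.2

theorem dList_ok {x : ℕ} {E : AS} {r : ℕ} {brs acc rit : List VS} (h : DH x E r brs acc rit)
    (M : Finset ℕ) : ∀ D ∈ dList E (5 * x) brs acc rit, D.1 ≠ [] ∧
      Tree E.toFinset D.1.toFinset D.2 ∧ adjS E D.1 r = true ∧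
      SC E.toFinset M D.1.toFinset D.2 (124 * x) := by
  intro D hD
  unfold dList at hD
  rw [List.mem_append, List.mem_map, List.mem_map] at hD
  rcases hD with ⟨⟨β, i⟩, hbi, rfl⟩ | ⟨Q, hQ, rfl⟩
  · rw [List.mem_zipIdx_iff_getElem?] at hbi
    simp only at hbi ⊢
    have hβ : β ∈ brs := List.mem_of_getElem? hbi
    obtain ⟨hb1, hb2, hb3, hb4⟩ := h.bcn β hβ
    set Hl := hung acc (asg E (5 * x) acc brs) i with hHl
    have hsub : ∀ Q ∈ Hl, Q ∈ acc ∧ 0 < eL E Q β := by
      intro Q hQ
      obtain ⟨h1, br, hbr, hpos⟩ := hung_adj h.ah hQ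
      rw [hbi] at hbr
      cases hbr
      exact ⟨h1, hpos⟩
    have hHnd : Hl.Sublist acc := List.filter_sublist
    have hnd : (β :: Hl).flatten.Nodup := by
      rw [List.flatten_cons]
      have h1 := h.ah.nd
      rw [List.nodup_append] at h1 ⊢
      refine ⟨(List.nodup_flatten.1 h1.1).1 β hβ, ?_, ?_⟩
      · exact h1.2.1.sublist (hHnd.flatten)
      · intro a ha b hb
        refine h1.2.2 a (List.mem_flatten.2 ⟨β, hβ, ha⟩) b ?_
        obtain ⟨Q, hQ, hbQ⟩ := List.mem_flatten.1 hb
        exact List.mem_flatten.2 ⟨Q, (hsub Q hQ).1, hbQ⟩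
    have hne : ∀ Q ∈ β :: Hl, Q ≠ [] := by
      intro Q hQ
      rcases List.mem_cons.1 hQ with rfl | hQ
      · exact hb1
      · exact h.ah.ne Q (hsub Q hQ).1
    have hcn : ∀ Q ∈ β :: Hl, Cn E.toFinset Q.toFinset := by
      intro Q hQ
      rcases List.mem_cons.1 hQ with rfl | hQ
      · exact hb2
      · exact (h.acn Q (hsub Q hQ).1).1
    have hndQ : ∀ Q ∈ β :: Hl, Q.Nodup := (List.nodup_flatten.1 hnd).1
    have hC := F4_cn h.ah.sym hb2 Hl fun Q hQ => ⟨(h.acn Q (hsub Q hQ).1).1, (hsub Q hQ).2⟩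
    have hQT := kruskal_QT E hnd hne (by simp) hC
    have hpw : ((β :: Hl).map fun Q => (Q.toFinset, spt E Q)).Pairwise
        fun a b => Disjoint a.1 b.1 := by
      have h1 := pairwise_of_flatten hnd
      rw [List.pairwise_map] at h1 ⊢
      exact h1
    have hfm : ((β :: Hl).map fun Q => (Q.toFinset, spt E Q)).flatMap (fun a => a.2) =
        (β :: Hl).flatMap fun Q => spt E Q := by
      rw [List.flatMap_map]
    have hmem : ∀ v, v ∈ (β :: Hl).flatten.toFinset ↔
        ∃ a ∈ (β :: Hl).map fun Q => (Q.toFinset, spt E Q), v ∈ a.1 := by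
      intro v
      rw [List.mem_toFinset, List.mem_flatten]
      simp only [List.mem_map, exists_exists_and_eq_and, List.mem_toFinset]
    have htr : ∀ a ∈ (β :: Hl).map fun Q => (Q.toFinset, spt E Q), Tree E.toFinset a.1 a.2 := by
      intro a ha
      obtain ⟨Q, hQ, rfl⟩ := List.mem_map.1 ha
      exact spt_tree E (hndQ Q hQ) (hne Q hQ) (hcn Q hQ)
    refine ⟨?_, ?_, ?_, ?_⟩
    · intro h0
      rw [List.flatten_cons, List.append_eq_nil_iff] at h0
      exact hb1 h0.1
    · unfold joinT
      rw [← hfm]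
      refine join_tree _ hpw hmem ?_ htr _ ?_
      · intro a ha
        obtain ⟨Q, hQ, rfl⟩ := List.mem_map.1 ha
        obtain ⟨v, hv⟩ := List.exists_mem_of_ne_nil Q (hne Q hQ)
        exact ⟨v, List.mem_toFinset.2 hv⟩
      · rw [List.map_map]
        exact hQT
    · rw [adjS_iff] at hb3 ⊢
      obtain ⟨f, hf, hfr⟩ := hb3
      refine ⟨f, ?_, hfr⟩
      rw [List.flatten_cons, List.mem_append]
      exact Or.inl hf
    · unfold joinT
      rw [← hfm, List.map_cons]
      rw [List.map_cons] at hpw hmem htr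
      refine sc_branch _ _ hpw hmem htr _ (W := 5 * x) ?_ ?_
      · intro a ha
        obtain ⟨Q, hQ, rfl⟩ := List.mem_map.1 ha
        have := (h.acn Q (hsub Q hQ).1).2
        rw [wL_eq h.ah.nE] at this
        exact this
      · rw [List.map_map]
        have h1 : (Hl.map ((fun a : Finset ℕ × List (ℕ × ℕ) => bb E.toFinset a.1) ∘
            fun Q => (Q.toFinset, spt E Q))) = Hl.map fun Q => bL E Q := by
          refine List.map_congr_left fun Q _ => ?_
          exact (bL_eq h.ah.nE Q).symm
        have h2 := load h.ah hbi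
        rw [← hHl] at h2
        rw [h1]
        rw [wL_eq h.ah.nE] at hb4 h2
        simp only
        omega
  · obtain ⟨h1, h2, h3, h4⟩ := h.rcn Q hQ
    have hnd : Q.Nodup := (List.nodup_flatten.1 (List.nodup_append.1 h.nd).2.1).1 Q hQ
    refine ⟨h1, spt_tree E hnd h1 h2, h3, sc_one _ ?_⟩
    rw [wL_eq h.ah.nE] at h4
    simp only
    omega

end Pool.Agent.H24S
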