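import Pool.Agent.Lib.H24S.F4

/-!
# H24S chunk F5: the main part and its tree

`mainT E r Ds = Ds.flatMap (hook E D.1 r ++ D.2)`, and `hook E D r = [h]` with `h ∈ E`, `h.1 ∈ D`, `h.2 = r`, because
`adjS E D r`. So it is the star tree of `star_tree`, `star_cong`, with
`L = Ds.map (D.1.toFinset, D.2, h_D)`. The sets are disjoint and do not contain `r` (`hnd`).
-/

set_option autoImplicit false

namespace Pool.Agent.H24S

lemma hook_spec {E : AS} {D : VS} {r : ℕ} (h : adjS E D r = true) :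
    ∃ x, hook E D r = [x] ∧ x ∈ E ∧ x.1 ∈ D ∧ x.2 = r := by
  obtain ⟨f, hf, hfr⟩ := adjS_iff.1 h
  have h1 : (f, r) ∈ E.filter fun x => decide (x.1 ∈ D) && decide (x.2 = r) := by
    rw [List.mem_filter]
    exact ⟨hfr, by simp [hf]⟩
  unfold hook
  generalize hl : (E.filter fun x => decide (x.1 ∈ D) && decide (x.2 = r)) = l at h1
  cases l with
  | nil => exact absurd h1 (by simp)
  | cons x l =>
    have h2 : x ∈ E.filter fun x => decide (x.1 ∈ D) && decide (x.2 = r) := by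
      rw [hl]
      exact List.mem_cons_self
    rw [List.mem_filter, Bool.and_eq_true, decide_eq_true_eq, decide_eq_true_eq] at h2
    exact ⟨x, by simp, h2.1, h2.2.1, h2.2.2⟩

lemma f5_mainT {E : AS} {r : ℕ} (Ds : List (VS × AS)) (h : ∀ D ∈ Ds, adjS E D.1 r = true) :
    mainT E r Ds = (Ds.map fun D => (D.1.toFinset, D.2, (hook E D.1 r).headD (0, 0))).flatMap
      fun a => a.2.2 :: a.2.1 := by
  unfold mainT
  induction Ds with
  | nil => rfl
  | cons D Ds ih =>
    rw [List.flatMap_cons, List.map_cons, List.flatMap_cons,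
      ih fun D' hD' => h D' (List.mem_cons_of_mem _ hD')]
    obtain ⟨x, hx, -⟩ := hook_spec (h D List.mem_cons_self)
    simp only [hx]
    rfl

theorem main_ok {E : AS} (hs : ∀ x ∈ E, x.swap ∈ E) {r : ℕ} {Ds : List (VS × AS)} {X : ℕ}
    (hnd : (r :: Ds.flatMap fun D => D.1).Nodup)
    (h : ∀ D ∈ Ds, D.1 ≠ [] ∧ Tree E.toFinset D.1.toFinset D.2 ∧ adjS E D.1 r = true ∧
      SC E.toFinset (mainV r Ds).toFinset D.1.toFinset D.2 X) :
    Tree E.toFinset (mainV r Ds).toFinset (mainT E r Ds) ∧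
      Cong E.toFinset (mainV r Ds).toFinset (mainT E r Ds) 1 X := by
  rw [List.nodup_cons, List.nodup_flatMap] at hnd
  obtain ⟨hr0, -, hpw⟩ := hnd
  rw [f5_mainT Ds fun D hD => (h D hD).2.2.1]
  have hsym : ∀ x ∈ E.toFinset, x.swap ∈ E.toFinset := by
    intro x hx
    rw [List.mem_toFinset] at hx ⊢
    exact hs x hx
  have hd : (Ds.map fun D => (D.1.toFinset, D.2, (hook E D.1 r).headD (0, 0))).Pairwise
      fun a b => Disjoint a.1 b.1 := by
    rw [List.pairwise_map]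
    refine hpw.imp ?_
    intro a b hab
    rw [List.disjoint_toFinset_iff_disjoint]
    exact hab
  have hr : ∀ a ∈ (Ds.map fun D => (D.1.toFinset, D.2, (hook E D.1 r).headD (0, 0))), r ∉ a.1 := by
    intro a ha
    obtain ⟨D, hD, rfl⟩ := List.mem_map.1 ha
    intro hrD
    exact hr0 (List.mem_flatMap.2 ⟨D, hD, List.mem_toFinset.1 hrD⟩)
  have hM : ∀ v, v ∈ (mainV r Ds).toFinset ↔ v = r ∨
      ∃ a ∈ (Ds.map fun D => (D.1.toFinset, D.2, (hook E D.1 r).headD (0, 0))), v ∈ a.1 := by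
    intro v
    unfold mainV
    rw [List.mem_toFinset, List.mem_cons, List.mem_flatMap]
    refine or_congr_right ?_
    constructor
    · rintro ⟨D, hD, hv⟩
      exact ⟨_, List.mem_map.2 ⟨D, hD, rfl⟩, List.mem_toFinset.2 hv⟩
    · rintro ⟨a, ha, hv⟩
      obtain ⟨D, hD, rfl⟩ := List.mem_map.1 ha
      exact ⟨D, hD, List.mem_toFinset.1 hv⟩
  have hT : ∀ a ∈ (Ds.map fun D => (D.1.toFinset, D.2, (hook E D.1 r).headD (0, 0))),
      Tree E.toFinset a.1 a.2.1 := by
    intro a ha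
    obtain ⟨D, hD, rfl⟩ := List.mem_map.1 ha
    exact (h D hD).2.1
  have hh : ∀ a ∈ (Ds.map fun D => (D.1.toFinset, D.2, (hook E D.1 r).headD (0, 0))),
      a.2.2 ∈ E.toFinset ∧ a.2.2.1 ∈ a.1 ∧ a.2.2.2 = r := by
    intro a ha
    obtain ⟨D, hD, rfl⟩ := List.mem_map.1 ha
    obtain ⟨x, hx, h1, h2, h3⟩ := hook_spec (h D hD).2.2.1
    simp only [hx]
    exact ⟨List.mem_toFinset.2 h1, List.mem_toFinset.2 h2, h3⟩
  refine ⟨star_tree _ hd hr hM hT hh, star_cong hsym _ hd hr hM hT hh X ?_⟩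
  intro a ha
  obtain ⟨D, hD, rfl⟩ := List.mem_map.1 ha
  exact (h D hD).2.2.2

end Pool.Agent.H24S
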