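import Pool.Agent.Lib.H24S.D2
import Pool.Agent.Lib.H24S.B2

/-!
# H24S chunk F6: few edges between different parts

Finite sets: `P` is the disjoint union of `A`, `M0`, and the items in the lists `good` (accepted or at
the root) and `una` (not accepted); `G` = union of `good`. `M = M0 ∪ G` is the main part. For `Q ∈ una`:
`4 e(Q, M0) < bb Q` and `bb Q = e(Q, P \ Q) = e(Q, M0) + e(Q, items minus Q) + e(Q, A)`, so
`3 e(Q, M0) ≤ e(Q, I \ Q) + e(Q, A)`, `I` = union of all items. Sum over `una` (`xe_eq` for the list `good ++ una`,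
`sum_ee_left`): `3 e(U', M0) ≤ xe(good ++ una) + bb A`, `U'` = union of `una` (`e(U', A) = e(A, U') ≤ bb A`).
`xe(M :: una) = xe(una) + 2 e(U', M) = xe(una) + 2 e(U', G) + 2 e(U', M0) ≤ xe(good ++ una) + 2 e(U', M0)`
(`xe_cons`, `xe_append`). With the components `C` of `A` (`xe C = 0`): `xe(M :: (una ++ C)) = xe(M :: una) + 0 + 2 e(P \ A, A)
= xe(M :: una) + 2 bb A`. Total: `3 xe(parts) ≤ 8 bb A + 5 xe(good ++ una)`.
-/

set_option autoImplicit false

namespace Pool.Agent.H24S

variable {V : Type*} [DecidableEq V]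

/-- union of a list of sets -/
def f6_un (L : List (Finset V)) : Finset V := L.foldr (fun A B => A ∪ B) ∅

lemma f6_mem {L : List (Finset V)} {v : V} : v ∈ f6_un L ↔ ∃ A ∈ L, v ∈ A := by
  unfold f6_un
  induction L with
  | nil => simp
  | cons A L ih =>
    rw [List.foldr_cons, Finset.mem_union, ih]
    simp

theorem xe_parts {E : Finset (V × V)} {P A M0 M : Finset V} (hg : Gr E P)
    (good una C : List (Finset V)) (hAP : A ⊆ P) (hM0 : M0 ⊆ P) (hd0 : Disjoint A M0)
    (hd : (good ++ una).Pairwise fun a b => Disjoint a b)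
    (hI : ∀ Q ∈ good ++ una, Disjoint Q A ∧ Disjoint Q M0)
    (hP : ∀ v, v ∈ P ↔ v ∈ A ∨ v ∈ M0 ∨ ∃ Q ∈ good ++ una, v ∈ Q)
    (hM : ∀ v, v ∈ M ↔ v ∈ M0 ∨ ∃ Q ∈ good, v ∈ Q)
    (hC : C.Pairwise fun a b => Disjoint a b) (hCA : ∀ v, v ∈ A ↔ ∃ Q ∈ C, v ∈ Q)
    (hCx : xe E C = 0) (hu : ∀ Q ∈ una, 4 * ee E Q M0 < bb E Q) :
    3 * xe E (M :: (una ++ C)) ≤ 8 * bb E A + 5 * xe E (good ++ una) := by
  have hdga := List.pairwise_append.1 hd
  have hIm : ∀ v, v ∈ f6_un (good ++ una) ↔ ∃ A ∈ good ++ una, v ∈ A := fun v => f6_mem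
  have hGm : ∀ v, v ∈ f6_un good ↔ ∃ A ∈ good, v ∈ A := fun v => f6_mem
  have hUm : ∀ v, v ∈ f6_un una ↔ ∃ A ∈ una, v ∈ A := fun v => f6_mem
  -- step 1
  have h1 : ∀ Q ∈ una, 3 * ee E Q M0 ≤ ee E Q (f6_un (good ++ una) \ Q) + ee E Q A := by
    intro Q hQ
    have hQ' : Q ∈ good ++ una := List.mem_append_right _ hQ
    have e1 : P \ Q = M0 ∪ ((f6_un (good ++ una) \ Q) ∪ A) := by
      ext v
      simp only [Finset.mem_sdiff, Finset.mem_union, hP v, hIm v]
      constructor
      · rintro ⟨h | h | h, hn⟩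
        · exact Or.inr (Or.inr h)
        · exact Or.inl h
        · exact Or.inr (Or.inl ⟨h, hn⟩)
      · rintro (h | ⟨h, hn⟩ | h)
        · exact ⟨Or.inr (Or.inl h), fun hv => Finset.disjoint_left.1 (hI Q hQ').2 hv h⟩
        · exact ⟨Or.inr (Or.inr h), hn⟩
        · exact ⟨Or.inl h, fun hv => Finset.disjoint_left.1 (hI Q hQ').1 hv h⟩
    have d1 : Disjoint (f6_un (good ++ una) \ Q) A := by
      rw [Finset.disjoint_left]
      intro v hv hA
      obtain ⟨B, hB, hvB⟩ := (hIm v).1 (Finset.mem_sdiff.1 hv).1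
      exact Finset.disjoint_left.1 (hI B hB).1 hvB hA
    have d2 : Disjoint M0 ((f6_un (good ++ una) \ Q) ∪ A) := by
      rw [Finset.disjoint_left]
      intro v hv hA
      rcases Finset.mem_union.1 hA with hA | hA
      · obtain ⟨B, hB, hvB⟩ := (hIm v).1 (Finset.mem_sdiff.1 hA).1
        exact Finset.disjoint_left.1 (hI B hB).2 hvB hv
      · exact Finset.disjoint_left.1 hd0 hA hv
    have e2 : bb E Q = ee E Q M0 + (ee E Q (f6_un (good ++ una) \ Q) + ee E Q A) := by
      rw [bb_eq_ee hg.inP' Q, e1, ee_union_right d2, ee_union_right d1]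
    have := hu Q hQ
    omega
  -- step 2
  have h2 : 3 * ee E (f6_un una) M0 ≤ xe E (good ++ una) + bb E A := by
    have a1 := sum_ee_left (E := E) (f := fun Q : Finset V => Q) hdga.2.1 hUm M0
    have a2 := sum_ee_left (E := E) (f := fun Q : Finset V => Q) hdga.2.1 hUm A
    have a3 := xe_eq (E := E) hd hIm
    rw [List.map_append, List.sum_append] at a3
    have a4 : (una.map fun Q => 3 * ee E Q M0).sum ≤
        (una.map fun Q => ee E Q (f6_un (good ++ una) \ Q) + ee E Q A).sum :=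
      List.sum_le_sum h1
    rw [List.sum_map_mul_left, a1, List.sum_map_add, a2] at a4
    have a5 : ee E (f6_un una) A ≤ bb E A := by
      rw [ee_comm hg.symm]
      apply ee_le_bb
      rw [Finset.disjoint_left]
      intro v hv hvU
      obtain ⟨B, hB, hvB⟩ := (hUm v).1 hvU
      exact Finset.disjoint_left.1 (hI B (List.mem_append_right _ hB)).1 hvB hv
    omega
  -- step 3
  have hMuna : ∀ Q ∈ una, Disjoint M Q := by
    intro Q hQ
    rw [Finset.disjoint_left]
    intro v hv hvQ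
    rcases (hM v).1 hv with h | ⟨B, hB, hvB⟩
    · exact Finset.disjoint_left.1 (hI Q (List.mem_append_right _ hQ)).2 hvQ h
    · exact Finset.disjoint_left.1 (hdga.2.2 B hB Q hQ) hvB hvQ
  have hdM : (M :: una).Pairwise fun a b => Disjoint a b :=
    List.pairwise_cons.2 ⟨hMuna, hdga.2.1⟩
  have hAdis : ∀ v, (∃ Q ∈ M :: una, v ∈ Q) → v ∉ A := by
    rintro v ⟨Q, hQ, hvQ⟩ hvA
    rcases List.mem_cons.1 hQ with rfl | hQ
    · rcases (hM v).1 hvQ with h | ⟨B, hB, hvB⟩
      · exact Finset.disjoint_left.1 hd0 hvA h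
      · exact Finset.disjoint_left.1 (hI B (List.mem_append_left _ hB)).1 hvB hvA
    · exact Finset.disjoint_left.1 (hI Q (List.mem_append_right _ hQ)).1 hvQ hvA
  have hdAll : ((M :: una) ++ C).Pairwise fun a b => Disjoint a b := by
    refine List.pairwise_append.2 ⟨hdM, hC, ?_⟩
    intro a ha b hb
    rw [Finset.disjoint_left]
    intro v hva hvb
    exact hAdis v ⟨a, ha, hva⟩ ((hCA v).2 ⟨b, hb, hvb⟩)
  have h3 : xe E (M :: (una ++ C)) = xe E (M :: una) + xe E C + 2 * ee E (f6_un (M :: una)) A := by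
    have := xe_append hg.symm hdAll (P := f6_un (M :: una)) (P' := A) (fun v => f6_mem) hCA
    simpa using this
  have h4 : ee E (f6_un (M :: una)) A ≤ bb E A := by
    rw [ee_comm hg.symm]
    apply ee_le_bb
    rw [Finset.disjoint_left]
    intro v hv hvU
    exact hAdis v (f6_mem.1 hvU) hv
  have h5 : xe E (M :: una) = xe E una + 2 * ee E (f6_un una) M := xe_cons hg.symm hdM hUm
  have h6 : ee E (f6_un una) M = ee E (f6_un una) M0 + ee E (f6_un una) (f6_un good) := by
    have e1 : M = M0 ∪ f6_un good := by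
      ext v
      rw [Finset.mem_union, hM v, hGm v]
    rw [e1]
    apply ee_union_right
    rw [Finset.disjoint_left]
    intro v hv hvG
    obtain ⟨B, hB, hvB⟩ := (hGm v).1 hvG
    exact Finset.disjoint_left.1 (hI B (List.mem_append_left _ hB)).2 hvB hv
  have h7 : xe E (good ++ una) = xe E good + xe E una + 2 * ee E (f6_un good) (f6_un una) :=
    xe_append hg.symm hd hGm hUm
  rw [ee_comm hg.symm] at h7
  omega

end Pool.Agent.H24S
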