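import Pool.Agent.Lib.H24S.F5
import Pool.Agent.Lib.H24S.F6

/-!
# H24S chunk F7: the final assembly is a correct step

`FinP n K E P A r brs its`. `rit = rootI`, `acc = accI`, `una = unaI`: `its` is a permutation of `rit ++ acc ++ una` (filters).
* `DH (n K) E r brs acc rit`: from `FinP`: `acc` items are not adjacent to `r`, so
  `eL E Q (r :: brs.flatten) = eL E Q brs.flatten`; `bL E Q > 0` because `P` is connected, `Q` nonempty and `r ∈ P` is not in
  `Q` (`cn_exists_arc`); `bL ≤ wL ≤ 5 n K`.
* `Ds = dList ..`: `dList_ok` for `M = mainV`, `dList_perm`, `main_ok` with `X = 124 n K`: tree of the main part with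
  `Cong .. 1 (124 n K)`, so `Cong .. K (K * (124 n K))` (multiply by `K`).
* parts: `mainV :: (una ++ comps E A)`: `kruskal_QT` (all nonempty; the union is `P`, connected).
* `xe_parts` with `good = (rit ++ acc)` as finite sets, `M0 = (r :: brs.flatten).toFinset`, `C = comps E A`: `3 xe ≤ 8 bb A + 5 xe(its)`,
  times `K`, with `hb`, `ixe`: `3 K xe ≤ nu P + 10 ww P ≤ 2 nu P` (`16 ww P ≤ nu P`), so `K xe ≤ nu P`.
* `StepOK.tree`: `join_tree`, `join_cong` with `X = Bd P = 150 K (n K) + 3 nu P` for the list of (part, tree):
  `(mainV, mainT)`, `(Q, spt E Q)` for `Q ∈ una` (`spt_tree`, `cong_ww`: `Y = K * 5 n K`), `(C, tr C)` for the components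
  of `A` (`Y = Bd C ≤ 150 K (n K) + 3 nu A`, as `nu K (E inside C) C ≤ nu K E A`, and `8 nu A ≤ nu P`).
  The inequalities `K xe + 2 Y ≤ 2 X` are clear. Here `nu P` is computed with `E`, which has all its arcs inside `P`.
* The order of the list in `finishD` is `kruskal ++ (mainT ++ una.flatMap spt)` followed by `(comps E A).flatMap tr`.
-/

set_option autoImplicit false

namespace Pool.Agent.H24S

/-- the items are the accepted ones, the ones at the root and the others -/
lemma items_perm (E : AS) (r : ℕ) (brs its : List VS) :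
    ((accI E r brs its ++ rootI E r its) ++ unaI E r brs its).Perm its := by
  have h1 : (its.filter (fun Q => adjS E Q r) ++ its.filter (fun Q => !adjS E Q r)).Perm its :=
    List.filter_append_perm _ _
  have h2 : ((its.filter (fun Q => !adjS E Q r)).filter (fun Q => accB E (r :: brs.flatten) Q) ++
      (its.filter (fun Q => !adjS E Q r)).filter (fun Q => !accB E (r :: brs.flatten) Q)).Perm
      (its.filter (fun Q => !adjS E Q r)) := List.filter_append_perm _ _
  have h3 : (its.filter (fun Q => !adjS E Q r)).filter (fun Q => accB E (r :: brs.flatten) Q) =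
      accI E r brs its := by
    unfold accI
    rw [List.filter_filter]
    congr 1
    funext Q
    rw [Bool.and_comm]
  have h4 : (its.filter (fun Q => !adjS E Q r)).filter (fun Q => !accB E (r :: brs.flatten) Q) =
      unaI E r brs its := by
    unfold unaI
    rw [List.filter_filter]
    congr 1
    funext Q
    rw [Bool.and_comm]
  rw [h3, h4] at h2
  have h5 : its.filter (fun Q => adjS E Q r) = rootI E r its := rfl
  rw [h5] at h1
  refine List.Perm.trans ?_ h1
  refine List.Perm.trans ?_ (List.Perm.append_left _ h2)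
  rw [List.perm_iff_count]
  intro a
  simp only [List.count_append]
  omega

lemma items_flatten (E : AS) (r : ℕ) (brs its : List VS) :
    (((accI E r brs its).flatten ++ (rootI E r its).flatten) ++
      (unaI E r brs its).flatten).Perm its.flatten := by
  have h := (items_perm E r brs its).flatten
  rwa [List.flatten_append, List.flatten_append] at h

lemma fin_perm {n K : ℕ} {E : AS} {P A : VS} {r : ℕ} {brs its : List VS}
    (h : FinP n K E P A r brs its) :
    (A ++ r :: (brs.flatten ++ (((accI E r brs its).flatten ++ (rootI E r its).flatten) ++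
      (unaI E r brs its).flatten))).Perm P := by
  refine List.Perm.trans ?_ h.perm
  exact List.Perm.append_left _ ((List.Perm.append_left _ (items_flatten E r brs its)).cons _)

lemma eL_cons_not_adj {E : AS} {Q B : VS} {r : ℕ} (h : adjS E Q r = false) :
    eL E Q (r :: B) = eL E Q B := by
  unfold eL
  congr 1
  apply List.filter_congr
  intro x hx
  by_cases h1 : x.1 ∈ Q
  · have h2 : x.2 ≠ r := by
      intro h2
      have h3 : adjS E Q r = true := adjS_iff.2 ⟨x.1, h1, by rw [← h2]; exact hx⟩
      rw [h3] at h
      exact absurd h (by decide)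
    simp [h1, h2]
  · simp [h1]

lemma fin_DH {n K : ℕ} {E : AS} {P : VS} (c : CtxL n K E P) {A : VS} {r : ℕ}
    {brs its : List VS} (h : FinP n K E P A r brs its) :
    DH (n * K) E r brs (accI E r brs its) (rootI E r its) := by
  have hp := fin_perm h
  have hnd := hp.nodup_iff.2 c.nP
  have hsym : ∀ x ∈ E, x.swap ∈ E := fun x hx =>
    List.mem_toFinset.1 (c.ctx.gr.symm x (List.mem_toFinset.2 hx))
  have hsub1 : (brs.flatten ++ (accI E r brs its).flatten ++ (rootI E r its).flatten).Sublist
      (A ++ r :: (brs.flatten ++ (((accI E r brs its).flatten ++ (rootI E r its).flatten) ++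
      (unaI E r brs its).flatten))) := by
    rw [List.append_assoc]
    refine List.Sublist.trans ?_ (List.sublist_append_right _ _)
    refine List.Sublist.trans ?_ (List.sublist_cons_self _ _)
    exact List.Sublist.append_left (List.sublist_append_left _ _) _
  have hnd1 := hnd.sublist hsub1
  have hacc : ∀ Q ∈ accI E r brs its, Q ∈ its ∧ adjS E Q r = false ∧
      bL E Q ≤ 4 * eL E Q (r :: brs.flatten) := by
    intro Q hQ
    unfold accI accB at hQ
    simp only [List.mem_filter, Bool.and_eq_true, Bool.not_eq_true', decide_eq_true_eq] at hQ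
    exact ⟨hQ.1, hQ.2.1, hQ.2.2⟩
  have hrt : ∀ Q ∈ rootI E r its, Q ∈ its ∧ adjS E Q r = true := by
    intro Q hQ
    unfold rootI at hQ
    exact List.mem_filter.1 hQ
  have hrP : r ∈ P := hp.mem_iff.1 (by simp)
  refine ⟨⟨c.nE, hsym, ?_, ?_, ?_, ?_, ?_⟩, hnd1, h.bcn, ?_, ?_⟩
  · exact hnd1.sublist (List.sublist_append_left _ _)
  · exact fun Q hQ => (h.icn Q (hacc Q hQ).1).1
  · intro Q hQ
    have h1 := (h.icn Q (hacc Q hQ).1).1
    have hQP : ∀ v ∈ Q, v ∈ P := by
      intro v hv
      refine h.perm.mem_iff.1 ?_
      simp only [List.mem_append, List.mem_cons, List.mem_flatten]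
      exact Or.inr (Or.inr (Or.inr ⟨Q, (hacc Q hQ).1, hv⟩))
    have hrQ : r ∉ Q := by
      intro hr
      have h0 := h.perm.nodup_iff.2 c.nP
      rw [List.nodup_append] at h0
      have h00 := h0.2.1
      rw [List.nodup_cons] at h00
      exact h00.1 (List.mem_append_right _ (List.mem_flatten.2 ⟨Q, (hacc Q hQ).1, hr⟩))
    rw [bL_eq c.nE, bb_eq_ee c.ctx.gr.inP' Q.toFinset]
    have hi : P.toFinset ∩ Q.toFinset = Q.toFinset := by
      ext v
      simp only [Finset.mem_inter, List.mem_toFinset]
      exact ⟨fun h => h.2, fun h => ⟨hQP v h, h⟩⟩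
    have h2 := cn_exists_arc (S := Q.toFinset) c.ctx.cn
      (by
        rw [hi]
        obtain ⟨v, hv⟩ := List.exists_mem_of_ne_nil Q h1
        exact ⟨v, List.mem_toFinset.2 hv⟩)
      ⟨r, by simp [hrP, hrQ]⟩
    rwa [hi] at h2
  · intro Q hQ
    have h1 := (h.icn Q (hacc Q hQ).1).2.2
    have h2 : bL E Q ≤ wL E Q := by
      rw [bL_eq c.nE, wL_eq c.nE]
      exact bb_le_ww _
    exact h2.trans h1
  · intro Q hQ
    have h1 := hacc Q hQ
    rw [← eL_cons_not_adj h1.2.1]
    exact h1.2.2
  · intro Q hQ
    have h1 := h.icn Q (hacc Q hQ).1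
    exact ⟨h1.2.1, h1.2.2⟩
  · intro Q hQ
    have h1 := h.icn Q (hrt Q hQ).1
    exact ⟨h1.1, h1.2.1, (hrt Q hQ).2, h1.2.2⟩

theorem finish_ok {n K : ℕ} {E : AS} {P : VS} (c : CtxL n K E P) {A : VS} {r : ℕ}
    {brs its : List VS} (h : FinP n K E P A r brs its) :
    StepOK n K E P (finish (5 * (n * K)) E A r brs its) := by
  have hDH := fin_DH c h
  have hp := fin_perm h
  have hnd := hp.nodup_iff.2 c.nP
  have hsym : ∀ x ∈ E, x.swap ∈ E := fun x hx =>
    List.mem_toFinset.1 (c.ctx.gr.symm x (List.mem_toFinset.2 hx))
  have hsymF : ∀ x ∈ E.toFinset, x.swap ∈ E.toFinset := c.ctx.gr.symm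
  have hitp := items_perm E r brs its
  obtain ⟨acc, hacc⟩ : ∃ acc, acc = accI E r brs its := ⟨_, rfl⟩
  obtain ⟨rit, hrit⟩ : ∃ rit, rit = rootI E r its := ⟨_, rfl⟩
  obtain ⟨una, huna⟩ : ∃ una, una = unaI E r brs its := ⟨_, rfl⟩
  have hunaI : ∀ Q ∈ una, Q ∈ its ∧ 4 * eL E Q (r :: brs.flatten) < bL E Q := by
    intro Q hQ
    rw [huna] at hQ
    unfold unaI accB at hQ
    simp only [List.mem_filter, Bool.and_eq_true, Bool.not_eq_true', decide_eq_false_iff_not,
      not_le] at hQ
    exact ⟨hQ.1, hQ.2.2⟩
  unfold finish finishD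
  rw [← hacc, ← hrit] at hDH
  rw [← hacc, ← hrit, ← huna] at hp hnd hitp
  rw [← hacc, ← hrit, ← huna]
  clear hacc hrit huna
  obtain ⟨Ds, hDs⟩ : ∃ Ds, Ds = dList E (5 * (n * K)) brs acc rit := ⟨_, rfl⟩
  have hDperm := dList_perm hDH
  have hDok := dList_ok hDH (mainV r Ds).toFinset
  rw [← hDs] at hDperm hDok ⊢
  clear hDs
  have hMperm : (mainV r Ds).Perm (r :: (brs.flatten ++ acc.flatten ++ rit.flatten)) :=
    hDperm.cons r
  have hMnd : (mainV r Ds).Nodup := by
    refine hMperm.nodup_iff.2 (hnd.sublist ?_)
    rw [List.append_assoc]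
    refine List.Sublist.trans ?_ (List.sublist_append_right _ _)
    exact (List.Sublist.append_left (List.sublist_append_left _ _) _).cons_cons _
  have hmain := main_ok hsym (X := 124 * (n * K)) hMnd hDok
  have hAnd : A.Nodup := hnd.sublist (List.sublist_append_left _ _)
  have hcp := comps_perm E A
  have hcs := comps_spec hsym hAnd
  have hcx := comps_xe hsym hAnd
  have hpart : (finParts E A r Ds una).flatten.Perm P := by
    refine List.Perm.trans ?_ hp
    unfold finParts
    rw [List.flatten_cons, List.flatten_append, List.perm_iff_count]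
    intro a
    have h1 := (List.perm_iff_count.1 hMperm) a
    have h2 := (List.perm_iff_count.1 hcp) a
    simp only [List.count_append, List.count_cons] at h1 h2 ⊢
    omega
  have hpnd : (finParts E A r Ds una).flatten.Nodup := hpart.nodup_iff.2 c.nP
  have hpF : (finParts E A r Ds una).flatten.toFinset = P.toFinset := by
    ext v
    rw [List.mem_toFinset, List.mem_toFinset]
    exact hpart.mem_iff
  have hpne : ∀ Q ∈ finParts E A r Ds una, Q ≠ [] := by
    intro Q hQ
    unfold finParts at hQ
    rcases List.mem_cons.1 hQ with rfl | hQ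
    · unfold mainV
      exact List.cons_ne_nil _ _
    · rcases List.mem_append.1 hQ with hQ | hQ
      · exact (h.icn Q (hunaI Q hQ).1).1
      · exact (hcs Q hQ).1
  have hQT := kruskal_QT E hpnd hpne (by unfold finParts; exact List.cons_ne_nil _ _)
    (by rw [hpF]; exact c.ctx.cn)
  have hAP : ∀ v ∈ A, v ∈ P := fun v hv => hp.mem_iff.1 (List.mem_append_left _ hv)
  have hCA : ∀ Q ∈ comps E A, ∀ v ∈ Q, v ∈ A := fun Q hQ v hv =>
    hcp.mem_iff.1 (List.mem_flatten.2 ⟨Q, hQ, hv⟩)
  -- the number of arcs between parts
  have hxe : 3 * xe E.toFinset ((finParts E A r Ds una).map List.toFinset) ≤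
      8 * bb E.toFinset A.toFinset + 5 * xe E.toFinset (its.map List.toFinset) := by
    have hx := xe_parts (E := E.toFinset) (P := P.toFinset) (A := A.toFinset)
      (M0 := (r :: brs.flatten).toFinset) (M := (mainV r Ds).toFinset) c.ctx.gr
      ((acc ++ rit).map List.toFinset) (una.map List.toFinset)
      ((comps E A).map List.toFinset)
      (by
        intro v hv
        rw [List.mem_toFinset] at hv ⊢
        exact hAP v hv)
      (by
        intro v hv
        rw [List.mem_toFinset] at hv ⊢
        refine hp.mem_iff.1 ?_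
        simp only [List.mem_cons, List.mem_append] at hv ⊢
        tauto)
      (by
        rw [Finset.disjoint_left]
        intro v hv hv'
        rw [List.mem_toFinset] at hv hv'
        rw [List.nodup_append] at hnd
        refine hnd.2.2 v hv v ?_ rfl
        simp only [List.mem_cons, List.mem_append] at hv' ⊢
        tauto)
      (by
        rw [← List.map_append]
        apply pairwise_of_flatten
        rw [List.flatten_append, List.flatten_append]
        refine hnd.sublist ?_
        refine List.Sublist.trans ?_ (List.sublist_append_right _ _)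
        refine List.Sublist.trans ?_ (List.sublist_cons_self _ _)
        exact List.sublist_append_right _ _)
      (by
        intro Q hQ
        rw [← List.map_append, List.mem_map] at hQ
        obtain ⟨q, hq, rfl⟩ := hQ
        have hqi : ∀ v ∈ q, v ∈ acc.flatten ++ rit.flatten ++ una.flatten := by
          intro v hv
          rw [← List.flatten_append, ← List.flatten_append]
          exact List.mem_flatten.2 ⟨q, hq, hv⟩
        rw [List.nodup_append] at hnd
        obtain ⟨-, hnd2, hnd3⟩ := hnd
        rw [List.nodup_cons, List.nodup_append] at hnd2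
        obtain ⟨hnd4, -, -, hnd5⟩ := hnd2
        constructor
        · rw [Finset.disjoint_left]
          intro v hv hv'
          rw [List.mem_toFinset] at hv hv'
          exact hnd3 v hv' v (List.mem_cons_of_mem _ (List.mem_append_right _ (hqi v hv))) rfl
        · rw [Finset.disjoint_left]
          intro v hv hv'
          rw [List.mem_toFinset] at hv hv'
          rcases List.mem_cons.1 hv' with rfl | hv'
          · exact hnd4 (List.mem_append_right _ (hqi v hv))
          · exact hnd5 v hv' v (hqi v hv) rfl)
      (by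
        intro v
        rw [← List.map_append, ← mem_map_toFinset, List.mem_toFinset, List.mem_toFinset,
          List.mem_toFinset, ← hp.mem_iff]
        simp only [List.mem_cons, List.mem_append, List.flatten_append]
        tauto)
      (by
        intro v
        rw [← mem_map_toFinset, List.mem_toFinset, List.mem_toFinset, hMperm.mem_iff]
        simp only [List.mem_cons, List.mem_append, List.flatten_append]
        tauto)
      (pairwise_of_flatten (hcp.nodup_iff.2 hAnd))
      (by
        intro v
        rw [← mem_map_toFinset, List.mem_toFinset]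
        exact hcp.mem_iff.symm)
      hcx
      (by
        intro Q hQ
        rw [List.mem_map] at hQ
        obtain ⟨q, hq, rfl⟩ := hQ
        have h1 := (hunaI q hq).2
        rwa [eL_eq c.nE, bL_eq c.nE] at h1)
    have e1 : (finParts E A r Ds una).map List.toFinset = (mainV r Ds).toFinset ::
        (una.map List.toFinset ++ (comps E A).map List.toFinset) := by
      unfold finParts
      rw [List.map_cons, List.map_append]
    rw [e1]
    refine hx.trans (Nat.add_le_add_left (Nat.mul_le_mul_left _ (le_of_eq ?_)) _)
    rw [← List.map_append]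
    exact xe_perm (hitp.map _)
  have hb : 8 * (K * bb E.toFinset A.toFinset) ≤ nu K E.toFinset P.toFinset := by
    have := h.hb
    rwa [bL_eq c.nE, nL_eq c.nE K c.nP] at this
  have hAn : 8 * nu K E.toFinset A.toFinset ≤ nu K E.toFinset P.toFinset := by
    have := h.hA
    rwa [nL_eq c.nE K hAnd, nL_eq c.nE K c.nP] at this
  have hix : K * xe E.toFinset (its.map List.toFinset) ≤ 2 * ww E.toFinset P.toFinset := by
    have := h.ixe
    rwa [wL_eq c.nE] at this
  have hnuw : 16 * ww E.toFinset P.toFinset ≤ nu K E.toFinset P.toFinset := by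
    unfold nu
    exact Nat.mul_le_mul_left _ (Nat.le_add_left _ _)
  have hKx : K * xe E.toFinset ((finParts E A r Ds una).map List.toFinset) ≤
      nu K E.toFinset P.toFinset := by
    have h1 := Nat.mul_le_mul_left K hxe
    nlinarith [h1, hb, hix, hnuw]
  have hEP : E.toFinset.filter (fun x => x.1 ∈ P.toFinset ∧ x.2 ∈ P.toFinset) = E.toFinset := by
    rw [Finset.filter_eq_self]
    intro x hx
    exact ⟨c.ctx.gr.inP x hx, c.ctx.gr.inP' x hx⟩
  have hBdP : Bd n K E.toFinset P.toFinset =
      150 * K * (n * K) + 3 * nu K E.toFinset P.toFinset := by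
    unfold Bd
    rw [hEP]
  refine ⟨?_, ?_, ?_⟩
  · exact hcp.nodup_iff.2 hAnd
  · intro Q hQ
    have h1 := hcs Q hQ
    refine ⟨h1.1, fun v hv => hAP v (hCA Q hQ v hv), ?_, h1.2.1⟩
    have h2 : Q.length ≤ (comps E A).flatten.length :=
      (List.sublist_flatten_of_mem hQ).length_le
    have h3 := hcp.length_eq
    have h4 := hp.length_eq
    simp only [List.length_append, List.length_cons] at h4
    omega
  · intro tr htr
    obtain ⟨TL, hTL⟩ : ∃ TL : List (Finset ℕ × List (ℕ × ℕ)),
        TL = ((mainV r Ds).toFinset, mainT E r Ds) ::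
          (una.map (fun Q => (Q.toFinset, spt E Q)) ++
            (comps E A).map (fun Q => (Q.toFinset, tr Q))) := ⟨_, rfl⟩
    have e1 : TL.map (fun a => a.1) = (finParts E A r Ds una).map List.toFinset := by
      rw [hTL]
      unfold finParts
      rw [List.map_cons, List.map_append, List.map_cons, List.map_append, List.map_map,
        List.map_map]
      rfl
    have e2 : ((kruskal E (finParts E A r Ds una)).2 ++ (mainT E r Ds ++
        una.flatMap fun Q => spt E Q)) ++ (comps E A).flatMap tr =
        (kruskal E (finParts E A r Ds una)).2 ++ TL.flatMap fun a => a.2 := by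
      rw [hTL, List.flatMap_cons, List.flatMap_append, List.flatMap_map, List.flatMap_map]
      simp only [List.append_assoc]
    have hTd : TL.Pairwise fun a b => Disjoint a.1 b.1 := by
      have := pairwise_of_flatten hpnd
      rw [← e1, List.pairwise_map] at this
      exact this
    have hTP : ∀ v, v ∈ P.toFinset ↔ ∃ a ∈ TL, v ∈ a.1 := by
      intro v
      rw [← hpF, List.mem_toFinset, mem_map_toFinset, ← e1]
      simp only [List.mem_map]
      constructor
      · rintro ⟨A', ⟨a, ha, rfl⟩, hv⟩
        exact ⟨a, ha, hv⟩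
      · rintro ⟨a, ha, hv⟩
        exact ⟨_, ⟨a, ha, rfl⟩, hv⟩
    have hune : ∀ Q ∈ una, Q.Nodup ∧ Q ≠ [] ∧ Cn E.toFinset Q.toFinset ∧
        wL E Q ≤ 5 * (n * K) := by
      intro Q hQ
      have h1 := h.icn Q (hunaI Q hQ).1
      refine ⟨?_, h1.1, h1.2.1, h1.2.2⟩
      have h2 : Q.Sublist una.flatten := List.sublist_flatten_of_mem hQ
      refine (hnd.sublist ?_).sublist h2
      refine List.Sublist.trans ?_ (List.sublist_append_right _ _)
      refine List.Sublist.trans ?_ (List.sublist_cons_self _ _)
      refine List.Sublist.trans ?_ (List.sublist_append_right _ _)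
      exact List.sublist_append_right _ _
    have hTT : ∀ a ∈ TL, Tree E.toFinset a.1 a.2 := by
      intro a ha
      rw [hTL] at ha
      rcases List.mem_cons.1 ha with rfl | ha
      · exact hmain.1
      · rcases List.mem_append.1 ha with ha | ha
        · obtain ⟨Q, hQ, rfl⟩ := List.mem_map.1 ha
          have h1 := hune Q hQ
          exact spt_tree E h1.1 h1.2.1 h1.2.2.1
        · obtain ⟨Q, hQ, rfl⟩ := List.mem_map.1 ha
          exact (htr Q hQ).1
    have hTne : ∀ a ∈ TL, a.1.Nonempty := by
      intro a ha
      have h1 : a.1 ∈ (finParts E A r Ds una).map List.toFinset := by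
        rw [← e1]
        exact List.mem_map.2 ⟨a, ha, rfl⟩
      obtain ⟨Q, hQ, hQa⟩ := List.mem_map.1 h1
      obtain ⟨v, hv⟩ := List.exists_mem_of_ne_nil Q (hpne Q hQ)
      exact ⟨v, by rw [← hQa]; exact List.mem_toFinset.2 hv⟩
    have hQT' : QT E.toFinset (TL.map fun a => a.1) (kruskal E (finParts E A r Ds una)).2 := by
      rw [e1]
      exact hQT
    show Tree E.toFinset P.toFinset (((kruskal E (finParts E A r Ds una)).2 ++ (mainT E r Ds ++
        una.flatMap fun Q => spt E Q)) ++ (comps E A).flatMap tr) ∧
      Cong E.toFinset P.toFinset (((kruskal E (finParts E A r Ds una)).2 ++ (mainT E r Ds ++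
        una.flatMap fun Q => spt E Q)) ++ (comps E A).flatMap tr) K _
    rw [e2]
    constructor
    · exact join_tree TL hTd hTP hTne hTT _ hQT'
    · refine join_cong hsymF TL (by rw [hTL]; exact List.cons_ne_nil _ _) hTd hTP hTT _ K _ ?_
      intro a ha
      rw [e1, hBdP]
      rw [hTL] at ha
      rcases List.mem_cons.1 ha with rfl | ha
      · refine ⟨K * (124 * (n * K)), ?_, ?_⟩
        · intro t0 S hS
          have := hmain.2 t0 S hS
          rw [one_mul] at this
          exact Nat.mul_le_mul_left _ this
        · nlinarith [hKx, Nat.zero_le (K * (n * K)), Nat.zero_le (nu K E.toFinset P.toFinset)]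
      · rcases List.mem_append.1 ha with ha | ha
        · obtain ⟨Q, hQ, rfl⟩ := List.mem_map.1 ha
          have h1 := hune Q hQ
          refine ⟨K * (5 * (n * K)), ?_, ?_⟩
          · refine cong_ww _ _ _ _ (Nat.mul_le_mul_left _ ?_)
            rw [← wL_eq c.nE]
            exact h1.2.2.2
          · nlinarith [hKx, Nat.zero_le (K * (n * K)), Nat.zero_le (nu K E.toFinset P.toFinset)]
        · obtain ⟨Q, hQ, rfl⟩ := List.mem_map.1 ha
          refine ⟨_, (htr Q hQ).2, ?_⟩
          have h2 : nu K (E.toFinset.filter fun x => x.1 ∈ Q.toFinset ∧ x.2 ∈ Q.toFinset)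
              Q.toFinset ≤ nu K E.toFinset A.toFinset := by
            have h3 : nu K (E.toFinset.filter fun x => x.1 ∈ Q.toFinset ∧ x.2 ∈ Q.toFinset)
                Q.toFinset ≤ nu K E.toFinset Q.toFinset := by
              unfold nu ww
              refine Nat.mul_le_mul_left _ (Nat.add_le_add_left (Finset.card_le_card ?_) _)
              intro x hx
              rw [Finset.mem_filter] at hx ⊢
              exact ⟨(Finset.mem_filter.1 hx.1).1, hx.2⟩
            refine h3.trans (nu_mono K ?_)
            intro v hv
            rw [List.mem_toFinset] at hv ⊢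
            exact hCA Q hQ v hv
          unfold Bd
          nlinarith [hKx, h2, hAn, Nat.zero_le (K * (n * K)),
            Nat.zero_le (nu K E.toFinset P.toFinset)]

end Pool.Agent.H24S
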