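import Pool.Agent.Lib.H24S.B3
import Pool.Agent.Lib.H24S.C1

/-!
# H24S chunk G1: one growth step

State `(F, T)` of the growth from `v` inside `U`. `growStep`: if `wL E T < k5` and some `x ∈ T` outside `F` has
`deg x ≤ K * (number of neighbours of x in U outside T)`, then `x` is added to `F` and its new
neighbours (`fresh`) are added to `T` one by one (`conq`) until `wL E T ≥ k5`.

* `conq_spec` (induction on `l`, `wL_cons`): the result is `m.reverse ++ T` with `m` a prefix of `l`; if its
  weight is `< k5` then `m = l`; its weight is `< k5 + n` if `wL E T < k5`.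
* `growStep_inv`: nothing to prove if the state does not change. Otherwise the new state is
  `(x :: F, T')`, `T' = m.reverse ++ T`, `m` a prefix of `fresh`. `cF`: `x` has a neighbour in `F` (`leaf`) or
  `F = []` (then `x :: F = [x]`): `cn_insert`, `cn_singleton`. `leaf`: new vertices of `T'` are neighbours of
  `x`; old ones have a neighbour in `F` or are equal to `v = x` (case `F = []`, `T = [v]`). `wF`:
  `wL (x :: F) = wL [x] + wL F ≤ n + K |T|`. `lt`: if `wL T' < k5`, all fresh vertices were added:
  `wL (x :: F) ≤ K |fresh| + K |T| = K |T'|`, and all neighbours of `x` in `U` are in `T'`.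
-/

set_option autoImplicit false

namespace Pool.Agent.H24S

/-- hypotheses for the growth -/
structure GHyp (n K k5 : ℕ) (E : AS) (U : VS) : Prop where
  nE : E.Nodup
  sym : ∀ x ∈ E, x.swap ∈ E
  irr : ∀ x ∈ E, x.1 ≠ x.2
  nU : U.Nodup
  deg : ∀ v ∈ U, 0 < wL E [v]
  deg' : ∀ v ∈ U, wL E [v] ≤ n
  hk : n < k5

/-- invariant of the growth from `v` inside `U` -/
structure GInv (n K k5 : ℕ) (E : AS) (U : VS) (v : ℕ) (s : VS × VS) : Prop where
  ndF : s.1.Nodup
  ndT : s.2.Nodup
  FT : ∀ x ∈ s.1, x ∈ s.2
  TU : ∀ x ∈ s.2, x ∈ U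
  vT : v ∈ s.2
  base : s.1 = [] → s.2 = [v]
  cF : s.1 ≠ [] → Cn E.toFinset s.1.toFinset
  leaf : s.1 ≠ [] → ∀ t ∈ s.2, t ∉ s.1 → ∃ f ∈ s.1, (f, t) ∈ E
  wT : wL E s.2 < k5 + n
  wF : wL E s.1 ≤ K * s.2.length + n
  lt : wL E s.2 < k5 → wL E s.1 ≤ K * s.2.length ∧ ∀ x ∈ s.1, ∀ u ∈ U, (x, u) ∈ E → u ∈ s.2

lemma g1_const (E : AS) (k5 : ℕ) (T l : VS) (h : k5 ≤ wL E T) : conq E k5 T l = T := by
  induction l with
  | nil => rfl
  | cons u l ih =>
    unfold conq at ih ⊢
    rw [List.foldl_cons, if_pos h]
    exact ih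

lemma conq_spec {n : ℕ} (E : AS) (k5 : ℕ) (T l : VS) (hT : T.Nodup) (hl : l.Nodup)
    (hd : ∀ u ∈ l, u ∉ T) (hn : ∀ u ∈ l, wL E [u] ≤ n) (hw : wL E T < k5) :
    ∃ m, m <+: l ∧ conq E k5 T l = m.reverse ++ T ∧ wL E (conq E k5 T l) < k5 + n ∧
      (wL E (conq E k5 T l) < k5 → m = l) := by
  induction l generalizing T with
  | nil =>
    refine ⟨[], List.prefix_rfl, rfl, ?_, fun _ => rfl⟩
    change wL E T < k5 + n
    omega
  | cons u l ih =>
    have huT : u ∉ T := hd u List.mem_cons_self
    rw [List.nodup_cons] at hl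
    have h1 : conq E k5 T (u :: l) = conq E k5 (u :: T) l := by
      unfold conq
      rw [List.foldl_cons, if_neg (by omega)]
    rw [h1]
    by_cases hc : wL E (u :: T) < k5
    · obtain ⟨m, hm1, hm2, hm3, hm4⟩ := ih (u :: T) (List.nodup_cons.2 ⟨huT, hT⟩) hl.2
        (by
          intro y hy hy'
          rcases List.mem_cons.1 hy' with h | h
          · rw [h] at hy
            exact hl.1 hy
          · exact hd y (List.mem_cons_of_mem _ hy) h)
        (fun y hy => hn y (List.mem_cons_of_mem _ hy)) hc
      refine ⟨u :: m, ?_, ?_, hm3, ?_⟩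
      · rw [List.cons_prefix_cons]
        exact ⟨rfl, hm1⟩
      · rw [hm2]
        simp
      · intro h
        rw [hm4 h]
    · have h2 : conq E k5 (u :: T) l = u :: T := g1_const E k5 _ l (by omega)
      rw [h2]
      refine ⟨[u], ?_, ?_, ?_, ?_⟩
      · rw [List.cons_prefix_cons]
        exact ⟨rfl, List.nil_prefix⟩
      · simp
      · have h3 := wL_cons E huT
        have h4 := hn u List.mem_cons_self
        omega
      · intro h
        exact absurd h hc

lemma g1_wL_nil (E : AS) : wL E [] = 0 := by
  simp [wL]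

lemma ginv_init {n K k5 : ℕ} {E : AS} {U : VS} (h : GHyp n K k5 E U) {v : ℕ} (hv : v ∈ U) :
    GInv n K k5 E U v ([], [v]) := by
  refine ⟨List.nodup_nil, List.nodup_singleton v, ?_, ?_, List.mem_singleton.2 rfl, ?_, ?_, ?_,
    ?_, ?_, ?_⟩
  · intro x hx
    exact absurd hx List.not_mem_nil
  · intro x hx
    rw [List.mem_singleton.1 hx]
    exact hv
  · intro _
    rfl
  · intro h1
    exact absurd rfl h1
  · intro h1
    exact absurd rfl h1
  · have h1 := h.deg' v hv
    have h2 := h.hk
    change wL E [v] < k5 + n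
    omega
  · change wL E [] ≤ _
    rw [g1_wL_nil]
    exact Nat.zero_le _
  · intro _
    refine ⟨?_, ?_⟩
    · change wL E [] ≤ _
      rw [g1_wL_nil]
      exact Nat.zero_le _
    · intro x hx
      exact absurd hx List.not_mem_nil

lemma g1_fresh {E : AS} {U T : VS} {x u : ℕ} :
    u ∈ fresh E U T x ↔ u ∈ U ∧ (x, u) ∈ E ∧ u ∉ T := by
  unfold fresh
  rw [List.mem_filter]
  simp

theorem growStep_inv {n K k5 : ℕ} {E : AS} {U : VS} (h : GHyp n K k5 E U) {v : ℕ} (hv : v ∈ U)
    {s : VS × VS} (hs : GInv n K k5 E U v s) : GInv n K k5 E U v (growStep K k5 E U s) := by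
  unfold growStep
  by_cases hw : k5 ≤ wL E s.2
  · rw [if_pos hw]
    exact hs
  · rw [if_neg hw]
    rcases hf : (dif s.2 s.1).find?
      (fun x => decide (wL E [x] ≤ K * (fresh E U s.2 x).length)) with _ | x
    · exact hs
    · have hx1 := List.mem_of_find?_eq_some hf
      rw [mem_dif] at hx1
      obtain ⟨hxT, hxF⟩ := hx1
      have hx2 : wL E [x] ≤ K * (fresh E U s.2 x).length := by
        have := List.find?_some hf
        simpa using this
      have hwlt : wL E s.2 < k5 := by omega
      obtain ⟨hlt1, hlt2⟩ := hs.lt hwlt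
      have hxU := hs.TU x hxT
      have hfn : (fresh E U s.2 x).Nodup := by
        unfold fresh
        exact h.nU.filter _
      obtain ⟨m, hm1, hm2, hm3, hm4⟩ := conq_spec (n := n) E k5 s.2 (fresh E U s.2 x) hs.ndT hfn
        (fun u hu => (g1_fresh.1 hu).2.2) (fun u hu => h.deg' u (g1_fresh.1 hu).1) hwlt
      have hmf : ∀ u ∈ m, u ∈ fresh E U s.2 x := fun u hu => hm1.subset hu
      have hmem : ∀ u, u ∈ conq E k5 s.2 (fresh E U s.2 x) ↔ u ∈ m ∨ u ∈ s.2 := by
        intro u
        rw [hm2, List.mem_append, List.mem_reverse]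
      have hxc : wL E (x :: s.1) = wL E [x] + wL E s.1 := wL_cons E hxF
      have hlen : (conq E k5 s.2 (fresh E U s.2 x)).length = m.length + s.2.length := by
        rw [hm2, List.length_append, List.length_reverse]
      refine ⟨?_, ?_, ?_, ?_, ?_, ?_, ?_, ?_, hm3, ?_, ?_⟩
      · exact List.nodup_cons.2 ⟨hxF, hs.ndF⟩
      · change (conq E k5 s.2 (fresh E U s.2 x)).Nodup
        rw [hm2, List.nodup_append]
        refine ⟨List.nodup_reverse.2 (hfn.sublist hm1.sublist), hs.ndT, ?_⟩
        intro a ha b hb hab
        rw [List.mem_reverse] at ha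
        rw [← hab] at hb
        exact (g1_fresh.1 (hmf a ha)).2.2 hb
      · intro y hy
        change y ∈ conq E k5 s.2 (fresh E U s.2 x)
        rw [hmem]
        rcases List.mem_cons.1 hy with hy | hy
        · rw [hy]
          exact Or.inr hxT
        · exact Or.inr (hs.FT y hy)
      · intro y hy
        change y ∈ conq E k5 s.2 (fresh E U s.2 x) at hy
        rw [hmem] at hy
        rcases hy with hy | hy
        · exact (g1_fresh.1 (hmf y hy)).1
        · exact hs.TU y hy
      · change v ∈ conq E k5 s.2 (fresh E U s.2 x)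
        rw [hmem]
        exact Or.inr hs.vT
      · intro hnil
        exact absurd hnil (List.cons_ne_nil _ _)
      · intro _
        change Cn E.toFinset (x :: s.1).toFinset
        by_cases hF : s.1 = []
        · rw [hF]
          exact cn_singleton x
        · obtain ⟨f, hf1, hf2⟩ := hs.leaf hF x hxT hxF
          rw [List.toFinset_cons]
          refine cn_insert ?_ (hs.cF hF) (List.mem_toFinset.2 hf1) (List.mem_toFinset.2 hf2)
          intro y hy
          exact List.mem_toFinset.2 (h.sym y (List.mem_toFinset.1 hy))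
      · intro _ t ht htF
        change t ∈ conq E k5 s.2 (fresh E U s.2 x) at ht
        rw [hmem] at ht
        rcases ht with ht | ht
        · exact ⟨x, List.mem_cons_self, (g1_fresh.1 (hmf t ht)).2.1⟩
        · have h1 : t ∉ s.1 := fun h' => htF (List.mem_cons_of_mem _ h')
          have h2 : t ≠ x := by
            intro h'
            apply htF
            rw [h']
            exact List.mem_cons_self
          by_cases hF : s.1 = []
          · have h3 := hs.base hF
            rw [h3] at ht hxT
            exact absurd ((List.mem_singleton.1 ht).trans (List.mem_singleton.1 hxT).symm) h2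
          · obtain ⟨f, hf1, hf2⟩ := hs.leaf hF t ht h1
            exact ⟨f, List.mem_cons_of_mem _ hf1, hf2⟩
      · change wL E (x :: s.1) ≤ K * (conq E k5 s.2 (fresh E U s.2 x)).length + n
        rw [hxc, hlen]
        have h1 := h.deg' x hxU
        have h2 : K * s.2.length ≤ K * (m.length + s.2.length) :=
          Nat.mul_le_mul_left K (Nat.le_add_left _ _)
        omega
      · intro hlt
        change wL E (conq E k5 s.2 (fresh E U s.2 x)) < k5 at hlt
        have hmeq := hm4 hlt
        refine ⟨?_, ?_⟩
        · change wL E (x :: s.1) ≤ K * (conq E k5 s.2 (fresh E U s.2 x)).length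
          rw [hxc, hlen, hmeq, Nat.mul_add]
          omega
        · intro y hy u hu hyu
          change u ∈ conq E k5 s.2 (fresh E U s.2 x)
          rw [hmem]
          rcases List.mem_cons.1 hy with hy | hy
          · by_cases huT : u ∈ s.2
            · exact Or.inr huT
            · left
              rw [hmeq, g1_fresh]
              rw [hy] at hyu
              exact ⟨hu, hyu, huT⟩
          · exact Or.inr (hlt2 y hy u hu hyu)

end Pool.Agent.H24S
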