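import Pool.Agent.Lib.H24S.G1

/-!
# H24S chunk G2: the result of the growth from `v`

`GInv` holds for `grow K k5 E U v` (induction on the number of steps). A step that changes the state
increases `|F|` by one, and `F` is a duplicate free sublist of `U`, so `|F| ≤ |U|`; as the iteration of
`growStep` is `|U|` times, the last state `s` is a fixed point of `growStep` or has `|F| = |U|`, and then `T`
and `F` have the same elements, `dif T F = []`, and `s` is a fixed point too. If `wL E T < k5`, the
`find?` has failed: every `x ∈ T` outside `F` has `K |fresh x| < deg x`; and `x ∈ F` has no fresh neighbours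
(`GInv.lt`). Summing over `x ∈ T` (`ee_sum_left`, `wL_sum`): `K * eL E T (dif U T) ≤ wL E T`, as
`eL E [x] (dif U T) = |fresh E U T x|`.
-/

set_option autoImplicit false

namespace Pool.Agent.H24S

lemma g2_iter {n K k5 : ℕ} {E : AS} {U : VS} (h : GHyp n K k5 E U) {v : ℕ} (hv : v ∈ U) (j : ℕ) :
    GInv n K k5 E U v ((growStep K k5 E U)^[j] ([], [v])) := by
  induction j with
  | zero => exact ginv_init h hv
  | succ j ih =>
    rw [Function.iterate_succ_apply']
    exact growStep_inv h hv ih

theorem grow_inv {n K k5 : ℕ} {E : AS} {U : VS} (h : GHyp n K k5 E U) {v : ℕ} (hv : v ∈ U) :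
    GInv n K k5 E U v (grow K k5 E U v) := g2_iter h hv _

/-- a step does nothing or adds one element to the core -/
lemma g2_step (K k5 : ℕ) (E : AS) (U : VS) (s : VS × VS) :
    growStep K k5 E U s = s ∨ (growStep K k5 E U s).1.length = s.1.length + 1 := by
  unfold growStep
  split_ifs with h1
  · exact Or.inl rfl
  · cases hf : (dif s.2 s.1).find? (fun x => decide (wL E [x] ≤ K * (fresh E U s.2 x).length)) with
    | none => exact Or.inl rfl
    | some x => exact Or.inr (by simp)

lemma g2_len {K k5 : ℕ} {E : AS} {U : VS} {v : ℕ} (j : ℕ) :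
    growStep K k5 E U ((growStep K k5 E U)^[j] ([], [v])) = (growStep K k5 E U)^[j] ([], [v]) ∨
      ((growStep K k5 E U)^[j] ([], [v])).1.length = j := by
  induction j with
  | zero => exact Or.inr rfl
  | succ j ih =>
    rw [Function.iterate_succ_apply']
    rcases ih with h1 | h1
    · left
      rw [h1, h1]
    · rcases g2_step K k5 E U ((growStep K k5 E U)^[j] ([], [v])) with h2 | h2
      · left
        rw [h2, h2]
      · right
        rw [h2, h1]

lemma g2_fix {n K k5 : ℕ} {E : AS} {U : VS} (h : GHyp n K k5 E U) {v : ℕ} (hv : v ∈ U) :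
    growStep K k5 E U (grow K k5 E U v) = grow K k5 E U v := by
  rcases g2_len (K := K) (k5 := k5) (E := E) (U := U) (v := v) U.length with h1 | h1
  · exact h1
  · have hI := grow_inv h hv
    change (grow K k5 E U v).1.length = U.length at h1
    generalize grow K k5 E U v = s at hI h1 ⊢
    have hsub : s.1.Subperm U := (List.subperm_of_subset hI.ndF fun x hx => hI.TU x (hI.FT x hx))
    have hperm : s.1.Perm U := hsub.perm_of_length_le h1.ge
    have hd : dif s.2 s.1 = [] := by
      unfold dif
      rw [List.filter_eq_nil_iff]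
      intro a ha
      have : a ∈ s.1 := hperm.mem_iff.2 (hI.TU a ha)
      simp [this]
    unfold growStep
    rw [hd]
    simp

lemma g2_find {n K k5 : ℕ} {E : AS} {U : VS} (h : GHyp n K k5 E U) {v : ℕ} (hv : v ∈ U)
    (hw : wL E (grow K k5 E U v).2 < k5) :
    ∀ x ∈ dif (grow K k5 E U v).2 (grow K k5 E U v).1,
      K * (fresh E U (grow K k5 E U v).2 x).length < wL E [x] := by
  have h1 := g2_fix h hv
  generalize grow K k5 E U v = s at h1 hw ⊢
  unfold growStep at h1
  rw [if_neg (not_le.2 hw)] at h1
  cases hf : (dif s.2 s.1).find? (fun x => decide (wL E [x] ≤ K * (fresh E U s.2 x).length)) with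
  | none =>
    intro x hx
    have h2 := List.find?_eq_none.1 hf x hx
    rw [decide_eq_true_iff, not_le] at h2
    exact h2
  | some x =>
    exfalso
    rw [hf] at h1
    have h2 := congrArg (fun t : VS × VS => t.1.length) h1
    simp at h2

lemma g2_ee {n K k5 : ℕ} {E : AS} {U : VS} (h : GHyp n K k5 E U) (T : VS) (x : ℕ) :
    ee E.toFinset {x} (dif U T).toFinset ≤ (fresh E U T x).length := by
  refine le_trans ?_ (List.toFinset_card_le _)
  unfold ee
  refine Finset.card_le_card_of_injOn (fun y => y.2) ?_ ?_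
  · intro y hy
    have hy' := Finset.mem_filter.1 (Finset.mem_coe.1 hy)
    obtain ⟨h1, h2, h3⟩ := hy'
    rw [Finset.mem_singleton] at h2
    rw [List.mem_toFinset, mem_dif] at h3
    rw [List.mem_toFinset] at h1
    refine Finset.mem_coe.2 (List.mem_toFinset.2 ?_)
    unfold fresh
    rw [List.mem_filter]
    refine ⟨h3.1, ?_⟩
    have h4 : (x, y.2) ∈ E := by
      rw [← h2]
      exact h1
    simp [h4, h3.2]
  · intro y hy z hz hyz
    have hy' := (Finset.mem_filter.1 (Finset.mem_coe.1 hy)).2.1
    have hz' := (Finset.mem_filter.1 (Finset.mem_coe.1 hz)).2.1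
    rw [Finset.mem_singleton] at hy' hz'
    exact Prod.ext (hy'.trans hz'.symm) hyz

theorem grow_exp {n K k5 : ℕ} {E : AS} {U : VS} (h : GHyp n K k5 E U) {v : ℕ} (hv : v ∈ U)
    (hw : wL E (grow K k5 E U v).2 < k5) :
    K * eL E (grow K k5 E U v).2 (dif U (grow K k5 E U v).2) ≤ wL E (grow K k5 E U v).2 := by
  have hI := grow_inv h hv
  have hf := g2_find h hv hw
  generalize grow K k5 E U v = s at hI hf hw ⊢
  rw [eL_eq h.nE, wL_eq h.nE, ee_sum_left, ww_sum, Finset.mul_sum]
  refine Finset.sum_le_sum fun x hx => ?_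
  rw [List.mem_toFinset] at hx
  by_cases hxF : x ∈ s.1
  · have h1 := (hI.lt hw).2 x hxF
    rw [ee_eq_zero, mul_zero]
    · exact Nat.zero_le _
    · intro y hy h2 h3
      rw [Finset.mem_singleton] at h2
      rw [List.mem_toFinset, mem_dif] at h3
      rw [List.mem_toFinset] at hy
      refine h3.2 (h1 y.2 h3.1 ?_)
      rw [← h2]
      exact hy
  · have h1 := hf x (mem_dif.2 ⟨hx, hxF⟩)
    have h2 := g2_ee h s.2 x
    have h3 : wL E [x] = ww E.toFinset {x} := by
      rw [wL_eq h.nE]
      rfl
    rw [← h3]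
    exact (Nat.mul_le_mul_left K h2).trans h1.le

/-- a complete blob has a nonempty core -/
lemma grow_core {n K k5 : ℕ} {E : AS} {U : VS} (h : GHyp n K k5 E U) {v : ℕ} (hv : v ∈ U)
    (hw : k5 ≤ wL E (grow K k5 E U v).2) : (grow K k5 E U v).1 ≠ [] := by
  intro h0
  have h1 := (grow_inv h hv).base h0
  rw [h1] at hw
  have h2 := h.deg' v hv
  have h3 := h.hk
  omega

/-- the tree of the growth is connected -/
lemma grow_cn {n K k5 : ℕ} {E : AS} {U : VS} (h : GHyp n K k5 E U) {v : ℕ} (hv : v ∈ U) :
    Cn E.toFinset (grow K k5 E U v).2.toFinset := by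
  have hI := grow_inv h hv
  generalize grow K k5 E U v = s at hI ⊢
  by_cases h0 : s.1 = []
  · rw [hI.base h0]
    exact cn_singleton v
  · have hE : ∀ x ∈ E.toFinset, x.swap ∈ E.toFinset := fun x hx =>
      List.mem_toFinset.2 (h.sym x (List.mem_toFinset.1 hx))
    refine cn_leaves hE (hI.cF h0) ?_ ?_ ?_
    · obtain ⟨a, ha⟩ := List.exists_mem_of_ne_nil _ h0
      exact ⟨a, List.mem_toFinset.2 ha⟩
    · intro x hx
      rw [List.mem_toFinset] at hx ⊢
      exact hI.FT x hx
    · intro t ht ht'
      rw [List.mem_toFinset] at ht ht'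
      obtain ⟨f, hf, hft⟩ := hI.leaf h0 t ht ht'
      exact ⟨f, List.mem_toFinset.2 hf, List.mem_toFinset.2 hft⟩

end Pool.Agent.H24S
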