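import Pool.Agent.Lib.H24S.G2
import Pool.Agent.Lib.H24S.B2

/-!
# H24S chunk G3: partition of `U` into items, or a new blob

State `(U', its, o)` of `itemStep`. Invariant as long as `o = none`: `its.flatten ++ U'` is a permutation of
`U`, every item is nonempty, connected, of weight `< k5`, and
`K * xe(its) + 2 K * ee(its.flatten, U') ≤ 2 * ww(its.flatten)`.
A step with the new item `T ⊆ U'` (`T = (grow ..).2`): `xe_cons` and `ee_union_left/right`:
`K xe(T :: its) + 2 K ee(flat ∪ T, U' \ T) = K xe(its) + 2 K ee(flat, T) + 2 K ee(flat, U' \ T) +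
2 K ee(T, U' \ T) = (K xe(its) + 2 K ee(flat, U')) + 2 K ee(T, U' \ T) ≤ 2 ww(flat) + 2 ww(T)` (`grow_exp`).
`U'` decreases by at least one element (`v ∈ T`) in each step, so after `|U|` steps either a blob was found
or `U' = []`. When the blob is found in `U' ⊆ U`: `GHyp` holds for `U'` and `NewBlob` for `U'` gives it for `U`.
-/

set_option autoImplicit false

namespace Pool.Agent.H24S

/-- partition of `U` into items -/
structure Items (K k5 : ℕ) (E : AS) (U : VS) (its : List VS) : Prop where
  perm : its.flatten.Perm U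
  ne : ∀ Q ∈ its, Q ≠ []
  cn : ∀ Q ∈ its, Cn E.toFinset Q.toFinset
  wt : ∀ Q ∈ its, wL E Q < k5
  xe : K * xe E.toFinset (its.map List.toFinset) ≤ 2 * wL E U

/-- a new blob inside `U` -/
structure NewBlob (n K k5 : ℕ) (E : AS) (U : VS) (b : VS × VS) : Prop where
  ndF : b.1.Nodup
  ndT : b.2.Nodup
  FT : ∀ x ∈ b.1, x ∈ b.2
  TU : ∀ x ∈ b.2, x ∈ U
  ne : b.1 ≠ []
  cF : Cn E.toFinset b.1.toFinset
  leaf : ∀ t ∈ b.2, t ∉ b.1 → ∃ f ∈ b.1, (f, t) ∈ E
  wlo : k5 ≤ wL E b.2
  whi : wL E b.2 < k5 + n
  wF : wL E b.1 ≤ K * b.2.length + n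

/-- the hypotheses pass to subsets -/
lemma g3_hyp {n K k5 : ℕ} {E : AS} {U U' : VS} (h : GHyp n K k5 E U) (hn : U'.Nodup)
    (hs : ∀ x ∈ U', x ∈ U) : GHyp n K k5 E U' :=
  ⟨h.nE, h.sym, h.irr, hn, fun v hv => h.deg v (hs v hv), fun v hv => h.deg' v (hs v hv), h.hk⟩

/-- invariant of the partition into items -/
structure G3I (n K k5 : ℕ) (E : AS) (U : VS) (s : VS × List VS × Option (VS × VS)) : Prop where
  perm : (s.2.1.flatten ++ s.1).Perm U
  ne : ∀ Q ∈ s.2.1, Q ≠ []
  cn : ∀ Q ∈ s.2.1, Cn E.toFinset Q.toFinset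
  wt : ∀ Q ∈ s.2.1, wL E Q < k5
  xe : K * xe E.toFinset (s.2.1.map List.toFinset) +
    2 * (K * ee E.toFinset s.2.1.flatten.toFinset s.1.toFinset) ≤ 2 * wL E s.2.1.flatten
  blob : ∀ b, s.2.2 = some b → NewBlob n K k5 E s.1 b

lemma g3_nodup {n K k5 : ℕ} {E : AS} {U : VS} (h : GHyp n K k5 E U)
    {s : VS × List VS × Option (VS × VS)} (hs : G3I n K k5 E U s) :
    s.2.1.flatten.Nodup ∧ s.1.Nodup ∧ (∀ x ∈ s.2.1.flatten, x ∉ s.1) ∧ (∀ x ∈ s.1, x ∈ U) := by
  have h1 : (s.2.1.flatten ++ s.1).Nodup := hs.perm.nodup_iff.2 h.nU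
  rw [List.nodup_append] at h1
  refine ⟨h1.1, h1.2.1, fun x hx hx' => h1.2.2 x hx x hx' rfl, fun x hx => ?_⟩
  exact hs.perm.mem_iff.1 (List.mem_append_right _ hx)

/-- one step with a new item -/
lemma g3_item {n K k5 : ℕ} {E : AS} {U : VS} (h : GHyp n K k5 E U)
    {s : VS × List VS × Option (VS × VS)} (hs : G3I n K k5 E U s) {v : ℕ} (hv : v ∈ s.1)
    (hw : wL E (grow K k5 E s.1 v).2 < k5) :
    G3I n K k5 E U (dif s.1 (grow K k5 E s.1 v).2, (grow K k5 E s.1 v).2 :: s.2.1, none) := by
  obtain ⟨n1, n2, n3, n4⟩ := g3_nodup h hs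
  have hh : GHyp n K k5 E s.1 := g3_hyp h n2 n4
  have hexp := grow_exp hh hv hw
  have hcn := grow_cn hh hv
  have ndT := (grow_inv hh hv).ndT
  have TU := (grow_inv hh hv).TU
  have vT := (grow_inv hh hv).vT
  generalize (grow K k5 E s.1 v).2 = T at ndT TU vT hexp hcn hw ⊢
  have hp1 : (T ++ dif s.1 T).Perm s.1 := by
    rw [List.perm_ext_iff_of_nodup]
    · intro a
      rw [List.mem_append, mem_dif]
      constructor
      · rintro (h1 | h1)
        · exact TU a h1
        · exact h1.1
      · intro h1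
        by_cases h2 : a ∈ T
        · exact Or.inl h2
        · exact Or.inr ⟨h1, h2⟩
    · rw [List.nodup_append]
      refine ⟨ndT, dif_nodup _ n2, fun a ha b hb hab => ?_⟩
      rw [hab] at ha
      exact (mem_dif.1 hb).2 ha
    · exact n2
  have hperm : ((T :: s.2.1).flatten ++ dif s.1 T).Perm U := by
    rw [List.flatten_cons, List.append_assoc]
    refine List.Perm.trans ?_ hs.perm
    refine List.Perm.trans (List.perm_append_comm (l₁ := T) (l₂ := s.2.1.flatten ++ dif s.1 T)) ?_
    rw [List.append_assoc]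
    refine List.Perm.append_left _ ?_
    exact List.perm_append_comm.trans hp1
  refine ⟨hperm, ?_, ?_, ?_, ?_, ?_⟩
  · intro Q hQ
    rcases List.mem_cons.1 hQ with rfl | hQ
    · intro h0
      rw [h0] at vT
      exact List.not_mem_nil vT
    · exact hs.ne Q hQ
  · intro Q hQ
    rcases List.mem_cons.1 hQ with rfl | hQ
    · exact hcn
    · exact hs.cn Q hQ
  · intro Q hQ
    rcases List.mem_cons.1 hQ with rfl | hQ
    · exact hw
    · exact hs.wt Q hQ
  · have hnd : (T :: s.2.1).flatten.Nodup := by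
      have := hperm.nodup_iff.2 h.nU
      rw [List.nodup_append] at this
      exact this.1
    have hE : ∀ x ∈ E.toFinset, x.swap ∈ E.toFinset := fun x hx =>
      List.mem_toFinset.2 (h.sym x (List.mem_toFinset.1 hx))
    have hpw := pairwise_of_flatten hnd
    rw [List.map_cons] at hpw
    have e1 := xe_cons (E := E.toFinset) hE hpw (P := s.2.1.flatten.toFinset) (fun w => by
      rw [List.mem_toFinset]
      exact mem_map_toFinset)
    have hdTF : Disjoint T.toFinset s.2.1.flatten.toFinset := by
      rw [Finset.disjoint_left]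
      intro x hx hy
      rw [List.mem_toFinset] at hx hy
      exact n3 x hy (TU x hx)
    have e2 : (dif s.1 T).toFinset = s.1.toFinset \ T.toFinset := dif_toFinset _ _
    have hTs : T.toFinset ⊆ s.1.toFinset := by
      intro x hx
      rw [List.mem_toFinset] at hx ⊢
      exact TU x hx
    have e3 : ee E.toFinset s.2.1.flatten.toFinset s.1.toFinset =
        ee E.toFinset s.2.1.flatten.toFinset T.toFinset +
        ee E.toFinset s.2.1.flatten.toFinset (s.1.toFinset \ T.toFinset) := by
      rw [← ee_union_right Finset.disjoint_sdiff, Finset.union_sdiff_of_subset hTs]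
    have e4 : ee E.toFinset (T :: s.2.1).flatten.toFinset (s.1.toFinset \ T.toFinset) =
        ee E.toFinset T.toFinset (s.1.toFinset \ T.toFinset) +
        ee E.toFinset s.2.1.flatten.toFinset (s.1.toFinset \ T.toFinset) := by
      rw [← ee_union_left hdTF, List.flatten_cons, List.toFinset_append]
    have e5 : wL E (T :: s.2.1).flatten = wL E T + wL E s.2.1.flatten := by
      rw [wL_eq h.nE, wL_eq h.nE, wL_eq h.nE, ← ww_union hdTF, List.flatten_cons,
        List.toFinset_append]
    have e6 : K * ee E.toFinset T.toFinset (s.1.toFinset \ T.toFinset) ≤ wL E T := by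
      rw [← e2, ← eL_eq h.nE]
      exact hexp
    have h7 := hs.xe
    show K * xe E.toFinset ((T :: s.2.1).map List.toFinset) +
      2 * (K * ee E.toFinset (T :: s.2.1).flatten.toFinset (dif s.1 T).toFinset) ≤
      2 * wL E (T :: s.2.1).flatten
    rw [List.map_cons, e1, e2, e4, e5]
    rw [e3] at h7
    nlinarith [h7, e6]
  · intro b hb
    cases hb

lemma g3_step {n K k5 : ℕ} {E : AS} {U : VS} (h : GHyp n K k5 E U)
    {s : VS × List VS × Option (VS × VS)} (hs : G3I n K k5 E U s) :
    G3I n K k5 E U (itemStep K k5 E s) := by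
  obtain ⟨U', its, o⟩ := s
  cases o with
  | some b => exact hs
  | none =>
    cases U' with
    | nil => exact hs
    | cons v l =>
      by_cases hw : k5 ≤ wL E (grow K k5 E (v :: l) v).2
      · have e : itemStep K k5 E (v :: l, its, none) =
            (v :: l, its, some (grow K k5 E (v :: l) v)) := by
          simp [itemStep, hw]
        rw [e]
        refine ⟨hs.perm, hs.ne, hs.cn, hs.wt, hs.xe, ?_⟩
        intro b hb
        obtain rfl : grow K k5 E (v :: l) v = b := Option.some.inj hb
        obtain ⟨n1, n2, n3, n4⟩ := g3_nodup h hs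
        have hh : GHyp n K k5 E (v :: l) := g3_hyp h n2 n4
        have hv : v ∈ v :: l := List.mem_cons_self
        have hI := grow_inv hh hv
        have hc := grow_core hh hv hw
        exact ⟨hI.ndF, hI.ndT, hI.FT, hI.TU, hc, hI.cF hc, hI.leaf hc, hw, hI.wT, hI.wF⟩
      · have e : itemStep K k5 E (v :: l, its, none) =
            (dif (v :: l) (grow K k5 E (v :: l) v).2, (grow K k5 E (v :: l) v).2 :: its, none) := by
          simp [itemStep, hw]
        rw [e]
        exact g3_item h hs (v := v) List.mem_cons_self (not_le.1 hw)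

lemma g3_len {n K k5 : ℕ} {E : AS} {U : VS} (h : GHyp n K k5 E U)
    {s : VS × List VS × Option (VS × VS)} (hs : G3I n K k5 E U s)
    (h0 : (itemStep K k5 E s).2.2 = none) :
    s.2.2 = none ∧ (s.1 = [] → (itemStep K k5 E s).1 = []) ∧
      (s.1 ≠ [] → (itemStep K k5 E s).1.length < s.1.length) := by
  obtain ⟨U', its, o⟩ := s
  cases o with
  | some b =>
    exfalso
    have e : itemStep K k5 E (U', its, some b) = (U', its, some b) := rfl
    rw [e] at h0
    cases h0
  | none =>
    refine ⟨rfl, ?_, ?_⟩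
    · intro h1
      change U' = [] at h1
      subst h1
      rfl
    · intro h1
      cases U' with
      | nil => exact absurd rfl h1
      | cons v l =>
        by_cases hw : k5 ≤ wL E (grow K k5 E (v :: l) v).2
        · have e : itemStep K k5 E (v :: l, its, none) =
              (v :: l, its, some (grow K k5 E (v :: l) v)) := by
            simp [itemStep, hw]
          rw [e] at h0
          cases h0
        · have e : itemStep K k5 E (v :: l, its, none) =
              (dif (v :: l) (grow K k5 E (v :: l) v).2, (grow K k5 E (v :: l) v).2 :: its, none) := by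
            simp [itemStep, hw]
          rw [e]
          obtain ⟨n1, n2, n3, n4⟩ := g3_nodup h hs
          have hh : GHyp n K k5 E (v :: l) := g3_hyp h n2 n4
          have hv : v ∈ v :: l := List.mem_cons_self
          have hI := grow_inv hh hv
          show ((v :: l).filter fun u => !decide (u ∈ (grow K k5 E (v :: l) v).2)).length <
            (v :: l).length
          rw [List.length_filter_lt_length_iff_exists]
          exact ⟨v, hv, by simp [hI.vT]⟩

lemma g3_init {n K k5 : ℕ} {E : AS} {U : VS} : G3I n K k5 E U (U, [], none) := by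
  refine ⟨List.Perm.refl _, ?_, ?_, ?_, ?_, ?_⟩
  · intro Q hQ
    exact absurd hQ List.not_mem_nil
  · intro Q hQ
    exact absurd hQ List.not_mem_nil
  · intro Q hQ
    exact absurd hQ List.not_mem_nil
  · show K * xe E.toFinset [] + 2 * (K * ee E.toFinset ([] : List ℕ).toFinset U.toFinset) ≤ _
    have h1 : xe E.toFinset ([] : List (Finset ℕ)) = 0 := by
      unfold xe
      rw [Finset.card_eq_zero, Finset.filter_eq_empty_iff]
      rintro x - ⟨A, hA, -⟩
      exact absurd hA List.not_mem_nil
    rw [h1, List.toFinset_nil, ee_empty_left]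
    simp
  · intro b hb
    cases hb

lemma g3_iter {n K k5 : ℕ} {E : AS} {U : VS} (h : GHyp n K k5 E U) (j : ℕ) :
    G3I n K k5 E U ((itemStep K k5 E)^[j] (U, [], none)) ∧
      (((itemStep K k5 E)^[j] (U, [], none)).2.2 = none →
        ((itemStep K k5 E)^[j] (U, [], none)).1.length + j ≤ U.length ∨
        ((itemStep K k5 E)^[j] (U, [], none)).1 = []) := by
  induction j with
  | zero => exact ⟨g3_init, fun _ => Or.inl (by simp)⟩
  | succ j ih =>
    obtain ⟨ih1, ih2⟩ := ih
    rw [Function.iterate_succ_apply']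
    refine ⟨g3_step h ih1, fun h0 => ?_⟩
    obtain ⟨a1, a2, a3⟩ := g3_len h ih1 h0
    by_cases h1 : ((itemStep K k5 E)^[j] (U, [], none)).1 = []
    · exact Or.inr (a2 h1)
    · rcases ih2 a1 with h2 | h2
      · left
        have := a3 h1
        omega
      · exact absurd h2 h1

theorem growAll_blob {n K k5 : ℕ} {E : AS} {U : VS} (h : GHyp n K k5 E U) {b : VS × VS}
    (hb : (growAll K k5 E U).2.2 = some b) : NewBlob n K k5 E U b := by
  obtain ⟨h1, -⟩ := g3_iter h U.length
  have h2 := h1.blob b hb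
  obtain ⟨-, -, -, n4⟩ := g3_nodup h h1
  exact ⟨h2.ndF, h2.ndT, h2.FT, fun x hx => n4 x (h2.TU x hx), h2.ne, h2.cF, h2.leaf, h2.wlo,
    h2.whi, h2.wF⟩

theorem growAll_items {n K k5 : ℕ} {E : AS} {U : VS} (h : GHyp n K k5 E U)
    (hb : (growAll K k5 E U).2.2 = none) : Items K k5 E U (growAll K k5 E U).2.1 := by
  obtain ⟨h1, h2⟩ := g3_iter h U.length
  have h3 : (growAll K k5 E U).1 = [] := by
    rcases h2 hb with h4 | h4
    · change (growAll K k5 E U).1.length + U.length ≤ U.length at h4
      exact List.length_eq_zero_iff.1 (by omega)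
    · exact h4
  have hp : (growAll K k5 E U).2.1.flatten.Perm U := by
    have h5 := h1.perm
    change ((growAll K k5 E U).2.1.flatten ++ (growAll K k5 E U).1).Perm U at h5
    rw [h3, List.append_nil] at h5
    exact h5
  refine ⟨hp, h1.ne, h1.cn, h1.wt, ?_⟩
  have h6 : wL E (growAll K k5 E U).2.1.flatten = wL E U :=
    le_antisymm (wL_mono E fun v hv => hp.mem_iff.1 hv) (wL_mono E fun v hv => hp.mem_iff.2 hv)
  rw [← h6]
  have h7 := h1.xe
  exact le_trans (Nat.le_add_right _ _) h7

end Pool.Agent.H24S
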