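import Pool.Agent.Lib.H24S.B2
import Pool.Agent.Lib.H24S.C1

/-!
# H24S chunk I1: the invariant of the main loop and its numerical consequences

`inv_num`. Write `x = n K`.
* `4 x Ne ≤ ww P`: `accW` and `sum_ww_le` (`A` and the `b.2` are disjoint subsets of `P`) give
  `5 x Ne ≤ ww P + x Nc ≤ ww P + x Ne` (`Nc ≤ Ne` by `cnt`).
* `2 Ne ≤ K`: `4 x Ne ≤ ww P ≤ 2 x K` and `x > 0`.
* `16 K SF ≤ nu P`: `accF`, `sum_card_le`: `SF ≤ K |P| + K^2 Nc + n Ne ≤ K |P| + (K^2 + n) Ne`, so
  `K SF ≤ K^2 |P| + K (3n + n) Ne ≤ K^2 |P| + ww P`, times 16.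
* `8 K bb A ≤ 16 K SF` by `pot`; `8 nu A ≤ 8 K bb A` by `test`.
* for a blob `b`: `16 K |b.1| ≤ sum of the degrees = ww b.1` (`ww_sum`), so
  `nu b.1 = 16 K^2 |b.1| + 16 ww b.1 ≤ (K + 16) ww b.1 ≤ 3 K ww b.1 ≤ 3 K SF` (`K ≥ 8`), so
  `16 nu b.1 ≤ 3 nu P`.
* `ee S (union of cores) ≤ sum ww b.1 ≤ SF`.
-/

set_option autoImplicit false

namespace Pool.Agent.H24S

variable {V : Type*} [DecidableEq V]

/-- the graph (`E`, `P`) in the main case -/
structure Ctx (n K : ℕ) (E : Finset (V × V)) (P : Finset V) : Prop where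
  gr : Gr E P
  K8 : 8 ≤ K
  Kn : K * K ≤ 3 * n
  wP : ww E P ≤ 2 * (n * K) * K
  wP' : n * K < ww E P
  deg : ∀ v ∈ P, 16 * K ≤ ww E {v}
  deg' : ∀ v ∈ P, ww E {v} ≤ n
  cn : Cn E P

/-- the invariant: cut off set `A`, blobs `bl`, root `r`; `Ne` blobs were ever created, `Nc` of them were
deleted, `SF` is the total weight of the cores ever created -/
structure Inv (n K : ℕ) (E : Finset (V × V)) (P A : Finset V) (bl : List (Finset V × Finset V))
    (r : V) (Ne Nc SF : ℕ) : Prop where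
  AP : A ⊆ P
  rP : r ∈ P
  rA : r ∉ A
  rF : ∀ b ∈ bl, r ∉ b.1
  FT : ∀ b ∈ bl, b.1 ⊆ b.2
  TP : ∀ b ∈ bl, b.2 ⊆ P \ A
  ne : ∀ b ∈ bl, b.1.Nonempty
  conn : ∀ b ∈ bl, Cn E b.1
  leaf : ∀ b ∈ bl, ∀ t ∈ b.2, t ∉ b.1 → ∃ f ∈ b.1, (f, t) ∈ E
  disj : bl.Pairwise fun b b' => Disjoint b.2 b'.2
  wT : ∀ b ∈ bl, ww E b.2 ≤ 6 * (n * K)
  cnt : bl.length + Nc = Ne
  accW : 5 * (n * K) * Ne ≤ ww E A + (bl.map fun b => ww E b.2).sum + n * K * Nc
  accF : SF ≤ K * (A.card + (bl.map fun b => b.2.card).sum + K * Nc) + n * Ne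
  pot : bb E A + 2 * (bl.map fun b => ee E b.1 (P \ A)).sum ≤ 2 * SF
  sumF : (bl.map fun b => ww E b.1).sum ≤ SF
  test : nu K E A ≤ K * bb E A

variable {n K : ℕ} {E : Finset (V × V)} {P A : Finset V} {bl : List (Finset V × Finset V)}
  {r : V} {Ne Nc SF : ℕ}

theorem inv_num (c : Ctx n K E P) (i : Inv n K E P A bl r Ne Nc SF) :
    2 * Ne ≤ K ∧ 16 * (K * SF) ≤ nu K E P ∧ 8 * (K * bb E A) ≤ nu K E P ∧
      8 * nu K E A ≤ nu K E P ∧ ∀ b ∈ bl, 16 * nu K E b.1 ≤ 3 * nu K E P := by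
  have hsum : (bl.map fun b => ww E b.2).sum ≤ ww E (P \ A) :=
    sum_ww_le (f := fun b : Finset V × Finset V => b.2) i.disj i.TP
  have hsumc : (bl.map fun b => b.2.card).sum ≤ (P \ A).card :=
    sum_card_le (f := fun b : Finset V × Finset V => b.2) i.disj i.TP
  have h1 : ww E (P \ A) + ww E A = ww E P := by
    have := ww_sdiff_add (E := E) (A := P) (B := A)
    rwa [Finset.inter_eq_right.2 i.AP] at this
  have h1c : (P \ A).card + A.card = P.card := Finset.card_sdiff_add_card_eq_card i.AP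
  have hNc : Nc ≤ Ne := by have := i.cnt; omega
  have hK8 := c.K8
  have hKn := c.Kn
  have hn0 : 0 < n := by
    rcases Nat.eq_zero_or_pos n with h | h
    · subst h
      nlinarith
    · exact h
  have hx : 0 < n * K := Nat.mul_pos hn0 (by omega)
  have h4 : 4 * (n * K) * Ne ≤ ww E P := by
    have h0 := i.accW
    have h5 : n * K * Nc ≤ n * K * Ne := Nat.mul_le_mul_left _ hNc
    nlinarith
  have hNe : 2 * Ne ≤ K := by
    have h5 := c.wP
    have h6 : (2 * (n * K)) * (2 * Ne) ≤ (2 * (n * K)) * K := by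
      calc (2 * (n * K)) * (2 * Ne) = 4 * (n * K) * Ne := by ring
        _ ≤ ww E P := h4
        _ ≤ 2 * (n * K) * K := h5
    exact Nat.le_of_mul_le_mul_left h6 (by omega)
  have hSF : K * SF ≤ K * K * P.card + ww E P := by
    have h0 := i.accF
    have h5 : A.card + (bl.map fun b => b.2.card).sum + K * Nc ≤ P.card + K * Ne := by
      have : K * Nc ≤ K * Ne := Nat.mul_le_mul_left _ hNc
      omega
    have h6 : SF ≤ K * (P.card + K * Ne) + n * Ne :=
      h0.trans (Nat.add_le_add_right (Nat.mul_le_mul_left _ h5) _)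
    calc K * SF ≤ K * (K * (P.card + K * Ne) + n * Ne) := Nat.mul_le_mul_left _ h6
      _ = K * K * P.card + (K * Ne) * (K * K) + n * K * Ne := by ring
      _ ≤ K * K * P.card + (K * Ne) * (3 * n) + n * K * Ne := by gcongr
      _ = K * K * P.card + 4 * (n * K) * Ne := by ring
      _ ≤ K * K * P.card + ww E P := by gcongr
  have hSF' : 16 * (K * SF) ≤ nu K E P := by
    unfold nu
    exact Nat.mul_le_mul_left _ hSF
  have hb : bb E A ≤ 2 * SF := by
    have := i.pot
    omega
  have hb' : 8 * (K * bb E A) ≤ nu K E P := by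
    have : K * bb E A ≤ K * (2 * SF) := Nat.mul_le_mul_left _ hb
    have h7 : K * (2 * SF) = 2 * (K * SF) := by ring
    omega
  refine ⟨hNe, hSF', hb', ?_, ?_⟩
  · have := i.test
    omega
  · intro b hbl
    have h5 : K * K * b.1.card * 16 ≤ K * ww E b.1 := by
      have h6 : b.1.card * (16 * K) ≤ ww E b.1 := by
        rw [ww_sum, ← smul_eq_mul]
        refine Finset.card_nsmul_le_sum _ _ _ fun v hv => ?_
        have h7 := i.TP b hbl (i.FT b hbl hv)
        exact c.deg v (Finset.mem_sdiff.1 h7).1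
      calc K * K * b.1.card * 16 = K * (b.1.card * (16 * K)) := by ring
        _ ≤ K * ww E b.1 := Nat.mul_le_mul_left _ h6
    have h8 : ww E b.1 ≤ SF := by
      refine le_trans ?_ i.sumF
      exact List.single_le_sum (by simp) _ (List.mem_map_of_mem hbl)
    have h9 : nu K E b.1 ≤ 3 * (K * SF) := by
      unfold nu
      have h10 : 16 * ww E b.1 ≤ 2 * K * ww E b.1 := Nat.mul_le_mul_right _ (by omega)
      have h11 : K * ww E b.1 ≤ K * SF := Nat.mul_le_mul_left _ h8
      nlinarith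
    omega

lemma inv_cores (i : Inv n K E P A bl r Ne Nc SF) {F' : Finset V}
    (hF : ∀ v, v ∈ F' ↔ ∃ b ∈ bl, v ∈ b.1) (hs : ∀ x ∈ E, x.swap ∈ E) (S : Finset V) :
    ee E S F' = (bl.map fun b => ee E b.1 S).sum ∧ ee E S F' ≤ SF := by
  have hd : bl.Pairwise fun b b' : Finset V × Finset V => Disjoint b.1 b'.1 := by
    have h0 := i.disj
    have h1 := i.FT
    rw [List.pairwise_iff_getElem] at h0 ⊢
    intro a b ha hb hab
    exact Disjoint.mono (h1 _ (List.getElem_mem ha)) (h1 _ (List.getElem_mem hb)) (h0 a b ha hb hab)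
  have h2 : (bl.map fun b => ee E b.1 S).sum = ee E F' S :=
    sum_ee_left (f := fun b : Finset V × Finset V => b.1) hd hF S
  have h3 : (bl.map fun b => ww E b.1).sum = ww E F' :=
    sum_ww_eq (f := fun b : Finset V × Finset V => b.1) hd hF
  constructor
  · rw [h2, ee_comm hs]
  · rw [ee_comm hs]
    calc ee E F' S ≤ ww E F' := ee_le_ww _ _
      _ = _ := h3.symm
      _ ≤ SF := i.sumF

theorem inv_init (c : Ctx n K E P) (hr : r ∈ P) : Inv n K E P ∅ [] r 0 0 0 := by
  exact
    { AP := Finset.empty_subset _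
      rP := hr
      rA := Finset.notMem_empty _
      rF := by simp
      FT := by simp
      TP := by simp
      ne := by simp
      conn := by simp
      leaf := by simp
      disj := List.Pairwise.nil
      wT := by simp
      cnt := rfl
      accW := by simp
      accF := by simp
      pot := by simp [bb]
      sumF := by simp
      test := by simp [nu, ww] }

theorem Inv.perm {bl' : List (Finset V × Finset V)} (i : Inv n K E P A bl r Ne Nc SF)
    (h : bl.Perm bl') : Inv n K E P A bl' r Ne Nc SF := by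
  have hm : ∀ b, b ∈ bl' ↔ b ∈ bl := fun b => (h.mem_iff).symm
  exact
    { AP := i.AP
      rP := i.rP
      rA := i.rA
      rF := fun b hb => i.rF b ((hm b).1 hb)
      FT := fun b hb => i.FT b ((hm b).1 hb)
      TP := fun b hb => i.TP b ((hm b).1 hb)
      ne := fun b hb => i.ne b ((hm b).1 hb)
      conn := fun b hb => i.conn b ((hm b).1 hb)
      leaf := fun b hb => i.leaf b ((hm b).1 hb)
      disj := (h.pairwise_iff (fun {_ _} hab => hab.symm)).1 i.disj
      wT := fun b hb => i.wT b ((hm b).1 hb)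
      cnt := by rw [← h.length_eq]; exact i.cnt
      accW := by rw [← (h.map fun b => ww E b.2).sum_eq]; exact i.accW
      accF := by rw [← (h.map fun b => b.2.card).sum_eq]; exact i.accF
      pot := by rw [← (h.map fun b => ee E b.1 (P \ A)).sum_eq]; exact i.pot
      sumF := by rw [← (h.map fun b => ww E b.1).sum_eq]; exact i.sumF
      test := i.test }

end Pool.Agent.H24S
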