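import Pool.Agent.Lib.H24S.I1

/-!
# H24S chunk I2: the cut inequality

`S ⊆ P` disjoint from `A`, the neighbours of `S` outside `S` are in `A`, in `X` (`|X| < K`) or in `F'`.
`a = ee S A`, `y = ee S X`, `f = ee S F'`: `bb S ≤ a + y + f`, `y ≤ |S| |X| ≤ K |S|` (`ee_le_mul`).
`16 K^2 |S| ≤ nu S ≤ K bb S ≤ K (a + y + f)`, so `16 K y ≤ 16 K^2 |S| ≤ K (a + y + f)`, `15 y ≤ a + f`.
`bb (A ∪ S) + 2 a = bb A + bb S ≤ bb A + a + y + f` (`bb_union`), so
`bb (A ∪ S) ≤ bb A + 2 f`; and `15 nu S ≤ 15 K (a + y + f) ≤ 16 K (a + f)`.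

`cut_test`: with the invariant: `a ≤ bb A ≤ 2 SF` (`ee_le_bb`, symmetry, `pot`), `f ≤ SF` (`inv_cores`), so
`15 nu S ≤ 48 K SF`, `15 * 16 nu S ≤ 48 nu P` by `inv_num`, `5 nu S ≤ nu P`, and `8 nu A ≤ nu P`:
`2 nu (A ∪ S) ≤ 2 nu A + 2 nu S ≤ nu P`.
-/

set_option autoImplicit false

namespace Pool.Agent.H24S

variable {V : Type*} [DecidableEq V]
variable {n K : ℕ} {E : Finset (V × V)} {P A : Finset V} {bl : List (Finset V × Finset V)}
  {r : V} {Ne Nc SF : ℕ}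

theorem cut_ineq (c : Ctx n K E P) {S X F' : Finset V} (hAS : Disjoint A S)
    (hX : X.card < K)
    (hN : ∀ x ∈ E, x.1 ∈ S → x.2 ∉ S → x.2 ∈ A ∨ x.2 ∈ X ∨ x.2 ∈ F')
    (hnv : nu K E S ≤ K * bb E S) :
    bb E (A ∪ S) ≤ bb E A + 2 * ee E S F' ∧
      15 * nu K E S ≤ 16 * (K * (ee E S A + ee E S F')) := by
  have h1 : bb E S ≤ ee E S A + ee E S X + ee E S F' := by
    unfold bb ee
    refine le_trans (Finset.card_le_card (t := (E.filter fun x => x.1 ∈ S ∧ x.2 ∈ A) ∪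
      (E.filter fun x => x.1 ∈ S ∧ x.2 ∈ X) ∪ (E.filter fun x => x.1 ∈ S ∧ x.2 ∈ F')) ?_) ?_
    · intro x hx
      obtain ⟨hxE, hx1, hx2⟩ := Finset.mem_filter.1 hx
      simp only [Finset.mem_union, Finset.mem_filter]
      rcases hN x hxE hx1 hx2 with h | h | h
      · exact Or.inl (Or.inl ⟨hxE, hx1, h⟩)
      · exact Or.inl (Or.inr ⟨hxE, hx1, h⟩)
      · exact Or.inr ⟨hxE, hx1, h⟩
    · exact (Finset.card_union_le _ _).trans (Nat.add_le_add_right (Finset.card_union_le _ _) _)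
  have h2 : ee E S X ≤ S.card * K :=
    (ee_le_mul S X).trans (Nat.mul_le_mul_left _ hX.le)
  have hK : 0 < K := by have := c.K8; omega
  have h3 : 16 * ee E S X ≤ ee E S A + ee E S X + ee E S F' := by
    refine Nat.le_of_mul_le_mul_left ?_ hK
    calc K * (16 * ee E S X) ≤ K * (16 * (S.card * K)) := by gcongr
      _ ≤ nu K E S := by unfold nu; nlinarith [Nat.zero_le (ww E S)]
      _ ≤ K * bb E S := hnv
      _ ≤ K * (ee E S A + ee E S X + ee E S F') := Nat.mul_le_mul_left _ h1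
  have h4 := bb_union c.gr.symm hAS
  refine ⟨by omega, ?_⟩
  calc 15 * nu K E S ≤ 15 * (K * bb E S) := Nat.mul_le_mul_left _ hnv
    _ ≤ 15 * (K * (ee E S A + ee E S X + ee E S F')) := by gcongr
    _ = K * (15 * ee E S A + 15 * ee E S X + 15 * ee E S F') := by ring
    _ ≤ K * (16 * (ee E S A + ee E S F')) := Nat.mul_le_mul_left _ (by omega)
    _ = 16 * (K * (ee E S A + ee E S F')) := by ring

theorem cut_test (c : Ctx n K E P) (i : Inv n K E P A bl r Ne Nc SF) {S X F' : Finset V}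
    (hAS : Disjoint A S) (hX : X.card < K) (hF : ∀ v, v ∈ F' ↔ ∃ b ∈ bl, v ∈ b.1)
    (hN : ∀ x ∈ E, x.1 ∈ S → x.2 ∉ S → x.2 ∈ A ∨ x.2 ∈ X ∨ x.2 ∈ F')
    (hnv : nu K E S ≤ K * bb E S) : 2 * nu K E (A ∪ S) ≤ nu K E P := by
  obtain ⟨_, h16, _, h8, _⟩ := inv_num c i
  obtain ⟨_, hf⟩ := inv_cores i hF c.gr.symm S
  obtain ⟨_, h15⟩ := cut_ineq c hAS hX hN hnv
  have ha : ee E S A ≤ 2 * SF := by
    rw [ee_comm c.gr.symm]
    have h1 := ee_le_bb (E := E) hAS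
    have h2 := i.pot
    omega
  have h3 : 15 * nu K E S ≤ 3 * nu K E P := by
    calc 15 * nu K E S ≤ 16 * (K * (ee E S A + ee E S F')) := h15
      _ ≤ 16 * (K * (3 * SF)) := by
          refine Nat.mul_le_mul_left _ (Nat.mul_le_mul_left _ (by omega))
      _ = 3 * (16 * (K * SF)) := by ring
      _ ≤ 3 * nu K E P := Nat.mul_le_mul_left _ h16
  rw [nu_union K hAS]
  omega

end Pool.Agent.H24S
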