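import Pool.Agent.Lib.H24S.I2

/-!
# H24S chunk I3: the invariant after a cut that deletes the blob `b0` (case (a) of the paper proof)

`S = W ∪ b0.1` is moved to the cut off set. Neighbours of `S` are in `S`, in `A`, in `X` or in the other cores.
* `TP`, `FT`, `leaf`, `disj`, `conn`: the cores `b.1` (`b ∈ bl`) do not meet `S` (`W` does not meet them,
  `b0.1 ⊆ b0.2` is disjoint from `b.2`).
* `accW`: `ww b.2 = ww (b.2 \ S) + ww (b.2 ∩ S)`. The sets `b.2 ∩ S` (`b ∈ b0 :: bl`) are disjoint subsets of `S`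
  (`sum_ww_le`), and `b0.2 \ S ⊆ X`: a vertex `t ∈ b0.2` outside `S` is a leaf, adjacent to some `f ∈ b0.1 ⊆ S`; it
  is not in `A`, not in another core (disjoint trees), so in `X`. `ww (b0.2 \ S) ≤ n |X| ≤ n K` (degrees `≤ n`,
  `ww_sum`). So `ww A + sum ww b.2 + n K Nc ≤ ww (A ∪ S) + sum_{bl} ww (b.2 \ S) + n K (Nc + 1)`.
* `accF`: the same with cardinalities, `|b0.2 \ S| ≤ |X| ≤ K`.
* `pot`: `cut_ineq` with `F'` = union of the cores of `bl` (`bl` without `b0`):
  `bb (A ∪ S) ≤ bb A + 2 ee S F'`, `ee S F' = sum_{bl} ee b.1 S`, and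
  `ee b.1 (P \ (A ∪ S)) = ee b.1 (P \ A) - ee b.1 S` (`S ⊆ P \ A`); the term of `b0` is dropped.
  (To apply `inv_cores` for `bl` instead of `b0 :: bl` use its proof or `sum_ee_right` directly.)
-/

set_option autoImplicit false

namespace Pool.Agent.H24S

variable {V : Type*} [DecidableEq V]
variable {n K : ℕ} {E : Finset (V × V)} {P A : Finset V} {bl : List (Finset V × Finset V)}
  {r : V} {Ne Nc SF : ℕ}

theorem inv_cutA (c : Ctx n K E P) {b0 : Finset V × Finset V}
    (i : Inv n K E P A (b0 :: bl) r Ne Nc SF) {W X : Finset V} (hW : W ⊆ P \ A)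
    (hWF : ∀ b ∈ b0 :: bl, Disjoint W b.1) (hrW : r ∉ W) (hX : X.card < K)
    (hN : ∀ x ∈ E, x.1 ∈ W ∪ b0.1 → x.2 ∉ W ∪ b0.1 → x.2 ∈ A ∨ x.2 ∈ X ∨ ∃ b ∈ bl, x.2 ∈ b.1)
    (h1 : nu K E (W ∪ b0.1) ≤ K * bb E (W ∪ b0.1))
    (h2 : nu K E (A ∪ (W ∪ b0.1)) ≤ K * bb E (A ∪ (W ∪ b0.1))) :
    Inv n K E P (A ∪ (W ∪ b0.1)) (bl.map fun b => (b.1, b.2 \ (W ∪ b0.1))) r Ne (Nc + 1) SF := by
  set S := W ∪ b0.1 with hSd
  have hE := c.gr.symm
  have hb0 : b0 ∈ b0 :: bl := List.mem_cons_self
  have hbl : ∀ b ∈ bl, b ∈ b0 :: bl := fun b hb => List.mem_cons_of_mem _ hb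
  have hdisj := List.pairwise_cons.1 i.disj
  have hSP : S ⊆ P \ A := Finset.union_subset hW ((i.FT b0 hb0).trans (i.TP b0 hb0))
  have hAS : Disjoint A S := by
    rw [Finset.disjoint_left]
    intro v hv hv'
    exact (Finset.mem_sdiff.1 (hSP hv')).2 hv
  have hSb : ∀ b ∈ bl, Disjoint S b.1 := by
    intro b hb
    rw [hSd, Finset.disjoint_union_left]
    refine ⟨hWF b (hbl b hb), ?_⟩
    exact Disjoint.mono (i.FT b0 hb0) (i.FT b (hbl b hb)) (hdisj.1 b hb)
  have hrS : r ∉ S := by
    rw [hSd, Finset.mem_union]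
    rintro (h | h)
    · exact hrW h
    · exact i.rF b0 hb0 h
  -- the trees minus S
  have hsplitW : ∀ b : Finset V × Finset V, ww E b.2 = ww E (b.2 \ S) + ww E (b.2 ∩ S) :=
    fun b => ww_sdiff_add.symm
  have hsplitC : ∀ b : Finset V × Finset V, b.2.card = (b.2 \ S).card + (b.2 ∩ S).card :=
    fun b => (Finset.card_sdiff_add_card_inter _ _).symm
  have hdS : (b0 :: bl).Pairwise fun a b : Finset V × Finset V =>
      Disjoint (a.2 ∩ S) (b.2 ∩ S) := by
    refine i.disj.imp ?_
    intro a b hab
    exact Disjoint.mono Finset.inter_subset_left Finset.inter_subset_left hab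
  have hsumW : ((b0 :: bl).map fun b => ww E (b.2 ∩ S)).sum ≤ ww E S :=
    sum_ww_le (f := fun b : Finset V × Finset V => b.2 ∩ S) hdS
      fun _ _ => Finset.inter_subset_right
  have hsumC : ((b0 :: bl).map fun b => (b.2 ∩ S).card).sum ≤ S.card :=
    sum_card_le (f := fun b : Finset V × Finset V => b.2 ∩ S) hdS
      fun _ _ => Finset.inter_subset_right
  have hT0 : b0.2 \ S ⊆ X := by
    intro t ht
    obtain ⟨ht1, ht2⟩ := Finset.mem_sdiff.1 ht
    have htF : t ∉ b0.1 := fun h => ht2 (Finset.mem_union_right _ h)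
    obtain ⟨f, hf, hft⟩ := i.leaf b0 hb0 t ht1 htF
    rcases hN (f, t) hft (Finset.mem_union_right _ hf) ht2 with h | h | ⟨b, hb, h⟩
    · exact absurd h (Finset.mem_sdiff.1 (i.TP b0 hb0 ht1)).2
    · exact h
    · exact absurd (i.FT b (hbl b hb) h) (Finset.disjoint_left.1 (hdisj.1 b hb) ht1)
  have hT0c : (b0.2 \ S).card ≤ K := (Finset.card_le_card hT0).trans hX.le
  have hT0w : ww E (b0.2 \ S) ≤ n * K := by
    rw [ww_sum]
    calc ∑ a ∈ b0.2 \ S, ww E {a} ≤ ∑ _a ∈ b0.2 \ S, n := Finset.sum_le_sum fun a ha =>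
          c.deg' a (Finset.mem_sdiff.1 (i.TP b0 hb0 (Finset.mem_sdiff.1 ha).1)).1
      _ = (b0.2 \ S).card * n := by rw [Finset.sum_const, smul_eq_mul]
      _ ≤ K * n := Nat.mul_le_mul_right _ hT0c
      _ = n * K := Nat.mul_comm _ _
  have hlW : ∀ l : List (Finset V × Finset V), (l.map fun b => ww E b.2).sum =
      (l.map fun b => ww E (b.2 \ S)).sum + (l.map fun b => ww E (b.2 ∩ S)).sum := by
    intro l
    induction l with
    | nil => rfl
    | cons a l ih => simp only [List.map_cons, List.sum_cons, ih, hsplitW a]; ring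
  have hlC : ∀ l : List (Finset V × Finset V), (l.map fun b => b.2.card).sum =
      (l.map fun b => (b.2 \ S).card).sum + (l.map fun b => (b.2 ∩ S).card).sum := by
    intro l
    induction l with
    | nil => rfl
    | cons a l ih => simp only [List.map_cons, List.sum_cons, ih, hsplitC a]; ring
  have hmapW : ((bl.map fun b => (b.1, b.2 \ S)).map fun b => ww E b.2) =
      bl.map fun b => ww E (b.2 \ S) := by
    rw [List.map_map]; rfl
  have hmapC : ((bl.map fun b => (b.1, b.2 \ S)).map fun b => b.2.card) =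
      bl.map fun b => (b.2 \ S).card := by
    rw [List.map_map]; rfl
  have hmapE : ((bl.map fun b => (b.1, b.2 \ S)).map fun b => ee E b.1 (P \ (A ∪ S))) =
      bl.map fun b => ee E b.1 (P \ (A ∪ S)) := by
    rw [List.map_map]; rfl
  have hmapF : ((bl.map fun b => (b.1, b.2 \ S)).map fun b => ww E b.1) =
      bl.map fun b => ww E b.1 := by
    rw [List.map_map]; rfl
  have hwAS := ww_union (E := E) hAS
  have hcAS := Finset.card_union_of_disjoint hAS
  -- the cores of bl
  set F' : Finset V := P.filter fun v => ∃ b ∈ bl, v ∈ b.1 with hF'd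
  have hF' : ∀ v, v ∈ F' ↔ ∃ b ∈ bl, v ∈ b.1 := by
    intro v
    rw [hF'd, Finset.mem_filter]
    refine ⟨fun h => h.2, fun h => ⟨?_, h⟩⟩
    obtain ⟨b, hb, hv⟩ := h
    exact (Finset.mem_sdiff.1 (i.TP b (hbl b hb) (i.FT b (hbl b hb) hv))).1
  have hcut := cut_ineq c (S := S) (X := X) (F' := F') hAS hX (by
    intro x hx h1 h2
    rcases hN x hx h1 h2 with h | h | h
    · exact Or.inl h
    · exact Or.inr (Or.inl h)
    · exact Or.inr (Or.inr ((hF' _).2 h))) h1
  have hdF : bl.Pairwise fun b b' : Finset V × Finset V => Disjoint b.1 b'.1 := by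
    have h0 := hdisj.2
    rw [List.pairwise_iff_getElem] at h0 ⊢
    intro a b ha hb hab
    exact Disjoint.mono (i.FT _ (hbl _ (List.getElem_mem ha)))
      (i.FT _ (hbl _ (List.getElem_mem hb))) (h0 a b ha hb hab)
  have hSF' : ee E S F' = (bl.map fun b => ee E b.1 S).sum := by
    rw [ee_comm hE]
    exact (sum_ee_left (f := fun b : Finset V × Finset V => b.1) hdF hF' S).symm
  have hlE : ∀ l : List (Finset V × Finset V), (l.map fun b => ee E b.1 (P \ A)).sum =
      (l.map fun b => ee E b.1 (P \ (A ∪ S))).sum + (l.map fun b => ee E b.1 S).sum := by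
    intro l
    induction l with
    | nil => rfl
    | cons a l ih =>
      have h3 : P \ A = (P \ (A ∪ S)) ∪ S := by
        have h7 : P \ (A ∪ S) = (P \ A) \ S := (sdiff_sdiff_left (a := P) (b := A) (c := S)).symm
        rw [h7, Finset.sdiff_union_of_subset hSP]
      have h5 : Disjoint (P \ (A ∪ S)) S := by
        rw [Finset.disjoint_left]
        intro v hv hv'
        exact (Finset.mem_sdiff.1 hv).2 (Finset.mem_union_right _ hv')
      have h6 : ee E a.1 (P \ A) = ee E a.1 (P \ (A ∪ S)) + ee E a.1 S := by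
        rw [h3, ee_union_right h5]
      simp only [List.map_cons, List.sum_cons, ih, h6]
      ring
  exact
    { AP := Finset.union_subset i.AP (hSP.trans Finset.sdiff_subset)
      rP := i.rP
      rA := by
        rw [Finset.mem_union]
        rintro (h | h)
        · exact i.rA h
        · exact hrS h
      rF := by
        intro b hb
        obtain ⟨a, ha, rfl⟩ := List.mem_map.1 hb
        exact i.rF a (hbl a ha)
      FT := by
        intro b hb
        obtain ⟨a, ha, rfl⟩ := List.mem_map.1 hb
        intro v hv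
        exact Finset.mem_sdiff.2 ⟨i.FT a (hbl a ha) hv,
          fun h => Finset.disjoint_left.1 (hSb a ha) h hv⟩
      TP := by
        intro b hb
        obtain ⟨a, ha, rfl⟩ := List.mem_map.1 hb
        intro v hv
        obtain ⟨h3, h4⟩ := Finset.mem_sdiff.1 hv
        obtain ⟨h5, h6⟩ := Finset.mem_sdiff.1 (i.TP a (hbl a ha) h3)
        refine Finset.mem_sdiff.2 ⟨h5, ?_⟩
        rw [Finset.mem_union]
        rintro (h | h)
        · exact h6 h
        · exact h4 h
      ne := by
        intro b hb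
        obtain ⟨a, ha, rfl⟩ := List.mem_map.1 hb
        exact i.ne a (hbl a ha)
      conn := by
        intro b hb
        obtain ⟨a, ha, rfl⟩ := List.mem_map.1 hb
        exact i.conn a (hbl a ha)
      leaf := by
        intro b hb
        obtain ⟨a, ha, rfl⟩ := List.mem_map.1 hb
        intro t ht htF
        exact i.leaf a (hbl a ha) t (Finset.mem_sdiff.1 ht).1 htF
      disj := by
        rw [List.pairwise_map]
        exact hdisj.2.imp fun hab => Disjoint.mono Finset.sdiff_subset Finset.sdiff_subset hab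
      wT := by
        intro b hb
        obtain ⟨a, ha, rfl⟩ := List.mem_map.1 hb
        exact (ww_mono Finset.sdiff_subset).trans (i.wT a (hbl a ha))
      cnt := by
        have := i.cnt
        rw [List.length_map]
        rw [List.length_cons] at this
        omega
      accW := by
        have h3 := i.accW
        rw [hmapW, hwAS]
        have h4 := hlW (b0 :: bl)
        simp only [List.map_cons, List.sum_cons] at h3 h4 hsumW
        have h5 : n * K * (Nc + 1) = n * K * Nc + n * K := by ring
        omega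
      accF := by
        have h3 := i.accF
        rw [hmapC, hcAS]
        have h4 := hlC (b0 :: bl)
        simp only [List.map_cons, List.sum_cons] at h3 h4 hsumC
        refine h3.trans (Nat.add_le_add_right (Nat.mul_le_mul_left _ ?_) _)
        have h5 : K * (Nc + 1) = K * Nc + K := by ring
        omega
      pot := by
        have h3 := i.pot
        rw [hmapE]
        have h4 := hlE bl
        simp only [List.map_cons, List.sum_cons] at h3
        have h5 := hcut.1
        omega
      sumF := by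
        have h3 := i.sumF
        rw [hmapF]
        simp only [List.map_cons, List.sum_cons] at h3
        omega
      test := h2 }

end Pool.Agent.H24S
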