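import Pool.Agent.Lib.H24S.I2

/-!
# H24S chunk I4: the invariant after a cut that keeps all blobs (case (b)), and with a new blob

`inv_cutB`: `S` is disjoint from all cores and is moved to the cut off set; `r'` is the new root.
As in I3, but no blob is deleted: `ww b.2 = ww (b.2 \ S) + ww (b.2 ∩ S)`, the sets `b.2 ∩ S` are disjoint
subsets of `S`. `pot`: `cut_ineq` with `F'` = union of the cores, `inv_cores`.

`inv_blob`: a new blob `(F, T)`; `T` is disjoint from the other trees. `accW`: `5 n K ≤ ww T`. `accF`: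
`ww F ≤ K |T| + n`. `pot`: `ee F (P \ A) ≤ ww F`.
-/

set_option autoImplicit false

namespace Pool.Agent.H24S

variable {V : Type*} [DecidableEq V]
variable {n K : ℕ} {E : Finset (V × V)} {P A : Finset V} {bl : List (Finset V × Finset V)}
  {r : V} {Ne Nc SF : ℕ}

lemma I4_card (S : Finset V) (l : List (Finset V × Finset V)) :
    (l.map fun b => b.2.card).sum =
      (l.map fun b => (b.2 \ S).card).sum + (l.map fun b => (b.2 ∩ S).card).sum := by
  induction l with
  | nil => simp
  | cons b l ih =>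
    simp only [List.map_cons, List.sum_cons]
    rw [ih, ← Finset.card_sdiff_add_card_inter b.2 S]
    omega

lemma I4_ww (S : Finset V) (l : List (Finset V × Finset V)) :
    (l.map fun b => ww E b.2).sum =
      (l.map fun b => ww E (b.2 \ S)).sum + (l.map fun b => ww E (b.2 ∩ S)).sum := by
  induction l with
  | nil => simp
  | cons b l ih =>
    simp only [List.map_cons, List.sum_cons]
    rw [ih, ← ww_sdiff_add (E := E) (A := b.2) (B := S)]
    omega

lemma I4_ee {S : Finset V} (hS : S ⊆ P \ A) (l : List (Finset V × Finset V)) :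
    (l.map fun b => ee E b.1 (P \ (A ∪ S))).sum + (l.map fun b => ee E b.1 S).sum =
      (l.map fun b => ee E b.1 (P \ A)).sum := by
  have h1 : P \ A = (P \ (A ∪ S)) ∪ S := by
    ext v
    have := @hS v
    simp only [Finset.mem_sdiff, Finset.mem_union] at this ⊢
    tauto
  have h2 : Disjoint (P \ (A ∪ S)) S := by
    rw [Finset.disjoint_left]
    intro v hv hv'
    simp only [Finset.mem_sdiff, Finset.mem_union] at hv
    tauto
  induction l with
  | nil => simp
  | cons b l ih =>
    simp only [List.map_cons, List.sum_cons]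
    rw [← ih]
    have h3 : ee E b.1 (P \ A) = ee E b.1 (P \ (A ∪ S)) + ee E b.1 S := by
      rw [← ee_union_right h2, ← h1]
    rw [h3]
    omega

lemma I4_inter {S : Finset V} {l : List (Finset V × Finset V)}
    (hd : l.Pairwise fun b b' => Disjoint b.2 b'.2) :
    l.Pairwise fun b b' => Disjoint (b.2 ∩ S) (b'.2 ∩ S) :=
  hd.imp fun h => Finset.disjoint_of_subset_left Finset.inter_subset_left
    (Finset.disjoint_of_subset_right Finset.inter_subset_left h)

theorem inv_cutB (c : Ctx n K E P) (i : Inv n K E P A bl r Ne Nc SF) {S X : Finset V} {r' : V}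
    (hS : S ⊆ P \ A) (hSF : ∀ b ∈ bl, Disjoint S b.1) (hX : X.card < K)
    (hN : ∀ x ∈ E, x.1 ∈ S → x.2 ∉ S → x.2 ∈ A ∨ x.2 ∈ X ∨ ∃ b ∈ bl, x.2 ∈ b.1)
    (hr : r' ∈ P \ A) (hrS : r' ∉ S) (hrF : ∀ b ∈ bl, r' ∉ b.1)
    (h1 : nu K E S ≤ K * bb E S) (h2 : nu K E (A ∪ S) ≤ K * bb E (A ∪ S)) :
    Inv n K E P (A ∪ S) (bl.map fun b => (b.1, b.2 \ S)) r' Ne Nc SF := by
  classical
  have hAS : Disjoint A S := by
    rw [Finset.disjoint_left]
    intro v hv hv'
    exact (Finset.mem_sdiff.1 (hS hv')).2 hv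
  have hSP : S ⊆ P := fun v hv => (Finset.mem_sdiff.1 (hS hv)).1
  have hr2 := Finset.mem_sdiff.1 hr
  set F' : Finset V := P.filter (fun v => ∃ b ∈ bl, v ∈ b.1) with hF'
  have hF : ∀ v, v ∈ F' ↔ ∃ b ∈ bl, v ∈ b.1 := by
    intro v
    rw [hF', Finset.mem_filter]
    refine ⟨fun h => h.2, fun h => ⟨?_, h⟩⟩
    obtain ⟨b, hb, hv⟩ := h
    exact (Finset.mem_sdiff.1 (i.TP b hb (i.FT b hb hv))).1
  have hcut := (cut_ineq c hAS hX (F' := F') (fun x hx h3 h4 => by
    rcases hN x hx h3 h4 with h | h | h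
    · exact Or.inl h
    · exact Or.inr (Or.inl h)
    · exact Or.inr (Or.inr ((hF _).2 h))) h1).1
  obtain ⟨hce, _⟩ := inv_cores i hF c.gr.symm S
  have hmem : ∀ b' ∈ bl.map (fun b => (b.1, b.2 \ S)), ∃ b ∈ bl, b' = (b.1, b.2 \ S) := by
    intro b' hb'
    obtain ⟨b, hb, rfl⟩ := List.mem_map.1 hb'
    exact ⟨b, hb, rfl⟩
  have hsw : (bl.map fun b => ww E (b.2 ∩ S)).sum ≤ ww E S :=
    sum_ww_le (I4_inter i.disj) fun b _ => Finset.inter_subset_right
  have hsc : (bl.map fun b => (b.2 ∩ S).card).sum ≤ S.card :=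
    sum_card_le (I4_inter i.disj) fun b _ => Finset.inter_subset_right
  constructor
  · exact Finset.union_subset i.AP hSP
  · exact hr2.1
  · rw [Finset.mem_union]; tauto
  · intro b' hb'
    obtain ⟨b, hb, rfl⟩ := hmem b' hb'
    exact hrF b hb
  · intro b' hb' v hv
    obtain ⟨b, hb, rfl⟩ := hmem b' hb'
    exact Finset.mem_sdiff.2 ⟨i.FT b hb hv, fun h => Finset.disjoint_left.1 (hSF b hb) h hv⟩
  · intro b' hb' v hv
    obtain ⟨b, hb, rfl⟩ := hmem b' hb'
    obtain ⟨hv1, hv2⟩ := Finset.mem_sdiff.1 hv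
    have hv3 := Finset.mem_sdiff.1 (i.TP b hb hv1)
    rw [Finset.mem_sdiff, Finset.mem_union]
    tauto
  · intro b' hb'
    obtain ⟨b, hb, rfl⟩ := hmem b' hb'
    exact i.ne b hb
  · intro b' hb'
    obtain ⟨b, hb, rfl⟩ := hmem b' hb'
    exact i.conn b hb
  · intro b' hb' t ht htn
    obtain ⟨b, hb, rfl⟩ := hmem b' hb'
    exact i.leaf b hb t (Finset.mem_sdiff.1 ht).1 htn
  · rw [List.pairwise_map]
    exact i.disj.imp fun h => Finset.disjoint_of_subset_left Finset.sdiff_subset
      (Finset.disjoint_of_subset_right Finset.sdiff_subset h)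
  · intro b' hb'
    obtain ⟨b, hb, rfl⟩ := hmem b' hb'
    exact (ww_mono Finset.sdiff_subset).trans (i.wT b hb)
  · rw [List.length_map]; exact i.cnt
  · have h3 := i.accW
    rw [I4_ww S bl] at h3
    rw [List.map_map, ww_union hAS]
    have h4 : ((fun b : Finset V × Finset V => ww E b.2) ∘ fun b : Finset V × Finset V => (b.1, b.2 \ S)) =
        fun b : Finset V × Finset V => ww E (b.2 \ S) := rfl
    rw [h4]
    omega
  · have h3 := i.accF
    rw [I4_card S bl] at h3
    rw [List.map_map, Finset.card_union_of_disjoint hAS]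
    have h4 : ((fun b : Finset V × Finset V => b.2.card) ∘ fun b : Finset V × Finset V => (b.1, b.2 \ S)) =
        fun b : Finset V × Finset V => (b.2 \ S).card := rfl
    rw [h4]
    refine h3.trans (Nat.add_le_add_right (Nat.mul_le_mul_left _ ?_) _)
    omega
  · have h3 := i.pot
    rw [← I4_ee hS bl] at h3
    rw [List.map_map]
    have h4 : ((fun b : Finset V × Finset V => ee E b.1 (P \ (A ∪ S))) ∘
        fun b : Finset V × Finset V => (b.1, b.2 \ S)) =
        fun b : Finset V × Finset V => ee E b.1 (P \ (A ∪ S)) := rfl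
    rw [h4]
    omega
  · rw [List.map_map]
    exact i.sumF
  · exact h2

theorem inv_blob (c : Ctx n K E P) (i : Inv n K E P A bl r Ne Nc SF) {F T : Finset V}
    (hFT : F ⊆ T) (hT : T ⊆ P \ A) (hd : ∀ b ∈ bl, Disjoint T b.2) (hr : r ∉ F)
    (hne : F.Nonempty) (hc : Cn E F) (hl : ∀ t ∈ T, t ∉ F → ∃ f ∈ F, (f, t) ∈ E)
    (h5 : 5 * (n * K) ≤ ww E T) (h6 : ww E T ≤ 6 * (n * K)) (hF : ww E F ≤ K * T.card + n) :
    Inv n K E P A ((F, T) :: bl) r (Ne + 1) Nc (SF + ww E F) := by
  constructor
  · exact i.AP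
  · exact i.rP
  · exact i.rA
  · intro b hb
    rcases List.mem_cons.1 hb with rfl | hb
    · exact hr
    · exact i.rF b hb
  · intro b hb
    rcases List.mem_cons.1 hb with rfl | hb
    · exact hFT
    · exact i.FT b hb
  · intro b hb
    rcases List.mem_cons.1 hb with rfl | hb
    · exact hT
    · exact i.TP b hb
  · intro b hb
    rcases List.mem_cons.1 hb with rfl | hb
    · exact hne
    · exact i.ne b hb
  · intro b hb
    rcases List.mem_cons.1 hb with rfl | hb
    · exact hc
    · exact i.conn b hb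
  · intro b hb
    rcases List.mem_cons.1 hb with rfl | hb
    · exact hl
    · exact i.leaf b hb
  · exact List.pairwise_cons.2 ⟨hd, i.disj⟩
  · intro b hb
    rcases List.mem_cons.1 hb with rfl | hb
    · exact h6
    · exact i.wT b hb
  · have := i.cnt
    rw [List.length_cons]; omega
  · have := i.accW
    rw [List.map_cons, List.sum_cons, mul_add, mul_one]
    dsimp only
    omega
  · have := i.accF
    rw [List.map_cons, List.sum_cons]
    dsimp only
    calc SF + ww E F ≤ (K * (A.card + (bl.map fun b => b.2.card).sum + K * Nc) + n * Ne) +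
          (K * T.card + n) := Nat.add_le_add this hF
      _ = _ := by ring
  · have := i.pot
    rw [List.map_cons, List.sum_cons]
    dsimp only
    have h7 := ee_le_ww (E := E) F (P \ A)
    omega
  · have := i.sumF
    rw [List.map_cons, List.sum_cons]
    dsimp only
    omega
  · exact i.test

end Pool.Agent.H24S
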