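import Pool.Agent.Lib.H24S.D2
import Pool.Agent.Lib.H24S.I3
import Pool.Agent.Lib.H24S.I4

/-!
# H24S chunk I5: the cut step of the algorithm is correct

`s = (A, bl, r)`, `F ∈ farJ E s` is the core of a blob `b0 = (F, T0)` of `bl` (the cores of different blobs
are different: nonempty and disjoint), `W`, `X` as in `CutP` with `V1 = vOne P s`. `V0 = vFree P s` = vertices
of `P` outside `A` and outside all cores, `r ∈ V0`, `V1 = V0` minus `r`.

Case 1, `2 nL (F ++ W) ≤ nL P`: `S = itr P (F ++ W)` has `S.toFinset = W ∪ F`. `¬ vio S` gives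
`nu S ≤ K bb S` (`vio_iff`, `S` nonempty). The hypotheses of `inv_cutA` (after `Inv.perm`, `bl` is a permutation of
`b0 :: bl.filter (core ≠ F)`): an arc from `S` to a vertex `u` outside `S`: `u ∈ P`; if `u ∉ A` and `u` is
not in another core, then `u ∈ V0` (`u ∉ F`); `u ≠ r` since `F` is not adjacent to `r` (`farJ`) and `W` is
not (`rW`); so `u ∈ V1` and `CutP.nb` gives `u ∈ X` (`u ∉ W`). `cut_test` (with `bl` minus `b0`; its
proof or statement applies because `Inv` for `b0 :: bl'` gives the bounds; the union of the cores `F'` may be taken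
over `b0 :: bl'`, all hypotheses still hold) gives `2 nu (A ∪ S) ≤ nu P`, so `¬ vio (A ∪ S)` gives
`nu (A ∪ S) ≤ K bb (A ∪ S)`. New length of the cut off set is larger (`S` nonempty, disjoint from `A`), `Ne` the same.
Case 2: `S = V0 \ (W ++ X)`, `r ∈ S`. `nu (W ∪ F) > nu P / 2` and `S` disjoint from `W ∪ F` inside `P` give
`2 nu S < nu P`. An arc from `S` to `u` outside `S`: `u ∈ P`, if `u` is not in `A` and in no core then
`u ∈ V0`, so `u ∈ W` or `u ∈ X`; `u ∈ W` is impossible: the reverse arc goes from `W` to `x.1 ∈ S`: either `x.1 = r`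
(against `rW`) or `x.1 ∈ V1`, so `x.1 ∈ W ∪ X` by `nb`, contradiction. New root: `W.headD 0 ∈ W`, `W` is not
empty since `16 nu F ≤ 3 nu P` (`inv_num`). Then `inv_cutB`.
If one of the tests `vio` is true, the first alternative of `RoundOK` holds.
-/

set_option autoImplicit false

namespace Pool.Agent.H24S

/-- the test of `S` and of the new cut off set -/
theorem i5_try {n K : ℕ} {E : AS} {P : VS} (hP : P.Nodup) {s : St} {Ne : ℕ} {S : VS}
    {bl : List (VS × VS)} {r : ℕ} (hS : S.Nodup) (hSP : ∀ v ∈ S, v ∈ P)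
    (h : vio K E P S = false → vio K E P (moveS P S bl s r).1 = false →
      ∃ Ne' Nc' SF', InvL n K E P (moveS P S bl s r) Ne' Nc' SF' ∧
        s.1.length + Ne < (moveS P S bl s r).1.length + Ne') :
    RoundOK n K E P s Ne (tryMove K E P S bl s r) := by
  unfold tryMove
  by_cases h1 : vio K E P S = true
  · rw [if_pos h1]
    exact Or.inl ⟨S, rfl, hS, hSP, h1⟩
  · rw [if_neg h1]
    by_cases h2 : vio K E P (moveS P S bl s r).1 = true
    · rw [if_pos h2]
      refine Or.inl ⟨_, rfl, ?_, ?_, h2⟩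
      · exact List.Nodup.filter _ hP
      · intro v hv
        exact (List.mem_filter.1 hv).1
    · rw [if_neg h2]
      exact Or.inr (Or.inl ⟨rfl, rfl, h (Bool.eq_false_of_not_eq_true h1)
        (Bool.eq_false_of_not_eq_true h2)⟩)

theorem i5_mem_move {P S : VS} {bl : List (VS × VS)} {s : St} {r v : ℕ} :
    v ∈ (moveS P S bl s r).1 ↔ v ∈ P ∧ (v ∈ S ∨ v ∈ s.1) := by
  unfold moveS
  simp only [List.mem_filter, Bool.or_eq_true, decide_eq_true_eq]

theorem i5_move_toFinset {P S : VS} {bl : List (VS × VS)} {s : St} {r : ℕ}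
    (hS : ∀ v ∈ S, v ∈ P) (hA : ∀ v ∈ s.1, v ∈ P) :
    (moveS P S bl s r).1.toFinset = s.1.toFinset ∪ S.toFinset := by
  ext v
  rw [List.mem_toFinset, i5_mem_move, Finset.mem_union, List.mem_toFinset, List.mem_toFinset]
  constructor
  · rintro ⟨-, h | h⟩
    · exact Or.inr h
    · exact Or.inl h
  · rintro (h | h)
    · exact ⟨hA v h, Or.inr h⟩
    · exact ⟨hS v h, Or.inl h⟩

theorem i5_len {P S : VS} {bl : List (VS × VS)} {s : St} {r : ℕ} (hP : P.Nodup)
    (hA : s.1.Nodup) (hSP : ∀ v ∈ S, v ∈ P) (hAP : ∀ v ∈ s.1, v ∈ P) (hne : S ≠ [])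
    (hd : ∀ v ∈ S, v ∉ s.1) : s.1.length < (moveS P S bl s r).1.length := by
  have h1 : (moveS P S bl s r).1.Nodup := List.Nodup.filter _ hP
  rw [← List.toFinset_card_of_nodup h1, ← List.toFinset_card_of_nodup hA,
    i5_move_toFinset hSP hAP]
  apply Finset.card_lt_card
  rw [Finset.ssubset_iff_subset_ne]
  refine ⟨Finset.subset_union_left, fun h => ?_⟩
  obtain ⟨v, hv⟩ := List.exists_mem_of_ne_nil S hne
  have h2 : v ∈ s.1.toFinset := by
    rw [h]
    exact Finset.mem_union_right _ (List.mem_toFinset.2 hv)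
  exact hd v hv (List.mem_toFinset.1 h2)

theorem i5_mem_fin2 {bl : List (VS × VS)} {b : VS × VS} (h : b ∈ bl) :
    (b.1.toFinset, b.2.toFinset) ∈ fin2 bl := List.mem_map_of_mem h

theorem i5_of_mem_fin2 {bl : List (VS × VS)} {c : Finset ℕ × Finset ℕ} (h : c ∈ fin2 bl) :
    ∃ b ∈ bl, c = (b.1.toFinset, b.2.toFinset) := by
  obtain ⟨b, hb, rfl⟩ := List.mem_map.1 h
  exact ⟨b, hb, rfl⟩

theorem i5_mem_vFree {P : VS} {s : St} {v : ℕ} :
    v ∈ vFree P s ↔ v ∈ P ∧ v ∉ s.1 ∧ ∀ b ∈ s.2.1, v ∉ b.1 := by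
  unfold vFree
  simp only [List.mem_filter, Bool.and_eq_true, Bool.not_eq_true', decide_eq_false_iff_not,
    List.any_eq_false, decide_eq_true_eq]

theorem i5_mem_vOne {P : VS} {s : St} {v : ℕ} :
    v ∈ vOne P s ↔ v ∈ vFree P s ∧ v ≠ s.2.2 := by
  unfold vOne
  simp only [List.mem_filter, Bool.not_eq_true', decide_eq_false_iff_not, ne_eq]

theorem i5_mem_farJ {E : AS} {s : St} {F : VS} (h : F ∈ farJ E s) :
    (∃ b ∈ s.2.1, b.1 = F) ∧ adjS E F s.2.2 = false := by
  unfold farJ at h
  rw [List.mem_filter, List.mem_map] at h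
  obtain ⟨h1, h2⟩ := h
  refine ⟨h1, ?_⟩
  simpa using h2

/-- no violation -/
theorem i5_novio {n K : ℕ} {E : AS} {P : VS} (c : CtxL n K E P) {Z : VS} (hZ : Z.Nodup)
    (hne : Z ≠ []) (h2 : 2 * nu K E.toFinset Z.toFinset ≤ nu K E.toFinset P.toFinset)
    (h : vio K E P Z = false) :
    nu K E.toFinset Z.toFinset ≤ K * bb E.toFinset Z.toFinset := by
  by_contra hlt
  have h3 := (vio_iff c.nE K c.nP hZ).2 ⟨hne, h2, not_le.1 hlt⟩
  rw [h] at h3
  exact Bool.false_ne_true h3


theorem i5_perm {n K : ℕ} {E : AS} {P : VS} {s : St} {Ne Nc SF : ℕ}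
    (i : InvL n K E P s Ne Nc SF) {b0 : VS × VS} (h0 : b0 ∈ s.2.1) :
    s.2.1.Perm (b0 :: s.2.1.filter fun b => !decide (b.1 = b0.1)) := by
  have hpw : s.2.1.Pairwise fun b b' => b.1 ≠ b'.1 := by
    have h1 := i.inv.disj
    unfold fin2 at h1
    rw [List.pairwise_map] at h1
    refine List.Pairwise.imp_of_mem ?_ h1
    intro a b ha hb hd hab
    have h2 := i.inv.ne _ (i5_mem_fin2 ha)
    have h3 := i.inv.FT _ (i5_mem_fin2 ha)
    have h4 := i.inv.FT _ (i5_mem_fin2 hb)
    obtain ⟨v, hv⟩ := h2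
    have h5 : v ∈ b.1.toFinset := by
      rw [← hab]
      exact hv
    exact Finset.disjoint_left.1 hd (h3 hv) (h4 h5)
  have h1 : s.2.1.filter (fun b => decide (b.1 = b0.1)) = [b0] := by
    have hm : b0 ∈ s.2.1.filter (fun b => decide (b.1 = b0.1)) := by
      rw [List.mem_filter]
      exact ⟨h0, by simp⟩
    have hp : (s.2.1.filter (fun b => decide (b.1 = b0.1))).Pairwise fun b b' => b.1 ≠ b'.1 :=
      List.Pairwise.filter _ hpw
    have hall : ∀ b ∈ s.2.1.filter (fun b => decide (b.1 = b0.1)), b.1 = b0.1 := by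
      intro b hb
      have := (List.mem_filter.1 hb).2
      simpa using this
    match h : s.2.1.filter (fun b => decide (b.1 = b0.1)) with
    | [] =>
      rw [h] at hm
      exact absurd hm List.not_mem_nil
    | [x] =>
      rw [h] at hm
      rw [h, List.mem_singleton.1 hm]
    | x :: y :: l =>
      exfalso
      rw [h] at hp hall
      have h2 := (List.pairwise_cons.1 hp).1 y List.mem_cons_self
      exact h2 ((hall x List.mem_cons_self).trans
        (hall y (List.mem_cons_of_mem _ List.mem_cons_self)).symm)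
  have h2 := List.filter_append_perm (fun b : VS × VS => decide (b.1 = b0.1)) s.2.1
  rw [h1] at h2
  exact h2.symm

theorem cutStep_ok {n K : ℕ} {E : AS} {P : VS} (c : CtxL n K E P) {s : St} {Ne Nc SF : ℕ}
    (i : InvL n K E P s Ne Nc SF) {F W X : VS} (h : CutP K E (vOne P s) (farJ E s) s.2.2 F W X) :
    RoundOK n K E P s Ne (cutStep K E P s F W X) := by
  classical
  obtain ⟨⟨b0, hb0, hb0F⟩, hfar⟩ := i5_mem_farJ h.mF
  have hfar' : ∀ f ∈ F, (f, s.2.2) ∉ E := by
    intro f hf hE
    rw [(adjS_iff (y := s.2.2)).2 ⟨f, hf, hE⟩] at hfar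
    exact Bool.noConfusion hfar
  have hsymm : ∀ x ∈ E, x.swap ∈ E := fun x hx =>
    List.mem_toFinset.1 (c.ctx.gr.symm x (List.mem_toFinset.2 hx))
  have hE2 : ∀ x ∈ E, x.2 ∈ P := fun x hx =>
    List.mem_toFinset.1 (c.ctx.gr.inP' x (List.mem_toFinset.2 hx))
  have hAP : ∀ v ∈ s.1, v ∈ P := fun v hv =>
    List.mem_toFinset.1 (i.inv.AP (List.mem_toFinset.2 hv))
  have hcore : ∀ b ∈ s.2.1, ∀ v ∈ b.1, v ∈ P ∧ v ∉ s.1 := by
    intro b hb v hv
    have h1 := i.inv.TP _ (i5_mem_fin2 hb) (i.inv.FT _ (i5_mem_fin2 hb) (List.mem_toFinset.2 hv))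
    rw [Finset.mem_sdiff, List.mem_toFinset, List.mem_toFinset] at h1
    exact h1
  have hrfree : s.2.2 ∈ vFree P s := by
    rw [i5_mem_vFree]
    refine ⟨List.mem_toFinset.1 i.inv.rP, fun h1 => i.inv.rA (List.mem_toFinset.2 h1), ?_⟩
    intro b hb h1
    exact i.inv.rF _ (i5_mem_fin2 hb) (List.mem_toFinset.2 h1)
  have hWf : ∀ v ∈ W, v ∈ P ∧ v ∉ s.1 ∧ (∀ b ∈ s.2.1, v ∉ b.1) ∧ v ≠ s.2.2 := by
    intro v hv
    have h1 := i5_mem_vOne.1 (h.mW.2 v hv)
    have h2 := i5_mem_vFree.1 h1.1
    exact ⟨h2.1, h2.2.1, h2.2.2, h1.2⟩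
  have hXr : s.2.2 ∉ X := fun h1 => (i5_mem_vOne.1 (h.mX.2 _ h1)).2 rfl
  have hWr : s.2.2 ∉ W := fun h1 => (hWf _ h1).2.2.2 rfl
  have hFP : ∀ v ∈ F, v ∈ P ∧ v ∉ s.1 := by
    rw [← hb0F]
    exact hcore b0 hb0
  have hFne : F.toFinset.Nonempty := by
    have h1 := i.inv.ne _ (i5_mem_fin2 hb0)
    rw [← hb0F]
    exact h1
  have hXcard : X.toFinset.card < K := by
    rw [List.toFinset_card_of_nodup h.mX.1]
    exact h.len
  -- the union of all cores
  obtain ⟨F', hF'⟩ : ∃ F' : Finset ℕ, ∀ v, v ∈ F' ↔ ∃ b ∈ fin2 s.2.1, v ∈ b.1 := by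
    refine ⟨P.toFinset.filter fun v => ∃ b ∈ fin2 s.2.1, v ∈ b.1, fun v => ?_⟩
    rw [Finset.mem_filter]
    refine ⟨fun h1 => h1.2, fun h1 => ⟨?_, h1⟩⟩
    obtain ⟨b, hb, hv⟩ := h1
    exact (Finset.mem_sdiff.1 (i.inv.TP b hb (i.inv.FT b hb hv))).1
  have hFF' : ∀ v, v ∈ F' ↔ ∃ b ∈ s.2.1, v ∈ b.1 := by
    intro v
    rw [hF']
    constructor
    · rintro ⟨b, hb, hv⟩
      obtain ⟨b', hb', rfl⟩ := i5_of_mem_fin2 hb
      exact ⟨b', hb', List.mem_toFinset.1 hv⟩
    · rintro ⟨b, hb, hv⟩
      exact ⟨_, i5_mem_fin2 hb, List.mem_toFinset.2 hv⟩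
  have hnum := inv_num c.ctx i.inv
  unfold cutStep
  by_cases hcase : 2 * nL K E (itr P (F ++ W)) ≤ nL K E P
  · rw [if_pos hcase]
    have hSn : (itr P (F ++ W)).Nodup := itr_nodup _ c.nP
    have hSm : ∀ v, v ∈ itr P (F ++ W) ↔ v ∈ W ∨ v ∈ F := by
      intro v
      rw [mem_itr, List.mem_append]
      constructor
      · rintro ⟨-, h1 | h1⟩
        · exact Or.inr h1
        · exact Or.inl h1
      · rintro (h1 | h1)
        · exact ⟨(hWf v h1).1, Or.inr h1⟩
        · exact ⟨(hFP v h1).1, Or.inl h1⟩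
    have hSf : (itr P (F ++ W)).toFinset = W.toFinset ∪ F.toFinset := by
      ext v
      rw [List.mem_toFinset, hSm, Finset.mem_union, List.mem_toFinset, List.mem_toFinset]
    have hSP : ∀ v ∈ itr P (F ++ W), v ∈ P := fun v hv => (mem_itr.1 hv).1
    rw [nL_eq c.nE K hSn, nL_eq c.nE K c.nP] at hcase
    have hSne : itr P (F ++ W) ≠ [] := by
      obtain ⟨v, hv⟩ := hFne
      have h1 := (hSm v).2 (Or.inr (List.mem_toFinset.1 hv))
      exact List.ne_nil_of_mem h1
    have hSA : ∀ v ∈ itr P (F ++ W), v ∉ s.1 := by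
      intro v hv
      rcases (hSm v).1 hv with h1 | h1
      · exact (hWf v h1).2.1
      · exact (hFP v h1).2
    refine i5_try c.nP hSn hSP fun hv1 hv2 => ?_
    have hn1 := i5_novio c hSn hSne hcase hv1
    have hN0 : ∀ x ∈ E.toFinset, x.1 ∈ W.toFinset ∪ F.toFinset → x.2 ∉ W.toFinset ∪ F.toFinset →
        x.2 ∈ s.1.toFinset ∨ x.2 ∈ X.toFinset ∨ ∃ b ∈ s.2.1, b.1 ≠ F ∧ x.2 ∈ b.1 := by
      intro x hx h1 h2
      rw [List.mem_toFinset] at hx
      rw [Finset.mem_union, List.mem_toFinset, List.mem_toFinset] at h1 h2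
      push Not at h2
      by_cases hA : x.2 ∈ s.1
      · exact Or.inl (List.mem_toFinset.2 hA)
      · right
        by_cases hc : ∃ b ∈ s.2.1, x.2 ∈ b.1
        · obtain ⟨b, hb, hxb⟩ := hc
          refine Or.inr ⟨b, hb, fun hbF => h2.2 ?_, hxb⟩
          rw [← hbF]
          exact hxb
        · left
          push Not at hc
          have h3 : x.2 ∈ vFree P s := i5_mem_vFree.2 ⟨hE2 x hx, hA, hc⟩
          have h4 : x.2 ≠ s.2.2 := by
            intro h5
            have h6 : (x.1, s.2.2) ∈ E := by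
              rw [← h5]
              exact hx
            rcases h1 with h1 | h1
            · exact h.rW _ h1 h6
            · exact hfar' _ h1 h6
          have h5 := h.nb x.2 (i5_mem_vOne.2 ⟨h3, h4⟩) ⟨x.1, by
            rw [List.mem_append]
            exact h1.symm, hx⟩
          rcases h5 with h5 | h5
          · exact absurd h5 h2.1
          · exact List.mem_toFinset.2 h5
    have hdisj : Disjoint s.1.toFinset (itr P (F ++ W)).toFinset := by
      rw [Finset.disjoint_left]
      intro v h1 h2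
      exact hSA v (List.mem_toFinset.1 h2) (List.mem_toFinset.1 h1)
    have htest : 2 * nu K E.toFinset (s.1.toFinset ∪ (itr P (F ++ W)).toFinset) ≤
        nu K E.toFinset P.toFinset := by
      refine cut_test c.ctx i.inv hdisj hXcard hF' ?_ hn1
      intro x hx h1 h2
      rw [hSf] at h1 h2
      rcases hN0 x hx h1 h2 with h3 | h3 | ⟨b, hb, -, hxb⟩
      · exact Or.inl h3
      · exact Or.inr (Or.inl h3)
      · exact Or.inr (Or.inr ((hFF' _).2 ⟨b, hb, hxb⟩))
    have hmove : ∀ bl : List (VS × VS), (moveS P (itr P (F ++ W)) bl s s.2.2).1.toFinset =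
        s.1.toFinset ∪ (itr P (F ++ W)).toFinset := fun bl => i5_move_toFinset hSP hAP
    have hmn : (moveS P (itr P (F ++ W)) (s.2.1.filter fun b => !decide (b.1 = F)) s s.2.2).1.Nodup :=
      List.Nodup.filter _ c.nP
    have hlen := i5_len (bl := s.2.1.filter fun b => !decide (b.1 = F)) (r := s.2.2) c.nP i.nA
      hSP hAP hSne hSA
    have hn2 := i5_novio c hmn (List.ne_nil_of_length_pos (by omega)) (by
      rw [hmove]
      exact htest) hv2
    rw [hmove] at hn2
    refine ⟨Ne, Nc + 1, SF, ⟨hmn, ?_, ?_⟩, by omega⟩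
    · intro b hb
      obtain ⟨b', hb', rfl⟩ := List.mem_map.1 hb
      have h1 := i.nd b' (List.mem_filter.1 hb').1
      exact ⟨h1.1, dif_nodup _ h1.2⟩
    · have hperm := i5_perm i hb0
      have i' := i.inv.perm (List.Perm.map (fun b : VS × VS => (b.1.toFinset, b.2.toFinset)) hperm)
      rw [List.map_cons] at i'
      rw [hb0F] at i'
      have h3 := inv_cutA (W := W.toFinset) (X := X.toFinset) c.ctx i' ?_ ?_ ?_ hXcard ?_ ?_ ?_
      · rw [hmove, hSf]
        have h4 : fin2 (moveS P (itr P (F ++ W)) (s.2.1.filter fun b => !decide (b.1 = F)) s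
            s.2.2).2.1 = ((s.2.1.filter fun b => !decide (b.1 = F)).map
              (fun b : VS × VS => (b.1.toFinset, b.2.toFinset))).map
                fun b => (b.1, b.2 \ (W.toFinset ∪ F.toFinset)) := by
          unfold moveS fin2
          simp only [List.map_map]
          refine List.map_congr_left fun b _ => ?_
          simp only [Function.comp_apply, dif_toFinset, hSf]
        rw [h4]
        exact h3
      · intro v hv
        have h1 := hWf v (List.mem_toFinset.1 hv)
        rw [Finset.mem_sdiff, List.mem_toFinset, List.mem_toFinset]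
        exact ⟨h1.1, h1.2.1⟩
      · intro b hb
        rw [Finset.disjoint_left]
        intro v hv hvb
        have h1 := hWf v (List.mem_toFinset.1 hv)
        rcases List.mem_cons.1 hb with rfl | hb
        · exact h1.2.2.1 b0 hb0 (by
            rw [hb0F]
            exact List.mem_toFinset.1 hvb)
        · obtain ⟨b', hb', rfl⟩ := List.mem_map.1 hb
          exact h1.2.2.1 b' (List.mem_filter.1 hb').1 (List.mem_toFinset.1 hvb)
      · intro h1
        exact hWr (List.mem_toFinset.1 h1)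
      · intro x hx h1 h2
        rcases hN0 x hx h1 h2 with h3 | h3 | ⟨b, hb, hbF, hxb⟩
        · exact Or.inl h3
        · exact Or.inr (Or.inl h3)
        · refine Or.inr (Or.inr ⟨(b.1.toFinset, b.2.toFinset), ?_, List.mem_toFinset.2 hxb⟩)
          refine List.mem_map_of_mem ?_
          rw [List.mem_filter]
          exact ⟨hb, by simpa using hbF⟩
      · rw [← hSf]
        exact hn1
      · rw [← hSf]
        exact hn2
  · rw [if_neg hcase]
    rw [nL_eq c.nE K (itr_nodup _ c.nP), nL_eq c.nE K c.nP, not_le] at hcase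
    have hSn : (dif (vFree P s) (W ++ X)).Nodup := dif_nodup _ (List.Nodup.filter _ c.nP)
    have hSm : ∀ v, v ∈ dif (vFree P s) (W ++ X) ↔ v ∈ vFree P s ∧ v ∉ W ∧ v ∉ X := by
      intro v
      rw [mem_dif, List.mem_append, not_or]
    have hSP : ∀ v ∈ dif (vFree P s) (W ++ X), v ∈ P := fun v hv =>
      (i5_mem_vFree.1 ((hSm v).1 hv).1).1
    have hrS : s.2.2 ∈ dif (vFree P s) (W ++ X) := (hSm _).2 ⟨hrfree, hWr, hXr⟩
    have hSne : dif (vFree P s) (W ++ X) ≠ [] := List.ne_nil_of_mem hrS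
    have hSA : ∀ v ∈ dif (vFree P s) (W ++ X), v ∉ s.1 := fun v hv =>
      (i5_mem_vFree.1 ((hSm v).1 hv).1).2.1
    have hWF : (itr P (F ++ W)).toFinset = W.toFinset ∪ F.toFinset := by
      ext v
      rw [List.mem_toFinset, mem_itr, List.mem_append, Finset.mem_union, List.mem_toFinset,
        List.mem_toFinset]
      constructor
      · rintro ⟨-, h1 | h1⟩
        · exact Or.inr h1
        · exact Or.inl h1
      · rintro (h1 | h1)
        · exact ⟨(hWf v h1).1, Or.inr h1⟩
        · exact ⟨(hFP v h1).1, Or.inl h1⟩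
    rw [hWF] at hcase
    have hWne : W ≠ [] := by
      intro hW0
      rw [hW0, List.toFinset_nil, Finset.empty_union] at hcase
      have h1 := hnum.2.2.2.2 _ (i5_mem_fin2 hb0)
      simp only [hb0F] at h1
      omega
    have hWh : W.headD 0 ∈ W := by
      obtain ⟨a, l, rfl⟩ := List.exists_cons_of_ne_nil hWne
      exact List.mem_cons_self
    have hnuS : 2 * nu K E.toFinset (dif (vFree P s) (W ++ X)).toFinset ≤
        nu K E.toFinset P.toFinset := by
      have hd : Disjoint (dif (vFree P s) (W ++ X)).toFinset (W.toFinset ∪ F.toFinset) := by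
        rw [Finset.disjoint_left]
        intro v h1 h2
        rw [List.mem_toFinset, hSm] at h1
        rw [Finset.mem_union, List.mem_toFinset, List.mem_toFinset] at h2
        rcases h2 with h2 | h2
        · exact h1.2.1 h2
        · refine (i5_mem_vFree.1 h1.1).2.2 b0 hb0 ?_
          rw [hb0F]
          exact h2
      have h1 := nu_union (E := E.toFinset) K hd
      have h2 : nu K E.toFinset ((dif (vFree P s) (W ++ X)).toFinset ∪
          (W.toFinset ∪ F.toFinset)) ≤ nu K E.toFinset P.toFinset := by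
        apply nu_mono
        intro v hv
        rw [Finset.mem_union, Finset.mem_union, List.mem_toFinset, List.mem_toFinset,
          List.mem_toFinset] at hv
        rw [List.mem_toFinset]
        rcases hv with hv | hv | hv
        · exact hSP v hv
        · exact (hWf v hv).1
        · exact (hFP v hv).1
      omega
    refine i5_try c.nP hSn hSP fun hv1 hv2 => ?_
    have hn1 := i5_novio c hSn hSne hnuS hv1
    have hN0 : ∀ x ∈ E.toFinset, x.1 ∈ (dif (vFree P s) (W ++ X)).toFinset →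
        x.2 ∉ (dif (vFree P s) (W ++ X)).toFinset →
        x.2 ∈ s.1.toFinset ∨ x.2 ∈ X.toFinset ∨ ∃ b ∈ fin2 s.2.1, x.2 ∈ b.1 := by
      intro x hx h1 h2
      rw [List.mem_toFinset] at hx
      rw [List.mem_toFinset, hSm] at h1 h2
      by_cases hA : x.2 ∈ s.1
      · exact Or.inl (List.mem_toFinset.2 hA)
      · right
        by_cases hc : ∃ b ∈ s.2.1, x.2 ∈ b.1
        · obtain ⟨b, hb, hxb⟩ := hc
          exact Or.inr ⟨_, i5_mem_fin2 hb, List.mem_toFinset.2 hxb⟩
        · left
          push Not at hc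
          have h3 : x.2 ∈ vFree P s := i5_mem_vFree.2 ⟨hE2 x hx, hA, hc⟩
          rw [List.mem_toFinset]
          by_contra hX
          apply h2
          refine ⟨h3, fun hW => ?_, hX⟩
          have h4 : (x.2, x.1) ∈ E := hsymm x hx
          by_cases hxr : x.1 = s.2.2
          · rw [hxr] at h4
            exact h.rW _ hW h4
          · have h5 := h.nb x.1 (i5_mem_vOne.2 ⟨h1.1, hxr⟩) ⟨x.2, by
              rw [List.mem_append]
              exact Or.inr hW, h4⟩
            rcases h5 with h5 | h5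
            · exact h1.2.1 h5
            · exact h1.2.2 h5
    have hdisj : Disjoint s.1.toFinset (dif (vFree P s) (W ++ X)).toFinset := by
      rw [Finset.disjoint_left]
      intro v h1 h2
      exact hSA v (List.mem_toFinset.1 h2) (List.mem_toFinset.1 h1)
    have htest : 2 * nu K E.toFinset (s.1.toFinset ∪ (dif (vFree P s) (W ++ X)).toFinset) ≤
        nu K E.toFinset P.toFinset := by
      refine cut_test c.ctx i.inv hdisj hXcard hF' ?_ hn1
      intro x hx h1 h2
      rcases hN0 x hx h1 h2 with h3 | h3 | h3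
      · exact Or.inl h3
      · exact Or.inr (Or.inl h3)
      · exact Or.inr (Or.inr ((hF' _).2 h3))
    have hmove : (moveS P (dif (vFree P s) (W ++ X)) s.2.1 s (W.headD 0)).1.toFinset =
        s.1.toFinset ∪ (dif (vFree P s) (W ++ X)).toFinset := i5_move_toFinset hSP hAP
    have hmn : (moveS P (dif (vFree P s) (W ++ X)) s.2.1 s (W.headD 0)).1.Nodup :=
      List.Nodup.filter _ c.nP
    have hlen := i5_len (bl := s.2.1) (r := W.headD 0) c.nP i.nA hSP hAP hSne hSA
    have hn2 := i5_novio c hmn (List.ne_nil_of_length_pos (by omega)) (by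
      rw [hmove]
      exact htest) hv2
    rw [hmove] at hn2
    refine ⟨Ne, Nc, SF, ⟨hmn, ?_, ?_⟩, by omega⟩
    · intro b hb
      obtain ⟨b', hb', rfl⟩ := List.mem_map.1 hb
      have h1 := i.nd b' hb'
      exact ⟨h1.1, dif_nodup _ h1.2⟩
    · have hWh' := hWf _ hWh
      have h3 := inv_cutB (S := (dif (vFree P s) (W ++ X)).toFinset) (X := X.toFinset)
        (r' := W.headD 0) c.ctx i.inv ?_ ?_ hXcard hN0 ?_ ?_ ?_ hn1 hn2
      · rw [hmove]
        have h4 : fin2 (moveS P (dif (vFree P s) (W ++ X)) s.2.1 s (W.headD 0)).2.1 =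
            (fin2 s.2.1).map fun b => (b.1, b.2 \ (dif (vFree P s) (W ++ X)).toFinset) := by
          unfold moveS fin2
          simp only [List.map_map]
          refine List.map_congr_left fun b _ => ?_
          simp only [Function.comp_apply, dif_toFinset]
        rw [h4]
        exact h3
      · intro v hv
        rw [List.mem_toFinset] at hv
        rw [Finset.mem_sdiff, List.mem_toFinset, List.mem_toFinset]
        exact ⟨hSP v hv, hSA v hv⟩
      · intro b hb
        obtain ⟨b', hb', rfl⟩ := i5_of_mem_fin2 hb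
        rw [Finset.disjoint_left]
        intro v hv hvb
        rw [List.mem_toFinset, hSm] at hv
        exact (i5_mem_vFree.1 hv.1).2.2 b' hb' (List.mem_toFinset.1 hvb)
      · rw [Finset.mem_sdiff, List.mem_toFinset, List.mem_toFinset]
        exact ⟨hWh'.1, hWh'.2.1⟩
      · rw [List.mem_toFinset, hSm]
        exact fun h1 => h1.2.1 hWh
      · intro b hb
        obtain ⟨b', hb', rfl⟩ := i5_of_mem_fin2 hb
        intro h1
        exact hWh'.2.2.1 b' hb' (List.mem_toFinset.1 h1)

end Pool.Agent.H24S
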