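import Pool.Agent.Lib.H24S.D2
import Pool.Agent.Lib.H24S.I4
import Pool.Agent.Lib.H24S.G3

/-!
# H24S chunk I6: the growth phase of the algorithm is correct (new blob)

`growU P s bl` = vertices of `V1` outside the trees of the blobs and outside the legs.
`GHyp n K (5 n K) E (growU ..)`: degrees from `Ctx` (`16 K ≤ deg`, `deg ≤ n`), `n < 5 n K` (`K ≥ 8`, `n > 0`
because `K K ≤ 3 n`). If `growAll` finds a blob `b`, `growAll_blob` and `inv_blob`:
`wL E b.2 < 5 n K + n ≤ 6 n K`; the tree `b.2` is disjoint from the trees of `s`, from `A`, from the root.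
`Ne` increases by one.
-/

set_option autoImplicit false

namespace Pool.Agent.H24S

lemma I6_mem {P : VS} {s : St} {bl : List (VS × VS × VS)} {v : ℕ} (h : v ∈ growU P s bl) :
    v ∈ P ∧ v ∉ s.1 ∧ v ≠ s.2.2 ∧ ∀ b ∈ s.2.1, v ∉ b.2 := by
  unfold growU vOne vFree at h
  simp only [List.mem_filter, Bool.and_eq_true, Bool.not_eq_true', decide_eq_false_iff_not,
    List.any_eq_false, decide_eq_true_eq] at h
  exact ⟨h.1.1.1, h.1.1.2.1, h.1.2, h.2.1⟩

lemma growU_hyp {n K : ℕ} {E : AS} {P : VS} (c : CtxL n K E P) (s : St)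
    (bl : List (VS × VS × VS)) : GHyp n K (5 * (n * K)) E (growU P s bl) := by
  have hK := c.ctx.K8
  have hKn := c.ctx.Kn
  have hn : 0 < n := by
    by_contra h
    have h0 : n = 0 := by omega
    subst h0
    have : 8 * 8 ≤ K * K := Nat.mul_le_mul hK hK
    omega
  have hw : ∀ v, wL E [v] = ww E.toFinset {v} := by
    intro v
    rw [wL_eq c.nE]
    simp
  refine ⟨c.nE, ?_, ?_, ?_, ?_, ?_, ?_⟩
  · intro x hx
    exact List.mem_toFinset.1 (c.ctx.gr.symm x (List.mem_toFinset.2 hx))
  · intro x hx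
    exact c.ctx.gr.irr x (List.mem_toFinset.2 hx)
  · unfold growU vOne vFree
    exact ((c.nP.filter _).filter _).filter _
  · intro v hv
    rw [hw]
    have := c.ctx.deg v (List.mem_toFinset.2 (I6_mem hv).1)
    omega
  · intro v hv
    rw [hw]
    exact c.ctx.deg' v (List.mem_toFinset.2 (I6_mem hv).1)
  · nlinarith

theorem growPhase_blob {n K : ℕ} {E : AS} {P : VS} (c : CtxL n K E P) {s : St} {Ne Nc SF : ℕ}
    (i : InvL n K E P s Ne Nc SF) (bl : List (VS × VS × VS)) {b : VS × VS}
    (hb : (growAll K (5 * (n * K)) E (growU P s bl)).2.2 = some b) :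
    RoundOK n K E P s Ne (growPhase K (5 * (n * K)) E P s bl) := by
  have hB := growAll_blob (growU_hyp c s bl) hb
  have hK := c.ctx.K8
  have hout : growPhase K (5 * (n * K)) E P s bl = ((s.1, b :: s.2.1, s.2.2), none, none) := by
    unfold growPhase
    rw [hb]
  rw [hout]
  refine Or.inr (Or.inl ⟨rfl, rfl, Ne + 1, Nc, SF + ww E.toFinset b.1.toFinset, ?_, ?_⟩)
  · refine ⟨i.nA, ?_, ?_⟩
    · intro b' hb'
      rcases List.mem_cons.1 hb' with rfl | hb'
      · exact ⟨hB.ndF, hB.ndT⟩
      · exact i.nd b' hb'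
    · refine inv_blob c.ctx i.inv (F := b.1.toFinset) (T := b.2.toFinset) ?_ ?_ ?_ ?_ ?_ hB.cF ?_
        ?_ ?_ ?_
      · intro v hv
        exact List.mem_toFinset.2 (hB.FT v (List.mem_toFinset.1 hv))
      · intro v hv
        have h := I6_mem (hB.TU v (List.mem_toFinset.1 hv))
        exact Finset.mem_sdiff.2 ⟨List.mem_toFinset.2 h.1, fun h' => h.2.1 (List.mem_toFinset.1 h')⟩
      · intro b' hb'
        obtain ⟨b0, hb0, rfl⟩ := List.mem_map.1 hb'
        rw [Finset.disjoint_left]
        intro v hv hv'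
        exact (I6_mem (hB.TU v (List.mem_toFinset.1 hv))).2.2.2 b0 hb0 (List.mem_toFinset.1 hv')
      · intro h
        exact (I6_mem (hB.TU _ (hB.FT _ (List.mem_toFinset.1 h)))).2.2.1 rfl
      · exact (List.toFinset_nonempty_iff _).2 hB.ne
      · intro t ht htn
        obtain ⟨f, hf, hft⟩ := hB.leaf t (List.mem_toFinset.1 ht)
          (fun h => htn (List.mem_toFinset.2 h))
        exact ⟨f, List.mem_toFinset.2 hf, List.mem_toFinset.2 hft⟩
      · rw [← wL_eq c.nE]; exact hB.wlo
      · rw [← wL_eq c.nE]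
        have h1 := hB.whi
        have h2 : n ≤ n * K := Nat.le_mul_of_pos_right n (by omega)
        omega
      · rw [← wL_eq c.nE, List.toFinset_card_of_nodup hB.ndT]; exact hB.wF
  · dsimp only
    omega

end Pool.Agent.H24S
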