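import Pool.Agent.Lib.H24S.I6

/-!
# H24S chunk I7: the growth phase of the algorithm is correct (no new blob): branches and items

`bl = withLegs E V1 A s`, `leg x = legOf V1 A x`; `LegsOK` for the far cores; near cores (adjacent to the root)
have the empty leg. `legsU bl` = union of the legs of the far cores (as a list), all in `V1`.
`branches bl r`: `leg ++ (T minus legs minus r)` for every blob `(F, T)`. Items: `growAll_items` for
`U = growU P s bl`.
* `perm`: both lists are duplicate free with the same elements (`List.perm_ext_iff_of_nodup`). `P` is the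
  disjoint union of `A`, the cores and `V0`; `V0 = {r} + V1` (`r ∈ V0`); a vertex of a core `F_i ⊆ T_i` is in
  `T_i`, not in a leg, not `r`: in the branch `i`. A vertex `v ≠ r` of `V1`: if it is in a leg, it is in that branch
  (only in that one: legs are disjoint, and it is removed from all `T_j`); if it is in no leg but in
  some `T_i`: in branch `i` only (trees are disjoint); otherwise it is in `U`, which is a permutation
  of `its.flatten`. Branches do not contain `r` (legs are in `V1`).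
* connected: near core: `F ⊆ T minus legs minus r`, `cn_leaves`. Far core: `F ∪ leg` is connected (`LegsOK.cn`), every
  other vertex of the branch is a leaf adjacent to `F` (`Inv.leaf`): `cn_leaves`.
* adjacent to the root: near: `adjS E F r`; far: `LegsOK.adj`.
* weight: `wL leg + wL T ≤ 5 n K + 6 n K`.
* `ixe`: `K xe ≤ 2 wL U ≤ 2 wL P`. `hA`, `hb`: `inv_num`, `nL_eq`, `bL_eq`.
-/

set_option autoImplicit false

namespace Pool.Agent.H24S

/-- the leg of the core `F` -/
def i7_lg (E : AS) (V1 : VS) (A : List (ℕ × ℕ × Option ℕ)) (r : ℕ) (F : VS) : VS :=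
  bif adjS E F r then [] else legOf V1 A (F.headD 0)

theorem i7_withLegs (E : AS) (V1 : VS) (A : List (ℕ × ℕ × Option ℕ)) (s : St) :
    withLegs E V1 A s = s.2.1.map fun b => (b.1, b.2, i7_lg E V1 A s.2.2 b.1) := rfl

theorem i7_mem_legsU {E : AS} {V1 : VS} {A : List (ℕ × ℕ × Option ℕ)} {s : St} {v : ℕ} :
    v ∈ legsU (withLegs E V1 A s) ↔ ∃ b ∈ s.2.1, v ∈ i7_lg E V1 A s.2.2 b.1 := by
  unfold legsU
  rw [i7_withLegs, List.mem_flatMap]
  constructor
  · rintro ⟨b, hb, hv⟩
    obtain ⟨b', hb', rfl⟩ := List.mem_map.1 hb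
    exact ⟨b', hb', hv⟩
  · rintro ⟨b, hb, hv⟩
    exact ⟨_, List.mem_map_of_mem hb, hv⟩

/-- the branch of the blob `b` -/
def i7_br (E : AS) (V1 : VS) (A : List (ℕ × ℕ × Option ℕ)) (s : St) (b : VS × VS) : VS :=
  i7_lg E V1 A s.2.2 b.1 ++
    b.2.filter fun v => !decide (v ∈ legsU (withLegs E V1 A s)) && !decide (v = s.2.2)

theorem i7_branches (E : AS) (V1 : VS) (A : List (ℕ × ℕ × Option ℕ)) (s : St) :
    branches (withLegs E V1 A s) s.2.2 = s.2.1.map (i7_br E V1 A s) := by
  unfold branches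
  rw [i7_withLegs, List.map_map]
  rfl

theorem i7_mem_br {E : AS} {V1 : VS} {A : List (ℕ × ℕ × Option ℕ)} {s : St} {b : VS × VS}
    {v : ℕ} : v ∈ i7_br E V1 A s b ↔ v ∈ i7_lg E V1 A s.2.2 b.1 ∨
      (v ∈ b.2 ∧ v ∉ legsU (withLegs E V1 A s) ∧ v ≠ s.2.2) := by
  unfold i7_br
  rw [List.mem_append, List.mem_filter]
  simp only [Bool.and_eq_true, Bool.not_eq_true', decide_eq_false_iff_not, ne_eq]

theorem i7_mem_vFree {P : VS} {s : St} {v : ℕ} :
    v ∈ vFree P s ↔ v ∈ P ∧ v ∉ s.1 ∧ ∀ b ∈ s.2.1, v ∉ b.1 := by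
  unfold vFree
  simp only [List.mem_filter, Bool.and_eq_true, Bool.not_eq_true', decide_eq_false_iff_not,
    List.any_eq_false, decide_eq_true_eq]

theorem i7_mem_vOne {P : VS} {s : St} {v : ℕ} :
    v ∈ vOne P s ↔ v ∈ vFree P s ∧ v ≠ s.2.2 := by
  unfold vOne
  simp only [List.mem_filter, Bool.not_eq_true', decide_eq_false_iff_not, ne_eq]

theorem i7_mem_growU {P : VS} {s : St} {bl : List (VS × VS × VS)} {v : ℕ} :
    v ∈ growU P s bl ↔ v ∈ vOne P s ∧ (∀ b ∈ s.2.1, v ∉ b.2) ∧ v ∉ legsU bl := by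
  unfold growU
  simp only [List.mem_filter, Bool.and_eq_true, Bool.not_eq_true', decide_eq_false_iff_not,
    List.any_eq_false, decide_eq_true_eq]

theorem i7_mem_fin2 {bl : List (VS × VS)} {b : VS × VS} (h : b ∈ bl) :
    (b.1.toFinset, b.2.toFinset) ∈ fin2 bl := List.mem_map_of_mem h

theorem i7_pw {n K : ℕ} {E : AS} {P : VS} {s : St} {Ne Nc SF : ℕ}
    (i : InvL n K E P s Ne Nc SF) :
    s.2.1.Pairwise fun b b' => b.1 ≠ b'.1 ∧ ∀ v ∈ b.2, v ∉ b'.2 := by
  have h1 := i.inv.disj
  unfold fin2 at h1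
  rw [List.pairwise_map] at h1
  refine List.Pairwise.imp_of_mem ?_ h1
  intro a b ha hb hd
  constructor
  · intro hab
    have h2 := i.inv.ne _ (i7_mem_fin2 ha)
    have h3 := i.inv.FT _ (i7_mem_fin2 ha)
    have h4 := i.inv.FT _ (i7_mem_fin2 hb)
    obtain ⟨v, hv⟩ := h2
    have h5 : v ∈ b.1.toFinset := by
      rw [← hab]
      exact hv
    exact Finset.disjoint_left.1 hd (h3 hv) (h4 h5)
  · intro v hv hv'
    exact Finset.disjoint_left.1 hd (List.mem_toFinset.2 hv) (List.mem_toFinset.2 hv')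

/-- properties of the legs including the empty legs of the near cores -/
theorem i7_legs {n K : ℕ} {E : AS} {P : VS} {s : St} {Ne Nc SF : ℕ}
    (i : InvL n K E P s Ne Nc SF) (A : List (ℕ × ℕ × Option ℕ))
    (hl : LegsOK (n * K) E (vOne P s) (farJ E s) s.2.2 (legOf (vOne P s) A)) {b : VS × VS}
    (hb : b ∈ s.2.1) :
    (i7_lg E (vOne P s) A s.2.2 b.1).Nodup ∧
    (∀ v ∈ i7_lg E (vOne P s) A s.2.2 b.1, v ∈ vOne P s) ∧
    Cn E.toFinset (b.1.toFinset ∪ (i7_lg E (vOne P s) A s.2.2 b.1).toFinset) ∧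
    (∃ v, (v ∈ b.1 ∨ v ∈ i7_lg E (vOne P s) A s.2.2 b.1) ∧ (v, s.2.2) ∈ E) ∧
    wL E (i7_lg E (vOne P s) A s.2.2 b.1) ≤ 5 * (n * K) := by
  unfold i7_lg
  by_cases h : adjS E b.1 s.2.2 = true
  · rw [h, cond_true]
    refine ⟨List.nodup_nil, fun v hv => absurd hv List.not_mem_nil, ?_, ?_, ?_⟩
    · rw [List.toFinset_nil, Finset.union_empty]
      exact i.inv.conn _ (i7_mem_fin2 hb)
    · obtain ⟨f, hf, hE⟩ := adjS_iff.1 h
      exact ⟨f, Or.inl hf, hE⟩
    · simp [wL]
  · have h' := Bool.eq_false_of_not_eq_true h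
    rw [h', cond_false]
    have hF : b.1 ∈ farJ E s := by
      unfold farJ
      rw [List.mem_filter, List.mem_map]
      exact ⟨⟨b, hb, rfl⟩, by rw [h']; rfl⟩
    refine ⟨hl.nd _ hF, hl.sub _ hF, hl.cn _ hF, ?_, hl.wt _ hF⟩
    obtain ⟨v, hv, hE⟩ := hl.adj _ hF
    exact ⟨v, Or.inr hv, hE⟩

theorem i7_legs_dj {n K : ℕ} {E : AS} {P : VS} {s : St} (A : List (ℕ × ℕ × Option ℕ))
    (hl : LegsOK (n * K) E (vOne P s) (farJ E s) s.2.2 (legOf (vOne P s) A)) {b b' : VS × VS}
    (hb : b ∈ s.2.1) (hb' : b' ∈ s.2.1) (hne : b.1 ≠ b'.1) :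
    ∀ v ∈ i7_lg E (vOne P s) A s.2.2 b.1, v ∉ i7_lg E (vOne P s) A s.2.2 b'.1 := by
  unfold i7_lg
  by_cases h : adjS E b.1 s.2.2 = true
  · rw [h, cond_true]
    exact fun v hv => absurd hv List.not_mem_nil
  · by_cases h2 : adjS E b'.1 s.2.2 = true
    · rw [h2, cond_true]
      exact fun v _ => List.not_mem_nil
    · have h' := Bool.eq_false_of_not_eq_true h
      have h2' := Bool.eq_false_of_not_eq_true h2
      rw [h', h2', cond_false]
      have hF : b.1 ∈ farJ E s := by
        unfold farJ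
        rw [List.mem_filter, List.mem_map]
        exact ⟨⟨b, hb, rfl⟩, by rw [h']; rfl⟩
      have hF' : b'.1 ∈ farJ E s := by
        unfold farJ
        rw [List.mem_filter, List.mem_map]
        exact ⟨⟨b', hb', rfl⟩, by rw [h2']; rfl⟩
      exact hl.dj _ hF _ hF' hne

theorem growPhase_fin {n K : ℕ} {E : AS} {P : VS} (c : CtxL n K E P) {s : St} {Ne Nc SF : ℕ}
    (i : InvL n K E P s Ne Nc SF) (A : List (ℕ × ℕ × Option ℕ))
    (hl : LegsOK (n * K) E (vOne P s) (farJ E s) s.2.2 (legOf (vOne P s) A))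
    (hb : (growAll K (5 * (n * K)) E (growU P s (withLegs E (vOne P s) A s))).2.2 = none) :
    RoundOK n K E P s Ne
      (growPhase K (5 * (n * K)) E P s (withLegs E (vOne P s) A s)) := by
  have hitems := growAll_items (growU_hyp c s (withLegs E (vOne P s) A s)) hb
  unfold growPhase
  rw [hb]
  simp only
  generalize hits : (growAll K (5 * (n * K)) E (growU P s (withLegs E (vOne P s) A s))).2.1 = its
    at hitems ⊢
  right
  right
  refine ⟨rfl, _, its, rfl, ?_⟩
  simp only
  rw [i7_branches]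
  -- facts
  have hAP : ∀ v ∈ s.1, v ∈ P := fun v hv =>
    List.mem_toFinset.1 (i.inv.AP (List.mem_toFinset.2 hv))
  have hrP : s.2.2 ∈ P := List.mem_toFinset.1 i.inv.rP
  have hrA : s.2.2 ∉ s.1 := fun h => i.inv.rA (List.mem_toFinset.2 h)
  have hTP : ∀ b ∈ s.2.1, ∀ v ∈ b.2, v ∈ P ∧ v ∉ s.1 := by
    intro b hb v hv
    have h1 := i.inv.TP _ (i7_mem_fin2 hb) (List.mem_toFinset.2 hv)
    rw [Finset.mem_sdiff, List.mem_toFinset, List.mem_toFinset] at h1
    exact h1
  have hFT : ∀ b ∈ s.2.1, ∀ v ∈ b.1, v ∈ b.2 := by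
    intro b hb v hv
    exact List.mem_toFinset.1 (i.inv.FT _ (i7_mem_fin2 hb) (List.mem_toFinset.2 hv))
  have hrF : ∀ b ∈ s.2.1, s.2.2 ∉ b.1 := fun b hb h =>
    i.inv.rF _ (i7_mem_fin2 hb) (List.mem_toFinset.2 h)
  have hpw := i7_pw i
  have hleg : ∀ v ∈ legsU (withLegs E (vOne P s) A s), v ∈ vOne P s := by
    intro v hv
    obtain ⟨b, hb, hv⟩ := i7_mem_legsU.1 hv
    exact (i7_legs i A hl hb).2.1 v hv
  have hone : ∀ v ∈ vOne P s, v ∈ P ∧ v ∉ s.1 ∧ (∀ b ∈ s.2.1, v ∉ b.1) ∧ v ≠ s.2.2 := by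
    intro v hv
    have h1 := i7_mem_vOne.1 hv
    have h2 := i7_mem_vFree.1 h1.1
    exact ⟨h2.1, h2.2.1, h2.2.2, h1.2⟩
  have hFbr : ∀ b ∈ s.2.1, ∀ v ∈ b.1, v ∈ i7_br E (vOne P s) A s b := by
    intro b hb v hv
    rw [i7_mem_br]
    refine Or.inr ⟨hFT b hb v hv, fun h => ?_, fun h => ?_⟩
    · exact (hone v (hleg v h)).2.2.1 b hb hv
    · rw [h] at hv
      exact hrF b hb hv
  have hbrP : ∀ b ∈ s.2.1, ∀ v ∈ i7_br E (vOne P s) A s b, v ∈ P ∧ v ∉ s.1 ∧ v ≠ s.2.2 := by
    intro b hb v hv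
    rcases i7_mem_br.1 hv with h | h
    · have h1 := hone v ((i7_legs i A hl hb).2.1 v h)
      exact ⟨h1.1, h1.2.1, h1.2.2.2⟩
    · have h1 := hTP b hb v h.1
      exact ⟨h1.1, h1.2, h.2.2⟩
  have hbrn : ∀ b ∈ s.2.1, (i7_br E (vOne P s) A s b).Nodup := by
    intro b hb
    unfold i7_br
    rw [List.nodup_append]
    refine ⟨(i7_legs i A hl hb).1, List.Nodup.filter _ (i.nd b hb).2, ?_⟩
    intro v hv w hw hvw
    subst hvw
    have h1 := (List.mem_filter.1 hw).2
    simp only [Bool.and_eq_true, Bool.not_eq_true', decide_eq_false_iff_not] at h1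
    exact h1.1 (i7_mem_legsU.2 ⟨b, hb, hv⟩)
  have hnU : (growU P s (withLegs E (vOne P s) A s)).Nodup :=
    List.Nodup.filter _ (List.Nodup.filter _ (List.Nodup.filter _ c.nP))
  have hitm : ∀ v, v ∈ its.flatten ↔ v ∈ growU P s (withLegs E (vOne P s) A s) := fun v =>
    hitems.perm.mem_iff
  refine ⟨?_, ?_, ?_, ?_, ?_, ?_⟩
  · -- perm
    rw [List.perm_ext_iff_of_nodup]
    · intro v
      simp only [List.mem_append, List.mem_cons]
      constructor
      · rintro (h | h | h | h)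
        · exact hAP v h
        · rw [h]
          exact hrP
        · rw [List.mem_flatten] at h
          obtain ⟨l, hl1, hv⟩ := h
          obtain ⟨b, hb, rfl⟩ := List.mem_map.1 hl1
          exact (hbrP b hb v hv).1
        · exact (hone v (i7_mem_growU.1 ((hitm v).1 h)).1).1
      · intro hv
        by_cases h1 : v ∈ s.1
        · exact Or.inl h1
        · by_cases h2 : v = s.2.2
          · exact Or.inr (Or.inl h2)
          · by_cases h3 : v ∈ legsU (withLegs E (vOne P s) A s)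
            · obtain ⟨b, hb, hvb⟩ := i7_mem_legsU.1 h3
              refine Or.inr (Or.inr (Or.inl ?_))
              rw [List.mem_flatten]
              exact ⟨_, List.mem_map_of_mem hb, i7_mem_br.2 (Or.inl hvb)⟩
            · by_cases h4 : ∃ b ∈ s.2.1, v ∈ b.2
              · obtain ⟨b, hb, hvb⟩ := h4
                refine Or.inr (Or.inr (Or.inl ?_))
                rw [List.mem_flatten]
                exact ⟨_, List.mem_map_of_mem hb, i7_mem_br.2 (Or.inr ⟨hvb, h3, h2⟩)⟩
              · push Not at h4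
                refine Or.inr (Or.inr (Or.inr ?_))
                rw [hitm, i7_mem_growU, i7_mem_vOne, i7_mem_vFree]
                exact ⟨⟨⟨hv, h1, fun b hb h5 => h4 b hb (hFT b hb v h5)⟩, h2⟩, h4, h3⟩
    · rw [List.nodup_append, List.nodup_cons, List.nodup_append]
      refine ⟨i.nA, ⟨?_, ?_, ?_, ?_⟩, ?_⟩
      · rw [List.mem_append]
        rintro (h | h)
        · rw [List.mem_flatten] at h
          obtain ⟨l, hl1, hv⟩ := h
          obtain ⟨b, hb, rfl⟩ := List.mem_map.1 hl1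
          exact (hbrP b hb _ hv).2.2 rfl
        · exact (hone _ (i7_mem_growU.1 ((hitm _).1 h)).1).2.2.2 rfl
      · rw [List.nodup_flatten]
        refine ⟨?_, ?_⟩
        · intro l hl1
          obtain ⟨b, hb, rfl⟩ := List.mem_map.1 hl1
          exact hbrn b hb
        · rw [List.pairwise_map]
          refine List.Pairwise.imp_of_mem ?_ hpw
          intro b b' hb hb' h1 v hv hv'
          rcases i7_mem_br.1 hv with h2 | h2
          · rcases i7_mem_br.1 hv' with h3 | h3
            · exact i7_legs_dj A hl hb hb' h1.1 v h2 h3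
            · exact h3.2.1 (i7_mem_legsU.2 ⟨b, hb, h2⟩)
          · rcases i7_mem_br.1 hv' with h3 | h3
            · exact h2.2.1 (i7_mem_legsU.2 ⟨b', hb', h3⟩)
            · exact h1.2 v h2.1 h3.1
      · exact hitems.perm.nodup_iff.2 hnU
      · intro v hv w hw hvw
        subst hvw
        rw [List.mem_flatten] at hv
        obtain ⟨l, hl1, hv⟩ := hv
        obtain ⟨b, hb, rfl⟩ := List.mem_map.1 hl1
        have h1 := i7_mem_growU.1 ((hitm _).1 hw)
        rcases i7_mem_br.1 hv with h2 | h2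
        · exact h1.2.2 (i7_mem_legsU.2 ⟨b, hb, h2⟩)
        · exact h1.2.1 b hb h2.1
      · intro v hv w hw hvw
        subst hvw
        simp only [List.mem_cons, List.mem_append] at hw
        rcases hw with h | h | h
        · rw [h] at hv
          exact hrA hv
        · rw [List.mem_flatten] at h
          obtain ⟨l, hl1, hv1⟩ := h
          obtain ⟨b, hb, rfl⟩ := List.mem_map.1 hl1
          exact (hbrP b hb _ hv1).2.1 hv
        · exact (hone _ (i7_mem_growU.1 ((hitm _).1 h)).1).2.1 hv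
    · exact c.nP
  · -- branches
    intro l hl1
    obtain ⟨b, hb, rfl⟩ := List.mem_map.1 hl1
    have hL := i7_legs i A hl hb
    have hne := i.inv.ne _ (i7_mem_fin2 hb)
    simp only at hne
    refine ⟨?_, ?_, ?_, ?_⟩
    · obtain ⟨v, hv⟩ := hne
      exact List.ne_nil_of_mem (hFbr b hb v (List.mem_toFinset.1 hv))
    · refine cn_leaves c.ctx.gr.symm hL.2.2.1 ?_ ?_ ?_
      · obtain ⟨v, hv⟩ := hne
        exact ⟨v, Finset.mem_union_left _ hv⟩
      · intro v hv
        rw [Finset.mem_union, List.mem_toFinset, List.mem_toFinset] at hv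
        rw [List.mem_toFinset]
        rcases hv with hv | hv
        · exact hFbr b hb v hv
        · exact i7_mem_br.2 (Or.inl hv)
      · intro t ht ht'
        rw [List.mem_toFinset] at ht
        rw [Finset.mem_union, List.mem_toFinset, List.mem_toFinset, not_or] at ht'
        rcases i7_mem_br.1 ht with h1 | h1
        · exact absurd h1 ht'.2
        · obtain ⟨f, hf, hE⟩ := i.inv.leaf _ (i7_mem_fin2 hb) t (List.mem_toFinset.2 h1.1)
            (fun h2 => ht'.1 (List.mem_toFinset.1 h2))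
          exact ⟨f, Finset.mem_union_left _ hf, hE⟩
    · obtain ⟨v, hv, hE⟩ := hL.2.2.2.1
      rw [adjS_iff]
      refine ⟨v, ?_, hE⟩
      rcases hv with hv | hv
      · exact hFbr b hb v hv
      · exact i7_mem_br.2 (Or.inl hv)
    · have h1 : wL E (i7_br E (vOne P s) A s b) ≤
          wL E (i7_lg E (vOne P s) A s.2.2 b.1) + wL E b.2 := by
        unfold i7_br
        rw [wL_eq c.nE, wL_eq c.nE, wL_eq c.nE, List.toFinset_append]
        have h2 := hbrn b hb
        unfold i7_br at h2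
        rw [List.nodup_append] at h2
        rw [ww_union]
        · refine Nat.add_le_add_left ?_ _
          apply ww_mono
          intro v hv
          rw [List.mem_toFinset] at hv ⊢
          exact (List.mem_filter.1 hv).1
        · rw [Finset.disjoint_left]
          intro v h3 h4
          exact h2.2.2 v (List.mem_toFinset.1 h3) v (List.mem_toFinset.1 h4) rfl
      have h2 := i.inv.wT _ (i7_mem_fin2 hb)
      simp only at h2
      rw [← wL_eq c.nE] at h2
      have h3 := hL.2.2.2.2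
      omega
  · intro Q hQ
    exact ⟨hitems.ne Q hQ, hitems.cn Q hQ, (hitems.wt Q hQ).le⟩
  · refine hitems.xe.trans (Nat.mul_le_mul_left _ (wL_mono E fun v hv => ?_))
    exact (hone v (i7_mem_growU.1 hv).1).1
  · have h1 := (inv_num c.ctx i.inv).2.2.2.1
    rw [nL_eq c.nE K i.nA, nL_eq c.nE K c.nP]
    exact h1
  · have h1 := (inv_num c.ctx i.inv).2.2.1
    rw [bL_eq c.nE, nL_eq c.nE K c.nP]
    exact h1

end Pool.Agent.H24S
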