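import Pool.Agent.Lib.H24S.L2

/-!
# H24S chunk L3: the algorithm finds the cut

`A = legA ..`, `p = prc A`, `q = legQ .. = qv .. A`, `c = legc V1 J`, `R = heads J`.
Suppose `p j0 + 5 c kap ≤ q i0` for some `i0, j0 ∈ R`. `leg_level` gives `i, j, th`. Let `Θ` = the list `cutTh`: it
contains `p y` for all objects `y` (`prc A y` is the price in the entry of `y`, entries are
`A`, objects are duplicate free) and `q v - c d v` for `v ∈ V1`. Let `th'` be the largest element of `Θ` that is `≤ th`
(`p j ∈ Θ`). Then `cutW th' = cutW th` and `cutX th' = cutX th`: `th + c d v < q v ↔ th < q v - c d v`, and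
no element of `Θ` is in `(th', th]`. Moreover `p j ≤ th' < q i`. Let `F ∈ J` be the core with head `i`. `cutOK` holds for
`F`, `W = cutW th'`, `X = cutX th'`:
* `|X| < K`;
* `u ∈ V1`, `F` adjacent to `u`: `q i ≤ p u + cost i u = p u` (`LegK.c3`), so `th' < p u`, so `u ∈ W` or `u ∈ X`;
* `u ∈ V1`, `v ∈ W`, `(v, u) ∈ E`, `u ≠ v`: `q v ≤ p u + c d v`, so `th' < p u`;
* `v ∈ W`, `(v, r) ∈ E`: `q v ≤ p j + c d v ≤ th' + c d v`, contradiction.
So `findCut` is not `none`.
`findCut_some`: by definition of `find?` and the filters.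
-/

set_option autoImplicit false

namespace Pool.Agent.H24S

theorem findCut_some {K kap : ℕ} {E : AS} {V1 : VS} {J : List VS} {r : ℕ}
    (h : LegH K kap E V1 J r) {A : List (ℕ × ℕ × Option ℕ)} {F W X : VS}
    (hc : findCut K E V1 J r kap A = some (F, W, X)) : CutP K E V1 J r F W X := by
  unfold findCut at hc
  have h1 := List.find?_some hc
  have h2 := List.mem_of_find?_eq_some hc
  rw [List.mem_map] at h2
  obtain ⟨⟨G, th⟩, h3, h4⟩ := h2
  rw [List.mem_product] at h3
  simp only [Prod.mk.injEq] at h4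
  obtain ⟨rfl, rfl, rfl⟩ := h4
  simp only at h1
  unfold cutOK at h1
  rw [Bool.and_eq_true, Bool.and_eq_true, decide_eq_true_eq, List.all_eq_true] at h1
  obtain ⟨⟨h5, h6⟩, h7⟩ := h1
  constructor
  · exact h3.1
  · unfold cutW
    exact ⟨h.nV.filter _, fun v hv => (List.mem_filter.1 hv).1⟩
  · unfold cutX
    exact ⟨h.nV.filter _, fun v hv => (List.mem_filter.1 hv).1⟩
  · intro v hv hv'
    unfold cutW at hv
    unfold cutX at hv'
    have h8 := (List.mem_filter.1 hv).2
    have h9 := (List.mem_filter.1 hv').2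
    rw [decide_eq_true_eq] at h8
    rw [Bool.and_eq_true, decide_eq_true_eq] at h9
    omega
  · exact h5
  · rintro u hu ⟨f, hf, hfu⟩
    have h8 := h6 u hu
    rw [List.mem_append] at hf
    have h9 : (adjS E G u || adjS E (cutW E V1 J r kap A th) u) = true := by
      rw [Bool.or_eq_true, adjS_iff, adjS_iff]
      rcases hf with hf | hf
      · exact Or.inl ⟨f, hf, hfu⟩
      · exact Or.inr ⟨f, hf, hfu⟩
    rw [h9, Bool.not_true, Bool.false_or, Bool.or_eq_true, decide_eq_true_eq,
      decide_eq_true_eq] at h8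
    exact h8
  · intro v hv hvr
    rw [Bool.not_eq_true', ← Bool.not_eq_true, adjS_iff] at h7
    exact h7 ⟨v, hv, hvr⟩

theorem findCut_none {K kap : ℕ} {E : AS} {V1 : VS} {J : List VS} {r : ℕ}
    (h : LegH K kap E V1 J r) (hdeg : ∀ v ∈ V1, wL E [v] ≤ kap)
    (hc : findCut K E V1 J r kap (legA E V1 J r kap) = none) :
    ∀ i ∈ heads J, ∀ j ∈ heads J, qv (legC E V1 J r kap) (legA E V1 J r kap) i <
      prc (legA E V1 J r kap) j + 5 * legc V1 J * kap := by
  intro i0 hi0 j0 hj0
  by_contra hlt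
  push Not at hlt
  have hD := legD_of h hdeg
  have hK := legK_of h
  have hA := legA_spec h hdeg
  have hN := legN_nodup h
  have hcard := l0_card h
  have hw : ∑ v ∈ V1.toFinset, wL E [v] ≤ 2 * kap * K := by
    rw [List.sum_toFinset _ h.nV, ← wL_sum E h.nV]
    exact h.w
  obtain ⟨i, hi, j, hj, th, hth1, hth2, hth3⟩ := leg_level hD hK hw (by rw [hcard.2]; exact h.J2)
    h.K8 h.k1 hi0 hj0 hlt
  -- prices of the objects are candidate levels
  have hpr : ∀ y ∈ V1.toFinset ∪ heads J, prc (legA E V1 J r kap) y ∈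
      cutTh E V1 J r kap (legA E V1 J r kap) := by
    intro y hy
    obtain ⟨z, hz, rfl⟩ := l0_entry hA (l0_mem.2 hy)
    rw [l0_prc hN hA hz]
    unfold cutTh
    exact List.mem_append_left _ (List.mem_map.2 ⟨z, hz, rfl⟩)
  have hqr : ∀ v ∈ V1, qv (legC E V1 J r kap) (legA E V1 J r kap) v - legc V1 J * wL E [v] ∈
      cutTh E V1 J r kap (legA E V1 J r kap) := by
    intro v hv
    unfold cutTh
    exact List.mem_append_right _ (List.mem_map.2 ⟨v, hv, rfl⟩)
  have hju : j ∈ V1.toFinset ∪ heads J := Finset.mem_union_right _ hj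
  have hiu : i ∈ V1.toFinset ∪ heads J := Finset.mem_union_right _ hi
  -- the largest level `≤ th`
  obtain ⟨th', hth', hmax⟩ := Finset.exists_max_image
    ((cutTh E V1 J r kap (legA E V1 J r kap)).toFinset.filter (fun t => t ≤ th)) (fun t => t)
    ⟨_, Finset.mem_filter.2 ⟨List.mem_toFinset.2 (hpr j hju), hth1⟩⟩
  rw [Finset.mem_filter, List.mem_toFinset] at hth'
  have hle : ∀ t ∈ cutTh E V1 J r kap (legA E V1 J r kap), t ≤ th → t ≤ th' := by
    intro t ht ht'
    exact hmax t (Finset.mem_filter.2 ⟨List.mem_toFinset.2 ht, ht'⟩)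
  have hjth : prc (legA E V1 J r kap) j ≤ th' := hle _ (hpr j hju) hth1
  -- membership
  have hW : ∀ v, v ∈ cutW E V1 J r kap (legA E V1 J r kap) th' ↔ v ∈ V1 ∧
      th' + legc V1 J * wL E [v] < qv (legC E V1 J r kap) (legA E V1 J r kap) v := by
    intro v
    unfold cutW legQ
    rw [List.mem_filter, decide_eq_true_eq]
  have hX : ∀ v, v ∈ cutX E V1 J r kap (legA E V1 J r kap) th' ↔ v ∈ V1 ∧
      qv (legC E V1 J r kap) (legA E V1 J r kap) v ≤ th' + legc V1 J * wL E [v] ∧
        th' < prc (legA E V1 J r kap) v := by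
    intro v
    unfold cutX legQ
    rw [List.mem_filter, Bool.and_eq_true, decide_eq_true_eq, decide_eq_true_eq]
  have hWX : ∀ u ∈ V1, th' < prc (legA E V1 J r kap) u →
      u ∈ cutW E V1 J r kap (legA E V1 J r kap) th' ∨
        u ∈ cutX E V1 J r kap (legA E V1 J r kap) th' := by
    intro u hu hp
    rw [hW, hX]
    rcases Nat.lt_or_ge (th' + legc V1 J * wL E [u])
      (qv (legC E V1 J r kap) (legA E V1 J r kap) u) with h1 | h1
    · exact Or.inl ⟨hu, h1⟩
    · exact Or.inr ⟨hu, h1, hp⟩
  obtain ⟨F, hF, hFi⟩ : ∃ F ∈ J, F.headD 0 = i := by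
    unfold heads at hi
    rw [List.mem_toFinset, List.mem_map] at hi
    exact hi
  unfold findCut at hc
  rw [List.find?_eq_none] at hc
  refine hc (F, cutW E V1 J r kap (legA E V1 J r kap) th',
    cutX E V1 J r kap (legA E V1 J r kap) th') (List.mem_map.2 ⟨(F, th'),
      List.mem_product.2 ⟨hF, hth'.1⟩, rfl⟩) ?_
  show cutOK K E V1 r F (cutW E V1 J r kap (legA E V1 J r kap) th')
    (cutX E V1 J r kap (legA E V1 J r kap) th') = true
  unfold cutOK
  rw [Bool.and_eq_true, Bool.and_eq_true, decide_eq_true_eq, List.all_eq_true]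
  refine ⟨⟨?_, ?_⟩, ?_⟩
  · have h1 : (cutX E V1 J r kap (legA E V1 J r kap) th').length =
        (cutX E V1 J r kap (legA E V1 J r kap) th').toFinset.card := by
      rw [List.toFinset_card_of_nodup]
      unfold cutX
      exact h.nV.filter _
    rw [h1]
    refine lt_of_le_of_lt (Finset.card_le_card ?_) hth3
    intro v hv
    rw [List.mem_toFinset, hX] at hv
    rw [Finset.mem_filter, List.mem_toFinset]
    refine ⟨hv.1, ?_, ?_⟩
    · have := hv.2.1
      have := hth'.2
      omega
    · by_contra h2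
      push Not at h2
      have h3 := hle _ (hpr v (Finset.mem_union_left _ (List.mem_toFinset.2 hv.1))) h2
      have := hv.2.2
      omega
  · intro u hu
    rw [Bool.or_eq_true, Bool.or_eq_true, decide_eq_true_eq, decide_eq_true_eq,
      Bool.not_eq_true', ← Bool.not_eq_true, Bool.or_eq_true, adjS_iff, adjS_iff]
    by_cases hadj : (∃ f ∈ F, (f, u) ∈ E) ∨
      ∃ f ∈ cutW E V1 J r kap (legA E V1 J r kap) th', (f, u) ∈ E
    swap
    · exact Or.inl (Or.inl hadj)
    have huu : u ∈ V1.toFinset ∪ heads J := Finset.mem_union_left _ (List.mem_toFinset.2 hu)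
    have hres : u ∈ cutW E V1 J r kap (legA E V1 J r kap) th' ∨
        u ∈ cutX E V1 J r kap (legA E V1 J r kap) th' := by
      rcases hadj with hadj | ⟨v, hv, hvu⟩
      · refine hWX u hu ?_
        have h1 := hD.low i hiu u huu
        have h2 := hK.c3 i hi u (List.mem_toFinset.2 hu)
          ⟨F, hF, by rw [← hFi]; exact l0_head (h.neJ F hF), hadj⟩
        rw [h2, Nat.add_zero] at h1
        have := hth'.2
        omega
      · by_cases huv : v = u
        · rw [← huv]
          exact Or.inl hv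
        · refine hWX u hu ?_
          rw [hW] at hv
          have h1 := hD.low v (Finset.mem_union_left _ (List.mem_toFinset.2 hv.1)) u huu
          have h2 := hK.c1 v (List.mem_toFinset.2 hv.1) u (List.mem_toFinset.2 hu) huv hvu
          rw [h2] at h1
          have := hv.2
          omega
    rcases hres with h1 | h1
    · exact Or.inl (Or.inr h1)
    · exact Or.inr h1
  · rw [Bool.not_eq_true', ← Bool.not_eq_true, adjS_iff]
    rintro ⟨v, hv, hvr⟩
    rw [hW] at hv
    have h1 := hD.low v (Finset.mem_union_left _ (List.mem_toFinset.2 hv.1)) j hju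
    have h2 := hK.c2 v (List.mem_toFinset.2 hv.1) j hj hvr
    rw [h2] at h1
    have := hv.2
    omega

end Pool.Agent.H24S
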