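import Pool.Agent.Lib.H24S.L4
import Pool.Agent.Lib.H24S.L3
import Pool.Agent.Lib.H24S.C1

/-!
# H24S chunk L5: good legs if there is no cut

`A = legA ..`, `s x = (fwd A x).getD 0`, `LegD`, `LegK` from L0, `i ∈ R = heads J` the head of `F ∈ J`,
`Orb V1 R s i m`.
* `legOf_eq`: after `t` steps the state of `legStep` is `(s^[min t m] i, [s^[min t m] i, ..., s i])` (induction;
  `fwd_some`; at time `m` the next object is in `R`, not in `V1`), and `m ≤ |V1|`.
* `m ≥ 1`: otherwise `s i ∈ R`, cost `c (5 kap + 1)`, `p (s i) + c (5 kap + 1) ≤ q i + 1`, against `findCut_none`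
  (`c ≥ 1`).
* weight: by `cs` and `q x ≤ p x` (`leg_qp`): `p (s i) ≤ q i + 1`, `p (s^[j+1] i) + c d (s^[j] i) ≤ p (s^[j] i) + 1`
  for `1 ≤ j ≤ m`, so `p (s^[m+1] i) + c ∑_{j=1..m} d (s^[j] i) ≤ q i + m + 1 < p (s^[m+1] i) + 5 c kap + m + 1`, and
  `m + 1 ≤ c` (`m ≤ |V1|`, `c = |V1| + |R| + 1`): `∑ d < 5 kap + 1`. `wL E leg = ∑ d` (`wL_sum`).
* connected: `F` is connected, `s i` is adjacent to `F` (`leg_type`: `nf i (s i)`: some `F' ∈ J` with
  `i ∈ F'`, so `F' = F` by disjointness, adjacent to `s i`), `s^[j+1] i` adjacent to `s^[j] i` (`leg_type`; `s x = x` is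
  impossible on the orbit by `Orb.inj`): `cn_insert` `m` times.
* `adj`: `s^[m+1] i ∈ R`, `leg_type` gives `nr (s^[m] i)`.
* `dj`: `orb_disj`; different `F, F' ∈ J` have different heads.
-/

set_option autoImplicit false

namespace Pool.Agent.H24S

theorem legOf_eq {K kap : ℕ} {E : AS} {V1 : VS} {J : List VS} {r : ℕ}
    (h : LegH K kap E V1 J r) (hdeg : ∀ v ∈ V1, wL E [v] ≤ kap) {i m : ℕ} (hi : i ∈ heads J)
    (ho : Orb V1.toFinset (heads J) (fun x => (fwd (legA E V1 J r kap) x).getD 0) i m) :
    legOf V1 (legA E V1 J r kap) i =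
      ((List.range m).map fun j => (fun x => (fwd (legA E V1 J r kap) x).getD 0)^[j + 1] i).reverse
      := by
  set A := legA E V1 J r kap with hA
  set s : ℕ → ℕ := fun x => (fwd A x).getD 0 with hs
  have hD := legD_of h hdeg
  rw [← hA, ← hs] at hD
  have key : ∀ t, (legStep V1 A)^[t] (i, []) =
      (s^[min t m] i, ((List.range (min t m)).map fun j => s^[j + 1] i).reverse) := by
    intro t
    induction t with
    | zero => simp
    | succ t ih =>
      rw [Function.iterate_succ_apply', ih]
      have hx : s^[min t m] i ∈ V1.toFinset ∪ heads J := by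
        rcases Nat.eq_zero_or_pos (min t m) with h0 | h0
        · rw [h0]
          exact Finset.mem_union_right _ hi
        · exact Finset.mem_union_left _ (ho.inV _ h0 (min_le_right _ _))
      have hf := fwd_some h hdeg hx
      rw [← hA] at hf
      have hf' : fwd A (s^[min t m] i) = some (s (s^[min t m] i)) := hf
      unfold legStep
      simp only [hf']
      by_cases htm : t < m
      · have e1 : min t m = t := min_eq_left htm.le
        have e2 : min (t + 1) m = t + 1 := min_eq_left htm
        rw [e1, e2]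
        have h1 : s^[t + 1] i ∈ V1.toFinset := ho.inV _ (by omega) htm
        rw [Function.iterate_succ_apply'] at h1
        rw [if_pos (List.mem_toFinset.1 h1), List.range_succ, List.map_append, List.reverse_append,
          Function.iterate_succ_apply']
        simp [Function.iterate_succ_apply']
      · have e1 : min t m = m := min_eq_right (by omega)
        have e2 : min (t + 1) m = m := min_eq_right (by omega)
        rw [e1, e2]
        have h1 : s^[m + 1] i ∈ heads J := ho.inR
        rw [Function.iterate_succ_apply'] at h1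
        have h2 : s (s^[m] i) ∉ V1 := fun h3 =>
          Finset.disjoint_left.1 hD.dis (List.mem_toFinset.2 h3) h1
        rw [if_neg h2]
  have hm : min V1.length m = m := min_eq_right (ho.le.trans (List.toFinset_card_le _))
  show ((legStep V1 A)^[V1.length] (i, [])).2 = _
  rw [key, hm]

section l5

variable {K kap : ℕ} {E : AS} {V1 : VS} {J : List VS} {r : ℕ}

lemma l5_head (h : LegH K kap E V1 J r) {F : VS} (hF : F ∈ J) : F.headD 0 ∈ F := by
  have h1 := h.neJ F hF
  cases F with
  | nil => exact absurd rfl h1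
  | cons a l => simp

lemma l5_heads {F : VS} (hF : F ∈ J) : F.headD 0 ∈ heads J := by
  unfold heads
  rw [List.mem_toFinset]
  exact List.mem_map.2 ⟨F, hF, rfl⟩

lemma l5_same (h : LegH K kap E V1 J r) {F F' : VS} (hF : F ∈ J) (hF' : F' ∈ J) {v : ℕ}
    (h1 : v ∈ F) (h2 : v ∈ F') : F = F' := by
  by_contra hne
  have h3 := (List.nodup_flatten.1 h.nJ).2
  have hsy : Std.Symm (List.Disjoint (α := ℕ)) := ⟨fun _ _ h => h.symm⟩
  have h4 := h3.forall hF hF' hne
  exact h4 h1 h2

/-- everything about one leg -/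
lemma l5_leg (h : LegH K kap E V1 J r) (hdeg : ∀ v ∈ V1, wL E [v] ≤ kap)
    (hc : findCut K E V1 J r kap (legA E V1 J r kap) = none) {F : VS} (hF : F ∈ J) {m : ℕ}
    (ho : Orb V1.toFinset (heads J) (fun x => (fwd (legA E V1 J r kap) x).getD 0) (F.headD 0) m) :
    1 ≤ m ∧
    (∃ f ∈ F, (f, (fun x => (fwd (legA E V1 J r kap) x).getD 0)^[1] (F.headD 0)) ∈ E) ∧
    (∀ j, 1 ≤ j → j < m → ((fun x => (fwd (legA E V1 J r kap) x).getD 0)^[j] (F.headD 0),
      (fun x => (fwd (legA E V1 J r kap) x).getD 0)^[j + 1] (F.headD 0)) ∈ E) ∧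
    ((fun x => (fwd (legA E V1 J r kap) x).getD 0)^[m] (F.headD 0), r) ∈ E ∧
    (((List.range m).map fun j =>
      (fun x => (fwd (legA E V1 J r kap) x).getD 0)^[j + 1] (F.headD 0)).map
        fun v => wL E [v]).sum ≤ 5 * kap := by
  have hn := findCut_none h hdeg hc
  have hD := legD_of h hdeg
  have hK := legK_of h
  set s : ℕ → ℕ := fun x => (fwd (legA E V1 J r kap) x).getD 0 with hs
  set p := prc (legA E V1 J r kap) with hp
  set q := qv (legC E V1 J r kap) (legA E V1 J r kap) with hq
  set i := F.headD 0 with hi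
  have hiR : i ∈ heads J := l5_heads hF
  obtain ⟨ty1, ty2⟩ := leg_type hD hK
  have hcc : 1 ≤ legc V1 J := by unfold legc; omega
  -- first step
  have h1 : s i ∈ V1.toFinset ∧ (∃ F ∈ J, i ∈ F ∧ ∃ f ∈ F, (f, s i) ∈ E) ∧
      legC E V1 J r kap i (s i) = 0 := by
    rcases ty2 i hiR with h2 | h2
    · exact h2
    · exfalso
      have h3 := hD.cs i (Finset.mem_union_right _ hiR)
      have h4 := hn i hiR (s i) h2.1
      rw [h2.2] at h3
      have h5 : legc V1 J * (5 * kap + 1) = 5 * legc V1 J * kap + legc V1 J := by ring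
      rw [h5] at h3
      omega
  have hm : 1 ≤ m := by
    by_contra h2
    have h3 : m = 0 := by omega
    have h4 := ho.inR
    rw [h3] at h4
    exact Finset.disjoint_left.1 hD.dis h1.1 h4
  have hstep : ∀ j, 1 ≤ j → j < m → (s^[j] i, s^[j + 1] i) ∈ E ∧
      legC E V1 J r kap (s^[j] i) (s^[j + 1] i) = legc V1 J * wL E [s^[j] i] := by
    intro j hj hjm
    have h2 := ho.inV j hj hjm.le
    have h3 := ho.inV (j + 1) (by omega) hjm
    rcases ty1 _ h2 with h4 | h4 | h4
    · exfalso
      have h5 := ho.inj (j + 1) j (by omega) hjm.le (by rw [Function.iterate_succ_apply']; exact h4)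
      omega
    · rw [Function.iterate_succ_apply']
      exact h4.2.2
    · exfalso
      rw [Function.iterate_succ_apply'] at h3
      exact Finset.disjoint_left.1 hD.dis h3 h4.1
  have hlast : (s^[m] i, r) ∈ E ∧
      legC E V1 J r kap (s^[m] i) (s^[m + 1] i) = legc V1 J * wL E [s^[m] i] := by
    have h2 := ho.inV m hm le_rfl
    have h3 := ho.inR
    rw [Function.iterate_succ_apply'] at h3 ⊢
    rcases ty1 _ h2 with h4 | h4 | h4
    · exfalso
      rw [h4] at h3
      exact Finset.disjoint_left.1 hD.dis h2 h3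
    · exfalso
      exact Finset.disjoint_left.1 hD.dis h4.1 h3
    · exact h4.2
  have hcost : ∀ j, 1 ≤ j → j ≤ m →
      legC E V1 J r kap (s^[j] i) (s^[j + 1] i) = legc V1 J * wL E [s^[j] i] := by
    intro j hj hjm
    rcases hjm.lt_or_eq with h2 | h2
    · exact (hstep j hj h2).2
    · rw [h2]
      exact hlast.2
  have hsum : ∀ k, k ≤ m → p (s^[k + 1] i) +
      legc V1 J * (((List.range k).map fun j => s^[j + 1] i).map fun v => wL E [v]).sum ≤
        q i + 1 + k := by
    intro k
    induction k with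
    | zero =>
      intro _
      have h3 := hD.cs i (Finset.mem_union_right _ hiR)
      rw [h1.2.2] at h3
      simpa using h3
    | succ k ih =>
      intro hk
      have h2 := ih (by omega)
      have h3 := ho.inV (k + 1) (by omega) hk
      have h4 : p (s^[k + 1 + 1] i) + legC E V1 J r kap (s^[k + 1] i) (s^[k + 1 + 1] i) ≤
          q (s^[k + 1] i) + 1 := by
        rw [Function.iterate_succ_apply' s (k + 1) i]
        exact hD.cs _ (Finset.mem_union_left _ h3)
      have h5 := leg_qp hD hK h3
      have h6 := hcost (k + 1) (by omega) hk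
      rw [h6] at h4
      rw [List.range_succ, List.map_append, List.map_append, List.sum_append, mul_add]
      simp only [List.map_cons, List.map_nil, List.sum_cons, List.sum_nil, add_zero]
      omega
  refine ⟨hm, ?_, fun j hj hjm => (hstep j hj hjm).1, hlast.1, ?_⟩
  · obtain ⟨F', hF', hiF', f, hf, hfE⟩ := h1.2.1
    have h2 : F' = F := l5_same h hF' hF hiF' (l5_head h hF)
    rw [h2] at hf
    exact ⟨f, hf, hfE⟩
  · have h2 := hsum m le_rfl
    have h3 := hn i hiR _ ho.inR
    have h4 : m + 1 ≤ legc V1 J := by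
      have h5 := hK.hc
      have h6 := ho.le
      omega
    have h7 : legc V1 J * (((List.range m).map fun j => s^[j + 1] i).map fun v => wL E [v]).sum <
        legc V1 J * (5 * kap + 1) := by
      have h5 : legc V1 J * (5 * kap + 1) = 5 * legc V1 J * kap + legc V1 J := by ring
      rw [h5]
      omega
    have h8 := Nat.lt_of_mul_lt_mul_left h7
    omega

end l5

theorem legs_ok {K kap : ℕ} {E : AS} {V1 : VS} {J : List VS} {r : ℕ}
    (h : LegH K kap E V1 J r) (hdeg : ∀ v ∈ V1, wL E [v] ≤ kap)
    (hc : findCut K E V1 J r kap (legA E V1 J r kap) = none) :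
    LegsOK kap E V1 J r (legOf V1 (legA E V1 J r kap)) := by
  have hD := legD_of h hdeg
  have hex : ∀ F ∈ J, ∃ m, Orb V1.toFinset (heads J)
      (fun x => (fwd (legA E V1 J r kap) x).getD 0) (F.headD 0) m := fun F hF =>
    orb_exists hD.dis hD.bij (l5_heads hF)
  have hmem : ∀ F ∈ J, ∀ m, Orb V1.toFinset (heads J)
      (fun x => (fwd (legA E V1 J r kap) x).getD 0) (F.headD 0) m → ∀ v,
      v ∈ legOf V1 (legA E V1 J r kap) (F.headD 0) ↔ ∃ j, 1 ≤ j ∧ j ≤ m ∧
        (fun x => (fwd (legA E V1 J r kap) x).getD 0)^[j] (F.headD 0) = v := by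
    intro F hF m ho v
    rw [legOf_eq h hdeg (l5_heads hF) ho, List.mem_reverse, List.mem_map]
    constructor
    · rintro ⟨j, hj, rfl⟩
      rw [List.mem_range] at hj
      exact ⟨j + 1, by omega, by omega, rfl⟩
    · rintro ⟨j, hj, hjm, rfl⟩
      refine ⟨j - 1, List.mem_range.2 (by omega), ?_⟩
      have h1 : j - 1 + 1 = j := by omega
      simp only [h1]
  have hnd : ∀ F ∈ J, (legOf V1 (legA E V1 J r kap) (F.headD 0)).Nodup := by
    intro F hF
    obtain ⟨m, ho⟩ := hex F hF
    rw [legOf_eq h hdeg (l5_heads hF) ho, List.nodup_reverse]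
    refine List.Nodup.map_on ?_ List.nodup_range
    intro a ha b hb hab
    rw [List.mem_range] at ha hb
    have h1 := ho.inj (a + 1) (b + 1) ha hb hab
    omega
  refine ⟨hnd, ?_, ?_, ?_, ?_, ?_⟩
  · intro F hF v hv
    obtain ⟨m, ho⟩ := hex F hF
    obtain ⟨j, hj, hjm, rfl⟩ := (hmem F hF m ho v).1 hv
    exact List.mem_toFinset.1 (ho.inV j hj hjm)
  · intro F hF
    obtain ⟨m, ho⟩ := hex F hF
    obtain ⟨hm, ⟨f, hf, hfE⟩, hst, -, -⟩ := l5_leg h hdeg hc hF ho
    have hsym : ∀ x ∈ E.toFinset, x.swap ∈ E.toFinset := fun x hx =>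
      List.mem_toFinset.2 (h.sym x (List.mem_toFinset.1 hx))
    rw [legOf_eq h hdeg (l5_heads hF) ho]
    have key : ∀ k, k ≤ m → Cn E.toFinset (F.toFinset ∪ ((List.range k).map fun j =>
        (fun x => (fwd (legA E V1 J r kap) x).getD 0)^[j + 1] (F.headD 0)).reverse.toFinset) := by
      intro k
      induction k with
      | zero =>
        intro _
        simpa using h.cJ F hF
      | succ k ih =>
        intro hk
        have h1 := ih (by omega)
        have h2 : (F.toFinset ∪ ((List.range (k + 1)).map fun j =>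
            (fun x => (fwd (legA E V1 J r kap) x).getD 0)^[j + 1] (F.headD 0)).reverse.toFinset) =
            insert ((fun x => (fwd (legA E V1 J r kap) x).getD 0)^[k + 1] (F.headD 0))
            (F.toFinset ∪ ((List.range k).map fun j =>
              (fun x => (fwd (legA E V1 J r kap) x).getD 0)^[j + 1] (F.headD 0)).reverse.toFinset) := by
          rw [List.range_succ, List.map_append, List.reverse_append]
          ext v
          simp only [List.map_cons, List.map_nil, List.reverse_cons, List.reverse_nil,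
            List.nil_append, List.cons_append, Finset.mem_union, List.mem_toFinset,
            List.mem_cons, Finset.mem_insert]
          tauto
        rw [h2]
        rcases Nat.eq_zero_or_pos k with h0 | h0
        · subst h0
          exact cn_insert hsym h1 (Finset.mem_union_left _ (List.mem_toFinset.2 hf))
            (List.mem_toFinset.2 hfE)
        · refine cn_insert hsym h1 (f := (fun x => (fwd (legA E V1 J r kap) x).getD 0)^[k]
            (F.headD 0)) (Finset.mem_union_right _ ?_) (List.mem_toFinset.2 (hst k h0 hk))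
          rw [List.mem_toFinset, List.mem_reverse, List.mem_map]
          refine ⟨k - 1, List.mem_range.2 (by omega), ?_⟩
          have h3 : k - 1 + 1 = k := by omega
          simp only [h3]
    exact key m le_rfl
  · intro F hF
    obtain ⟨m, ho⟩ := hex F hF
    obtain ⟨hm, -, -, hl, -⟩ := l5_leg h hdeg hc hF ho
    exact ⟨_, (hmem F hF m ho _).2 ⟨m, hm, le_rfl, rfl⟩, hl⟩
  · intro F hF
    obtain ⟨m, ho⟩ := hex F hF
    obtain ⟨-, -, -, -, hw⟩ := l5_leg h hdeg hc hF ho
    rw [wL_sum E (hnd F hF), legOf_eq h hdeg (l5_heads hF) ho, List.map_reverse, List.sum_reverse]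
    exact hw
  · intro F hF F' hF' hne v hv hv'
    obtain ⟨m, ho⟩ := hex F hF
    obtain ⟨m', ho'⟩ := hex F' hF'
    obtain ⟨j, hj, hjm, hjv⟩ := (hmem F hF m ho v).1 hv
    obtain ⟨j', hj', hjm', hjv'⟩ := (hmem F' hF' m' ho' v).1 hv'
    have hne2 : F.headD 0 ≠ F'.headD 0 := by
      intro h1
      apply hne
      apply l5_same h hF hF' (l5_head h hF)
      rw [h1]
      exact l5_head h hF'
    exact orb_disj hD.dis hD.bij (l5_heads hF) (l5_heads hF') ho ho' hne2 j j' hjm hjm'
      (hjv.trans hjv'.symm)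

end Pool.Agent.H24S
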