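import Pool.Agent.Lib.H24S.I5
import Pool.Agent.Lib.H24S.I7
import Pool.Agent.Lib.H24S.L5

/-!
# H24S chunk I8: the main loop ends with a violation or with `FinP`

* `legH_of`: the hypotheses `LegH` for `V1 = vOne P s`, `J = farJ E s`, `kap = n K`: cores are disjoint
  (subsets of the disjoint trees), duplicate free, nonempty, connected, not in `V1`; degrees `≥ 16 K > 0`;
  `wL E V1 ≤ ww P ≤ 2 n K K`; `2 |J| ≤ 2 |bl| ≤ 2 Ne ≤ K` (`inv_num`); `n K ≥ 1` (`K K ≤ 3 n`, `K ≥ 8`).
  Degrees `≤ n ≤ n K`.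
* `round_ok`: `mainStep` on a running state is `roundA`: `findCut_some` and `cutStep_ok`, or `legs_ok` and
  `growPhase_blob` / `growPhase_fin`.
* `mainLoop_ok`: as long as the state is running, `s.1.length + Ne` grows; it is at most `|P| + K`
  (`A` is a duplicate free list of vertices of `P`, `2 Ne ≤ K`). A finished state does not
  change. The initial state: `inv_init`.
-/

set_option autoImplicit false

namespace Pool.Agent.H24S

lemma I8_free {P : VS} {s : St} {v : ℕ} : v ∈ vFree P s ↔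
    v ∈ P ∧ v ∉ s.1 ∧ ∀ b ∈ s.2.1, v ∉ b.1 := by
  unfold vFree
  simp [List.mem_filter]

lemma I8_one {P : VS} {s : St} {v : ℕ} : v ∈ vOne P s ↔
    (v ∈ P ∧ v ∉ s.1 ∧ ∀ b ∈ s.2.1, v ∉ b.1) ∧ v ≠ s.2.2 := by
  unfold vOne
  rw [List.mem_filter, I8_free]
  simp

lemma I8_far {E : AS} {s : St} {F : VS} : F ∈ farJ E s ↔
    (∃ b ∈ s.2.1, b.1 = F) ∧ adjS E F s.2.2 = false := by
  unfold farJ
  rw [List.mem_filter, List.mem_map]
  simp

lemma I8_fin2 {bl : List (VS × VS)} {b : VS × VS} (h : b ∈ bl) :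
    (b.1.toFinset, b.2.toFinset) ∈ fin2 bl := List.mem_map_of_mem h

lemma I8_Kn {n K : ℕ} {E : AS} {P : VS} (c : CtxL n K E P) : 1 ≤ n := by
  have h1 := c.ctx.K8
  have h2 := c.ctx.Kn
  by_contra h
  have : n = 0 := by omega
  subst this
  nlinarith

theorem legH_of {n K : ℕ} {E : AS} {P : VS} (c : CtxL n K E P) {s : St} {Ne Nc SF : ℕ}
    (i : InvL n K E P s Ne Nc SF) :
    LegH K (n * K) E (vOne P s) (farJ E s) s.2.2 ∧ ∀ v ∈ vOne P s, wL E [v] ≤ n * K := by
  have hn := I8_Kn c
  have hK8 := c.ctx.K8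
  have hdeg : ∀ v ∈ vOne P s, v ∈ P := fun v hv => (I8_one.1 hv).1.1
  have hw1 : ∀ v, wL E [v] = ww E.toFinset {v} := by
    intro v
    rw [wL_eq c.nE]
    simp
  refine ⟨⟨c.nE, ?_, ?_, ?_, ?_, ?_, ?_, ?_, ?_, ?_, ?_, hK8, ?_⟩, ?_⟩
  · intro x hx
    have := c.ctx.gr.symm x (List.mem_toFinset.2 hx)
    exact List.mem_toFinset.1 this
  · unfold vOne vFree
    exact (c.nP.filter _).filter _
  · intro h
    exact (I8_one.1 h).2 rfl
  · rw [List.nodup_flatten]
    constructor
    · intro F hF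
      obtain ⟨⟨b, hb, rfl⟩, -⟩ := I8_far.1 hF
      exact (i.nd b hb).1
    · have h1 : (s.2.1.map fun b => b.1).Pairwise List.Disjoint := by
        rw [List.pairwise_map]
        have h2 := i.inv.disj
        unfold fin2 at h2
        rw [List.pairwise_map] at h2
        refine List.Pairwise.imp_of_mem ?_ h2
        intro b b' hb hb' h3 v hv hv'
        have h4 := i.inv.FT _ (I8_fin2 hb)
        have h5 := i.inv.FT _ (I8_fin2 hb')
        exact Finset.disjoint_left.1 h3 (h4 (List.mem_toFinset.2 hv)) (h5 (List.mem_toFinset.2 hv'))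
      exact h1.sublist List.filter_sublist
  · intro F hF
    obtain ⟨⟨b, hb, rfl⟩, -⟩ := I8_far.1 hF
    intro h0
    have := i.inv.ne _ (I8_fin2 hb)
    simp [h0] at this
  · intro F hF v hv hv1
    obtain ⟨⟨b, hb, rfl⟩, -⟩ := I8_far.1 hF
    exact (I8_one.1 hv1).1.2.2 b hb hv
  · intro F hF
    obtain ⟨⟨b, hb, rfl⟩, -⟩ := I8_far.1 hF
    exact i.inv.conn _ (I8_fin2 hb)
  · intro v hv
    have := c.ctx.deg v (List.mem_toFinset.2 (hdeg v hv))
    rw [hw1]
    omega
  · have h1 : wL E (vOne P s) ≤ wL E P := wL_mono E hdeg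
    have h2 := c.ctx.wP
    rw [wL_eq c.nE P] at h1
    exact h1.trans h2
  · have h1 := (inv_num c.ctx i.inv).1
    have h2 := i.inv.cnt
    have h3 : (farJ E s).length ≤ s.2.1.length := by
      unfold farJ
      refine (List.length_filter_le _ _).trans ?_
      rw [List.length_map]
    have h4 : (fin2 s.2.1).length = s.2.1.length := by
      unfold fin2
      rw [List.length_map]
    rw [h4] at h2
    omega
  · nlinarith
  · intro v hv
    rw [hw1]
    have h1 := c.ctx.deg' v (List.mem_toFinset.2 (hdeg v hv))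
    nlinarith

theorem round_ok {n K : ℕ} {E : AS} {P : VS} (c : CtxL n K E P) {s : St} {Ne Nc SF : ℕ}
    (i : InvL n K E P s Ne Nc SF) :
    RoundOK n K E P s Ne (mainStep n K E P (s, none, none)) := by
  obtain ⟨h1, h2⟩ := legH_of c i
  have e1 : mainStep n K E P (s, none, none) =
      roundA n K E P s (legA E (vOne P s) (farJ E s) s.2.2 (n * K)) := by
    unfold mainStep
    simp
  rw [e1]
  unfold roundA
  cases hc : findCut K E (vOne P s) (farJ E s) s.2.2 (n * K)
      (legA E (vOne P s) (farJ E s) s.2.2 (n * K)) with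
  | some y =>
    obtain ⟨F, W, X⟩ := y
    exact cutStep_ok c i (findCut_some h1 hc)
  | none =>
    have hl := legs_ok h1 h2 hc
    simp only
    cases hb : (growAll K (5 * (n * K)) E (growU P s (withLegs E (vOne P s)
        (legA E (vOne P s) (farJ E s) s.2.2 (n * K)) s))).2.2 with
    | some b => exact growPhase_blob c i _ hb
    | none => exact growPhase_fin c i _ hl hb

/-- the state after `t` rounds -/
def I8_Q (n K : ℕ) (E : AS) (P : VS) (t : ℕ) (o : Out) : Prop :=
  (∃ Z, o.2.1 = some Z ∧ VioL K E P Z) ∨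
  (o.2.1 = none ∧ o.2.2 = none ∧ ∃ Ne Nc SF, InvL n K E P o.1 Ne Nc SF ∧
    t ≤ o.1.1.length + Ne) ∨
  (o.2.1 = none ∧ ∃ brs its, o.2.2 = some (brs, its) ∧ FinP n K E P o.1.1 o.1.2.2 brs its)

lemma I8_step {n K : ℕ} {E : AS} {P : VS} (c : CtxL n K E P) {t : ℕ} {o : Out}
    (h : I8_Q n K E P t o) : I8_Q n K E P (t + 1) (mainStep n K E P o) := by
  rcases h with ⟨Z, h1, h2⟩ | ⟨h1, h2, Ne, Nc, SF, h3, h4⟩ | ⟨h1, brs, its, h2, h3⟩
  · have e : mainStep n K E P o = o := by
      unfold mainStep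
      simp [h1]
    rw [e]
    exact Or.inl ⟨Z, h1, h2⟩
  · have e : o = (o.1, none, none) := by
      obtain ⟨a, b, d⟩ := o
      simp only at h1 h2
      rw [h1, h2]
    rw [e]
    rcases round_ok c h3 with h5 | ⟨h5, h6, Ne', Nc', SF', h7, h8⟩ | h5
    · exact Or.inl h5
    · exact Or.inr (Or.inl ⟨h5, h6, Ne', Nc', SF', h7, by omega⟩)
    · exact Or.inr (Or.inr h5)
  · have e : mainStep n K E P o = o := by
      unfold mainStep
      simp [h2]
    rw [e]
    exact Or.inr (Or.inr ⟨h1, brs, its, h2, h3⟩)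

lemma I8_iter {n K : ℕ} {E : AS} {P : VS} (c : CtxL n K E P) (t : ℕ) {o : Out}
    (h : I8_Q n K E P 0 o) : I8_Q n K E P t ((mainStep n K E P)^[t] o) := by
  induction t with
  | zero => exact h
  | succ t ih =>
    rw [Function.iterate_succ_apply']
    exact I8_step c ih

theorem mainLoop_ok {n K : ℕ} {E : AS} {P : VS} (c : CtxL n K E P) :
    (∃ Z, (mainLoop n K E P).2.1 = some Z ∧ VioL K E P Z) ∨
    ((mainLoop n K E P).2.1 = none ∧ ∃ brs its, (mainLoop n K E P).2.2 = some (brs, its) ∧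
      FinP n K E P (mainLoop n K E P).1.1 (mainLoop n K E P).1.2.2 brs its) := by
  have hP : P ≠ [] := by
    rintro rfl
    have h1 := c.ctx.wP'
    have h2 : ww E.toFinset ([] : VS).toFinset = 0 := by
      unfold ww
      simp
    rw [h2] at h1
    omega
  have hr : P.headD 0 ∈ P := by
    cases P with
    | nil => exact absurd rfl hP
    | cons a P => simp
  have h0 : I8_Q n K E P 0 (([], [], P.headD 0), none, none) := by
    refine Or.inr (Or.inl ⟨rfl, rfl, 0, 0, 0, ⟨List.nodup_nil, ?_, ?_⟩, Nat.zero_le _⟩)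
    · intro b hb
      exact absurd hb (List.not_mem_nil)
    · have := inv_init c.ctx (List.mem_toFinset.2 hr)
      exact this
  have h1 := I8_iter c (P.length + K + 1) h0
  rcases h1 with h1 | ⟨_, _, Ne, Nc, SF, h3, h4⟩ | h1
  · exact Or.inl h1
  · exfalso
    have h5 := (inv_num c.ctx h3.inv).1
    have h6 : (((mainStep n K E P)^[P.length + K + 1]
        (([], [], P.headD 0), none, none)).1.1).length ≤ P.length := by
      have h7 := Finset.card_le_card h3.inv.AP
      rw [List.toFinset_card_of_nodup h3.nA, List.toFinset_card_of_nodup c.nP] at h7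
      exact h7
    omega
  · exact Or.inr h1

end Pool.Agent.H24S
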