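import Pool.Agent.Lib.H24S.D

/-!
# H24S chunk K1: Kruskal, first properties

`kstep s x`: if exactly two parts of `s.1` meet the arc `x` (contain `x.1` or `x.2`), they are merged
and `x` is added to the tree edges `s.2`. `kruskal E L = E.foldl kstep (L, [])`.

* `kstep_perm`: `L.filter p ++ L.filter (not p)` is a permutation of `L`, `List.Perm.flatten`
  (or `List.Perm.flatMap`), so the union of the parts is kept (as a list up to permutation).
* `kruskal_len`: each merge decreases the number of parts by one and adds one arc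
  (`List.length_eq_length_filter_add`).
* `kruskal_sub`: as the parts are disjoint (`flatten.Nodup` is invariant by `kstep_perm`), if two
  different members of the list meet `x` then one contains `x.1` and the other `x.2`.
* the invariants are carried along `foldl` by induction on `E`, for a general start `(L, T)`.
-/

set_option autoImplicit false

namespace Pool.Agent.H24S

lemma k1_merge (s : List VS × AS) (x : ℕ × ℕ) (h : (s.1.filter (meets x)).length = 2) :
    kstep s x =
      ((s.1.filter (meets x)).flatten :: s.1.filter (fun Q => !meets x Q), x :: s.2) := by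
  unfold kstep
  rw [if_pos h]

lemma k1_skip (s : List VS × AS) (x : ℕ × ℕ) (h : ¬ (s.1.filter (meets x)).length = 2) :
    kstep s x = s := by
  unfold kstep
  rw [if_neg h]

lemma k1_split (L : List VS) (p : VS → Bool) :
    (L.filter p ++ L.filter (fun Q => !p Q)).Perm L :=
  List.filter_append_perm p L

lemma k1_ind {P : List VS × AS → Prop} (E : AS) (s : List VS × AS) (h0 : P s)
    (hstep : ∀ s, P s → ∀ x ∈ E, P (kstep s x)) : P (E.foldl kstep s) := by
  induction E generalizing s with
  | nil => exact h0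
  | cons x E ih =>
    rw [List.foldl_cons]
    exact ih (kstep s x) (hstep s h0 x List.mem_cons_self)
      (fun s hs y hy => hstep s hs y (List.mem_cons_of_mem x hy))

/-- two parts meeting `x` -/
lemma k1_two {L : List VS} {x : ℕ × ℕ} (h : L.flatten.Nodup)
    (h2 : (L.filter (meets x)).length = 2) :
    ∃ A B, L.filter (meets x) = [A, B] ∧ A ∈ L ∧ B ∈ L ∧
      ((x.1 ∈ A ∧ x.2 ∈ B) ∨ (x.2 ∈ A ∧ x.1 ∈ B)) := by
  obtain ⟨A, B, hAB⟩ := List.length_eq_two.1 h2
  have hA : A ∈ L.filter (meets x) := by rw [hAB]; simp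
  have hB : B ∈ L.filter (meets x) := by rw [hAB]; simp
  have hsub : [A, B].Sublist L := hAB ▸ List.filter_sublist
  have hnd : ([A, B] : List VS).flatten.Nodup := h.sublist hsub.flatten
  have hdis : List.Disjoint A B := by
    have : (A ++ B).Nodup := by simpa using hnd
    exact List.disjoint_of_nodup_append this
  rw [List.mem_filter] at hA hB
  refine ⟨A, B, hAB, hA.1, hB.1, ?_⟩
  have h1 := hA.2
  have h3 := hB.2
  unfold meets at h1 h3
  simp only [Bool.or_eq_true, decide_eq_true_eq] at h1 h3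
  rcases h1 with h1 | h1
  · rcases h3 with h3 | h3
    · exact absurd h3 (fun h => hdis h1 h)
    · exact Or.inl ⟨h1, h3⟩
  · rcases h3 with h3 | h3
    · exact Or.inr ⟨h1, h3⟩
    · exact absurd h3 (fun h => hdis h1 h)

lemma kstep_perm (s : List VS × AS) (x : ℕ × ℕ) : (kstep s x).1.flatten.Perm s.1.flatten := by
  by_cases h : (s.1.filter (meets x)).length = 2
  · rw [k1_merge s x h]
    have := (k1_split s.1 (meets x)).flatten
    rw [List.flatten_append] at this
    rw [List.flatten_cons]
    exact this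
  · rw [k1_skip s x h]

lemma kruskal_perm (E : AS) (L : List VS) : (kruskal E L).1.flatten.Perm L.flatten := by
  unfold kruskal
  exact k1_ind (P := fun s => s.1.flatten.Perm L.flatten) E (L, []) (List.Perm.refl _)
    (fun s hs x _ => (kstep_perm s x).trans hs)

lemma kruskal_ne (E : AS) {L : List VS} (h : ∀ Q ∈ L, Q ≠ []) :
    ∀ Q ∈ (kruskal E L).1, Q ≠ [] := by
  unfold kruskal
  refine k1_ind (P := fun s => ∀ Q ∈ s.1, Q ≠ []) E (L, []) h ?_
  intro s hs x _
  by_cases h2 : (s.1.filter (meets x)).length = 2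
  · rw [k1_merge s x h2]
    intro Q hQ
    rcases List.mem_cons.1 hQ with hQ | hQ
    · obtain ⟨A, B, hAB⟩ := List.length_eq_two.1 h2
      have hA : A ∈ s.1.filter (meets x) := by rw [hAB]; simp
      have hA' := hs A (List.mem_filter.1 hA).1
      rw [hQ, hAB]
      intro hcon
      simp at hcon
      exact hA' hcon.1
    · exact hs Q (List.mem_filter.1 hQ).1
  · rw [k1_skip s x h2]
    exact hs

lemma kruskal_len (E : AS) (L : List VS) :
    (kruskal E L).2.length + (kruskal E L).1.length = L.length := by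
  unfold kruskal
  refine k1_ind (P := fun s => s.2.length + s.1.length = L.length) E (L, []) (by simp) ?_
  intro s hs x _
  by_cases h2 : (s.1.filter (meets x)).length = 2
  · rw [k1_merge s x h2]
    have h3 := (k1_split s.1 (meets x)).length_eq
    rw [List.length_append, h2] at h3
    change (s.2.length + 1) + ((s.1.filter (fun Q => !meets x Q)).length + 1) = L.length
    change s.2.length + s.1.length = L.length at hs
    rw [← hs, ← h3]
    ring
  · rw [k1_skip s x h2]
    exact hs

lemma kruskal_sub (E : AS) {L : List VS} (h : L.flatten.Nodup) :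
    ∀ t ∈ (kruskal E L).2, t ∈ E ∧ t.1 ∈ L.flatten ∧ t.2 ∈ L.flatten := by
  unfold kruskal
  refine (k1_ind (P := fun s => s.1.flatten.Perm L.flatten ∧
    ∀ t ∈ s.2, t ∈ E ∧ t.1 ∈ L.flatten ∧ t.2 ∈ L.flatten) E (L, [])
    ⟨List.Perm.refl _, by simp⟩ ?_).2
  rintro s ⟨hs1, hs2⟩ x hx
  refine ⟨(kstep_perm s x).trans hs1, ?_⟩
  by_cases h2 : (s.1.filter (meets x)).length = 2
  · rw [k1_merge s x h2]
    intro t ht
    rcases List.mem_cons.1 ht with ht | ht
    · have hnd : s.1.flatten.Nodup := hs1.nodup_iff.2 h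
      obtain ⟨A, B, _, hA, hB, hAB⟩ := k1_two hnd h2
      rw [ht]
      refine ⟨hx, ?_⟩
      rcases hAB with ⟨ha, hb⟩ | ⟨ha, hb⟩
      · exact ⟨hs1.mem_iff.1 (List.mem_flatten.2 ⟨A, hA, ha⟩),
          hs1.mem_iff.1 (List.mem_flatten.2 ⟨B, hB, hb⟩)⟩
      · exact ⟨hs1.mem_iff.1 (List.mem_flatten.2 ⟨B, hB, hb⟩),
          hs1.mem_iff.1 (List.mem_flatten.2 ⟨A, hA, ha⟩)⟩
    · exact hs2 t ht
  · rw [k1_skip s x h2]
    exact hs2

/-- one step refines -/
lemma k1_refine_step (s : List VS × AS) (x : ℕ × ℕ) (Q : VS) (hQ : Q ∈ s.1) :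
    ∃ Q' ∈ (kstep s x).1, ∀ v ∈ Q, v ∈ Q' := by
  by_cases h2 : (s.1.filter (meets x)).length = 2
  · rw [k1_merge s x h2]
    by_cases hm : meets x Q = true
    · refine ⟨(s.1.filter (meets x)).flatten, List.mem_cons_self, ?_⟩
      intro v hv
      exact List.mem_flatten.2 ⟨Q, List.mem_filter.2 ⟨hQ, hm⟩, hv⟩
    · refine ⟨Q, List.mem_cons_of_mem _ (List.mem_filter.2 ⟨hQ, by simp [hm]⟩), ?_⟩
      intro v hv
      exact hv
  · rw [k1_skip s x h2]
    exact ⟨Q, hQ, fun v hv => hv⟩

/-- every old part is inside a new part -/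
lemma kruskal_refine (E : AS) (L : List VS) :
    ∀ Q ∈ L, ∃ Q' ∈ (kruskal E L).1, ∀ v ∈ Q, v ∈ Q' := by
  unfold kruskal
  refine k1_ind (P := fun s => ∀ Q ∈ L, ∃ Q' ∈ s.1, ∀ v ∈ Q, v ∈ Q') E (L, [])
    (fun Q hQ => ⟨Q, hQ, fun v hv => hv⟩) ?_
  intro s hs x _ Q hQ
  obtain ⟨Q1, hQ1, h1⟩ := hs Q hQ
  obtain ⟨Q2, hQ2, h2⟩ := k1_refine_step s x Q1 hQ1
  exact ⟨Q2, hQ2, fun v hv => h2 v (h1 v hv)⟩

end Pool.Agent.H24S
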