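import Pool.Agent.Lib.H24S.K1

/-!
# H24S chunk K2: Kruskal, closedness and connectivity

* `kruskal_closed`: no arc of `E` joins two different final parts. Parts are only merged: if `x.1, x.2`
  are in the same part at some time, they stay in the same part. When `x` is processed
  and `x.1`, `x.2` are both in the union of the parts, then either one part meets `x` (it contains both
  ends, as the parts are disjoint), or exactly two parts meet `x` and they are merged. In all
  cases `x.1` and `x.2` are in the same part afterwards.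
  Induction on `E` for a general start `(L, T)` with `L.flatten.Nodup`.
* `kruskal_conn`: if no arc of the forest crosses `S` and no initial part is split by `S`, then no final
  part is split: when the parts `A`, `B` are merged along `x` (with `x.1` in `A`, `x.2` in `B` or
  conversely), `x` is in the final forest, so `x` does not cross `S`; `A` and `B` are not split, and so are
  both inside `S` or both disjoint from `S`.
-/

set_option autoImplicit false

namespace Pool.Agent.H24S

lemma k2_uniq {L : List VS} (h : L.flatten.Nodup) {Q Q' : VS} (hQ : Q ∈ L) (hQ' : Q' ∈ L) {v : ℕ}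
    (hv : v ∈ Q) (hv' : v ∈ Q') : Q = Q' := by
  by_contra hne
  have h2 := (List.nodup_flatten.1 h).2
  have : Std.Symm (List.Disjoint : List ℕ → List ℕ → Prop) := ⟨fun _ _ hab => hab.symm⟩
  have hd : List.Disjoint Q Q' := h2.forall hQ hQ' hne
  exact hd hv hv'

lemma k2_nodup {s : List VS × AS} (x : ℕ × ℕ) (h : s.1.flatten.Nodup) :
    (kstep s x).1.flatten.Nodup := (kstep_perm s x).nodup_iff.2 h

lemma k2_len_two {L : List VS} (h : L.flatten.Nodup) {x : ℕ × ℕ} {Q Q2 : VS} (hQ : Q ∈ L)
    (hQ2 : Q2 ∈ L) (h1 : x.1 ∈ Q) (h2 : x.2 ∈ Q2) (hne : Q ≠ Q2) :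
    (L.filter (meets x)).length = 2 := by
  have hpw : L.Pairwise List.Disjoint := (List.nodup_flatten.1 h).2
  have hpF : (L.filter (meets x)).Pairwise List.Disjoint := hpw.filter _
  have hnd : (L.filter (meets x)).Nodup := by
    refine List.Pairwise.imp_of_mem ?_ hpF
    intro a b ha _ hab hEq
    subst hEq
    have hm := (List.mem_filter.1 ha).2
    unfold meets at hm
    simp only [Bool.or_eq_true, decide_eq_true_eq] at hm
    rcases hm with hm | hm
    · exact hab hm hm
    · exact hab hm hm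
  have hQF : Q ∈ L.filter (meets x) := List.mem_filter.2 ⟨hQ, by simp [meets, h1]⟩
  have hQF2 : Q2 ∈ L.filter (meets x) := List.mem_filter.2 ⟨hQ2, by simp [meets, h2]⟩
  have hset : (L.filter (meets x)).toFinset = {Q, Q2} := by
    ext Z
    rw [List.mem_toFinset, Finset.mem_insert, Finset.mem_singleton]
    constructor
    · intro hZ
      have hZL := (List.mem_filter.1 hZ).1
      have hm := (List.mem_filter.1 hZ).2
      unfold meets at hm
      simp only [Bool.or_eq_true, decide_eq_true_eq] at hm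
      rcases hm with hm | hm
      · exact Or.inl (k2_uniq h hZL hQ hm h1)
      · exact Or.inr (k2_uniq h hZL hQ2 hm h2)
    · rintro (hZ | hZ)
      · rw [hZ]; exact hQF
      · rw [hZ]; exact hQF2
  rw [← List.toFinset_card_of_nodup hnd, hset, Finset.card_pair hne]

/-- closedness of a state with respect to an arc -/
def k2_cl (s : List VS × AS) (x : ℕ × ℕ) : Prop :=
  ∀ Q ∈ s.1, (x.1 ∈ Q → x.2 ∈ s.1.flatten → x.2 ∈ Q) ∧ (x.2 ∈ Q → x.1 ∈ s.1.flatten → x.1 ∈ Q)

lemma k2_step {s : List VS × AS} (x : ℕ × ℕ) (h : s.1.flatten.Nodup) : k2_cl (kstep s x) x := by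
  by_cases h2 : (s.1.filter (meets x)).length = 2
  · obtain ⟨A, B, hAB, hA, hB, hx⟩ := k1_two h h2
    have hnd := k2_nodup x h
    have hM : (s.1.filter (meets x)).flatten ∈ (kstep s x).1 := by
      rw [k1_merge s x h2]
      exact List.mem_cons_self
    have hAM : ∀ v ∈ A, v ∈ (s.1.filter (meets x)).flatten := by
      intro v hv
      rw [hAB]
      exact List.mem_flatten.2 ⟨A, by simp, hv⟩
    have hBM : ∀ v ∈ B, v ∈ (s.1.filter (meets x)).flatten := by
      intro v hv
      rw [hAB]
      exact List.mem_flatten.2 ⟨B, by simp, hv⟩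
    have h1 : x.1 ∈ (s.1.filter (meets x)).flatten ∧ x.2 ∈ (s.1.filter (meets x)).flatten := by
      rcases hx with ⟨ha, hb⟩ | ⟨ha, hb⟩
      · exact ⟨hAM _ ha, hBM _ hb⟩
      · exact ⟨hBM _ hb, hAM _ ha⟩
    intro Q hQ
    constructor
    · intro hq _
      rw [k2_uniq hnd hQ hM hq h1.1]
      exact h1.2
    · intro hq _
      rw [k2_uniq hnd hQ hM hq h1.2]
      exact h1.1
  · rw [k1_skip s x h2]
    intro Q hQ
    constructor
    · intro hq hx2
      obtain ⟨Q2, hQ2, hv⟩ := List.mem_flatten.1 hx2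
      by_cases hne : Q = Q2
      · rw [hne]; exact hv
      · exact absurd (k2_len_two h hQ hQ2 hq hv hne) h2
    · intro hq hx1
      obtain ⟨Q2, hQ2, hv⟩ := List.mem_flatten.1 hx1
      by_cases hne : Q2 = Q
      · rw [← hne]; exact hv
      · exact absurd (k2_len_two h hQ2 hQ hv hq hne) h2

lemma k2_keep {s : List VS × AS} {x : ℕ × ℕ} (y : ℕ × ℕ) (h : s.1.flatten.Nodup)
    (hcl : k2_cl s x) : k2_cl (kstep s y) x := by
  have hnd := k2_nodup y h
  intro Q hQ
  constructor
  · intro h1 h2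
    have h1' : x.1 ∈ s.1.flatten := (kstep_perm s y).mem_iff.1 (List.mem_flatten.2 ⟨Q, hQ, h1⟩)
    have h2' : x.2 ∈ s.1.flatten := (kstep_perm s y).mem_iff.1 h2
    obtain ⟨Q1, hQ1, hv⟩ := List.mem_flatten.1 h1'
    have h3 := (hcl Q1 hQ1).1 hv h2'
    obtain ⟨Q', hQ', hr⟩ := k1_refine_step s y Q1 hQ1
    rw [k2_uniq hnd hQ hQ' h1 (hr _ hv)]
    exact hr _ h3
  · intro h1 h2
    have h1' : x.2 ∈ s.1.flatten := (kstep_perm s y).mem_iff.1 (List.mem_flatten.2 ⟨Q, hQ, h1⟩)
    have h2' : x.1 ∈ s.1.flatten := (kstep_perm s y).mem_iff.1 h2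
    obtain ⟨Q1, hQ1, hv⟩ := List.mem_flatten.1 h1'
    have h3 := (hcl Q1 hQ1).2 hv h2'
    obtain ⟨Q', hQ', hr⟩ := k1_refine_step s y Q1 hQ1
    rw [k2_uniq hnd hQ hQ' h1 (hr _ hv)]
    exact hr _ h3

lemma k2_keeps (E : AS) {x : ℕ × ℕ} (s : List VS × AS) (h : s.1.flatten.Nodup)
    (hcl : k2_cl s x) : k2_cl (E.foldl kstep s) x :=
  (k1_ind (P := fun s => s.1.flatten.Nodup ∧ k2_cl s x) E s ⟨h, hcl⟩
    (fun _ hs y _ => ⟨k2_nodup y hs.1, k2_keep y hs.1 hs.2⟩)).2

lemma k2_all (E : AS) (s : List VS × AS) (h : s.1.flatten.Nodup) :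
    ∀ x ∈ E, k2_cl (E.foldl kstep s) x := by
  induction E generalizing s with
  | nil => simp
  | cons y E ih =>
    intro x hx
    rw [List.foldl_cons]
    rcases List.mem_cons.1 hx with hx | hx
    · rw [hx]
      exact k2_keeps E _ (k2_nodup y h) (k2_step y h)
    · exact ih _ (k2_nodup y h) x hx

lemma kruskal_closed (E : AS) {L : List VS} (h : L.flatten.Nodup) :
    ∀ x ∈ E, ∀ Q ∈ (kruskal E L).1, (x.1 ∈ Q → x.2 ∈ L.flatten → x.2 ∈ Q) ∧
      (x.2 ∈ Q → x.1 ∈ L.flatten → x.1 ∈ Q) := by
  intro x hx Q hQ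
  have h1 := k2_all E (L, []) h x hx Q hQ
  have hp := kruskal_perm E L
  exact ⟨fun a b => h1.1 a (hp.mem_iff.2 b), fun a b => h1.2 a (hp.mem_iff.2 b)⟩

/-- the set `S` does not split `Q` -/
def k2_un (S : Finset ℕ) (Q : VS) : Prop := (∀ v ∈ Q, v ∈ S) ∨ (∀ v ∈ Q, v ∉ S)

lemma k2_un_iff (S : Finset ℕ) (Q : VS) :
    (Q.toFinset ⊆ S ∨ Disjoint Q.toFinset S) ↔ k2_un S Q := by
  unfold k2_un
  constructor
  · rintro (h | h)
    · exact Or.inl fun v hv => h (List.mem_toFinset.2 hv)
    · exact Or.inr fun v hv hS => Finset.disjoint_left.1 h (List.mem_toFinset.2 hv) hS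
  · rintro (h | h)
    · exact Or.inl fun v hv => h v (List.mem_toFinset.1 hv)
    · exact Or.inr (Finset.disjoint_left.2 fun v hv => h v (List.mem_toFinset.1 hv))

lemma k2_mono_step (s : List VS × AS) (x : ℕ × ℕ) : ∀ t ∈ s.2, t ∈ (kstep s x).2 := by
  intro t ht
  by_cases h2 : (s.1.filter (meets x)).length = 2
  · rw [k1_merge s x h2]
    exact List.mem_cons_of_mem _ ht
  · rw [k1_skip s x h2]
    exact ht

lemma k2_mono (E : AS) (s : List VS × AS) : ∀ t ∈ s.2, t ∈ (E.foldl kstep s).2 :=
  fun t ht => k1_ind (P := fun s => t ∈ s.2) E s ht (fun s hs y _ => k2_mono_step s y t hs)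

lemma k2_conn (E : AS) (s : List VS × AS) (h : s.1.flatten.Nodup) (S : Finset ℕ)
    (hS : ∀ t ∈ (E.foldl kstep s).2, ¬ Crs S t) (hL : ∀ Q ∈ s.1, k2_un S Q) :
    ∀ Q ∈ (E.foldl kstep s).1, k2_un S Q := by
  induction E generalizing s with
  | nil => exact hL
  | cons x E ih =>
    rw [List.foldl_cons] at hS ⊢
    refine ih _ (k2_nodup x h) hS ?_
    by_cases h2 : (s.1.filter (meets x)).length = 2
    · obtain ⟨A, B, hAB, hA, hB, hx⟩ := k1_two h h2
      have hxS : ¬ Crs S x := by
        refine hS x (k2_mono E _ x ?_)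
        rw [k1_merge s x h2]
        exact List.mem_cons_self
      unfold Crs at hxS
      rw [not_not] at hxS
      rw [k1_merge s x h2]
      intro Q hQ
      rcases List.mem_cons.1 hQ with hQ | hQ
      · rw [hQ, hAB]
        have key : ∀ a b : ℕ, a ∈ A → b ∈ B → (a ∈ S ↔ b ∈ S) → k2_un S [A, B].flatten := by
          intro a b ha hb hab
          have hmem : ∀ v ∈ [A, B].flatten, v ∈ A ∨ v ∈ B := by
            intro v hv
            obtain ⟨Z, hZ, hv⟩ := List.mem_flatten.1 hv
            rcases List.mem_cons.1 hZ with hZ | hZ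
            · exact Or.inl (hZ ▸ hv)
            · rw [List.mem_singleton] at hZ
              exact Or.inr (hZ ▸ hv)
          rcases hL A hA with hA1 | hA1
          · rcases hL B hB with hB1 | hB1
            · refine Or.inl fun v hv => ?_
              rcases hmem v hv with hv | hv
              · exact hA1 v hv
              · exact hB1 v hv
            · exact absurd (hab.1 (hA1 a ha)) (hB1 b hb)
          · rcases hL B hB with hB1 | hB1
            · exact absurd (hab.2 (hB1 b hb)) (hA1 a ha)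
            · refine Or.inr fun v hv => ?_
              rcases hmem v hv with hv | hv
              · exact hA1 v hv
              · exact hB1 v hv
        rcases hx with ⟨ha, hb⟩ | ⟨ha, hb⟩
        · exact key _ _ ha hb hxS
        · exact key _ _ ha hb hxS.symm
      · exact hL Q (List.mem_filter.1 hQ).1
    · rw [k1_skip s x h2]
      exact hL

lemma kruskal_conn (E : AS) {L : List VS} (h : L.flatten.Nodup) (S : Finset ℕ)
    (hS : ∀ t ∈ (kruskal E L).2, ¬ Crs S t)
    (hL : ∀ Q ∈ L, Q.toFinset ⊆ S ∨ Disjoint Q.toFinset S) :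
    ∀ Q ∈ (kruskal E L).1, Q.toFinset ⊆ S ∨ Disjoint Q.toFinset S := by
  intro Q hQ
  rw [k2_un_iff]
  refine k2_conn E (L, []) h S hS ?_ Q hQ
  intro Q hQ
  rw [← k2_un_iff]
  exact hL Q hQ

end Pool.Agent.H24S
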