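import Pool.Agent.Lib.H24S.D2
import Pool.Agent.Lib.H24S.A2

/-!
# H24S chunk L0: the auction of the leg problem as a permutation with prices

`V1`, `R` finite sets of vertices (`R` = heads of the cores). `LegD`: `s` (person to object) is a bijection of
`V1 ∪ R` onto itself, `p` prices, `q x` the least value of `p y + cost x y`, attained up to 1 at `s x`.
`LegK`: the costs.

`legA_spec`: `auction_spec` for `Ps = Os = legN V1 J` (duplicate free: the heads of the cores are different and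
not in `V1`), `R = legBig` (every cost is `≤ legBig`: `wL E [x] ≤ kap` by
`hdeg`; the cost `c (5 kap + 1)` occurs only if `J` is not empty).
`s x = (fwd A x).getD 0`, `p y = prc A y`, `q = qv cost A` (`amin_spec`; the list is nonempty if there is a person).
`s` is injective (`inj`, different persons own different entries, `objs` duplicate free) and maps
into the finite set of objects = the set of persons, so it is a bijection.
-/

set_option autoImplicit false

namespace Pool.Agent.H24S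

/-- a permutation with prices -/
structure LegD (V1 R : Finset ℕ) (p q s : ℕ → ℕ) (cost : ℕ → ℕ → ℕ) : Prop where
  dis : Disjoint V1 R
  bij : Set.BijOn s ((V1 ∪ R : Finset ℕ) : Set ℕ) ((V1 ∪ R : Finset ℕ) : Set ℕ)
  low : ∀ x ∈ V1 ∪ R, ∀ y ∈ V1 ∪ R, q x ≤ p y + cost x y
  cs : ∀ x ∈ V1 ∪ R, p (s x) + cost x (s x) ≤ q x + 1

/-- the costs of the leg problem; `c = |V1| + |R| + 1` -/
structure LegK (V1 R : Finset ℕ) (c M : ℕ) (d : ℕ → ℕ) (ad : ℕ → ℕ → Prop) (nr : ℕ → Prop)
    (nf : ℕ → ℕ → Prop) (cost : ℕ → ℕ → ℕ) : Prop where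
  hc : c = V1.card + R.card + 1
  c0 : ∀ x ∈ V1, cost x x = 0
  c1 : ∀ x ∈ V1, ∀ y ∈ V1, x ≠ y → ad x y → cost x y = c * d x
  c1' : ∀ x ∈ V1, ∀ y ∈ V1, x ≠ y → ¬ ad x y → c * (R.card * M + 1) ≤ cost x y
  c2 : ∀ x ∈ V1, ∀ y ∈ R, nr x → cost x y = c * d x
  c2' : ∀ x ∈ V1, ∀ y ∈ R, ¬ nr x → c * (R.card * M + 1) ≤ cost x y
  c3 : ∀ x ∈ R, ∀ y ∈ V1, nf x y → cost x y = 0
  c3' : ∀ x ∈ R, ∀ y ∈ V1, ¬ nf x y → c * (R.card * M + 1) ≤ cost x y
  c4 : ∀ x ∈ R, ∀ y ∈ R, cost x y = c * M

/-- heads of the cores -/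
def heads (J : List VS) : Finset ℕ := (J.map fun F => F.headD 0).toFinset

lemma l0_head {F : VS} (h : F ≠ []) : F.headD 0 ∈ F := by
  cases F with
  | nil => exact absurd rfl h
  | cons a l => simp

lemma l0_heads_nodup {J : List VS} (nJ : J.flatten.Nodup) (neJ : ∀ F ∈ J, F ≠ []) :
    (J.map fun F => F.headD 0).Nodup := by
  rw [List.nodup_flatten] at nJ
  unfold List.Nodup
  rw [List.pairwise_map]
  refine nJ.2.imp_of_mem ?_
  intro F F' hF hF' hd he
  exact hd (l0_head (neJ F hF)) (by rw [he]; exact l0_head (neJ F' hF'))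

lemma l0_notin {K kap : ℕ} {E : AS} {V1 : VS} {J : List VS} {r : ℕ}
    (h : LegH K kap E V1 J r) {x : ℕ} (hx : x ∈ heads J) : x ∉ V1 := by
  unfold heads at hx
  rw [List.mem_toFinset, List.mem_map] at hx
  obtain ⟨F, hF, rfl⟩ := hx
  exact h.dJ F hF _ (l0_head (h.neJ F hF))

lemma l0_mem {V1 : VS} {J : List VS} {x : ℕ} :
    x ∈ legN V1 J ↔ x ∈ V1.toFinset ∪ heads J := by
  unfold legN heads
  rw [List.mem_append, Finset.mem_union, List.mem_toFinset, List.mem_toFinset]

lemma legN_nodup {K kap : ℕ} {E : AS} {V1 : VS} {J : List VS} {r : ℕ}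
    (h : LegH K kap E V1 J r) : (legN V1 J).Nodup := by
  unfold legN
  rw [List.nodup_append']
  refine ⟨h.nV, l0_heads_nodup h.nJ h.neJ, ?_⟩
  intro x hx hx'
  exact l0_notin h (by unfold heads; exact List.mem_toFinset.2 hx') hx

lemma l0_card {K kap : ℕ} {E : AS} {V1 : VS} {J : List VS} {r : ℕ}
    (h : LegH K kap E V1 J r) : V1.toFinset.card = V1.length ∧ (heads J).card = J.length := by
  refine ⟨List.toFinset_card_of_nodup h.nV, ?_⟩
  unfold heads
  rw [List.toFinset_card_of_nodup (l0_heads_nodup h.nJ h.neJ), List.length_map]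

theorem legA_spec {K kap : ℕ} {E : AS} {V1 : VS} {J : List VS} {r : ℕ}
    (h : LegH K kap E V1 J r) (hdeg : ∀ v ∈ V1, wL E [v] ≤ kap) :
    Auc (legN V1 J) (legN V1 J) (legC E V1 J r kap) (legA E V1 J r kap) := by
  unfold legA
  refine auction_spec (legN_nodup h) (legN_nodup h) le_rfl (R := legBig V1 J kap) ?_ le_rfl
  intro a ha b _
  have hdeg' : a ∈ V1 → legc V1 J * wL E [a] ≤ legBig V1 J kap := by
    intro h1
    unfold legBig
    refine Nat.mul_le_mul_left _ ?_
    have := hdeg a h1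
    omega
  unfold legC
  by_cases h1 : a ∈ V1
  · rw [if_pos h1]
    have h2 := hdeg' h1
    split_ifs <;> omega
  · rw [if_neg h1]
    have h2 : 1 ≤ J.length := by
      rw [l0_mem, Finset.mem_union, List.mem_toFinset] at ha
      have h3 := ha.resolve_left h1
      unfold heads at h3
      rw [List.mem_toFinset, List.mem_map] at h3
      obtain ⟨F, hF, _⟩ := h3
      exact List.length_pos_of_mem hF
    have h3 : legc V1 J * (5 * kap + 1) ≤ legBig V1 J kap := by
      unfold legBig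
      refine Nat.mul_le_mul_left _ ?_
      have h4 : 1 * (5 * kap + 1) ≤ J.length * (5 * kap + 1) := Nat.mul_le_mul_right _ h2
      omega
    split_ifs <;> omega

section gen

set_option linter.unusedSectionVars false

variable {α β : Type} [DecidableEq α] [DecidableEq β] {Ps : List α} {Os : List β}
  {cost : α → β → ℕ} {A : List (β × ℕ × Option α)}

lemma l0_obj_inj (hOs : Os.Nodup) (h : Auc Ps Os cost A) {z z' : β × ℕ × Option α} (hz : z ∈ A)
    (hz' : z' ∈ A) (he : z.1 = z'.1) : z = z' := by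
  have h1 : (A.map fun z => z.1).Nodup := by rw [h.objs]; exact hOs
  exact List.inj_on_of_nodup_map h1 hz hz' he

lemma l0_prc (hOs : Os.Nodup) (h : Auc Ps Os cost A) {z : β × ℕ × Option α} (hz : z ∈ A) :
    prc A z.1 = z.2.1 := by
  unfold prc
  cases hf : A.find? (fun w => decide (w.1 = z.1)) with
  | none =>
    rw [List.find?_eq_none] at hf
    exact absurd (by simp) (hf z hz)
  | some w =>
    have h1 := List.find?_some hf
    have h2 := List.mem_of_find?_eq_some hf
    have h3 : w = z := l0_obj_inj hOs h h2 hz (of_decide_eq_true h1)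
    rw [h3]
    rfl

lemma l0_fwd (h : Auc Ps Os cost A) {z : β × ℕ × Option α} (hz : z ∈ A) {x : α}
    (hx : z.2.2 = some x) : fwd A x = some z.1 := by
  unfold fwd
  cases hf : A.find? (fun w => decide (w.2.2 = some x)) with
  | none =>
    rw [List.find?_eq_none] at hf
    exact absurd (by simp [hx]) (hf z hz)
  | some w =>
    have h1 := List.find?_some hf
    have h2 := List.mem_of_find?_eq_some hf
    have h3 : w = z := h.inj w h2 z hz x (of_decide_eq_true h1) hx
    rw [h3]
    rfl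

lemma l0_qv (cost : α → β → ℕ) {A : List (β × ℕ × Option α)} (hne : A ≠ []) (x : α) :
    (∃ z ∈ A, qv cost A x = z.2.1 + cost x z.1) ∧ ∀ z ∈ A, qv cost A x ≤ z.2.1 + cost x z.1 := by
  unfold qv
  cases hf : amin (fun z : β × ℕ × Option α => z.2.1 + cost x z.1) A with
  | none =>
    rw [amin_none] at hf
    exact absurd hf hne
  | some w =>
    obtain ⟨h1, h2⟩ := amin_spec hf
    exact ⟨⟨w, h1, rfl⟩, h2⟩

lemma l0_entry (h : Auc Ps Os cost A) {y : β} (hy : y ∈ Os) : ∃ z ∈ A, z.1 = y := by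
  rw [← h.objs, List.mem_map] at hy
  exact hy

lemma l0_entry' (h : Auc Ps Os cost A) {z : β × ℕ × Option α} (hz : z ∈ A) : z.1 ∈ Os := by
  rw [← h.objs]
  exact List.mem_map.2 ⟨z, hz, rfl⟩

end gen

/-- for persons, `fwd` is defined -/
lemma fwd_some {K kap : ℕ} {E : AS} {V1 : VS} {J : List VS} {r : ℕ}
    (h : LegH K kap E V1 J r) (hdeg : ∀ v ∈ V1, wL E [v] ≤ kap) {x : ℕ}
    (hx : x ∈ V1.toFinset ∪ heads J) :
    fwd (legA E V1 J r kap) x = some ((fwd (legA E V1 J r kap) x).getD 0) := by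
  have hA := legA_spec h hdeg
  obtain ⟨z, hz, hzx⟩ := hA.tot x (l0_mem.2 hx)
  rw [l0_fwd hA hz hzx]
  rfl

theorem legD_of {K kap : ℕ} {E : AS} {V1 : VS} {J : List VS} {r : ℕ}
    (h : LegH K kap E V1 J r) (hdeg : ∀ v ∈ V1, wL E [v] ≤ kap) :
    LegD V1.toFinset (heads J) (prc (legA E V1 J r kap))
      (qv (legC E V1 J r kap) (legA E V1 J r kap))
      (fun x => (fwd (legA E V1 J r kap) x).getD 0) (legC E V1 J r kap) := by
  have hA := legA_spec h hdeg
  have hN := legN_nodup h
  have key : ∀ x ∈ V1.toFinset ∪ heads J, ∃ z ∈ legA E V1 J r kap, z.2.2 = some x ∧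
      (fwd (legA E V1 J r kap) x).getD 0 = z.1 := by
    intro x hx
    obtain ⟨z, hz, hzx⟩ := hA.tot x (l0_mem.2 hx)
    refine ⟨z, hz, hzx, ?_⟩
    rw [l0_fwd hA hz hzx]
    rfl
  constructor
  · rw [Finset.disjoint_left]
    intro x hx hx'
    exact l0_notin h hx' (List.mem_toFinset.1 hx)
  · have hmaps : Set.MapsTo (fun x => (fwd (legA E V1 J r kap) x).getD 0)
        ((V1.toFinset ∪ heads J : Finset ℕ) : Set ℕ) ((V1.toFinset ∪ heads J : Finset ℕ) : Set ℕ) := by
      intro x hx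
      obtain ⟨z, hz, _, hz2⟩ := key x hx
      show (fwd (legA E V1 J r kap) x).getD 0 ∈ _
      rw [hz2]
      exact l0_mem.1 (l0_entry' hA hz)
    have hinj : Set.InjOn (fun x => (fwd (legA E V1 J r kap) x).getD 0)
        ((V1.toFinset ∪ heads J : Finset ℕ) : Set ℕ) := by
      intro x hx y hy hxy
      obtain ⟨z, hz, hz1, hz2⟩ := key x hx
      obtain ⟨w, hw, hw1, hw2⟩ := key y hy
      have h1 : z.1 = w.1 := by
        rw [← hz2, ← hw2]
        exact hxy
      have h2 := l0_obj_inj hN hA hz hw h1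
      rw [h2, hw1] at hz1
      exact (Option.some.inj hz1).symm
    exact ⟨hmaps, hinj, Finset.surjOn_of_injOn_of_card_le _ hmaps hinj le_rfl⟩
  · intro x hx y hy
    obtain ⟨z, hz, rfl⟩ := l0_entry hA (l0_mem.2 hy)
    rw [l0_prc hN hA hz]
    exact (l0_qv (legC E V1 J r kap) (List.ne_nil_of_mem hz) x).2 z hz
  · intro x hx
    obtain ⟨z, hz, hz1, hz2⟩ := key x hx
    obtain ⟨w, hw, hw2⟩ := (l0_qv (legC E V1 J r kap) (List.ne_nil_of_mem hz) x).1
    show prc (legA E V1 J r kap) ((fwd (legA E V1 J r kap) x).getD 0) +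
      legC E V1 J r kap x ((fwd (legA E V1 J r kap) x).getD 0) ≤ _
    rw [hz2, l0_prc hN hA hz, hw2]
    exact hA.cs z hz x hz1 w hw

theorem legK_of {K kap : ℕ} {E : AS} {V1 : VS} {J : List VS} {r : ℕ}
    (h : LegH K kap E V1 J r) :
    LegK V1.toFinset (heads J) (legc V1 J) (5 * kap + 1) (fun v => wL E [v])
      (fun x y => (x, y) ∈ E) (fun x => (x, r) ∈ E)
      (fun x y => ∃ F ∈ J, x ∈ F ∧ ∃ f ∈ F, (f, y) ∈ E) (legC E V1 J r kap) := by
  obtain ⟨hc1, hc2⟩ := l0_card h
  have hbig : legc V1 J * ((heads J).card * (5 * kap + 1) + 1) ≤ legBig V1 J kap := by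
    rw [hc2]
    unfold legBig
    exact Nat.mul_le_mul_left _ (by omega)
  have hany : ∀ x y, (J.any fun F => decide (x ∈ F) && adjS E F y) = true ↔
      ∃ F ∈ J, x ∈ F ∧ ∃ f ∈ F, (f, y) ∈ E := by
    intro x y
    rw [List.any_eq_true]
    constructor
    · rintro ⟨F, hF, hh⟩
      rw [Bool.and_eq_true, decide_eq_true_eq, adjS_iff] at hh
      exact ⟨F, hF, hh⟩
    · rintro ⟨F, hF, hh⟩
      refine ⟨F, hF, ?_⟩
      rw [Bool.and_eq_true, decide_eq_true_eq, adjS_iff]
      exact hh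
  constructor
  · unfold legc
    rw [hc1, hc2]
  · intro x hx
    rw [List.mem_toFinset] at hx
    unfold legC
    rw [if_pos hx, if_pos hx, if_pos rfl]
  · intro x hx y hy hxy hE
    rw [List.mem_toFinset] at hx hy
    unfold legC
    rw [if_pos hx, if_pos hy, if_neg hxy, if_pos hE]
  · intro x hx y hy hxy hE
    rw [List.mem_toFinset] at hx hy
    unfold legC
    rw [if_pos hx, if_pos hy, if_neg hxy, if_neg hE]
    exact hbig
  · intro x hx y hy hr
    rw [List.mem_toFinset] at hx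
    unfold legC
    rw [if_pos hx, if_neg (l0_notin h hy), if_pos hr]
  · intro x hx y hy hr
    rw [List.mem_toFinset] at hx
    unfold legC
    rw [if_pos hx, if_neg (l0_notin h hy), if_neg hr]
    exact hbig
  · intro x hx y hy hnf
    rw [List.mem_toFinset] at hy
    unfold legC
    rw [if_neg (l0_notin h hx), if_pos hy, if_pos ((hany x y).2 hnf)]
  · intro x hx y hy hnf
    rw [List.mem_toFinset] at hy
    unfold legC
    rw [if_neg (l0_notin h hx), if_pos hy, if_neg (fun h' => hnf ((hany x y).1 h'))]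
    exact hbig
  · intro x hx y hy
    unfold legC
    rw [if_neg (l0_notin h hx), if_neg (l0_notin h hy)]

end Pool.Agent.H24S
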