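import Pool.Agent.Lib.H24S.L0

/-!
# H24S chunk L1: sums over the permutation (pure finite sums)

`N = V1 ∪ R`, `s` is a bijection of `N`, so `∑_{x ∈ N} p (s x) = ∑_{x ∈ N} p x`.
* `leg_forb`: sum of `cs` and `low` (`y = x`): `∑ (p (s x) + cost x (s x)) ≤ ∑ (q x + 1) ≤
  ∑ (p x + cost x x + 1)`, so `∑ cost x (s x) ≤ ∑ cost x x + |N| = |R| c M + |N| < c (|R| M + 1)` because
  `|N| < c`. Hence every single cost is `< c (|R| M + 1)`.
* `leg_type`: costs `≥ c (|R| M + 1)` are not used.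
* `leg_sum`: `∑_{x ∈ N} (p (s x) + cost x (s x)) ≤ ∑_{x ∈ N} (q x + 1)` gives
  `∑_{V1} p + ∑_R p ≤ ∑_{V1} q + ∑_R q + |N|`. As `q v ≤ p v` on `V1`:
  `∑_{V1} (p - q) ≤ ∑_{i ∈ R} (q i - p i) + |N| ≤ |R| δ + |N|`. Add `c ∑ d`.
-/

set_option autoImplicit false

namespace Pool.Agent.H24S

variable {V1 R : Finset ℕ} {p q s d : ℕ → ℕ} {cost : ℕ → ℕ → ℕ} {c M : ℕ}
  {ad : ℕ → ℕ → Prop} {nr : ℕ → Prop} {nf : ℕ → ℕ → Prop}

lemma leg_qp (h : LegD V1 R p q s cost) (k : LegK V1 R c M d ad nr nf cost) {v : ℕ}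
    (hv : v ∈ V1) : q v ≤ p v := by
  have h1 := h.low v (Finset.mem_union_left _ hv) v (Finset.mem_union_left _ hv)
  rw [k.c0 v hv] at h1
  simpa using h1

lemma l1_sum (h : LegD V1 R p q s cost) : ∑ x ∈ V1 ∪ R, p (s x) = ∑ x ∈ V1 ∪ R, p x := by
  have h1 : (V1 ∪ R).image s = V1 ∪ R := by
    apply Finset.coe_injective
    rw [Finset.coe_image]
    exact h.bij.image_eq
  have h2 : ∑ x ∈ (V1 ∪ R).image s, p x = ∑ x ∈ V1 ∪ R, p (s x) :=
    Finset.sum_image fun x hx y hy hxy => h.bij.injOn hx hy hxy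
  rw [← h2, h1]

lemma l1_main (h : LegD V1 R p q s cost) :
    ∑ x ∈ V1 ∪ R, p x + ∑ x ∈ V1 ∪ R, cost x (s x) ≤ ∑ x ∈ V1 ∪ R, q x + (V1 ∪ R).card := by
  have h1 : ∑ x ∈ V1 ∪ R, (p (s x) + cost x (s x)) ≤ ∑ x ∈ V1 ∪ R, (q x + 1) :=
    Finset.sum_le_sum fun x hx => h.cs x hx
  rw [Finset.sum_add_distrib, Finset.sum_add_distrib, l1_sum h] at h1
  simpa using h1

theorem leg_forb (h : LegD V1 R p q s cost) (k : LegK V1 R c M d ad nr nf cost) :
    ∀ x ∈ V1 ∪ R, cost x (s x) < c * (R.card * M + 1) := by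
  intro x hx
  have h1 := l1_main h
  have h2 : ∑ x ∈ V1 ∪ R, q x ≤ ∑ x ∈ V1 ∪ R, (p x + cost x x) :=
    Finset.sum_le_sum fun x hx => h.low x hx x hx
  rw [Finset.sum_add_distrib] at h2
  have h3 : ∑ x ∈ V1 ∪ R, cost x x = R.card * (c * M) := by
    rw [Finset.sum_union h.dis, Finset.sum_eq_zero fun x hx => k.c0 x hx, zero_add,
      Finset.sum_congr rfl fun x hx => k.c4 x hx x hx, Finset.sum_const, smul_eq_mul]
  have h4 : (V1 ∪ R).card = V1.card + R.card := Finset.card_union_of_disjoint h.dis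
  have h5 : cost x (s x) ≤ ∑ x ∈ V1 ∪ R, cost x (s x) :=
    Finset.single_le_sum (f := fun x => cost x (s x)) (fun _ _ => Nat.zero_le _) hx
  have h6 := k.hc
  have h7 : c * (R.card * M + 1) = R.card * (c * M) + c := by ring
  omega

theorem leg_type (h : LegD V1 R p q s cost) (k : LegK V1 R c M d ad nr nf cost) :
    (∀ x ∈ V1, s x = x ∨ (s x ∈ V1 ∧ s x ≠ x ∧ ad x (s x) ∧ cost x (s x) = c * d x) ∨
      (s x ∈ R ∧ nr x ∧ cost x (s x) = c * d x)) ∧
    (∀ x ∈ R, (s x ∈ V1 ∧ nf x (s x) ∧ cost x (s x) = 0) ∨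
      (s x ∈ R ∧ cost x (s x) = c * M)) := by
  have hf := leg_forb h k
  have hm : ∀ x ∈ V1 ∪ R, s x ∈ V1 ∪ R := fun x hx => by
    have := h.bij.mapsTo (show x ∈ ((V1 ∪ R : Finset ℕ) : Set ℕ) from hx)
    exact this
  constructor
  · intro x hx
    have hx' : x ∈ V1 ∪ R := Finset.mem_union_left _ hx
    have h1 := hf x hx'
    by_cases he : s x = x
    · exact Or.inl he
    · right
      rcases Finset.mem_union.1 (hm x hx') with h2 | h2
      · left
        by_cases ha : ad x (s x)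
        · exact ⟨h2, he, ha, k.c1 x hx (s x) h2 (Ne.symm he) ha⟩
        · exact absurd h1 (not_lt.2 (k.c1' x hx (s x) h2 (Ne.symm he) ha))
      · right
        by_cases ha : nr x
        · exact ⟨h2, ha, k.c2 x hx (s x) h2 ha⟩
        · exact absurd h1 (not_lt.2 (k.c2' x hx (s x) h2 ha))
  · intro x hx
    have hx' : x ∈ V1 ∪ R := Finset.mem_union_right _ hx
    have h1 := hf x hx'
    rcases Finset.mem_union.1 (hm x hx') with h2 | h2
    · left
      by_cases ha : nf x (s x)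
      · exact ⟨h2, ha, k.c3 x hx (s x) h2 ha⟩
      · exact absurd h1 (not_lt.2 (k.c3' x hx (s x) h2 ha))
    · right
      exact ⟨h2, k.c4 x hx (s x) h2⟩

theorem leg_sum (h : LegD V1 R p q s cost) (k : LegK V1 R c M d ad nr nf cost) {δ : ℕ}
    (hδ : ∀ i ∈ R, ∀ j ∈ R, q i ≤ p j + δ) :
    ∑ v ∈ V1, (p v + c * d v - q v) ≤ c * (∑ v ∈ V1, d v) + R.card * δ + (V1.card + R.card) := by
  have h1 := l1_main h
  rw [Finset.sum_union h.dis (f := p), Finset.sum_union h.dis (f := q),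
    Finset.card_union_of_disjoint h.dis] at h1
  have h2 : ∑ x ∈ R, q x ≤ ∑ x ∈ R, (p x + δ) := Finset.sum_le_sum fun x hx => hδ x hx x hx
  rw [Finset.sum_add_distrib, Finset.sum_const, smul_eq_mul] at h2
  have h3 : ∑ v ∈ V1, (p v + c * d v - q v) + ∑ v ∈ V1, q v = ∑ v ∈ V1, p v + c * ∑ v ∈ V1, d v := by
    rw [← Finset.sum_add_distrib, Finset.mul_sum, ← Finset.sum_add_distrib]
    refine Finset.sum_congr rfl fun v hv => ?_
    have := leg_qp h k hv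
    omega
  omega

end Pool.Agent.H24S
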