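import Pool.Agent.Lib.H24S.L1

/-!
# H24S chunk L2: if some leg is long there is a level with a small cut

Choose `i ∈ R` with `q i` maximal and `k ∈ R` with `p k` minimal, `δ = q i - p k ≥ 5 c kap`; then
`q i' ≤ p j + δ` for all `i', j ∈ R`. For a level `th` let `X_th = {v ∈ V1 : q v ≤ th + c d v, th < p v}`. Double
counting over `th ∈ [p k, q i)`: `∑_th |X_th| ≤ ∑_{v ∈ V1} (p v + c d v - q v)` (for fixed `v` the levels satisfy
`q v - c d v ≤ th < p v`, and `q v ≤ p v`), which is `≤ c (2 kap K) + |R| δ + (c - 1)` by `leg_sum`.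
If `|X_th| ≥ K` for all the `δ` levels: `K δ ≤ 2 c kap K + |R| δ + c`, so with `2 |R| ≤ K`:
`K δ ≤ 4 c kap K + 2 c`, and `δ ≥ 5 c kap` gives `c kap K ≤ 2 c`, impossible for `K ≥ 8`, `kap ≥ 1`, `c ≥ 1`.
-/

set_option autoImplicit false

namespace Pool.Agent.H24S

variable {V1 R : Finset ℕ} {p q s d : ℕ → ℕ} {cost : ℕ → ℕ → ℕ} {c M : ℕ}
  {ad : ℕ → ℕ → Prop} {nr : ℕ → Prop} {nf : ℕ → ℕ → Prop}

theorem leg_level (h : LegD V1 R p q s cost) (k : LegK V1 R c M d ad nr nf cost) {K kap : ℕ}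
    (hw : ∑ v ∈ V1, d v ≤ 2 * kap * K) (hJ : 2 * R.card ≤ K) (K8 : 8 ≤ K) (k1 : 1 ≤ kap)
    {i0 j0 : ℕ} (hi : i0 ∈ R) (hj : j0 ∈ R) (hbig : p j0 + 5 * c * kap ≤ q i0) :
    ∃ i ∈ R, ∃ j ∈ R, ∃ th, p j ≤ th ∧ th < q i ∧
      (V1.filter fun v => q v ≤ th + c * d v ∧ th < p v).card < K := by
  obtain ⟨i, hiR, hmax⟩ := Finset.exists_max_image R q ⟨i0, hi⟩
  obtain ⟨j, hjR, hmin⟩ := Finset.exists_min_image R p ⟨j0, hj⟩
  by_contra hcon
  have hK : ∀ th ∈ Finset.Ico (p j) (q i),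
      K ≤ (V1.filter fun v => q v ≤ th + c * d v ∧ th < p v).card := by
    intro th hth
    rw [Finset.mem_Ico] at hth
    by_contra hlt
    exact hcon ⟨i, hiR, j, hjR, th, hth.1, hth.2, not_le.1 hlt⟩
  have h1 := hmax i0 hi
  have h2 := hmin j0 hj
  obtain ⟨δ, hδ⟩ : ∃ δ, q i = p j + δ := ⟨q i - p j, by omega⟩
  have hδ5 : 5 * c * kap ≤ δ := by omega
  have hsum := leg_sum h k (δ := δ) (fun i' hi' j' hj' => by
    have a := hmax i' hi'
    have b := hmin j' hj'
    omega)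
  have hcount : ∑ th ∈ Finset.Ico (p j) (q i),
      (V1.filter fun v => q v ≤ th + c * d v ∧ th < p v).card ≤
      ∑ v ∈ V1, (p v + c * d v - q v) := by
    have e1 : ∑ th ∈ Finset.Ico (p j) (q i),
        (V1.filter fun v => q v ≤ th + c * d v ∧ th < p v).card =
        ∑ v ∈ V1, ((Finset.Ico (p j) (q i)).filter
          fun th => q v ≤ th + c * d v ∧ th < p v).card := by
      simp only [Finset.card_filter]
      exact Finset.sum_comm
    rw [e1]
    refine Finset.sum_le_sum fun v hv => ?_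
    have hqp := leg_qp h k hv
    have hsub : ((Finset.Ico (p j) (q i)).filter fun th => q v ≤ th + c * d v ∧ th < p v) ⊆
        Finset.Ico (q v - c * d v) (p v) := by
      intro th hth
      rw [Finset.mem_filter] at hth
      rw [Finset.mem_Ico]
      omega
    have := Finset.card_le_card hsub
    rw [Nat.card_Ico] at this
    omega
  have hlow : δ * K ≤ ∑ th ∈ Finset.Ico (p j) (q i),
      (V1.filter fun v => q v ≤ th + c * d v ∧ th < p v).card := by
    have := Finset.card_nsmul_le_sum (Finset.Ico (p j) (q i))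
      (fun th => (V1.filter fun v => q v ≤ th + c * d v ∧ th < p v).card) K hK
    rw [Nat.card_Ico, smul_eq_mul] at this
    have e : q i - p j = δ := by omega
    rwa [e] at this
  have hc := k.hc
  have h3 : c * (∑ v ∈ V1, d v) ≤ c * (2 * kap * K) := Nat.mul_le_mul_left _ hw
  have h4 : 2 * R.card * δ ≤ K * δ := Nat.mul_le_mul_right _ hJ
  have h5 : 5 * c * kap * K ≤ δ * K := Nat.mul_le_mul_right _ hδ5
  have h6 : c * 8 ≤ c * (kap * K) := Nat.mul_le_mul_left _ (by nlinarith)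
  nlinarith

end Pool.Agent.H24S
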