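import Pool.Agent.Lib.H24S.L0

/-!
# H24S chunk L4: orbits of the permutation

`s` is a bijection of `V1 ∪ R`. The orbit of `i ∈ R`: let `m + 1` be the least positive number with
`s^[m+1] i ∈ R` (it exists because otherwise all `s^[j] i`, `j ≥ 1`, are in the finite set `V1`, so
`s^[a] i = s^[b] i` with `a < b`, and injectivity gives `i = s^[b-a] i ∈ V1`, contradiction). The same argument
shows that `s^[j] i`, `1 ≤ j ≤ m`, are different elements of `V1`, so `m ≤ |V1|`, and that the orbits of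
different `i, i' ∈ R` are disjoint (`s^[a] i = s^[b] i'`, `a ≤ b`: `i = s^[b-a] i'`, so `b = a` and `i = i'`, or
`b - a ≥ 1` and the right side is in `V1`).
-/

set_option autoImplicit false

namespace Pool.Agent.H24S

variable {V1 R : Finset ℕ} {s : ℕ → ℕ}

/-- the orbit of `i` stays in `V1` for the times `1..m` and is in `R` at time `m + 1` -/
structure Orb (V1 R : Finset ℕ) (s : ℕ → ℕ) (i m : ℕ) : Prop where
  inV : ∀ j, 1 ≤ j → j ≤ m → s^[j] i ∈ V1
  inR : s^[m + 1] i ∈ R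
  le : m ≤ V1.card
  inj : ∀ a b, a ≤ m → b ≤ m → s^[a] i = s^[b] i → a = b

lemma l4_mem (hb : Set.BijOn s ((V1 ∪ R : Finset ℕ) : Set ℕ) ((V1 ∪ R : Finset ℕ) : Set ℕ)) {i : ℕ}
    (hi : i ∈ V1 ∪ R) (a : ℕ) : s^[a] i ∈ V1 ∪ R :=
  hb.mapsTo.iterate a hi

lemma l4_cancel (hb : Set.BijOn s ((V1 ∪ R : Finset ℕ) : Set ℕ) ((V1 ∪ R : Finset ℕ) : Set ℕ))
    {i i' : ℕ} (hi : i ∈ V1 ∪ R) (hi' : i' ∈ V1 ∪ R) {a b : ℕ} (hab : a ≤ b)
    (h : s^[a] i = s^[b] i') : i = s^[b - a] i' := by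
  have h1 : s^[b] i' = s^[a] (s^[b - a] i') := by
    rw [← Function.iterate_add_apply]
    congr 2
    omega
  rw [h1] at h
  exact hb.injOn.iterate hb.mapsTo a hi (l4_mem hb hi' _) h

theorem orb_exists (hd : Disjoint V1 R)
    (hb : Set.BijOn s ((V1 ∪ R : Finset ℕ) : Set ℕ) ((V1 ∪ R : Finset ℕ) : Set ℕ)) {i : ℕ}
    (hi : i ∈ R) : ∃ m, Orb V1 R s i m := by
  classical
  have hiN : i ∈ V1 ∪ R := Finset.mem_union_right _ hi
  have hiV : i ∉ V1 := fun h => Finset.disjoint_left.1 hd h hi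
  have hex : ∃ m, s^[m + 1] i ∈ R := by
    by_contra hno
    push Not at hno
    have hV : ∀ m, s^[m + 1] i ∈ V1 := fun m => by
      rcases Finset.mem_union.1 (l4_mem hb hiN (m + 1)) with h | h
      · exact h
      · exact absurd h (hno m)
    obtain ⟨a, b, hab, he⟩ : ∃ a b : ℕ, a < b ∧ s^[a + 1] i = s^[b + 1] i := by
      obtain ⟨a, ha, b, hb', hne, he⟩ := Finset.exists_ne_map_eq_of_card_lt_of_maps_to
        (s := Finset.range (V1.card + 1)) (t := V1) (f := fun m => s^[m + 1] i)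
        (by rw [Finset.card_range]; omega) (fun m _ => hV m)
      rcases lt_or_gt_of_ne hne with h | h
      · exact ⟨a, b, h, he⟩
      · exact ⟨b, a, h, he.symm⟩
    have h1 := l4_cancel hb hiN hiN (a := a + 1) (b := b + 1) (by omega) he
    have h2 : b + 1 - (a + 1) = (b - a - 1) + 1 := by omega
    rw [h2] at h1
    exact hiV (h1 ▸ hV (b - a - 1))
  refine ⟨Nat.find hex, ?_⟩
  have hinV : ∀ j, 1 ≤ j → j ≤ Nat.find hex → s^[j] i ∈ V1 := by
    intro j hj hjm
    have h1 := Nat.find_min hex (m := j - 1) (by omega)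
    have h2 : j - 1 + 1 = j := by omega
    rw [h2] at h1
    rcases Finset.mem_union.1 (l4_mem hb hiN j) with h | h
    · exact h
    · exact absurd h h1
  have hinj : ∀ a b, a ≤ b → b ≤ Nat.find hex → s^[a] i = s^[b] i → a = b := by
    intro a b hab hbm he
    have h1 := l4_cancel hb hiN hiN hab he
    by_contra hne
    exact hiV (h1 ▸ hinV (b - a) (by omega) (by omega))
  have hinj' : ∀ a b, a ≤ Nat.find hex → b ≤ Nat.find hex → s^[a] i = s^[b] i → a = b := by
    intro a b ha hb' he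
    rcases le_total a b with h | h
    · exact hinj a b h hb' he
    · exact (hinj b a h ha he.symm).symm
  refine ⟨hinV, Nat.find_spec hex, ?_, hinj'⟩
  have h1 := Finset.card_le_card_of_injOn (s := Finset.Icc 1 (Nat.find hex)) (t := V1)
    (fun j => s^[j] i) (fun j hj => by
      have hj' := Finset.mem_Icc.1 (Finset.mem_coe.1 hj)
      exact hinV j hj'.1 hj'.2) (fun a ha b hb' he => by
      have ha' := Finset.mem_Icc.1 (Finset.mem_coe.1 ha)
      have hb'' := Finset.mem_Icc.1 (Finset.mem_coe.1 hb')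
      exact hinj' a b ha'.2 hb''.2 he)
  simpa using h1

theorem orb_disj (hd : Disjoint V1 R)
    (hb : Set.BijOn s ((V1 ∪ R : Finset ℕ) : Set ℕ) ((V1 ∪ R : Finset ℕ) : Set ℕ)) {i i' m m' : ℕ}
    (hi : i ∈ R) (hi' : i' ∈ R) (ho : Orb V1 R s i m) (ho' : Orb V1 R s i' m') (hne : i ≠ i') :
    ∀ a b, a ≤ m → b ≤ m' → s^[a] i ≠ s^[b] i' := by
  have key : ∀ i i' m m' : ℕ, i ∈ R → i' ∈ R → Orb V1 R s i m → Orb V1 R s i' m' → i ≠ i' →
      ∀ a b, a ≤ b → a ≤ m → b ≤ m' → s^[a] i ≠ s^[b] i' := by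
    intro i i' m m' hi hi' _ ho' hne a b hab ham hbm he
    have h1 := l4_cancel hb (Finset.mem_union_right _ hi) (Finset.mem_union_right _ hi') hab he
    by_cases h0 : b - a = 0
    · rw [h0] at h1
      exact hne h1
    · have h2 := ho'.inV (b - a) (by omega) (by omega)
      rw [← h1] at h2
      exact Finset.disjoint_left.1 hd h2 hi
  intro a b ha hb' he
  rcases le_total a b with h | h
  · exact key i i' m m' hi hi' ho ho' hne a b h ha hb' he
  · exact key i' i m' m hi' hi ho' ho hne.symm b a h hb' ha he.symm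

end Pool.Agent.H24S
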