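import Pool.Agent.Lib.H24S.D

/-!
# H24S chunk P0: tools for polynomial time (library `Pool/Agent/Lib/PolyTime`, see its README)

`PT f`: the function `f` is computed in polynomial time; `PBd g`: the number `g a` (its VALUE) is at
most a polynomial in the size of `a`. `sz a` = size of the code of `a`.
-/

set_option autoImplicit false

namespace Pool.Agent.H24S

open Pool.Agent.PolyTime

variable {α β γ σ : Type} [Enc α] [Enc β] [Enc γ] [Enc σ]

lemma p0_succ_iter (i n : ℕ) : (fun x : ℕ => x + 1)^[i] n = n + i := by
  induction i generalizing n with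
  | zero => rfl
  | succ i ih => rw [Function.iterate_succ_apply, ih]; omega

lemma PT.szN {f : α → β} (hf : PT f) : PT fun a => sz (f a) := by
  have h := PT.iterate_sz (f := fun x : ℕ => x + 1) (s := fun _ : α => 0) (n := f) (by fun_prop)
    (by fun_prop) hf (B := fun a => 4 * sz (f a) + 1)
    (((PBd.const 4).mul hf.bdd).add (PBd.const 1)) (by
      intro a i hi
      rw [p0_succ_iter]
      refine (sz_nat_le_self _).trans ?_
      omega)
  exact h.congr fun a => by rw [p0_succ_iter]; omega

lemma PBd.length {l : α → List β} (hl : PT l) : PBd fun a => (l a).length :=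
  PBd.mono (fun a => (length_lt_sz (l a)).le) hl.bdd

/-- a number has small code if it has a small value -/
lemma PBd.szNat {b : α → ℕ} (hb : PBd b) : PBd fun a => sz (b a) :=
  PBd.mono (fun a => sz_nat_le_self (b a)) (((PBd.const 4).mul hb).add (PBd.const 1))

lemma p0_unit_iter (i : ℕ) (l : List Unit) : ((fun x : List Unit => () :: x)^[i] l).length =
    l.length + i := by
  induction i generalizing l with
  | zero => rfl
  | succ i ih => rw [Function.iterate_succ_apply, ih, List.length_cons]; omega

lemma p0_sz_unit (l : List Unit) : sz l = 2 * l.length + 1 := by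
  induction l with
  | nil => rfl
  | cons a l ih =>
    have h : sz a = 1 := rfl
    rw [sz_cons, ih, h, List.length_cons]
    omega

lemma p0_units : ∃ l : α → List Unit, PT l ∧ ∀ a, (l a).length = sz a := by
  refine ⟨fun a => (fun x : List Unit => () :: x)^[sz a] [], ?_, fun a => by
    rw [p0_unit_iter]; simp⟩
  exact PT.iterate_sz (f := fun x : List Unit => () :: x) (s := fun _ : α => []) (n := fun a => a)
    (by fun_prop) (by fun_prop) (by fun_prop) (B := fun a => 2 * sz a + 1)
    (((PBd.const 2).mul PBd.sz).add (PBd.const 1)) (by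
      intro a i hi
      rw [p0_sz_unit, p0_unit_iter]
      simp
      omega)

lemma p0_pow (k : ℕ) : ∃ l : α → List Unit, PT l ∧ ∀ a, (l a).length = sz a ^ k := by
  obtain ⟨u, hu, hu'⟩ := p0_units (α := α)
  induction k with
  | zero => exact ⟨fun _ => [()], PT.const _, fun a => by simp⟩
  | succ k ih =>
    obtain ⟨l, hl, hl'⟩ := ih
    refine ⟨fun a => (l a).flatMap fun _ => u a, ?_, ?_⟩
    · exact PT.flatMap (f := fun a (_ : Unit) => u a) (hu.comp PT.fst') hl
    · intro a
      rw [List.length_flatMap]
      simp [hl', hu', pow_succ]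

theorem PT.clock {b : α → ℕ} (hb : PBd b) : ∃ l : α → List Unit, PT l ∧ ∀ a, b a ≤ (l a).length := by
  obtain ⟨c, k, hck⟩ := hb
  obtain ⟨u, hu, hu'⟩ := p0_pow (α := α) k
  have h : ∀ c : ℕ, ∃ l : α → List Unit, PT l ∧ ∀ a, (l a).length = c * sz a ^ k := by
    intro c
    induction c with
    | zero => exact ⟨fun _ => [], PT.const _, fun a => by simp⟩
    | succ c ih =>
      obtain ⟨l, hl, hl'⟩ := ih
      refine ⟨fun a => l a ++ u a, hl.append hu, ?_⟩
      intro a
      rw [List.length_append, hl', hu']
      ring
  obtain ⟨l, hl, hl'⟩ := h c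
  exact ⟨l, hl, fun a => by rw [hl']; exact hck a⟩

omit [Enc σ] in
lemma p0_fold (f : σ → σ) (n : ℕ) (l : List Unit) : ∀ (x : σ) (i : ℕ), i ≤ n →
    l.foldl (fun (s : σ × ℕ) (_ : Unit) => if s.2 < n then (f s.1, s.2 + 1) else s) (x, i) =
      (f^[min (i + l.length) n - i] x, min (i + l.length) n) := by
  induction l with
  | nil =>
    intro x i hi
    simp [hi]
  | cons a l ih =>
    intro x i hi
    rw [List.foldl_cons]
    by_cases h : i < n
    · rw [if_pos h]
      rw [ih (f x) (i + 1) h, ← Function.iterate_succ_apply f]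
      have h1 : min (i + 1 + l.length) n = min (i + (a :: l).length) n := by
        rw [List.length_cons]; congr 1; omega
      have h2 : min (i + 1 + l.length) n - (i + 1) + 1 = min (i + (a :: l).length) n - i := by
        rw [List.length_cons]; omega
      rw [Nat.succ_eq_add_one, h2, h1]
    · rw [if_neg h, ih x i hi]
      have h1 : min (i + l.length) n = min (i + (a :: l).length) n := by
        rw [List.length_cons]; omega
      rw [h1]

theorem PT.iterNat {f : α → σ → σ} {s : α → σ} {b : α → ℕ} (hf : PT fun p : α × σ => f p.1 p.2)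
    (hs : PT s) (hb : PT b) (hbb : PBd b) {B : α → ℕ} (hB : PBd B)
    (h : ∀ a i, i ≤ b a → sz ((f a)^[i] (s a)) ≤ B a) : PT fun a => (f a)^[b a] (s a) := by
  obtain ⟨l, hl, hl'⟩ := PT.clock hbb
  have h1 : PT fun a => (l a).foldl
      (fun (t : σ × ℕ) (_ : Unit) => if t.2 < b a then (f a t.1, t.2 + 1) else t) (s a, 0) := by
    refine PT.foldl (g := fun a (t : σ × ℕ) (_ : Unit) => if t.2 < b a then (f a t.1, t.2 + 1) else t)
      (s := fun a => (s a, 0)) ?_ (by fun_prop) hl (B := fun a => B a + (4 * b a + 1) + 1)
      ((hB.add (((PBd.const 4).mul hbb).add (PBd.const 1))).add (PBd.const 1)) ?_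
    · refine PT.ite (p := fun p : α × (σ × ℕ) × Unit => p.2.1.2 < b p.1) ?_ ?_ ?_
      · exact PT.decide_lt (f := fun p : α × (σ × ℕ) × Unit => p.2.1.2) (g := fun p => b p.1)
          (by fun_prop) (hb.comp PT.fst')
      · refine PT.pair ?_ (by fun_prop)
        exact hf.comp (f := fun p : α × (σ × ℕ) × Unit => (p.1, p.2.1.1)) (by fun_prop)
      · fun_prop
    · intro a l1 l2 _
      rw [p0_fold (f a) (b a) l1 (s a) 0 (Nat.zero_le _), sz_pair]
      have h2 := h a (min (0 + l1.length) (b a) - 0) (by omega)
      have h3 : sz (min (0 + l1.length) (b a)) ≤ 4 * b a + 1 :=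
        (sz_nat_le_self _).trans (by omega)
      omega
  refine (PT.fst h1).congr fun a => ?_
  rw [p0_fold (f a) (b a) (l a) (s a) 0 (Nat.zero_le _)]
  have : min (0 + (l a).length) (b a) - 0 = b a := by
    have := hl' a
    omega
  simp only [this]

lemma p0_filter_range (m n : ℕ) (h : m ≤ n) :
    ((List.range n).filter fun x => decide (x < m)) = List.range m := by
  obtain ⟨k, rfl⟩ := Nat.exists_eq_add_of_le h
  rw [List.range_add, List.filter_append, List.filter_eq_self.2, List.filter_eq_nil_iff.2,
    List.append_nil]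
  · intro x hx
    rw [List.mem_map] at hx
    obtain ⟨y, _, rfl⟩ := hx
    simp
  · intro x hx
    simpa using hx

theorem PT.rangeN {b : α → ℕ} (hb : PT b) (hbb : PBd b) : PT fun a => List.range (b a) := by
  obtain ⟨l, hl, hl'⟩ := PT.clock hbb
  have h1 : PT fun a => (List.range (l a).length).filter fun x => decide (x < b a) :=
    PT.filter (f := fun a x => decide (x < b a))
      (PT.decide_lt (f := fun p : α × ℕ => p.2) (g := fun p => b p.1) (by fun_prop)
        (hb.comp PT.fst')) (PT.rangeLength hl)
  exact h1.congr fun a => p0_filter_range _ _ (hl' a)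

lemma PT.takeOne {l : α → List β} (hl : PT l) : PT fun a => (l a).take 1 := by
  have h := PT.listCases (l := l) (f := fun _ => ([] : List β)) (g := fun _ b _ => [b]) hl
    (by fun_prop) (by fun_prop)
  refine h.congr fun a => ?_
  cases l a with
  | nil => rfl
  | cons b t => rfl

/-- the pair `(a, b)` with `b` from a list: a bounded number stays bounded -/
lemma PBd.fst {b : α → ℕ} (hb : PBd b) : PBd fun p : α × β => b p.1 :=
  PBd.comp hb (f := fun p : α × β => p.1) (PT.bdd PT.fst')

lemma PBd.snd {b : β → ℕ} (hb : PBd b) : PBd fun p : α × β => b p.2 :=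
  PBd.comp hb (f := fun p : α × β => p.2) (PT.bdd PT.snd')

/-- the size of a list of lists with bounded total length and bounded entries -/
lemma sz_lists_le {L : List (List β)} {N B : ℕ} (h1 : L.length ≤ N) (h2 : L.flatten.length ≤ N)
    (h3 : ∀ v ∈ L.flatten, sz v ≤ B) : sz L ≤ N * (B + 4) + 1 := by
  have key : ∀ L : List (List β), (∀ v ∈ L.flatten, sz v ≤ B) →
      sz L ≤ 2 * L.length + L.flatten.length * (B + 1) + 1 := by
    intro L
    induction L with
    | nil => intro _; simp
    | cons l L ih =>
      intro h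
      have h4 : sz l ≤ l.length * (B + 1) + 1 := sz_list_le fun a ha => h a (by simp [ha])
      have h5 := ih fun v hv => h v (by
        rw [List.flatten_cons, List.mem_append]; exact Or.inr hv)
      rw [sz_cons, List.length_cons, List.flatten_cons, List.length_append]
      nlinarith
  have h4 := key L h3
  have h5 : L.flatten.length * (B + 1) ≤ N * (B + 1) := Nat.mul_le_mul_right _ h2
  nlinarith

end Pool.Agent.H24S
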