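import Pool.Agent.Lib.H24S.P0

/-!
# H24S chunk P1: counts and tests in polynomial time

All by `PT.filter`, `PT.mem`, `PT.length`, `PT.any`, `PT.all`, `fun_prop`. Pattern for a filter:
`PT.filter (f := fun a x => decide (x.1 ∈ A a) && ..) ?_ hE` with the side goal
`PT fun p : γ × (ℕ × ℕ) => ..` proved by `PT.and (PT.mem ..) ..`, compositions with `Prod.fst` by `PT.comp` / `hA.comp`.
-/

set_option autoImplicit false

namespace Pool.Agent.H24S

open Pool.Agent.PolyTime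

variable {γ : Type} [Enc γ] {E : γ → AS} {A B P : γ → VS} {K : γ → ℕ} {y : γ → ℕ}

lemma p1_mem {δ : Type} [Enc δ] {f : δ → ℕ} {l : δ → VS} (hf : PT f) (hl : PT l) :
    PT fun a => decide (f a ∈ l a) := PT.mem hf hl

@[fun_prop] lemma PT.eL (hE : PT E) (hA : PT A) (hB : PT B) : PT fun a => eL (E a) (A a) (B a) := by
  refine PT.length (PT.filter (f := fun a (x : ℕ × ℕ) => decide (x.1 ∈ A a) && decide (x.2 ∈ B a))
    (PT.and ?_ ?_) hE)
  · exact p1_mem (f := fun p : γ × (ℕ × ℕ) => p.2.1) (by fun_prop) (hA.comp PT.fst')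
  · exact p1_mem (f := fun p : γ × (ℕ × ℕ) => p.2.2) (by fun_prop) (hB.comp PT.fst')

@[fun_prop] lemma PT.wL (hE : PT E) (hA : PT A) : PT fun a => wL (E a) (A a) := by
  refine PT.length (PT.filter (f := fun a (x : ℕ × ℕ) => decide (x.1 ∈ A a)) ?_ hE)
  exact p1_mem (f := fun p : γ × (ℕ × ℕ) => p.2.1) (by fun_prop) (hA.comp PT.fst')

@[fun_prop] lemma PT.bL (hE : PT E) (hA : PT A) : PT fun a => bL (E a) (A a) := by
  refine PT.length (PT.filter (f := fun a (x : ℕ × ℕ) => decide (x.1 ∈ A a) && !decide (x.2 ∈ A a))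
    (PT.and ?_ (PT.not ?_)) hE)
  · exact p1_mem (f := fun p : γ × (ℕ × ℕ) => p.2.1) (by fun_prop) (hA.comp PT.fst')
  · exact p1_mem (f := fun p : γ × (ℕ × ℕ) => p.2.2) (by fun_prop) (hA.comp PT.fst')

@[fun_prop] lemma PT.nL (hK : PT K) (hE : PT E) (hA : PT A) : PT fun a => nL (K a) (E a) (A a) := by
  have h := PT.wL hE hA
  unfold H24S.nL
  exact PT.mul (PT.const 16) (PT.add (PT.mul (PT.mul hK hK) (PT.length hA)) h)

@[fun_prop] lemma PT.vio (hK : PT K) (hE : PT E) (hP : PT P) (hA : PT A) :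
    PT fun a => vio (K a) (E a) (P a) (A a) := by
  unfold H24S.vio
  exact PT.and (PT.and (PT.not (PT.isEmpty hA))
    (PT.decide_le (PT.mul (PT.const 2) (PT.nL hK hE hA)) (PT.nL hK hE hP)))
    (PT.decide_lt (PT.mul hK (PT.bL hE hA)) (PT.nL hK hE hA))

@[fun_prop] lemma PT.dif (hP : PT P) (hA : PT A) : PT fun a => dif (P a) (A a) :=
  PT.filter (f := fun a (v : ℕ) => !decide (v ∈ A a))
    (PT.not (p1_mem (f := fun p : γ × ℕ => p.2) (by fun_prop) (hA.comp PT.fst'))) hP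

@[fun_prop] lemma PT.itr (hP : PT P) (hA : PT A) : PT fun a => itr (P a) (A a) :=
  PT.filter (f := fun a (v : ℕ) => decide (v ∈ A a))
    (p1_mem (f := fun p : γ × ℕ => p.2) (by fun_prop) (hA.comp PT.fst')) hP

@[fun_prop] lemma PT.adjS (hE : PT E) (hA : PT A) (hy : PT y) :
    PT fun a => adjS (E a) (A a) (y a) := by
  refine PT.any (f := fun a (f : ℕ) => decide ((f, y a) ∈ E a)) ?_ hA
  exact (PT.mem (f := fun p : γ × ℕ => (p.2, y p.1)) (PT.pair (by fun_prop) (hy.comp PT.fst'))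
    (hE.comp PT.fst')).congr fun a => decide_eq_decide.2 Iff.rfl

@[fun_prop] lemma PT.inside (hE : PT E) (hP : PT P) : PT fun a => inside (E a) (P a) := by
  refine PT.filter (f := fun a (x : ℕ × ℕ) => decide (x.1 ∈ P a) && decide (x.2 ∈ P a))
    (PT.and ?_ ?_) hE
  · exact p1_mem (f := fun p : γ × (ℕ × ℕ) => p.2.1) (by fun_prop) (hP.comp PT.fst')
  · exact p1_mem (f := fun p : γ × (ℕ × ℕ) => p.2.2) (by fun_prop) (hP.comp PT.fst')

@[fun_prop] lemma PT.hook (hE : PT E) (hA : PT A) (hy : PT y) :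
    PT fun a => hook (E a) (A a) (y a) := by
  refine PT.takeOne (PT.filter (f := fun a (x : ℕ × ℕ) => decide (x.1 ∈ A a) && decide (x.2 = y a))
    (PT.and ?_ ?_) hE)
  · exact p1_mem (f := fun p : γ × (ℕ × ℕ) => p.2.1) (by fun_prop) (hA.comp PT.fst')
  · exact PT.decide_eq (f := fun p : γ × (ℕ × ℕ) => p.2.2) (g := fun p => y p.1) (by fun_prop)
      (hy.comp PT.fst')

/-- sizes -/
lemma sz_dif_le (P A : VS) : sz (dif P A) ≤ sz P :=
  sz_sublist_le List.filter_sublist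

lemma sz_itr_le (P A : VS) : sz (itr P A) ≤ sz P :=
  sz_sublist_le List.filter_sublist

end Pool.Agent.H24S
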