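import Pool.Agent.Lib.H24S.P1
import Pool.Agent.Lib.H24S.K1

/-!
# H24S chunk P2: Kruskal in polynomial time

`PT.kstep`: `PT.ite`, `PT.filter`, `PT.flatten`, `PT.cons`. `PT.kruskal`: `PT.foldl` with the bound
`sz` of the state after a prefix `E1` of `E` from `(L, [])`: first component `≤ sz L` (merging: the two lists of size
`sz A + 1 + sz B + 1` are replaced by one of size `sz A + sz B - 1 + 1`; `sz` of the list of lists is a sum over the
members, invariant under permutation), second component `≤ sz E1 ≤ sz E`.
-/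

set_option autoImplicit false

namespace Pool.Agent.H24S

open Pool.Agent.PolyTime

variable {γ : Type} [Enc γ] {E : γ → AS} {A : γ → VS} {L : γ → List VS}

lemma p2_meets {δ : Type} [Enc δ] {x : δ → ℕ × ℕ} {Q : δ → VS} (hx : PT x) (hQ : PT Q) :
    PT fun a => meets (x a) (Q a) :=
  PT.or (PT.mem (f := fun a => (x a).1) (PT.fst hx) hQ)
    (PT.mem (f := fun a => (x a).2) (PT.snd hx) hQ)

lemma PT.kstep {s : γ → List VS × AS} {x : γ → ℕ × ℕ} (hs : PT s) (hx : PT x) :
    PT fun a => kstep (s a) (x a) := by
  have h1 : PT fun a => (s a).1.filter (meets (x a)) :=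
    PT.filter (f := fun a Q => meets (x a) Q) (p2_meets (hx.comp PT.fst') (by fun_prop)) (PT.fst hs)
  have h2 : PT fun a => (s a).1.filter (fun Q => !meets (x a) Q) :=
    PT.filter (f := fun a Q => !meets (x a) Q) (PT.not (p2_meets (hx.comp PT.fst') (by fun_prop)))
      (PT.fst hs)
  refine PT.ite (p := fun a => ((s a).1.filter (meets (x a))).length = 2) ?_ ?_ hs
  · exact PT.decide_eq (f := fun a => ((s a).1.filter (meets (x a))).length) (g := fun _ => 2)
      (PT.length h1) (PT.const 2)
  · exact PT.pair (PT.cons (PT.flatten h1) h2) (PT.cons hx (PT.snd hs))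

lemma p2_flatten {β : Type} [Enc β] (F : List (List β)) : sz F.flatten + 2 * F.length = sz F := by
  induction F with
  | nil => simp
  | cons l F ih =>
    have := sz_append l F.flatten
    rw [List.flatten_cons, List.length_cons, sz_cons]
    omega

lemma p2_filter {β : Type} [Enc β] (p : β → Bool) (l : List β) :
    sz (l.filter p) + sz (l.filter fun x => !p x) = sz l + 1 := by
  induction l with
  | nil => simp
  | cons a l ih =>
    rw [sz_cons]
    cases h : p a with
    | true =>
      rw [List.filter_cons_of_pos (by simpa using h), List.filter_cons_of_neg (by simp [h]), sz_cons]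
      omega
    | false =>
      rw [List.filter_cons_of_neg (by simp [h]), List.filter_cons_of_pos (by simp [h]), sz_cons]
      omega

lemma p2_kstep (s : List VS × AS) (x : ℕ × ℕ) :
    sz (kstep s x).1 ≤ sz s.1 ∧ sz (kstep s x).2 ≤ sz s.2 + (sz x + 1) := by
  unfold kstep
  split_ifs with h
  · constructor
    · have h1 := p2_flatten (s.1.filter (meets x))
      have h2 := p2_filter (meets x) s.1
      simp only [sz_cons]
      omega
    · simp only [sz_cons]
      omega
  · exact ⟨le_refl _, by omega⟩

lemma p2_fold (E1 : AS) : ∀ s : List VS × AS,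
    sz (E1.foldl kstep s).1 ≤ sz s.1 ∧ sz (E1.foldl kstep s).2 ≤ sz s.2 + sz E1 := by
  induction E1 with
  | nil => intro s; exact ⟨le_refl _, by simp⟩
  | cons x E1 ih =>
    intro s
    have h1 := p2_kstep s x
    have h2 := ih (kstep s x)
    rw [List.foldl_cons, sz_cons]
    omega

@[fun_prop] theorem PT.kruskal (hE : PT E) (hL : PT L) : PT fun a => kruskal (E a) (L a) := by
  refine PT.foldl (g := fun _ s x => H24S.kstep s x) (s := fun a => (L a, [])) ?_ (by fun_prop) hE
    (B := fun a => sz (L a) + (1 + sz (E a)) + 1)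
    ((hL.bdd.add ((PBd.const 1).add hE.bdd)).add (PBd.const 1)) ?_
  · exact PT.kstep (s := fun p : γ × (List VS × AS) × (ℕ × ℕ) => p.2.1) (x := fun p => p.2.2)
      (by fun_prop) (by fun_prop)
  · intro a l1 l2 h
    have h1 := p2_fold l1 (L a, [])
    have h2 : sz l1 ≤ sz (E a) := sz_sublist_le (by rw [h]; exact List.sublist_append_left l1 l2)
    rw [sz_prod]
    simp only [sz_nil] at h1
    change sz (l1.foldl H24S.kstep (L a, [])).1 + sz (l1.foldl H24S.kstep (L a, [])).2 + 1 ≤ _
    omega

@[fun_prop] lemma PT.sing (hA : PT A) : PT fun a => sing (A a) :=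
  PT.map (f := fun _ v => [v]) (by fun_prop) hA

@[fun_prop] lemma PT.comps (hE : PT E) (hA : PT A) : PT fun a => comps (E a) (A a) :=
  PT.fst (PT.kruskal hE (PT.sing hA))

@[fun_prop] lemma PT.spt (hE : PT E) (hA : PT A) : PT fun a => spt (E a) (A a) :=
  PT.snd (PT.kruskal hE (PT.sing hA))

@[fun_prop] lemma PT.joinT (hE : PT E) (hL : PT L) : PT fun a => joinT (E a) (L a) :=
  PT.append (PT.snd (PT.kruskal hE hL))
    (PT.flatMap (f := fun a Q => H24S.spt (E a) Q)
      (PT.spt (E := fun p : γ × VS => E p.1) (A := fun p => p.2) (hE.comp PT.fst') (by fun_prop)) hL)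

end Pool.Agent.H24S
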