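import Pool.Agent.Lib.H24S.P1

/-!
# H24S chunk P3: growth in polynomial time

* `conq`: `PT.foldl`, the state after a prefix `l1` of `l` has size `≤ sz T + sz l1`.
* `growStep`: `PT.ite`, `PT.find?`, `PT.optionCases`.
* `grow`: `PT.iterate_length` needs the step as a function of the state only; carry the parameters in the state,
  or use `PT.iterNat` with `b a = (U a).length`. Size after `i` steps: `sz T_i ≤ sz [v] + i * sz U` (`conq`, `fresh` is a
  sublist of `U`), `sz F_i ≤ 1 + i * (sz T_i + 1)` (the new element of `F` is an element of `T`). For all inputs.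
* `growAll`: after `i` steps: the rest `U'` is a sublist of `U`; the items are at most `i`, each of size at most the
  bound of `grow` for `(K, k5, E, U', v)` (`PT.bdd`), the blob similarly.
-/

set_option autoImplicit false

namespace Pool.Agent.H24S

open Pool.Agent.PolyTime

variable {γ : Type} [Enc γ] {E : γ → AS} {U T : γ → VS} {K k5 x : γ → ℕ}

@[fun_prop] lemma PT.fresh (hE : PT E) (hU : PT U) (hT : PT T) (hx : PT x) :
    PT fun a => fresh (E a) (U a) (T a) (x a) := by
  refine PT.filter (f := fun a (u : ℕ) => decide ((x a, u) ∈ E a) && !decide (u ∈ T a))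
    (PT.and ?_ (PT.not ?_)) hU
  · exact (PT.mem (f := fun p : γ × ℕ => (x p.1, p.2)) (PT.pair (hx.comp PT.fst') (by fun_prop))
      (hE.comp PT.fst')).congr fun a => decide_eq_decide.2 Iff.rfl
  · exact p1_mem (f := fun p : γ × ℕ => p.2) (by fun_prop) (hT.comp PT.fst')

lemma sz_conq_le (E : AS) (k5 : ℕ) (T l : VS) : sz (conq E k5 T l) ≤ sz T + sz l := by
  unfold conq
  induction l generalizing T with
  | nil => simp
  | cons u l ih =>
    rw [List.foldl_cons, sz_cons]
    refine (ih _).trans ?_
    split_ifs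
    · omega
    · rw [sz_cons]; omega

lemma PT.conq {l : γ → VS} (hE : PT E) (hk : PT k5) (hT : PT T) (hl : PT l) :
    PT fun a => conq (E a) (k5 a) (T a) (l a) := by
  refine PT.foldl (g := fun a (T : VS) (u : ℕ) => if k5 a ≤ H24S.wL (E a) T then T else u :: T)
    (s := T) ?_ hT hl (B := fun a => sz (T a) + sz (l a)) (hT.bdd.add hl.bdd) ?_
  · refine PT.ite (p := fun p : γ × VS × ℕ => k5 p.1 ≤ H24S.wL (E p.1) p.2.1) ?_
      (by fun_prop) (by fun_prop)
    exact PT.decide_le (f := fun p : γ × VS × ℕ => k5 p.1) (g := fun p => H24S.wL (E p.1) p.2.1)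
      (hk.comp PT.fst') (PT.wL (hE.comp PT.fst') (by fun_prop))
  · intro a l1 l2 h
    have h1 := sz_conq_le (E a) (k5 a) (T a) l1
    have h2 : sz l1 ≤ sz (l a) := sz_sublist_le (by rw [h]; exact List.sublist_append_left l1 l2)
    unfold H24S.conq at h1
    exact h1.trans (by omega)

lemma PT.growStep {s : γ → VS × VS} (hK : PT K) (hk : PT k5) (hE : PT E) (hU : PT U) (hs : PT s) :
    PT fun a => growStep (K a) (k5 a) (E a) (U a) (s a) := by
  have hfr : PT fun p : γ × ℕ => H24S.fresh (E p.1) (U p.1) (s p.1).2 p.2 :=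
    PT.fresh (hE.comp PT.fst') (hU.comp PT.fst') (PT.snd (hs.comp PT.fst')) (by fun_prop)
  have h1 : PT fun a => (H24S.dif (s a).2 (s a).1).find?
      (fun x => decide (H24S.wL (E a) [x] ≤ K a * (H24S.fresh (E a) (U a) (s a).2 x).length)) := by
    refine PT.find? (f := fun a x =>
      decide (H24S.wL (E a) [x] ≤ K a * (H24S.fresh (E a) (U a) (s a).2 x).length)) ?_
      (PT.dif (PT.snd hs) (PT.fst hs))
    exact PT.decide_le (f := fun p : γ × ℕ => H24S.wL (E p.1) [p.2])
      (g := fun p => K p.1 * (H24S.fresh (E p.1) (U p.1) (s p.1).2 p.2).length)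
      (PT.wL (hE.comp PT.fst') (by fun_prop)) (PT.mul (hK.comp PT.fst') (PT.length hfr))
  have h2 := PT.optionCases (o := fun a => (H24S.dif (s a).2 (s a).1).find?
      (fun x => decide (H24S.wL (E a) [x] ≤ K a * (H24S.fresh (E a) (U a) (s a).2 x).length)))
    (f := s) (g := fun a x => (x :: (s a).1,
      H24S.conq (E a) (k5 a) (s a).2 (H24S.fresh (E a) (U a) (s a).2 x))) h1 hs
    (PT.pair (PT.cons (by fun_prop) (PT.fst (hs.comp PT.fst')))
      (PT.conq (hE.comp PT.fst') (hk.comp PT.fst') (PT.snd (hs.comp PT.fst')) hfr))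
  have h3 := PT.ite (p := fun a => k5 a ≤ H24S.wL (E a) (s a).2)
    (PT.decide_le hk (PT.wL hE (PT.snd hs))) hs h2
  refine h3.congr fun a => ?_
  unfold H24S.growStep
  split_ifs
  · rfl
  · cases (H24S.dif (s a).2 (s a).1).find?
      (fun x => decide (H24S.wL (E a) [x] ≤ K a * (H24S.fresh (E a) (U a) (s a).2 x).length)) with
    | none => rfl
    | some x => rfl

lemma p3_step (K k5 : ℕ) (E : AS) (U : VS) (s : VS × VS) :
    sz (growStep K k5 E U s).2 ≤ sz s.2 + sz U ∧
      sz (growStep K k5 E U s).1 ≤ sz s.1 + sz s.2 + 1 := by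
  unfold growStep
  split_ifs
  · omega
  · split
    · omega
    · rename_i x hx
      have h1 := List.mem_of_find?_eq_some hx
      have h2 : x ∈ s.2 := List.mem_of_mem_filter h1
      have h3 := sz_le_of_mem h2
      have h4 := sz_conq_le E k5 s.2 (fresh E U s.2 x)
      have h5 : sz (fresh E U s.2 x) ≤ sz U := sz_sublist_le List.filter_sublist
      simp only [sz_cons]
      omega

lemma p3_iter (K k5 : ℕ) (E : AS) (U : VS) (v i : ℕ) :
    sz ((growStep K k5 E U)^[i] ([], [v])).2 ≤ sz [v] + i * sz U ∧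
      sz ((growStep K k5 E U)^[i] ([], [v])).1 ≤ 1 + i * (sz [v] + i * sz U + 1) := by
  induction i with
  | zero => simp
  | succ i ih =>
    rw [Function.iterate_succ_apply']
    have h := p3_step K k5 E U ((growStep K k5 E U)^[i] ([], [v]))
    obtain ⟨h1, h2⟩ := h
    obtain ⟨h3, h4⟩ := ih
    constructor
    · calc _ ≤ _ := h1
        _ ≤ sz [v] + i * sz U + sz U := by omega
        _ = sz [v] + (i + 1) * sz U := by ring
    · calc _ ≤ _ := h2
        _ ≤ 1 + i * (sz [v] + i * sz U + 1) + (sz [v] + i * sz U) + 1 := by omega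
        _ ≤ 1 + (i + 1) * (sz [v] + (i + 1) * sz U + 1) := by nlinarith

@[fun_prop] theorem PT.grow (hK : PT K) (hk : PT k5) (hE : PT E) (hU : PT U) (hx : PT x) :
    PT fun a => grow (K a) (k5 a) (E a) (U a) (x a) := by
  have hv : PT fun a => [x a] := by fun_prop
  have hn : PBd fun a => (U a).length := PBd.length hU
  refine PT.iterNat (f := fun a s => H24S.growStep (K a) (k5 a) (E a) (U a) s)
    (s := fun a => ([], [x a])) (b := fun a => (U a).length) ?_ (by fun_prop) (PT.length hU) hn
    (B := fun a => (1 + (U a).length * (sz [x a] + (U a).length * sz (U a) + 1)) +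
      (sz [x a] + (U a).length * sz (U a)) + 1) ?_ ?_
  · exact PT.growStep (K := fun p : γ × (VS × VS) => K p.1) (k5 := fun p => k5 p.1)
      (E := fun p => E p.1) (U := fun p => U p.1) (s := fun p => p.2) (hK.comp PT.fst')
      (hk.comp PT.fst') (hE.comp (f := Prod.fst) PT.fst') (hU.comp (f := Prod.fst) PT.fst')
      (by fun_prop)
  · exact ((((PBd.const 1).add (hn.mul ((hv.bdd.add (hn.mul hU.bdd)).add (PBd.const 1)))).add
      (hv.bdd.add (hn.mul hU.bdd))).add (PBd.const 1))
  · intro a i hi
    obtain ⟨h1, h2⟩ := p3_iter (K a) (k5 a) (E a) (U a) (x a) i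
    have h3 : i * sz (U a) ≤ (U a).length * sz (U a) := Nat.mul_le_mul_right _ hi
    have h4 : i * (sz [x a] + i * sz (U a) + 1) ≤
        (U a).length * (sz [x a] + (U a).length * sz (U a) + 1) :=
      Nat.mul_le_mul hi (by omega)
    rw [sz_prod]
    change sz ((H24S.growStep (K a) (k5 a) (E a) (U a))^[i] ([], [x a])).1 +
      sz ((H24S.growStep (K a) (k5 a) (E a) (U a))^[i] ([], [x a])).2 + 1 ≤ _
    omega

end Pool.Agent.H24S
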