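import Pool.Agent.Lib.H24S.P3

/-!
# H24S chunk P4: the partition into items in polynomial time

See the header of P3: `itemStep` by `PT.optionCases`, `PT.listCases`, `PT.ite`; `growAll` by `PT.iterNat` with
`b a = (U a).length`; the bound: the rest is a sublist of `U`, at most `i` items, each of size
`≤ c (sz of (K, k5, E, U', v))^k` (`PT.bdd (PT.grow ..)` for the parameter tuple), one blob of the same size.
-/

set_option autoImplicit false

namespace Pool.Agent.H24S

open Pool.Agent.PolyTime

variable {γ : Type} [Enc γ] {E : γ → AS} {U T : γ → VS} {K k5 x : γ → ℕ}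

lemma PT.itemStep {s : γ → VS × List VS × Option (VS × VS)} (hK : PT K) (hk : PT k5) (hE : PT E)
    (hs : PT s) : PT fun a => itemStep (K a) (k5 a) (E a) (s a) := by
  have hg : PT fun p : γ × ℕ × VS => H24S.grow (K p.1) (k5 p.1) (E p.1) (s p.1).1 p.2.1 :=
    PT.grow (hK.comp PT.fst') (hk.comp PT.fst') (hE.comp PT.fst')
      ((PT.fst hs).comp PT.fst') (PT.fst PT.snd')
  have hs' : PT fun p : γ × ℕ × VS => s p.1 := hs.comp PT.fst'
  have h1 := PT.listCases (l := fun a => (s a).1) (f := s)
      (g := fun a v (_ : VS) => if k5 a ≤ H24S.wL (E a) (H24S.grow (K a) (k5 a) (E a) (s a).1 v).2 then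
          ((s a).1, (s a).2.1, some (H24S.grow (K a) (k5 a) (E a) (s a).1 v))
        else (H24S.dif (s a).1 (H24S.grow (K a) (k5 a) (E a) (s a).1 v).2,
          (H24S.grow (K a) (k5 a) (E a) (s a).1 v).2 :: (s a).2.1, none)) (PT.fst hs) hs (by
    refine PT.ite (p := fun p : γ × ℕ × VS =>
      k5 p.1 ≤ H24S.wL (E p.1) (H24S.grow (K p.1) (k5 p.1) (E p.1) (s p.1).1 p.2.1).2) ?_ ?_ ?_
    · exact PT.decide_le (hk.comp PT.fst') (PT.wL (hE.comp PT.fst') (PT.snd hg))
    · exact PT.pair (PT.fst hs') (PT.pair (PT.fst (PT.snd hs')) (PT.optSome hg))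
    · exact PT.pair (PT.dif (PT.fst hs') (PT.snd hg))
        (PT.pair (PT.cons (PT.snd hg) (PT.fst (PT.snd hs'))) (PT.const none)))
  refine (PT.optionCases (o := fun a => (s a).2.2) (g := fun a (_ : VS × VS) => s a)
    (PT.snd (PT.snd hs)) h1 (hs.comp PT.fst')).congr fun a => ?_
  generalize s a = t
  obtain ⟨U', its, o⟩ := t
  cases o <;> cases U' <;> rfl

/-- one step for the invariant -/
structure P4Inv (U : VS) (i G : ℕ) (x : VS × List VS × Option (VS × VS)) : Prop where
  sub : x.1.Sublist U
  len : x.2.1.length ≤ i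
  its : ∀ Q ∈ x.2.1, sz Q ≤ G
  blob : ∀ b, x.2.2 = some b → sz b ≤ G

lemma p4_step {K k5 : ℕ} {E : AS} {U : VS} {i G : ℕ}
    (hG : ∀ U' : VS, U'.Sublist U → ∀ v ∈ U', sz (grow K k5 E U' v) ≤ G)
    {x : VS × List VS × Option (VS × VS)} (h : P4Inv U i G x) :
    P4Inv U (i + 1) G (itemStep K k5 E x) := by
  obtain ⟨U', its, o⟩ := x
  cases o with
  | some b =>
    have : itemStep K k5 E (U', its, some b) = (U', its, some b) := rfl
    rw [this]
    exact ⟨h.sub, h.len.trans (Nat.le_succ _), h.its, h.blob⟩
  | none =>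
    cases U' with
    | nil =>
      have : itemStep K k5 E (([] : VS), its, none) = ([], its, none) := rfl
      rw [this]
      exact ⟨h.sub, h.len.trans (Nat.le_succ _), h.its, h.blob⟩
    | cons v l =>
      have hs : (v :: l).Sublist U := h.sub
      have hg := hG (v :: l) hs v List.mem_cons_self
      have hg1 : sz (grow K k5 E (v :: l) v).2 ≤ G := by
        rw [sz_prod] at hg
        omega
      have hstep : itemStep K k5 E (v :: l, its, none) =
        if k5 ≤ wL E (grow K k5 E (v :: l) v).2 then (v :: l, its, some (grow K k5 E (v :: l) v))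
        else (dif (v :: l) (grow K k5 E (v :: l) v).2, (grow K k5 E (v :: l) v).2 :: its, none) :=
        rfl
      rw [hstep]
      split_ifs
      · refine ⟨hs, h.len.trans (Nat.le_succ _), h.its, ?_⟩
        rintro b hb
        obtain rfl := Option.some.inj hb
        exact hg
      · refine ⟨List.filter_sublist.trans hs, ?_, ?_, ?_⟩
        · rw [List.length_cons]
          exact Nat.succ_le_succ h.len
        · intro Q hQ
          rcases List.mem_cons.1 hQ with rfl | hQ
          · exact hg1
          · exact h.its Q hQ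
        · intro b hb
          exact absurd hb (by simp)

@[fun_prop] theorem PT.growAll (hK : PT K) (hk : PT k5) (hE : PT E) (hU : PT U) :
    PT fun a => growAll (K a) (k5 a) (E a) (U a) := by
  have hgr : PT fun p : γ × VS × ℕ => H24S.grow (K p.1) (k5 p.1) (E p.1) p.2.1 p.2.2 :=
    PT.grow (hK.comp PT.fst') (hk.comp PT.fst') (hE.comp PT.fst') (PT.fst PT.snd')
      (PT.snd PT.snd')
  obtain ⟨c, k, hc⟩ := hgr.bdd
  let G : γ → ℕ := fun a => c * (sz a + 2 * sz (U a) + 2) ^ k
  have hGb : PBd G := (PBd.const c).mul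
    (((PBd.sz.add ((PBd.const 2).mul hU.bdd)).add (PBd.const 2)).pow k)
  have hG : ∀ a, ∀ U' : VS, U'.Sublist (U a) → ∀ v ∈ U',
      sz (H24S.grow (K a) (k5 a) (E a) U' v) ≤ G a := by
    intro a U' hU' v hv
    refine (hc (a, U', v)).trans ?_
    rw [sz_pair, sz_pair]
    have h1 : sz U' ≤ sz (U a) := sz_sublist_le hU'
    have h2 : sz v ≤ sz U' := sz_le_of_mem hv
    have h3 : sz a + (sz U' + sz v + 1) + 1 ≤ sz a + 2 * sz (U a) + 2 := by omega
    exact Nat.mul_le_mul_left _ (Nat.pow_le_pow_left h3 k)
  have hinv : ∀ a i, P4Inv (U a) i (G a)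
      ((fun y => H24S.itemStep (K a) (k5 a) (E a) y)^[i] (U a, [], none)) := by
    intro a i
    induction i with
    | zero => exact ⟨List.Sublist.refl _, by simp, by simp, by simp⟩
    | succ i ih =>
      rw [Function.iterate_succ_apply']
      exact p4_step (hG a) ih
  have hstep : PT fun p : γ × (VS × List VS × Option (VS × VS)) =>
      H24S.itemStep (K p.1) (k5 p.1) (E p.1) p.2 :=
    PT.itemStep (hK.comp PT.fst') (hk.comp PT.fst') (hE.comp PT.fst') PT.snd'
  have h0 : PT fun a : γ => (U a, (([] : List VS), (none : Option (VS × VS)))) :=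
    PT.pair hU (PT.const _)
  have hlen : PBd fun a => (U a).length := PBd.length hU
  exact PT.iterNat (f := fun a y => H24S.itemStep (K a) (k5 a) (E a) y)
    (s := fun a => (U a, [], none)) (b := fun a => (U a).length) hstep h0 (PT.length hU) hlen
    (B := fun a => sz (U a) + ((U a).length * (G a + 1) + 1) + (G a + 3) + 2)
    ((((hU.bdd).add ((hlen.mul (hGb.add (PBd.const 1))).add (PBd.const 1))).add
      (hGb.add (PBd.const 3))).add (PBd.const 2)) (by
      intro a i hi
      have h := hinv a i
      rw [sz_prod, sz_prod]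
      have h1 := sz_sublist_le h.sub
      have h2 : sz ((fun y => H24S.itemStep (K a) (k5 a) (E a) y)^[i] (U a, [], none)).2.1 ≤
          (U a).length * (G a + 1) + 1 := by
        refine (sz_list_le h.its).trans ?_
        gcongr
        exact h.len.trans hi
      have h3 : sz ((fun y => H24S.itemStep (K a) (k5 a) (E a) y)^[i] (U a, [], none)).2.2 ≤
          G a + 3 := by
        cases hb : ((fun y => H24S.itemStep (K a) (k5 a) (E a) y)^[i] (U a, [], none)).2.2 with
        | none => rw [sz_none]; omega
        | some b => rw [sz_some]; have := h.blob b hb; omega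
      omega)

end Pool.Agent.H24S
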