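import Pool.Agent.Lib.H24S.P0

/-!
# H24S chunk P5: the auction in polynomial time

`amin`: `PT.foldl`; the state is `none` or `some z` with `z` in the list: size `≤ sz l + 2`.
`bid`: `PT.find?`, `PT.any`, `PT.decide_eq` (`EncInj`), `PT.map`, `PT.optionCases`.
`auction`: `PT.iterNat`. After `i` bids, for all inputs: the state has the length of `Os`, every entry `(b, p, o)` has `b ∈ Os`,
`p ≤ i`, `o = none` or `o = some a` with `a ∈ Ps`: size `≤ |Os| (sz Os + (4 i + 1) + (sz Ps + 2) + 3) + 1`, `i ≤ steps`.
-/

set_option autoImplicit false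

namespace Pool.Agent.H24S

open Pool.Agent.PolyTime

variable {γ α β : Type} [Enc γ] [Enc α] [Enc β] [DecidableEq α] [DecidableEq β] [EncInj α]
  [EncInj β]

omit [Enc β] [DecidableEq β] [EncInj β] in
lemma p5_amin (f : β → ℕ) (l : List β) : ∀ o : Option β,
    (∀ z, (l.foldl (fun o z => match o with
      | none => some z
      | some y => if f z < f y then some z else some y) o) = some z → z ∈ l ∨ o = some z) := by
  induction l with
  | nil => intro o z hz; exact Or.inr hz
  | cons b l ih =>
    intro o z hz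
    rw [List.foldl_cons] at hz
    rcases ih _ z hz with h | h
    · exact Or.inl (List.mem_cons_of_mem _ h)
    · cases o with
      | none =>
        simp only [Option.some.injEq] at h
        exact Or.inl (by rw [h]; exact List.mem_cons_self)
      | some y =>
        simp only at h
        split_ifs at h with h1
        · simp only [Option.some.injEq] at h
          exact Or.inl (by rw [h]; exact List.mem_cons_self)
        · exact Or.inr h

theorem PT.amin {f : γ → β → ℕ} {l : γ → List β} (hf : PT fun p : γ × β => f p.1 p.2)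
    (hl : PT l) : PT fun a => amin (f a) (l a) := by
  refine PT.foldl (g := fun a (o : Option β) (z : β) => match o with
      | none => some z
      | some y => if f a z < f a y then some z else some y) (s := fun _ => none) ?_ (PT.const _) hl
    (B := fun a => sz (l a) + 2) ((PBd.add hl.bdd) (PBd.const 2)) ?_
  · refine PT.optionCases (o := fun p : γ × Option β × β => p.2.1) (f := fun p => some p.2.2)
      (g := fun p y => if f p.1 p.2.2 < f p.1 y then some p.2.2 else some y) (by fun_prop)
      (by fun_prop) ?_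
    refine PT.ite (p := fun q : (γ × Option β × β) × β => f q.1.1 q.1.2.2 < f q.1.1 q.2) ?_
      (by fun_prop) (by fun_prop)
    exact PT.decide_lt (f := fun q : (γ × Option β × β) × β => f q.1.1 q.1.2.2)
      (g := fun q => f q.1.1 q.2)
      (hf.comp (f := fun q : (γ × Option β × β) × β => (q.1.1, q.1.2.2)) (by fun_prop))
      (hf.comp (f := fun q : (γ × Option β × β) × β => (q.1.1, q.2)) (by fun_prop))
  · intro a l1 l2 h12
    have h := p5_amin (f a) l1 none
    revert h
    cases h1 : l1.foldl (fun o z => match o with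
      | none => some z
      | some y => if f a z < f a y then some z else some y) none with
    | none => intro _; simp
    | some z =>
      intro h
      rcases h z rfl with h2 | h2
      · have h3 : z ∈ l a := by rw [h12]; exact List.mem_append_left _ h2
        have h4 := sz_le_of_mem h3
        rw [sz_some]
        omega
      · exact absurd h2 (by simp)

lemma p5_free {Ps : γ → List α} {S : γ → List (β × ℕ × Option α)} (hP : PT Ps) (hS : PT S) :
    PT fun a => (Ps a).find? (fun x => !((S a).any fun z => decide (z.2.2 = some x))) := by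
  refine PT.find? (f := fun a x => !((S a).any fun z => decide (z.2.2 = some x))) ?_ hP
  refine PT.not (PT.any (f := fun (p : γ × α) z => decide (z.2.2 = some p.2)) ?_ (hS.comp PT.fst'))
  exact PT.decide_eq (f := fun q : (γ × α) × (β × ℕ × Option α) => q.2.2.2)
    (g := fun q => some q.1.2) (by fun_prop) (by fun_prop)

theorem PT.bid {Ps : γ → List α} {cost : γ → α → β → ℕ} {S : γ → List (β × ℕ × Option α)}
    (hP : PT Ps) (hc : PT fun p : γ × α × β => cost p.1 p.2.1 p.2.2) (hS : PT S) :
    PT fun a => bid (Ps a) (cost a) (S a) := by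
  have h1 := p5_free hP hS
  have h2 : PT fun p : γ × α => H24S.amin (fun z : β × ℕ × Option α => z.2.1 + cost p.1 p.2 z.1) (S p.1) := by
    refine PT.amin (f := fun (p : γ × α) (z : β × ℕ × Option α) => z.2.1 + cost p.1 p.2 z.1) ?_
      (hS.comp PT.fst')
    refine PT.add (by fun_prop) ?_
    exact hc.comp (f := fun q : (γ × α) × (β × ℕ × Option α) => (q.1.1, q.1.2, q.2.1)) (by fun_prop)
  have h3 : PT fun p : (γ × α) × (β × ℕ × Option α) => (S p.1.1).map fun z =>
      if z.1 = p.2.1 then (z.1, z.2.1 + 1, some p.1.2) else z := by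
    refine PT.map (f := fun (p : (γ × α) × (β × ℕ × Option α)) (z : β × ℕ × Option α) =>
      if z.1 = p.2.1 then (z.1, z.2.1 + 1, some p.1.2) else z) ?_
      (hS.comp (f := fun p : (γ × α) × (β × ℕ × Option α) => p.1.1) (by fun_prop))
    refine PT.ite (p := fun q : ((γ × α) × (β × ℕ × Option α)) × (β × ℕ × Option α) =>
      q.2.1 = q.1.2.1) ?_ (by fun_prop) (by fun_prop)
    exact PT.decide_eq (f := fun q : ((γ × α) × (β × ℕ × Option α)) × (β × ℕ × Option α) => q.2.1)
      (g := fun q => q.1.2.1) (by fun_prop) (by fun_prop)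
  have h4 := PT.optionCases (o := fun p : γ × α =>
      H24S.amin (fun z : β × ℕ × Option α => z.2.1 + cost p.1 p.2 z.1) (S p.1))
    (f := fun p : γ × α => S p.1)
    (g := fun p y => (S p.1).map fun z => if z.1 = y.1 then (z.1, z.2.1 + 1, some p.2) else z)
    h2 (hS.comp PT.fst') h3
  have h4' : PT fun p : γ × α => (H24S.amin (fun z : β × ℕ × Option α => z.2.1 + cost p.1 p.2 z.1)
      (S p.1)).elim (S p.1)
      (fun y => (S p.1).map fun z => if z.1 = y.1 then (z.1, z.2.1 + 1, some p.2) else z) := by
    refine h4.congr fun p => ?_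
    cases H24S.amin (fun z : β × ℕ × Option α => z.2.1 + cost p.1 p.2 z.1) (S p.1) with
    | none => rfl
    | some y => rfl
  have h5 := PT.optionCases (o := fun a => (Ps a).find? (fun x => !((S a).any fun z =>
      decide (z.2.2 = some x)))) (f := S)
    (g := fun a x => (H24S.amin (fun z : β × ℕ × Option α => z.2.1 + cost a x z.1) (S a)).elim (S a)
      (fun y => (S a).map fun z => if z.1 = y.1 then (z.1, z.2.1 + 1, some x) else z))
    h1 hS h4'
  refine h5.congr fun a => ?_
  unfold H24S.bid
  cases (Ps a).find? (fun x => !((S a).any fun z => decide (z.2.2 = some x))) with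
  | none => rfl
  | some x =>
    simp only
    cases H24S.amin (fun z : β × ℕ × Option α => z.2.1 + cost a x z.1) (S a) with
    | none => rfl
    | some y => rfl

omit [Enc α] [Enc β] [EncInj α] [EncInj β] in
lemma p5_bid (Ps : List α) (Os : List β) (cost : α → β → ℕ) (S : List (β × ℕ × Option α)) (n i : ℕ)
    (h1 : S.length = n) (h2 : ∀ z ∈ S, z.1 ∈ Os ∧ z.2.1 ≤ i ∧ (z.2.2 = none ∨ ∃ x ∈ Ps, z.2.2 = some x)) :
    (bid Ps cost S).length = n ∧ ∀ z ∈ bid Ps cost S, z.1 ∈ Os ∧ z.2.1 ≤ i + 1 ∧
      (z.2.2 = none ∨ ∃ x ∈ Ps, z.2.2 = some x) := by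
  have h2' : ∀ z ∈ S, z.1 ∈ Os ∧ z.2.1 ≤ i + 1 ∧ (z.2.2 = none ∨ ∃ x ∈ Ps, z.2.2 = some x) :=
    fun z hz => ⟨(h2 z hz).1, (h2 z hz).2.1.trans (Nat.le_succ _), (h2 z hz).2.2⟩
  unfold bid
  split
  · exact ⟨h1, h2'⟩
  · rename_i a ha
    have haP := List.mem_of_find?_eq_some ha
    split
    · exact ⟨h1, h2'⟩
    · rename_i y _
      refine ⟨by rw [List.length_map, h1], ?_⟩
      intro z hz
      rw [List.mem_map] at hz
      obtain ⟨w, hw, rfl⟩ := hz
      split_ifs
      · exact ⟨(h2 w hw).1, Nat.succ_le_succ (h2 w hw).2.1, Or.inr ⟨a, haP, rfl⟩⟩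
      · exact h2' w hw

omit [Enc α] [Enc β] [EncInj α] [EncInj β] in
lemma p5_iter (Ps : List α) (Os : List β) (cost : α → β → ℕ) (i : ℕ) :
    ((bid Ps cost)^[i] (Os.map fun b => (b, 0, none))).length = Os.length ∧
    ∀ z ∈ (bid Ps cost)^[i] (Os.map fun b => (b, 0, none)), z.1 ∈ Os ∧ z.2.1 ≤ i ∧
      (z.2.2 = none ∨ ∃ x ∈ Ps, z.2.2 = some x) := by
  induction i with
  | zero =>
    refine ⟨by simp, ?_⟩
    intro z hz
    rw [Function.iterate_zero, id_eq, List.mem_map] at hz
    obtain ⟨b, hb, rfl⟩ := hz
    exact ⟨hb, le_refl _, Or.inl rfl⟩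
  | succ i ih =>
    rw [Function.iterate_succ_apply']
    exact p5_bid Ps Os cost _ _ i ih.1 ih.2

theorem PT.auction {Ps : γ → List α} {Os : γ → List β} {cost : γ → α → β → ℕ} {steps : γ → ℕ}
    (hP : PT Ps) (hO : PT Os) (hc : PT fun p : γ × α × β => cost p.1 p.2.1 p.2.2)
    (hs : PT steps) (hsb : PBd steps) :
    PT fun a => auction (Ps a) (Os a) (cost a) (steps a) := by
  refine PT.iterNat (f := fun a S => H24S.bid (Ps a) (cost a) S)
    (s := fun a => (Os a).map fun b => (b, 0, none)) (b := steps) ?_ ?_ hs hsb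
    (B := fun a => sz (Os a) * (sz (Os a) + (4 * steps a + 1) + (sz (Ps a) + 2) + 3) + 1) ?_ ?_
  · refine PT.bid (Ps := fun p : γ × List (β × ℕ × Option α) => Ps p.1)
      (cost := fun p => cost p.1) (S := fun p => p.2) (hP.comp PT.fst') ?_ (by fun_prop)
    exact hc.comp (f := fun q : (γ × List (β × ℕ × Option α)) × α × β => (q.1.1, q.2.1, q.2.2))
      (by fun_prop)
  · exact PT.map (f := fun _ b => (b, 0, none)) (by fun_prop) hO
  · exact (hO.bdd.mul (((hO.bdd.add (((PBd.const 4).mul hsb).add (PBd.const 1))).add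
      (hP.bdd.add (PBd.const 2))).add (PBd.const 3))).add (PBd.const 1)
  · intro a i hi
    obtain ⟨h1, h2⟩ := p5_iter (Ps a) (Os a) (cost a) i
    have h3 : ∀ z ∈ (H24S.bid (Ps a) (cost a))^[i] ((Os a).map fun b => (b, 0, none)),
        sz z ≤ sz (Os a) + (4 * steps a + 1) + (sz (Ps a) + 2) + 2 := by
      intro z hz
      obtain ⟨h4, h5, h6⟩ := h2 z hz
      have h7 := sz_le_of_mem h4
      have h8 : sz z.2.1 ≤ 4 * steps a + 1 := (sz_nat_le_self _).trans (by omega)
      have h9 : sz z.2.2 ≤ sz (Ps a) + 2 := by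
        rcases h6 with h6 | ⟨x, hx, h6⟩
        · rw [h6, sz_none]; omega
        · rw [h6, sz_some]
          have := sz_le_of_mem hx
          omega
      rw [sz_prod, sz_prod z.2]
      omega
    refine (sz_list_le h3).trans ?_
    rw [h1]
    have h10 := length_lt_sz (Os a)
    have h11 : (Os a).length * (sz (Os a) + (4 * steps a + 1) + (sz (Ps a) + 2) + 2 + 1) ≤
        sz (Os a) * (sz (Os a) + (4 * steps a + 1) + (sz (Ps a) + 2) + 3) :=
      Nat.mul_le_mul h10.le (by omega)
    omega

theorem PT.fwd {A : γ → List (β × ℕ × Option α)} {x : γ → α} (hA : PT A) (hx : PT x) :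
    PT fun a => fwd (A a) (x a) := by
  have h1 : PT fun a => (A a).find? fun z => decide (z.2.2 = some (x a)) := by
    refine PT.find? (f := fun a z => decide (z.2.2 = some (x a))) ?_ hA
    exact PT.decide_eq (f := fun q : γ × (β × ℕ × Option α) => q.2.2.2)
      (g := fun q => some (x q.1)) (by fun_prop) (PT.optSome (hx.comp PT.fst'))
  have h2 := PT.optionCases (o := fun a => (A a).find? fun z => decide (z.2.2 = some (x a)))
    (f := fun _ => (none : Option β)) (g := fun _ z => some z.1) h1 (by fun_prop) (by fun_prop)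
  refine h2.congr fun a => ?_
  unfold H24S.fwd
  cases (A a).find? fun z => decide (z.2.2 = some (x a)) with
  | none => rfl
  | some z => rfl

theorem PT.qv {cost : γ → α → β → ℕ} {A : γ → List (β × ℕ × Option α)} {x : γ → α}
    (hc : PT fun p : γ × α × β => cost p.1 p.2.1 p.2.2) (hA : PT A) (hx : PT x) :
    PT fun a => qv (cost a) (A a) (x a) := by
  have h1 : PT fun p : γ × (β × ℕ × Option α) => p.2.2.1 + cost p.1 (x p.1) p.2.1 := by
    refine PT.add (by fun_prop) ?_
    exact hc.comp (f := fun p : γ × (β × ℕ × Option α) => (p.1, x p.1, p.2.1))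
      (PT.pair (by fun_prop) (PT.pair (hx.comp PT.fst') (by fun_prop)))
  have h2 : PT fun a => H24S.amin (fun z : β × ℕ × Option α => z.2.1 + cost a (x a) z.1) (A a) :=
    PT.amin (f := fun a (z : β × ℕ × Option α) => z.2.1 + cost a (x a) z.1) h1 hA
  have h3 := PT.optionCases (o := fun a =>
      H24S.amin (fun z : β × ℕ × Option α => z.2.1 + cost a (x a) z.1) (A a))
    (f := fun _ => 0) (g := fun a z => z.2.1 + cost a (x a) z.1) h2 (by fun_prop) h1
  refine h3.congr fun a => ?_
  unfold H24S.qv
  cases H24S.amin (fun z : β × ℕ × Option α => z.2.1 + cost a (x a) z.1) (A a) with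
  | none => rfl
  | some z => rfl

theorem PT.prc {A : γ → List (β × ℕ × Option α)} {y : γ → β} (hA : PT A) (hy : PT y) :
    PT fun a => prc (A a) (y a) := by
  have h1 : PT fun a => (A a).find? fun z => decide (z.1 = y a) := by
    refine PT.find? (f := fun a z => decide (z.1 = y a)) ?_ hA
    exact PT.decide_eq (f := fun q : γ × (β × ℕ × Option α) => q.2.1)
      (g := fun q => y q.1) (by fun_prop) (hy.comp PT.fst')
  have h2 := PT.optionCases (o := fun a => (A a).find? fun z => decide (z.1 = y a))
    (f := fun _ => 0) (g := fun _ z => z.2.1) h1 (by fun_prop) (by fun_prop)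
  refine h2.congr fun a => ?_
  unfold H24S.prc
  cases (A a).find? fun z => decide (z.1 = y a) with
  | none => rfl
  | some z => rfl

end Pool.Agent.H24S
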