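import Pool.Agent.Lib.H24S.P5
import Pool.Agent.Lib.H24S.P1

/-!
# H24S chunk P6: the leg problem in polynomial time

`legC`: nested `PT.ite` with `PT.mem`, `PT.any`. `legA`: `PT.auction`; the number of steps has a polynomially bounded value
because `kap` has (`hkb`) and the lengths have (`PBd.length`).
-/

set_option autoImplicit false

namespace Pool.Agent.H24S

open Pool.Agent.PolyTime

variable {γ : Type} [Enc γ] {E : γ → AS} {V1 : γ → VS} {J : γ → List VS} {r kap x y K th : γ → ℕ}
  {A : γ → List (ℕ × ℕ × Option ℕ)}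

@[fun_prop] lemma PT.legc (hV : PT V1) (hJ : PT J) : PT fun a => legc (V1 a) (J a) := by
  unfold H24S.legc
  exact PT.add (PT.add (PT.length hV) (PT.length hJ)) (PT.const 1)

@[fun_prop] lemma PT.legBig (hV : PT V1) (hJ : PT J) (hk : PT kap) :
    PT fun a => legBig (V1 a) (J a) (kap a) := by
  unfold H24S.legBig
  exact PT.mul (PT.legc hV hJ) (PT.add (PT.add (PT.mul (PT.length hJ)
    (PT.add (PT.mul (PT.const 5) hk) (PT.const 1))) hk) (PT.const 1))

lemma p6_one (hx : PT x) : PT fun a => [x a] := PT.cons hx (PT.const [])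

lemma p6_memE {E : γ → AS} {x y : γ → ℕ} (hE : PT E) (hx : PT x) (hy : PT y) :
    PT fun a => decide ((x a, y a) ∈ E a) :=
  (PT.mem (f := fun a => (x a, y a)) (PT.pair hx hy) hE).congr
    fun _ => decide_eq_decide.2 Iff.rfl

lemma PT.legC (hE : PT E) (hV : PT V1) (hJ : PT J) (hr : PT r) (hk : PT kap) (hx : PT x)
    (hy : PT y) : PT fun a => legC (E a) (V1 a) (J a) (r a) (kap a) (x a) (y a) := by
  have hb := PT.legBig hV hJ hk
  have hw : PT fun a => H24S.legc (V1 a) (J a) * H24S.wL (E a) [x a] :=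
    PT.mul (PT.legc hV hJ) (PT.wL hE (p6_one hx))
  have h1 : PT fun a => if (x a, y a) ∈ E a then H24S.legc (V1 a) (J a) * H24S.wL (E a) [x a]
      else H24S.legBig (V1 a) (J a) (kap a) :=
    PT.ite (p := fun a => (x a, y a) ∈ E a) (p6_memE hE hx hy) hw hb
  have h2 : PT fun a => if x a = y a then 0 else if (x a, y a) ∈ E a then
      H24S.legc (V1 a) (J a) * H24S.wL (E a) [x a] else H24S.legBig (V1 a) (J a) (kap a) :=
    PT.ite (p := fun a => x a = y a) (PT.decide_eq hx hy) (PT.const 0) h1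
  have h3 : PT fun a => if (x a, r a) ∈ E a then H24S.legc (V1 a) (J a) * H24S.wL (E a) [x a]
      else H24S.legBig (V1 a) (J a) (kap a) :=
    PT.ite (p := fun a => (x a, r a) ∈ E a) (p6_memE hE hx hr) hw hb
  have h4 : PT fun a => (J a).any fun F => decide (x a ∈ F) && H24S.adjS (E a) F (y a) := by
    refine PT.any (f := fun a F => decide (x a ∈ F) && H24S.adjS (E a) F (y a)) ?_ hJ
    refine PT.and ?_ ?_
    · exact p1_mem (f := fun p : γ × VS => x p.1) (hx.comp PT.fst') (by fun_prop)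
    · exact PT.adjS (E := fun p : γ × VS => E p.1) (A := fun p => p.2) (y := fun p => y p.1)
        (hE.comp PT.fst') (by fun_prop) (hy.comp PT.fst')
  have h5 : PT fun a => if ((J a).any fun F => decide (x a ∈ F) && H24S.adjS (E a) F (y a)) = true
      then 0 else H24S.legBig (V1 a) (J a) (kap a) :=
    PT.ite (p := fun a => ((J a).any fun F => decide (x a ∈ F) && H24S.adjS (E a) F (y a)) = true)
      (h4.congr fun a => Bool.decide_eq_true.symm) (PT.const 0) hb
  have h6 : PT fun a => H24S.legc (V1 a) (J a) * (5 * kap a + 1) :=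
    PT.mul (PT.legc hV hJ) (PT.add (PT.mul (PT.const 5) hk) (PT.const 1))
  have hyV : PT fun a => decide (y a ∈ V1 a) := p1_mem hy hV
  exact PT.ite (p := fun a => x a ∈ V1 a) (p1_mem hx hV)
    (PT.ite (p := fun a => y a ∈ V1 a) hyV h2 h3) (PT.ite (p := fun a => y a ∈ V1 a) hyV h5 h6)

@[fun_prop] lemma PT.legN (hV : PT V1) (hJ : PT J) : PT fun a => legN (V1 a) (J a) := by
  unfold H24S.legN
  exact PT.append hV (PT.map (f := fun _ (F : VS) => F.headD 0) (by fun_prop) hJ)

lemma p6_cost (hE : PT E) (hV : PT V1) (hJ : PT J) (hr : PT r) (hk : PT kap) :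
    PT fun p : γ × ℕ × ℕ => legC (E p.1) (V1 p.1) (J p.1) (r p.1) (kap p.1) p.2.1 p.2.2 :=
  PT.legC (E := fun p : γ × ℕ × ℕ => E p.1) (V1 := fun p => V1 p.1) (J := fun p => J p.1)
    (r := fun p => r p.1) (kap := fun p => kap p.1) (x := fun p => p.2.1) (y := fun p => p.2.2)
    (hE.comp PT.fst') (hV.comp PT.fst') (hJ.comp PT.fst') (hr.comp PT.fst') (hk.comp PT.fst')
    (by fun_prop) (by fun_prop)

theorem PT.legA (hE : PT E) (hV : PT V1) (hJ : PT J) (hr : PT r) (hk : PT kap) (hkb : PBd kap) :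
    PT fun a => legA (E a) (V1 a) (J a) (r a) (kap a) := by
  unfold H24S.legA
  have hN := PT.legN hV hJ
  refine PT.auction (Ps := fun a => H24S.legN (V1 a) (J a)) (Os := fun a => H24S.legN (V1 a) (J a))
    (cost := fun a => H24S.legC (E a) (V1 a) (J a) (r a) (kap a))
    (steps := fun a => (H24S.legN (V1 a) (J a)).length * (H24S.legBig (V1 a) (J a) (kap a) + 1))
    hN hN (p6_cost hE hV hJ hr hk) ?_ ?_
  · exact PT.mul (PT.length hN) (PT.add (PT.legBig hV hJ hk) (PT.const 1))
  · refine PBd.mul (PBd.length hN) (PBd.add ?_ (PBd.const 1))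
    unfold H24S.legBig H24S.legc
    exact PBd.mul (PBd.add (PBd.add (PBd.length hV) (PBd.length hJ)) (PBd.const 1))
      (PBd.add (PBd.add (PBd.mul (PBd.length hJ) (PBd.add (PBd.mul (PBd.const 5) hkb)
        (PBd.const 1))) hkb) (PBd.const 1))

lemma PT.legQ (hE : PT E) (hV : PT V1) (hJ : PT J) (hr : PT r) (hk : PT kap) (hA : PT A)
    (hx : PT x) : PT fun a => legQ (E a) (V1 a) (J a) (r a) (kap a) (A a) (x a) := by
  unfold H24S.legQ
  exact PT.qv (cost := fun a => H24S.legC (E a) (V1 a) (J a) (r a) (kap a))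
    (p6_cost hE hV hJ hr hk) hA hx

end Pool.Agent.H24S
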