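import Pool.Agent.Lib.H24S.P6

/-!
# H24S chunk P7: cuts and legs in polynomial time

`findCut`: `PT.find?` of `PT.map` of `PT.product`. `legOf`: `PT.iterNat` with `b a = (V1 a).length`: the state `(x, L)`: after `i`
steps `x` is the start or an element of `V1`, and `L` is a list of at most `i` elements of `V1`.
-/

set_option autoImplicit false

namespace Pool.Agent.H24S

open Pool.Agent.PolyTime

variable {γ : Type} [Enc γ] {E : γ → AS} {V1 F W X : γ → VS} {J : γ → List VS}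
  {r kap x y K th : γ → ℕ} {A : γ → List (ℕ × ℕ × Option ℕ)}

lemma p7_legQ (hE : PT E) (hV : PT V1) (hJ : PT J) (hr : PT r) (hk : PT kap) (hA : PT A) :
    PT fun p : γ × ℕ => legQ (E p.1) (V1 p.1) (J p.1) (r p.1) (kap p.1) (A p.1) p.2 :=
  PT.legQ (E := fun p : γ × ℕ => E p.1) (V1 := fun p => V1 p.1) (J := fun p => J p.1)
    (r := fun p => r p.1) (kap := fun p => kap p.1) (A := fun p => A p.1) (x := fun p => p.2)
    (hE.comp PT.fst') (hV.comp PT.fst') (hJ.comp PT.fst') (hr.comp PT.fst') (hk.comp PT.fst')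
    (hA.comp PT.fst') (by fun_prop)

lemma p7_w (hE : PT E) (hV : PT V1) (hJ : PT J) :
    PT fun p : γ × ℕ => legc (V1 p.1) (J p.1) * wL (E p.1) [p.2] :=
  PT.mul (PT.legc (hV.comp PT.fst') (hJ.comp PT.fst'))
    (PT.wL (hE.comp PT.fst') (p6_one (x := fun p : γ × ℕ => p.2) (by fun_prop)))

lemma PT.cutW (hE : PT E) (hV : PT V1) (hJ : PT J) (hr : PT r) (hk : PT kap) (hA : PT A)
    (ht : PT th) : PT fun a => cutW (E a) (V1 a) (J a) (r a) (kap a) (A a) (th a) := by
  unfold H24S.cutW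
  refine PT.filter (f := fun a v => decide (th a + H24S.legc (V1 a) (J a) * H24S.wL (E a) [v] <
    H24S.legQ (E a) (V1 a) (J a) (r a) (kap a) (A a) v)) ?_ hV
  exact PT.decide_lt (PT.add (ht.comp PT.fst') (p7_w hE hV hJ)) (p7_legQ hE hV hJ hr hk hA)

lemma PT.cutX (hE : PT E) (hV : PT V1) (hJ : PT J) (hr : PT r) (hk : PT kap) (hA : PT A)
    (ht : PT th) : PT fun a => cutX (E a) (V1 a) (J a) (r a) (kap a) (A a) (th a) := by
  unfold H24S.cutX
  refine PT.filter (f := fun a v => decide (H24S.legQ (E a) (V1 a) (J a) (r a) (kap a) (A a) v ≤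
    th a + H24S.legc (V1 a) (J a) * H24S.wL (E a) [v]) && decide (th a < H24S.prc (A a) v)) ?_ hV
  refine PT.and ?_ ?_
  · exact PT.decide_le (p7_legQ hE hV hJ hr hk hA) (PT.add (ht.comp PT.fst') (p7_w hE hV hJ))
  · exact PT.decide_lt (ht.comp PT.fst') (PT.prc (A := fun p : γ × ℕ => A p.1)
      (y := fun p => p.2) (hA.comp PT.fst') (by fun_prop))

lemma PT.cutOK (hK : PT K) (hE : PT E) (hV : PT V1) (hr : PT r) (hF : PT F) (hW : PT W)
    (hX : PT X) : PT fun a => cutOK (K a) (E a) (V1 a) (r a) (F a) (W a) (X a) := by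
  unfold H24S.cutOK
  refine PT.and (PT.and (PT.decide_lt (PT.length hX) hK) ?_) (PT.not (PT.adjS hE hW hr))
  refine PT.all (f := fun a u => !(H24S.adjS (E a) (F a) u || H24S.adjS (E a) (W a) u) ||
    decide (u ∈ W a) || decide (u ∈ X a)) ?_ hV
  refine PT.or (PT.or (PT.not (PT.or ?_ ?_)) ?_) ?_
  · exact PT.adjS (E := fun p : γ × ℕ => E p.1) (A := fun p => F p.1) (y := fun p => p.2)
      (hE.comp PT.fst') (hF.comp PT.fst') (by fun_prop)
  · exact PT.adjS (E := fun p : γ × ℕ => E p.1) (A := fun p => W p.1) (y := fun p => p.2)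
      (hE.comp PT.fst') (hW.comp PT.fst') (by fun_prop)
  · exact p1_mem (f := fun p : γ × ℕ => p.2) (by fun_prop) (hW.comp PT.fst')
  · exact p1_mem (f := fun p : γ × ℕ => p.2) (by fun_prop) (hX.comp PT.fst')

lemma PT.cutTh (hE : PT E) (hV : PT V1) (hJ : PT J) (hr : PT r) (hk : PT kap) (hA : PT A) :
    PT fun a => cutTh (E a) (V1 a) (J a) (r a) (kap a) (A a) := by
  unfold H24S.cutTh
  refine PT.append ?_ ?_
  · exact PT.map (f := fun _ (z : ℕ × ℕ × Option ℕ) => z.2.1) (by fun_prop) hA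
  · refine PT.map (f := fun a v => H24S.legQ (E a) (V1 a) (J a) (r a) (kap a) (A a) v -
      H24S.legc (V1 a) (J a) * H24S.wL (E a) [v]) ?_ hV
    exact PT.sub (p7_legQ hE hV hJ hr hk hA) (p7_w hE hV hJ)

theorem PT.findCut (hK : PT K) (hE : PT E) (hV : PT V1) (hJ : PT J) (hr : PT r) (hk : PT kap)
    (hA : PT A) : PT fun a => findCut (K a) (E a) (V1 a) (J a) (r a) (kap a) (A a) := by
  unfold H24S.findCut
  refine PT.find? (f := fun a (y : VS × VS × VS) =>
    H24S.cutOK (K a) (E a) (V1 a) (r a) y.1 y.2.1 y.2.2) ?_ ?_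
  · have h1 : PT fun p : γ × (VS × VS × VS) => K p.1 := hK.comp PT.fst'
    have h2 : PT fun p : γ × (VS × VS × VS) => E p.1 := hE.comp PT.fst'
    have h3 : PT fun p : γ × (VS × VS × VS) => V1 p.1 := hV.comp PT.fst'
    have h4 : PT fun p : γ × (VS × VS × VS) => r p.1 := hr.comp PT.fst'
    exact PT.cutOK (F := fun p : γ × (VS × VS × VS) => p.2.1)
      (W := fun p : γ × (VS × VS × VS) => p.2.2.1) (X := fun p : γ × (VS × VS × VS) => p.2.2.2)
      h1 h2 h3 h4 (by fun_prop) (by fun_prop) (by fun_prop)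
  · refine PT.map (f := fun a (x : VS × ℕ) => (x.1,
      H24S.cutW (E a) (V1 a) (J a) (r a) (kap a) (A a) x.2,
      H24S.cutX (E a) (V1 a) (J a) (r a) (kap a) (A a) x.2)) ?_
      (PT.product hJ (PT.cutTh hE hV hJ hr hk hA))
    refine PT.pair (by fun_prop) (PT.pair ?_ ?_)
    · exact PT.cutW (E := fun p : γ × (VS × ℕ) => E p.1) (V1 := fun p => V1 p.1)
        (J := fun p => J p.1) (r := fun p => r p.1) (kap := fun p => kap p.1)
        (A := fun p => A p.1) (th := fun p => p.2.2) (hE.comp PT.fst') (hV.comp PT.fst')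
        (hJ.comp PT.fst') (hr.comp PT.fst') (hk.comp PT.fst') (hA.comp PT.fst') (by fun_prop)
    · exact PT.cutX (E := fun p : γ × (VS × ℕ) => E p.1) (V1 := fun p => V1 p.1)
        (J := fun p => J p.1) (r := fun p => r p.1) (kap := fun p => kap p.1)
        (A := fun p => A p.1) (th := fun p => p.2.2) (hE.comp PT.fst') (hV.comp PT.fst')
        (hJ.comp PT.fst') (hr.comp PT.fst') (hk.comp PT.fst') (hA.comp PT.fst') (by fun_prop)

lemma p7_step (hV : PT V1) (hA : PT A) :
    PT fun p : γ × (ℕ × VS) => legStep (V1 p.1) (A p.1) p.2 := by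
  have h1 : PT fun p : γ × (ℕ × VS) => fwd (A p.1) p.2.1 :=
    PT.fwd (A := fun p : γ × (ℕ × VS) => A p.1) (x := fun p => p.2.1) (hA.comp PT.fst')
      (by fun_prop)
  have h2 := PT.optionCases (o := fun p : γ × (ℕ × VS) => H24S.fwd (A p.1) p.2.1)
    (f := fun p => p.2) (g := fun p y => if y ∈ V1 p.1 then (y, y :: p.2.2) else p.2) h1
    (by fun_prop) (PT.ite (p := fun q : (γ × (ℕ × VS)) × ℕ => q.2 ∈ V1 q.1.1)
      (p1_mem (f := fun q : (γ × (ℕ × VS)) × ℕ => q.2) (by fun_prop)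
        (hV.comp (f := fun q : (γ × (ℕ × VS)) × ℕ => q.1.1) (by fun_prop)))
      (by fun_prop) (by fun_prop))
  refine h2.congr fun p => ?_
  unfold H24S.legStep
  cases H24S.fwd (A p.1) p.2.1 with
  | none => rfl
  | some y => rfl

lemma p7_iter (V1 : VS) (A : List (ℕ × ℕ × Option ℕ)) (x : ℕ) (i : ℕ) :
    (((legStep V1 A)^[i] (x, [])).1 = x ∨ ((legStep V1 A)^[i] (x, [])).1 ∈ V1) ∧
    (∀ v ∈ ((legStep V1 A)^[i] (x, [])).2, v ∈ V1) ∧
    ((legStep V1 A)^[i] (x, [])).2.length ≤ i := by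
  induction i with
  | zero =>
    refine ⟨Or.inl rfl, ?_, le_refl _⟩
    intro v hv
    exact absurd hv List.not_mem_nil
  | succ i ih =>
    rw [Function.iterate_succ_apply']
    set s := (legStep V1 A)^[i] (x, []) with hs
    unfold legStep
    split
    · exact ⟨ih.1, ih.2.1, ih.2.2.trans (Nat.le_succ _)⟩
    · rename_i y _
      split_ifs with h1
      · refine ⟨Or.inr h1, ?_, ?_⟩
        · intro v hv
          rcases List.mem_cons.1 hv with h | h
          · rw [h]
            exact h1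
          · exact ih.2.1 v h
        · exact Nat.succ_le_succ ih.2.2
      · exact ⟨ih.1, ih.2.1, ih.2.2.trans (Nat.le_succ _)⟩

theorem PT.legOf (hV : PT V1) (hA : PT A) (hx : PT x) :
    PT fun a => legOf (V1 a) (A a) (x a) := by
  unfold H24S.legOf
  refine PT.snd ?_
  refine PT.iterNat (f := fun a (s : ℕ × VS) => H24S.legStep (V1 a) (A a) s)
    (s := fun a => (x a, ([] : VS))) (b := fun a => (V1 a).length) (p7_step hV hA)
    (PT.pair hx (PT.const [])) (PT.length hV) (PBd.length hV)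
    (B := fun a => (sz (x a) + sz (V1 a)) + (sz (V1 a) * (sz (V1 a) + 1) + 1) + 1) ?_ ?_
  · exact ((hx.bdd.add hV.bdd).add ((hV.bdd.mul (hV.bdd.add (PBd.const 1))).add
      (PBd.const 1))).add (PBd.const 1)
  · intro a i hi
    change sz ((H24S.legStep (V1 a) (A a))^[i] (x a, [])) ≤ _
    obtain ⟨h1, h2, h3⟩ := p7_iter (V1 a) (A a) (x a) i
    rw [sz_prod]
    have h4 : sz ((H24S.legStep (V1 a) (A a))^[i] (x a, [])).1 ≤ sz (x a) + sz (V1 a) := by
      rcases h1 with h | h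
      · rw [h]
        omega
      · have := sz_le_of_mem h
        omega
    have h5 : sz ((H24S.legStep (V1 a) (A a))^[i] (x a, [])).2 ≤
        ((H24S.legStep (V1 a) (A a))^[i] (x a, [])).2.length * (sz (V1 a) + 1) + 1 :=
      sz_list_le fun v hv => sz_le_of_mem (h2 v hv)
    have h6 := length_lt_sz (V1 a)
    have h7 : ((H24S.legStep (V1 a) (A a))^[i] (x a, [])).2.length * (sz (V1 a) + 1) ≤
        sz (V1 a) * (sz (V1 a) + 1) := Nat.mul_le_mul_right _ (by omega)
    exact Nat.succ_le_succ (Nat.add_le_add h4 (h5.trans (Nat.succ_le_succ h7)))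

end Pool.Agent.H24S
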