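import Pool.Agent.Lib.H24S.P7
import Pool.Agent.Lib.H24S.P4

/-!
# H24S chunk P8: one round of the main loop in polynomial time

No iteration here: `PT.filter`, `PT.map`, `PT.ite`, `PT.optionCases` and the functions of the earlier chunks.
-/

set_option autoImplicit false

namespace Pool.Agent.H24S

open Pool.Agent.PolyTime

variable {γ : Type} [Enc γ] {E : γ → AS} {P S V1 F W X : γ → VS} {bl : γ → List (VS × VS)}
  {s : γ → St} {n K k5 r : γ → ℕ} {A : γ → List (ℕ × ℕ × Option ℕ)} {bw : γ → List (VS × VS × VS)}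

lemma p8_match {δ β ζ : Type} [Enc δ] [Enc β] [Enc ζ] {o : δ → Option β} {f : δ → ζ}
    {g : δ → β → ζ} {F : δ → ζ} (ho : PT o) (hf : PT f) (hg : PT fun p : δ × β => g p.1 p.2)
    (h1 : ∀ a, o a = none → F a = f a) (h2 : ∀ a b, o a = some b → F a = g a b) : PT F := by
  refine (PT.optionCases ho hf hg).congr fun a => ?_
  cases h : o a with
  | none => exact (h1 a h).symm
  | some b => exact (h2 a b h).symm

lemma p8_grow {K k5 : ℕ} {E : AS} {P : VS} {s : St} {bw : List (VS × VS × VS)}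
    (h : (H24S.growAll K k5 E (H24S.growU P s bw)).2.2 = none) :
    growPhase K k5 E P s bw =
      (s, none, some (branches bw s.2.2, (growAll K k5 E (growU P s bw)).2.1)) := by
  unfold growPhase
  rw [h]

lemma p8_grow' {K k5 : ℕ} {E : AS} {P : VS} {s : St} {bw : List (VS × VS × VS)} {b : VS × VS}
    (h : (H24S.growAll K k5 E (H24S.growU P s bw)).2.2 = some b) :
    growPhase K k5 E P s bw = ((s.1, b :: s.2.1, s.2.2), none, none) := by
  unfold growPhase
  rw [h]

lemma p8_round {n K : ℕ} {E : AS} {P : VS} {s : St} {A : List (ℕ × ℕ × Option ℕ)}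
    (h : findCut K E (vOne P s) (farJ E s) s.2.2 (n * K) A = none) :
    roundA n K E P s A = growPhase K (5 * (n * K)) E P s (withLegs E (vOne P s) A s) := by
  unfold roundA
  rw [h]

lemma p8_round' {n K : ℕ} {E : AS} {P : VS} {s : St} {A : List (ℕ × ℕ × Option ℕ)}
    {c : VS × VS × VS} (h : findCut K E (vOne P s) (farJ E s) s.2.2 (n * K) A = some c) :
    roundA n K E P s A = cutStep K E P s c.1 c.2.1 c.2.2 := by
  unfold roundA
  rw [h]

@[fun_prop] lemma PT.vFree (hP : PT P) (hs : PT s) : PT fun a => vFree (P a) (s a) := by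
  unfold H24S.vFree
  refine PT.filter (f := fun a (v : ℕ) => !decide (v ∈ (s a).1) &&
    !((s a).2.1.any fun b => decide (v ∈ b.1))) (PT.and (PT.not ?_) (PT.not ?_)) hP
  · exact p1_mem (f := fun p : γ × ℕ => p.2) (by fun_prop) ((PT.fst hs).comp PT.fst')
  · refine PT.any (f := fun (q : γ × ℕ) (b : VS × VS) => decide (q.2 ∈ b.1)) ?_
      ((PT.fst (PT.snd hs)).comp PT.fst')
    exact p1_mem (f := fun p : (γ × ℕ) × (VS × VS) => p.1.2) (by fun_prop) (by fun_prop)

@[fun_prop] lemma PT.vOne (hP : PT P) (hs : PT s) : PT fun a => vOne (P a) (s a) := by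
  unfold H24S.vOne
  refine PT.filter (f := fun a (v : ℕ) => !decide (v = (s a).2.2)) (PT.not ?_) (PT.vFree hP hs)
  exact PT.decide_eq (f := fun p : γ × ℕ => p.2) (g := fun p => (s p.1).2.2) (by fun_prop)
    ((PT.snd (PT.snd hs)).comp PT.fst')

@[fun_prop] lemma PT.farJ (hE : PT E) (hs : PT s) : PT fun a => farJ (E a) (s a) := by
  unfold H24S.farJ
  refine PT.filter (f := fun a (F : VS) => !H24S.adjS (E a) F (s a).2.2) (PT.not ?_)
    (PT.map (f := fun _ (b : VS × VS) => b.1) (by fun_prop) (PT.fst (PT.snd hs)))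
  exact PT.adjS (E := fun p : γ × VS => E p.1) (A := fun p => p.2) (y := fun p => (s p.1).2.2)
    (hE.comp PT.fst') (by fun_prop) ((PT.snd (PT.snd hs)).comp PT.fst')

@[fun_prop] lemma PT.moveS (hP : PT P) (hS : PT S) (hb : PT bl) (hs : PT s) (hr : PT r) :
    PT fun a => moveS (P a) (S a) (bl a) (s a) (r a) := by
  unfold H24S.moveS
  refine PT.pair ?_ (PT.pair ?_ hr)
  · refine PT.filter (f := fun a (v : ℕ) => decide (v ∈ S a) || decide (v ∈ (s a).1))
      (PT.or ?_ ?_) hP
    · exact p1_mem (f := fun p : γ × ℕ => p.2) (by fun_prop) (hS.comp PT.fst')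
    · exact p1_mem (f := fun p : γ × ℕ => p.2) (by fun_prop) ((PT.fst hs).comp PT.fst')
  · refine PT.map (f := fun a (b : VS × VS) => (b.1, H24S.dif b.2 (S a))) (PT.pair ?_ ?_) hb
    · fun_prop
    · exact PT.dif (P := fun p : γ × (VS × VS) => p.2.2) (A := fun p => S p.1) (by fun_prop)
        (hS.comp (f := fun p : γ × (VS × VS) => p.1) PT.fst')

lemma p8_vioProp {δ : Type} [Enc δ] {K : δ → ℕ} {E : δ → AS} {P A : δ → VS} (hK : PT K) (hE : PT E)
    (hP : PT P) (hA : PT A) : PT fun a => decide (H24S.vio (K a) (E a) (P a) (A a) = true) :=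
  (PT.vio hK hE hP hA).congr fun a => by
    cases H24S.vio (K a) (E a) (P a) (A a) <;> rfl

lemma PT.tryMove (hK : PT K) (hE : PT E) (hP : PT P) (hS : PT S) (hb : PT bl) (hs : PT s)
    (hr : PT r) : PT fun a => tryMove (K a) (E a) (P a) (S a) (bl a) (s a) (r a) := by
  unfold H24S.tryMove
  have hm := PT.moveS hP hS hb hs hr
  refine PT.ite (p8_vioProp hK hE hP hS) ?_ (PT.ite (p8_vioProp hK hE hP (PT.fst hm)) ?_ ?_)
  · exact PT.pair hs (PT.pair (PT.optSome hS) (PT.const none))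
  · exact PT.pair hs (PT.pair (PT.optSome (PT.fst hm)) (PT.const none))
  · exact PT.pair hm (PT.const (none, none))

theorem PT.cutStep (hK : PT K) (hE : PT E) (hP : PT P) (hs : PT s) (hF : PT F) (hW : PT W)
    (hX : PT X) : PT fun a => cutStep (K a) (E a) (P a) (s a) (F a) (W a) (X a) := by
  unfold H24S.cutStep
  have h1 : PT fun a => H24S.itr (P a) (F a ++ W a) := PT.itr hP (PT.append hF hW)
  refine PT.ite (p := fun a => 2 * H24S.nL (K a) (E a) (H24S.itr (P a) (F a ++ W a)) ≤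
    H24S.nL (K a) (E a) (P a)) ?_ ?_ ?_
  · exact PT.decide_le (PT.mul (PT.const 2) (PT.nL hK hE h1)) (PT.nL hK hE hP)
  · refine PT.tryMove hK hE hP h1 (bl := fun a => (s a).2.1.filter fun b => !decide (b.1 = F a))
      ?_ hs (PT.snd (PT.snd hs))
    refine PT.filter (f := fun a (b : VS × VS) => !decide (b.1 = F a)) (PT.not ?_)
      (PT.fst (PT.snd hs))
    exact PT.decide_eq (f := fun p : γ × (VS × VS) => p.2.1) (g := fun p => F p.1) (by fun_prop)
      (hF.comp PT.fst')
  · refine PT.tryMove hK hE hP (S := fun a => H24S.dif (H24S.vFree (P a) (s a)) (W a ++ X a)) ?_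
      (bl := fun a => (s a).2.1) (PT.fst (PT.snd hs)) hs (PT.headD hW (PT.const 0))
    exact PT.dif (PT.vFree hP hs) (PT.append hW hX)

lemma PT.withLegs (hE : PT E) (hV : PT V1) (hA : PT A) (hs : PT s) :
    PT fun a => withLegs (E a) (V1 a) (A a) (s a) := by
  unfold H24S.withLegs
  refine PT.map (f := fun a (b : VS × VS) => (b.1, b.2, bif H24S.adjS (E a) b.1 (s a).2.2 then []
    else H24S.legOf (V1 a) (A a) (b.1.headD 0))) (PT.pair ?_ (PT.pair ?_ (PT.bif ?_ ?_ ?_)))
    (PT.fst (PT.snd hs))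
  · fun_prop
  · fun_prop
  · exact PT.adjS (E := fun p : γ × (VS × VS) => E p.1) (A := fun p => p.2.1)
      (y := fun p => (s p.1).2.2) (hE.comp PT.fst') (by fun_prop)
      ((PT.snd (PT.snd hs)).comp PT.fst')
  · exact PT.const []
  · exact PT.legOf (V1 := fun p : γ × (VS × VS) => V1 p.1) (A := fun p => A p.1)
      (x := fun p => p.2.1.headD 0) (hV.comp PT.fst') (hA.comp PT.fst')
      (PT.headD (by fun_prop) (PT.const 0))

lemma p8_legsU {δ : Type} [Enc δ] {bw : δ → List (VS × VS × VS)} (hb : PT bw) :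
    PT fun a => H24S.legsU (bw a) := by
  unfold H24S.legsU
  exact PT.flatMap (f := fun _ (b : VS × VS × VS) => b.2.2) (by fun_prop) hb

@[fun_prop] lemma PT.branches (hb : PT bw) (hr : PT r) : PT fun a => branches (bw a) (r a) := by
  unfold H24S.branches
  refine PT.map (f := fun a (b : VS × VS × VS) => b.2.2 ++ b.2.1.filter fun v =>
    !decide (v ∈ H24S.legsU (bw a)) && !decide (v = r a)) (PT.append ?_ ?_) hb
  · fun_prop
  · refine PT.filter (f := fun (q : γ × (VS × VS × VS)) (v : ℕ) =>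
      !decide (v ∈ H24S.legsU (bw q.1)) && !decide (v = r q.1)) (PT.and (PT.not ?_) (PT.not ?_)) ?_
    · exact p1_mem (f := fun p : (γ × (VS × VS × VS)) × ℕ => p.2) (by fun_prop)
        ((p8_legsU hb).comp (f := fun p : (γ × (VS × VS × VS)) × ℕ => p.1.1) (by fun_prop))
    · exact PT.decide_eq (f := fun p : (γ × (VS × VS × VS)) × ℕ => p.2) (g := fun p => r p.1.1)
        (by fun_prop) (hr.comp (by fun_prop))
    · fun_prop

@[fun_prop] lemma PT.growU (hP : PT P) (hs : PT s) (hb : PT bw) :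
    PT fun a => growU (P a) (s a) (bw a) := by
  unfold H24S.growU
  refine PT.filter (f := fun a (v : ℕ) => !((s a).2.1.any fun b => decide (v ∈ b.2)) &&
    !decide (v ∈ H24S.legsU (bw a))) (PT.and (PT.not ?_) (PT.not ?_)) (PT.vOne hP hs)
  · refine PT.any (f := fun (q : γ × ℕ) (b : VS × VS) => decide (q.2 ∈ b.2)) ?_
      ((PT.fst (PT.snd hs)).comp PT.fst')
    exact p1_mem (f := fun p : (γ × ℕ) × (VS × VS) => p.1.2) (by fun_prop) (by fun_prop)
  · exact p1_mem (f := fun p : γ × ℕ => p.2) (by fun_prop) ((p8_legsU hb).comp PT.fst')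

theorem PT.growPhase (hK : PT K) (hk : PT k5) (hE : PT E) (hP : PT P) (hs : PT s) (hb : PT bw) :
    PT fun a => growPhase (K a) (k5 a) (E a) (P a) (s a) (bw a) := by
  have h1 := PT.growAll hK hk hE (PT.growU hP hs hb)
  refine p8_match
    (o := fun a => (H24S.growAll (K a) (k5 a) (E a) (H24S.growU (P a) (s a) (bw a))).2.2)
    (f := fun a => ((s a, none, some (H24S.branches (bw a) (s a).2.2,
      (H24S.growAll (K a) (k5 a) (E a) (H24S.growU (P a) (s a) (bw a))).2.1)) : Out))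
    (g := fun a b => ((((s a).1, b :: (s a).2.1, (s a).2.2), none, none) : Out))
    (PT.snd (PT.snd h1)) ?_ ?_ (fun a h => p8_grow h) (fun a b h => p8_grow' h)
  · exact PT.pair hs (PT.pair (PT.const none) (PT.optSome (PT.pair
      (PT.branches hb (PT.snd (PT.snd hs))) (PT.fst (PT.snd h1)))))
  · exact PT.pair (PT.pair ((PT.fst hs).comp PT.fst') (PT.pair
      (PT.cons PT.snd' ((PT.fst (PT.snd hs)).comp PT.fst')) ((PT.snd (PT.snd hs)).comp PT.fst')))
      (PT.const (none, none))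

lemma p8_cut {δ : Type} [Enc δ] {K : δ → ℕ} {E : δ → AS} {P : δ → VS} {s : δ → St}
    {c : δ → VS × VS × VS} (hK : PT K) (hE : PT E) (hP : PT P) (hs : PT s) (hc : PT c) :
    PT fun a => cutStep (K a) (E a) (P a) (s a) (c a).1 (c a).2.1 (c a).2.2 :=
  PT.cutStep hK hE hP hs (PT.fst hc) (PT.fst (PT.snd hc)) (PT.snd (PT.snd hc))

lemma p8_fst {δ β ζ : Type} [Enc δ] [Enc β] [Enc ζ] {g : δ → ζ} (hg : PT g) :
    PT fun p : δ × β => g p.1 :=
  PT.comp (g := g) (f := fun p : δ × β => p.1) hg PT.fst'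

lemma p8_cutF (hK : PT K) (hE : PT E) (hP : PT P) (hs : PT s) :
    PT fun p : γ × (VS × VS × VS) =>
      cutStep (K p.1) (E p.1) (P p.1) (s p.1) p.2.1 p.2.2.1 p.2.2.2 :=
  p8_cut (K := fun p : γ × (VS × VS × VS) => K p.1) (E := fun p => E p.1)
    (P := fun p => P p.1) (s := fun p => s p.1) (c := fun p => p.2) (p8_fst hK) (p8_fst hE)
    (p8_fst hP) (p8_fst hs) PT.snd'

theorem PT.roundA (hn : PT n) (hK : PT K) (hE : PT E) (hP : PT P) (hs : PT s) (hA : PT A) :
    PT fun a => roundA (n a) (K a) (E a) (P a) (s a) (A a) := by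
  have hV := PT.vOne hP hs
  have h1 := PT.findCut hK hE hV (PT.farJ hE hs) (PT.snd (PT.snd hs)) (PT.mul hn hK) hA
  refine p8_match
    (o := fun a => H24S.findCut (K a) (E a) (H24S.vOne (P a) (s a)) (H24S.farJ (E a) (s a))
      (s a).2.2 (n a * K a) (A a))
    (f := fun a => H24S.growPhase (K a) (5 * (n a * K a)) (E a) (P a) (s a)
      (H24S.withLegs (E a) (H24S.vOne (P a) (s a)) (A a) (s a)))
    (g := fun a c => H24S.cutStep (K a) (E a) (P a) (s a) c.1 c.2.1 c.2.2) h1 ?_ ?_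
    (fun a h => p8_round h) (fun a c h => p8_round' h)
  · exact PT.growPhase hK (PT.mul (PT.const 5) (PT.mul hn hK)) hE hP hs (PT.withLegs hE hV hA hs)
  · exact p8_cutF hK hE hP hs

theorem PT.mainStep {o : γ → Out} (hn : PT n) (hnb : PBd n) (hK : PT K) (hKb : PBd K) (hE : PT E)
    (hP : PT P) (ho : PT o) : PT fun a => mainStep (n a) (K a) (E a) (P a) (o a) := by
  unfold H24S.mainStep
  have hV := PT.vOne hP (PT.fst ho)
  have hJ := PT.farJ hE (PT.fst ho)
  have hr : PT fun a => (o a).1.2.2 := PT.snd (PT.snd (PT.fst ho))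
  have hA := PT.legA hE hV hJ hr (PT.mul hn hK) (PBd.mul hnb hKb)
  refine PT.ite (p := fun a => ((o a).2.1.isSome || (o a).2.2.isSome) = true) ?_ ho
    (PT.roundA hn hK hE hP (PT.fst ho) hA)
  exact (PT.or (PT.isSome (PT.fst (PT.snd ho))) (PT.isSome (PT.snd (PT.snd ho)))).congr fun a => by
    cases ((o a).2.1.isSome || (o a).2.2.isSome) <;> rfl

end Pool.Agent.H24S
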