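import Pool.Agent.Lib.H24S.P8

/-!
# H24S chunk P9: the main loop in polynomial time

`PT.iterNat` with `b a = (P a).length + K a + 1` (`PBd`: `PBd.length`, `hKb`). Size of the state after `i` steps, for all inputs.
State `((A, bl, r), v, e)`. As long as `v = e = none`:
* `A` is `[]` or a filter of `P`: `sz A ≤ sz P`;
* `bl` has at most `i` members; the new member `b` is the blob of `growAll K k5 E U'` with `U'` a sublist of `P`, of size `≤ g a` for a
  polynomially bounded `g` (`PT.bdd (PT.growAll ..)` with the parameters `(K, k5, E, U')`); `dif` and `filter` do not increase sizes: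
  `sz bl ≤ 1 + i (g a + 1)`;
* `r` is `P.headD 0`, or `W.headD 0` with `W` a sublist of `P`: `sz r ≤ sz P + 1`.
When the loop stops (`v` or `e` becomes `some`), the new state is `mainStep` of a state of bounded size, so of bounded size by
`PT.bdd (PT.mainStep ..)` (for the parameter tuple `(a, o)`), and then it does not change.
So the whole bound can be: `max` over the two cases: the invariant is `Small i o ∨ (done o ∧ sz o ≤ G a)`.
-/

set_option autoImplicit false

namespace Pool.Agent.H24S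

open Pool.Agent.PolyTime

variable {γ : Type} [Enc γ] {E : γ → AS} {P : γ → VS} {n K : γ → ℕ}

lemma P9_zero (l : VS) : sz (0 : ℕ) ≤ sz l := by
  have h1 : sz (0 : ℕ) = 1 := by
    rw [sz_nat]
    simp
  rw [h1]
  exact one_le_sz l

lemma P9_headD (W : VS) : sz (W.headD 0) ≤ sz W := by
  cases W with
  | nil => exact P9_zero []
  | cons a l =>
    simp only [List.headD_cons, sz_cons]
    omega

lemma P9_vOne (P : VS) (s : St) : sz (vOne P s) ≤ sz P := by
  unfold vOne vFree
  exact sz_sublist_le (List.filter_sublist.trans List.filter_sublist)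

lemma P9_growU (P : VS) (s : St) (bl : List (VS × VS × VS)) : sz (growU P s bl) ≤ sz P := by
  unfold growU
  exact (sz_sublist_le List.filter_sublist).trans (P9_vOne P s)

lemma P9_moveS {P S : VS} {bl : List (VS × VS)} {s : St} {r g : ℕ}
    (hbl : ∀ x ∈ bl, sz x ≤ g) :
    sz (moveS P S bl s r).1 ≤ sz P ∧ (moveS P S bl s r).2.1.length = bl.length ∧
      (∀ x ∈ (moveS P S bl s r).2.1, sz x ≤ g) ∧ (moveS P S bl s r).2.2 = r := by
  unfold moveS
  refine ⟨sz_sublist_le List.filter_sublist, by simp, ?_, rfl⟩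
  intro x hx
  simp only [List.mem_map] at hx
  obtain ⟨b, hb, rfl⟩ := hx
  have h1 := hbl b hb
  have h2 := sz_dif_le b.2 S
  rw [sz_prod] at h1
  rw [sz_pair]
  omega

lemma P9_tryMove {K : ℕ} {E : AS} {P S : VS} {bl : List (VS × VS)} {s : St} {r g : ℕ}
    (hbl : ∀ x ∈ bl, sz x ≤ g) (hr : sz r ≤ sz P)
    (h1 : (tryMove K E P S bl s r).2.1 = none) :
    (tryMove K E P S bl s r).2.2 = none ∧ sz (tryMove K E P S bl s r).1.1 ≤ sz P ∧
      (tryMove K E P S bl s r).1.2.1.length ≤ bl.length ∧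
      (∀ x ∈ (tryMove K E P S bl s r).1.2.1, sz x ≤ g) ∧
      sz (tryMove K E P S bl s r).1.2.2 ≤ sz P := by
  obtain ⟨m1, m2, m3, m4⟩ := P9_moveS (P := P) (S := S) (s := s) (r := r) hbl
  by_cases hv : vio K E P S = true
  · exfalso
    unfold tryMove at h1
    rw [if_pos hv] at h1
    simp at h1
  · by_cases hv' : vio K E P (moveS P S bl s r).1 = true
    · exfalso
      unfold tryMove at h1
      rw [if_neg hv, if_pos hv'] at h1
      simp at h1
    · have he : tryMove K E P S bl s r = (moveS P S bl s r, none, none) := by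
        unfold tryMove
        rw [if_neg hv, if_neg hv']
      rw [he]
      exact ⟨rfl, m1, m2.le, m3, by rw [m4]; exact hr⟩

/-- the bounds for the state -/
def P9_Ok (P : VS) (g i : ℕ) (s : St) : Prop :=
  sz s.1 ≤ sz P ∧ s.2.1.length ≤ i ∧ (∀ x ∈ s.2.1, sz x ≤ g) ∧ sz s.2.2 ≤ sz P

lemma P9_cutStep {K : ℕ} {E : AS} {P F W X : VS} {s : St} {g i : ℕ} (hs : P9_Ok P g i s)
    (hW : sz W ≤ sz P) (h1 : (cutStep K E P s F W X).2.1 = none) :
    (cutStep K E P s F W X).2.2 = none ∧ P9_Ok P g (i + 1) (cutStep K E P s F W X).1 := by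
  obtain ⟨s1, s2, s3, s4⟩ := hs
  unfold cutStep at h1 ⊢
  split_ifs at h1 ⊢
  · obtain ⟨t1, t2, t3, t4, t5⟩ := P9_tryMove (g := g)
      (fun x hx => s3 x (List.mem_of_mem_filter hx)) s4 h1
    refine ⟨t1, t2, ?_, t4, t5⟩
    have := List.length_filter_le (fun b : VS × VS => !decide (b.1 = F)) s.2.1
    omega
  · obtain ⟨t1, t2, t3, t4, t5⟩ := P9_tryMove (g := g) s3 ((P9_headD W).trans hW) h1
    exact ⟨t1, t2, by omega, t4, t5⟩

lemma P9_findCut {K : ℕ} {E : AS} {V1 : VS} {J : List VS} {r kap : ℕ}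
    {A : List (ℕ × ℕ × Option ℕ)} {c : VS × VS × VS} (h : findCut K E V1 J r kap A = some c) :
    sz c.2.1 ≤ sz V1 := by
  unfold findCut at h
  have h1 := List.mem_of_find?_eq_some h
  rw [List.mem_map] at h1
  obtain ⟨x, -, rfl⟩ := h1
  exact sz_sublist_le List.filter_sublist

lemma P9_roundA {n K : ℕ} {E : AS} {P : VS} {s : St} {A : List (ℕ × ℕ × Option ℕ)} {g i : ℕ}
    (hs : P9_Ok P g i s)
    (hg : ∀ U : VS, sz U ≤ sz P → ∀ b, (growAll K (5 * (n * K)) E U).2.2 = some b → sz b ≤ g)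
    (h1 : (roundA n K E P s A).2.1 = none) (h2 : (roundA n K E P s A).2.2 = none) :
    P9_Ok P g (i + 1) (roundA n K E P s A).1 := by
  unfold roundA at h1 h2 ⊢
  cases hc : findCut K E (vOne P s) (farJ E s) s.2.2 (n * K) A with
  | some c =>
    rw [hc] at h1 h2
    simp only at h1 h2 ⊢
    exact (P9_cutStep hs ((P9_findCut hc).trans (P9_vOne P s)) h1).2
  | none =>
    rw [hc] at h1 h2
    simp only at h1 h2 ⊢
    unfold growPhase at h1 h2 ⊢
    cases hb : (growAll K (5 * (n * K)) E (growU P s (withLegs E (vOne P s) A s))).2.2 with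
    | none =>
      rw [hb] at h2
      simp at h2
    | some b =>
      simp only
      obtain ⟨s1, s2, s3, s4⟩ := hs
      refine ⟨s1, ?_, ?_, s4⟩
      · simp only [List.length_cons]
        omega
      · intro x hx
        simp only [List.mem_cons] at hx
        rcases hx with rfl | hx
        · exact hg _ (P9_growU P s _) _ hb
        · exact s3 x hx

lemma P9_growBound (hn : PT n) (hK : PT K) (hE : PT E) (hP : PT P) :
    ∃ g : γ → ℕ, PBd g ∧ ∀ (a : γ) (U : VS), sz U ≤ sz (P a) → ∀ b,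
      (growAll (K a) (5 * (n a * K a)) (E a) U).2.2 = some b → sz b ≤ g a := by
  obtain ⟨c, k, hck⟩ := PT.bdd (PT.growAll (K := fun t : ℕ × ℕ × AS × VS => t.1)
    (k5 := fun t => t.2.1) (E := fun t => t.2.2.1) (U := fun t => t.2.2.2)
    (by fun_prop) (by fun_prop) (by fun_prop) (by fun_prop))
  have h5 : PT fun a => 5 * (n a * K a) := by fun_prop
  have hτ : PBd fun a => sz (K a) + (sz (5 * (n a * K a)) + (sz (E a) + sz (P a) + 1) + 1) + 1 :=
    (hK.bdd.add ((h5.bdd.add ((hE.bdd.add hP.bdd).add (PBd.const 1))).add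
      (PBd.const 1))).add (PBd.const 1)
  refine ⟨_, (PBd.const c).mul (hτ.pow k), ?_⟩
  intro a U hU b hb
  have h1 := hck (K a, 5 * (n a * K a), E a, U)
  simp only [sz_pair] at h1
  have h2 : sz b ≤ sz (growAll (K a) (5 * (n a * K a)) (E a) U) := by
    generalize growAll (K a) (5 * (n a * K a)) (E a) U = x at hb
    obtain ⟨x1, x2, x3⟩ := x
    have hb' : x3 = some b := hb
    rw [hb', sz_pair (a := x1), sz_pair (a := x2), sz_some]
    omega
  refine h2.trans (h1.trans (Nat.mul_le_mul_left c (Nat.pow_le_pow_left ?_ k)))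
  omega

lemma P9_hm (hn : PT n) (hnb : PBd n) (hK : PT K) (hKb : PBd K) (hE : PT E) (hP : PT P) :
    PT fun p : γ × Out => mainStep (n p.1) (K p.1) (E p.1) (P p.1) p.2 := by
  have h1 : PT fun p : γ × Out => n p.1 := hn.comp PT.fst'
  have h2 : PBd fun p : γ × Out => n p.1 := PBd.fst hnb
  have h3 : PT fun p : γ × Out => K p.1 := hK.comp PT.fst'
  have h4 : PBd fun p : γ × Out => K p.1 := PBd.fst hKb
  have h5 : PT fun p : γ × Out => E p.1 := hE.comp PT.fst'
  have h6 : PT fun p : γ × Out => P p.1 := hP.comp PT.fst'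
  have h7 : PT fun p : γ × Out => p.2 := PT.snd'
  exact PT.mainStep h1 h2 h3 h4 h5 h6 h7

lemma P9_mainBound (hn : PT n) (hnb : PBd n) (hK : PT K) (hKb : PBd K) (hE : PT E) (hP : PT P)
    {SB : γ → ℕ} (hSB : PBd SB) : ∃ G : γ → ℕ, PBd G ∧ ∀ (a : γ) (o : Out), sz o ≤ SB a →
      sz (mainStep (n a) (K a) (E a) (P a) o) ≤ G a := by
  have hm := P9_hm hn hnb hK hKb hE hP
  obtain ⟨c', k', hck'⟩ := hm.bdd
  refine ⟨_, (PBd.const c').mul (((PBd.sz.add hSB).add (PBd.const 1)).pow k'), ?_⟩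
  intro a o ho
  have h4 := hck' (a, o)
  rw [sz_pair] at h4
  refine h4.trans (Nat.mul_le_mul_left c' (Nat.pow_le_pow_left ?_ k'))
  omega

/-- the invariant -/
def P9_Inv (P : VS) (g G i : ℕ) (o : Out) : Prop :=
  (o.2.1 = none ∧ o.2.2 = none ∧ P9_Ok P g i o.1) ∨
    ((o.2.1.isSome || o.2.2.isSome) = true ∧ sz o ≤ G)

lemma P9_sz {P : VS} {g i b : ℕ} {s : St} (hi : i ≤ b) (h : P9_Ok P g i s) :
    sz ((s, none, none) : Out) ≤ 2 * sz P + b * (g + 1) + 7 := by
  obtain ⟨s1, s2, s3, s4⟩ := h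
  obtain ⟨x, y, z⟩ := s
  have h1 : sz y ≤ y.length * (g + 1) + 1 := sz_list_le s3
  have h2 : y.length * (g + 1) ≤ b * (g + 1) := Nat.mul_le_mul_right _ (s2.trans hi)
  have s1' : sz x ≤ sz P := s1
  have s4' : sz z ≤ sz P := s4
  rw [sz_pair, sz_pair (a := x), sz_pair (a := y), sz_pair (a := (none : Option VS)), sz_none,
    sz_none]
  omega

lemma P9_step {n K : ℕ} {E : AS} {P : VS} {g G i b : ℕ} (hi : i < b) {o : Out}
    (hg : ∀ U : VS, sz U ≤ sz P → ∀ b, (growAll K (5 * (n * K)) E U).2.2 = some b → sz b ≤ g)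
    (hG : ∀ o : Out, sz o ≤ 2 * sz P + b * (g + 1) + 7 → sz (mainStep n K E P o) ≤ G)
    (h : P9_Inv P g G i o) : P9_Inv P g G (i + 1) (mainStep n K E P o) := by
  rcases h with ⟨h1, h2, h3⟩ | ⟨h1, h2⟩
  · obtain ⟨s, v, e⟩ := o
    have h1' : v = none := h1
    have h2' : e = none := h2
    subst h1'
    subst h2'
    have h3' : P9_Ok P g i s := h3
    have h4 := hG _ (P9_sz hi.le h3')
    have he : mainStep n K E P (s, none, none) =
        roundA n K E P s (legA E (vOne P s) (farJ E s) s.2.2 (n * K)) := by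
      unfold mainStep
      rfl
    rw [he] at h4 ⊢
    generalize hA : legA E (vOne P s) (farJ E s) s.2.2 (n * K) = A at h4 ⊢
    have h5 := P9_roundA (n := n) (K := K) (E := E) (A := A) h3' hg
    generalize roundA n K E P s A = o' at h4 h5 ⊢
    obtain ⟨s', v', e'⟩ := o'
    cases v' with
    | some v' => exact Or.inr ⟨rfl, h4⟩
    | none =>
      cases e' with
      | some e' => exact Or.inr ⟨rfl, h4⟩
      | none => exact Or.inl ⟨rfl, rfl, h5 rfl rfl⟩
  · right
    have he : mainStep n K E P o = o := by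
      unfold mainStep
      rw [if_pos h1]
    rw [he]
    exact ⟨h1, h2⟩

lemma P9_all {n K : ℕ} {E : AS} {P : VS} {g G b : ℕ}
    (hg : ∀ U : VS, sz U ≤ sz P → ∀ b, (growAll K (5 * (n * K)) E U).2.2 = some b → sz b ≤ g)
    (hG : ∀ o : Out, sz o ≤ 2 * sz P + b * (g + 1) + 7 → sz (mainStep n K E P o) ≤ G) (i : ℕ)
    (hi : i ≤ b) : P9_Inv P g G i ((mainStep n K E P)^[i] (([], [], P.headD 0), none, none)) := by
  induction i with
  | zero =>
    refine Or.inl ⟨rfl, rfl, ?_, ?_, ?_, ?_⟩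
    · exact one_le_sz P
    · exact le_refl 0
    · intro x hx
      exact absurd hx List.not_mem_nil
    · exact P9_headD P
  | succ i ih =>
    rw [Function.iterate_succ_apply']
    exact P9_step (by omega) hg hG (ih (by omega))

lemma P9_final {n K : ℕ} {E : AS} {P : VS} {g G b : ℕ}
    (hg : ∀ U : VS, sz U ≤ sz P → ∀ b, (growAll K (5 * (n * K)) E U).2.2 = some b → sz b ≤ g)
    (hG : ∀ o : Out, sz o ≤ 2 * sz P + b * (g + 1) + 7 → sz (mainStep n K E P o) ≤ G) (i : ℕ)
    (hi : i ≤ b) : sz ((mainStep n K E P)^[i] (([], [], P.headD 0), none, none)) ≤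
      2 * sz P + b * (g + 1) + 7 + G := by
  have h := P9_all hg hG i hi
  generalize (mainStep n K E P)^[i] (([], [], P.headD 0), none, none) = o at h ⊢
  rcases h with ⟨h1, h2, h3⟩ | ⟨-, h2⟩
  · obtain ⟨s, v, e⟩ := o
    have h1' : v = none := h1
    have h2' : e = none := h2
    subst h1'
    subst h2'
    exact (P9_sz hi h3).trans (Nat.le_add_right _ _)
  · exact h2.trans (Nat.le_add_left _ _)

theorem PT.mainLoop (hn : PT n) (hnb : PBd n) (hK : PT K) (hKb : PBd K) (hE : PT E)
    (hP : PT P) : PT fun a => mainLoop (n a) (K a) (E a) (P a) := by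
  obtain ⟨g, hgB, hg⟩ := P9_growBound hn hK hE hP
  have hb : PT fun a => (P a).length + K a + 1 := by fun_prop
  have hbb : PBd fun a => (P a).length + K a + 1 := ((PBd.length hP).add hKb).add (PBd.const 1)
  have hSB : PBd fun a => 2 * sz (P a) + ((P a).length + K a + 1) * (g a + 1) + 7 :=
    (((PBd.const 2).mul hP.bdd).add (hbb.mul (hgB.add (PBd.const 1)))).add (PBd.const 7)
  obtain ⟨G, hGB, hG⟩ := P9_mainBound hn hnb hK hKb hE hP hSB
  have hm := P9_hm hn hnb hK hKb hE hP
  have hs : PT fun a => ((([], [], (P a).headD 0), none, none) : Out) := by fun_prop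
  exact PT.iterNat (f := fun a => H24S.mainStep (n a) (K a) (E a) (P a)) hm hs hb hbb
    (hSB.add hGB) (fun a i hi => P9_final (hg a) (hG a) i hi)

end Pool.Agent.H24S
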