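import Pool.Agent.Lib.H24S.P5
import Pool.Agent.Lib.H24S.P1

/-!
# H24S chunk PA: the assignment of the items in polynomial time

`slots`: `List.range (k5 + 1)` by `PT.rangeN` (`hkb`), `PT.filter`, `PT.flatMap`, `PT.zipIdx`; `cap ≤ 4 |E| + 1` (division by `0` is
`0`), so `PT.rangeN` applies to `List.range (cap ..)`. `asg`: `PT.auction`, the number of steps is `|acc| (|acc| + 2)`.
-/

set_option autoImplicit false

namespace Pool.Agent.H24S

open Pool.Agent.PolyTime

variable {γ : Type} [Enc γ] {E : γ → AS} {M0 Q br : γ → VS} {acc brs : γ → List VS}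
  {k5 p b i : γ → ℕ} {o : γ → ℕ × ℕ × ℕ} {A : γ → List ((ℕ × ℕ × ℕ) × ℕ × Option VS)}

lemma pA_getD {β : Type} [Enc β] {q : γ → Option β} {d : γ → β} (hq : PT q) (hd : PT d) :
    PT fun a => (q a).getD (d a) := by
  have h := PT.optionCases (o := q) (f := d) (g := fun _ z => z) hq hd (by fun_prop)
  refine h.congr fun a => ?_
  cases q a with
  | none => rfl
  | some z => rfl

@[fun_prop] lemma PT.pw (hb : PT b) : PT fun a => pw (b a) := by
  unfold H24S.pw
  exact PT.ofBits (PT.append (PT.map (f := fun _ (_ : Bool) => false) (PT.const _)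
    (PT.tail (PT.bits hb))) (PT.const [true]))

@[fun_prop] lemma PT.accB (hE : PT E) (hM : PT M0) (hQ : PT Q) :
    PT fun a => accB (E a) (M0 a) (Q a) := by
  unfold H24S.accB
  exact PT.decide_le (PT.bL hE hQ) (PT.mul (PT.const 4) (PT.eL hE hQ hM))

lemma pA_class {δ : Type} [Enc δ] {E : δ → AS} {Q : δ → VS} {p : δ → ℕ} (hE : PT E) (hQ : PT Q)
    (hp : PT p) : PT fun a => decide (H24S.pw (H24S.bL (E a) (Q a)) = p a) :=
  PT.decide_eq (f := fun a => H24S.pw (H24S.bL (E a) (Q a))) (g := p) (PT.pw (PT.bL hE hQ)) hp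

@[fun_prop] lemma PT.cap (hE : PT E) (hacc : PT acc) (hbr : PT br) (hp : PT p) :
    PT fun a => cap (E a) (acc a) (br a) (p a) := by
  unfold H24S.cap
  have h1 : PT fun a => ((acc a).filter fun Q => decide (H24S.pw (H24S.bL (E a) Q) = p a)) :=
    PT.filter (f := fun a (Q : VS) => decide (H24S.pw (H24S.bL (E a) Q) = p a))
      (pA_class (E := fun q : γ × VS => E q.1) (Q := fun q => q.2) (p := fun q => p q.1)
        (hE.comp PT.fst') (by fun_prop) (hp.comp PT.fst')) hacc
  exact PT.succ (PT.div (PT.mul (PT.const 4) (PT.eL hE (PT.flatten h1) hbr)) hp)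

lemma pA_cap_le (E : AS) (acc : List VS) (br : VS) (p : ℕ) :
    H24S.cap E acc br p ≤ 4 * E.length + 1 := by
  unfold H24S.cap
  refine Nat.succ_le_succ ((Nat.div_le_self _ _).trans (Nat.mul_le_mul_left 4 ?_))
  unfold H24S.eL
  exact List.length_filter_le _ _

theorem PT.slots (hE : PT E) (hk : PT k5) (hkb : PBd k5) (hacc : PT acc) (hbrs : PT brs) :
    PT fun a => slots (E a) (k5 a) (acc a) (brs a) := by
  unfold H24S.slots
  have h1 : PT fun a => (List.range (k5 a + 1)).filter fun p =>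
      (acc a).any fun Q => decide (H24S.pw (H24S.bL (E a) Q) = p) := by
    refine PT.filter (f := fun a p => (acc a).any fun Q => decide (H24S.pw (H24S.bL (E a) Q) = p)) ?_
      (PT.rangeN (PT.succ hk) (PBd.add hkb (PBd.const 1)))
    refine PT.any (f := fun (q : γ × ℕ) (Q : VS) => decide (H24S.pw (H24S.bL (E q.1) Q) = q.2)) ?_
      (hacc.comp PT.fst')
    exact pA_class (E := fun q : (γ × ℕ) × VS => E q.1.1) (Q := fun q => q.2)
      (p := fun q => q.1.2) (hE.comp (by fun_prop)) (by fun_prop) (by fun_prop)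
  refine PT.flatMap (f := fun a p => (brs a).zipIdx.flatMap fun bi =>
    (List.range (H24S.cap (E a) (acc a) bi.1 p)).map fun t => (p, bi.2, t)) ?_ h1
  refine PT.flatMap (f := fun (q : γ × ℕ) (bi : VS × ℕ) =>
    (List.range (H24S.cap (E q.1) (acc q.1) bi.1 q.2)).map fun t => (q.2, bi.2, t)) ?_
    (PT.zipIdx (hbrs.comp PT.fst'))
  refine PT.map (f := fun (q : (γ × ℕ) × (VS × ℕ)) (t : ℕ) => (q.1.2, q.2.2, t)) (by fun_prop) ?_
  refine PT.rangeN (PT.cap (E := fun q : (γ × ℕ) × (VS × ℕ) => E q.1.1) (acc := fun q => acc q.1.1)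
    (br := fun q => q.2.1) (p := fun q => q.1.2) (hE.comp (by fun_prop)) (hacc.comp (by fun_prop))
    (by fun_prop) (by fun_prop)) ?_
  refine PBd.mono (fun q => pA_cap_le (E q.1.1) (acc q.1.1) q.2.1 q.1.2) ?_
  exact PBd.add (PBd.mul (PBd.const 4) (PBd.length (hE.comp (by fun_prop)))) (PBd.const 1)

lemma PT.asgC (hE : PT E) (hacc : PT acc) (hbrs : PT brs) (hQ : PT Q) (ho : PT o) :
    PT fun a => asgC (E a) (acc a) (brs a) (Q a) (o a) := by
  unfold H24S.asgC
  refine PT.ite (PT.decide_and ?_ ?_) (PT.const 0) (PT.succ (PT.length hacc))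
  · exact pA_class (E := E) (Q := Q) (p := fun a => (o a).1) hE hQ (PT.fst ho)
  · refine PT.decide_lt (PT.const 0) (PT.eL hE hQ ?_)
    exact pA_getD (PT.getElem? hbrs (PT.fst (PT.snd ho))) (PT.const [])

theorem PT.asg (hE : PT E) (hk : PT k5) (hkb : PBd k5) (hacc : PT acc) (hbrs : PT brs) :
    PT fun a => asg (E a) (k5 a) (acc a) (brs a) := by
  unfold H24S.asg
  refine PT.auction (Ps := acc) (Os := fun a => H24S.slots (E a) (k5 a) (acc a) (brs a))
    (cost := fun a => H24S.asgC (E a) (acc a) (brs a))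
    (steps := fun a => (acc a).length * ((acc a).length + 2)) hacc
    (PT.slots hE hk hkb hacc hbrs) ?_ ?_ ?_
  · exact PT.asgC (E := fun q : γ × VS × (ℕ × ℕ × ℕ) => E q.1) (acc := fun q => acc q.1)
      (brs := fun q => brs q.1) (Q := fun q => q.2.1) (o := fun q => q.2.2) (hE.comp PT.fst')
      (hacc.comp PT.fst') (hbrs.comp PT.fst') (by fun_prop) (by fun_prop)
  · exact PT.mul (PT.length hacc) (PT.add (PT.length hacc) (PT.const 2))
  · exact PBd.mul (PBd.length hacc) (PBd.add (PBd.length hacc) (PBd.const 2))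

lemma PT.hung (hacc : PT acc) (hA : PT A) (hi : PT i) :
    PT fun a => hung (acc a) (A a) (i a) := by
  unfold H24S.hung
  refine PT.filter (f := fun a (Q : VS) => (A a).any fun z =>
    decide (z.2.2 = some Q) && decide (z.1.2.1 = i a)) ?_ hacc
  refine PT.any (f := fun (q : γ × VS) (z : (ℕ × ℕ × ℕ) × ℕ × Option VS) =>
    decide (z.2.2 = some q.2) && decide (z.1.2.1 = i q.1)) ?_ (hA.comp PT.fst')
  refine PT.and ?_ ?_
  · exact PT.decide_eq (f := fun q : (γ × VS) × ((ℕ × ℕ × ℕ) × ℕ × Option VS) => q.2.2.2)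
      (g := fun q => some q.1.2) (by fun_prop) (by fun_prop)
  · exact PT.decide_eq (f := fun q : (γ × VS) × ((ℕ × ℕ × ℕ) × ℕ × Option VS) => q.2.1.2.1)
      (g := fun q => i q.1.1) (by fun_prop) (hi.comp (by fun_prop))

end Pool.Agent.H24S
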