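import Pool.Agent.Lib.H24S.PA
import Pool.Agent.Lib.H24S.P2
import Pool.Agent.Lib.H24S.P9

/-!
# H24S chunk PB: one step of the recursion in polynomial time

Compositions (`PT.map`, `PT.flatMap`, `PT.filter`, `PT.ite`, `PT.optionCases`, `PT.find?`); no iteration.
-/

set_option autoImplicit false

namespace Pool.Agent.H24S

open Pool.Agent.PolyTime

variable {γ : Type} [Enc γ] {E : γ → AS} {P A : γ → VS} {acc brs rit its una : γ → List VS}
  {n K k5 r : γ → ℕ} {Ds : γ → List (VS × AS)}

theorem pb_dList (hE : PT E) (hk : PT k5) (hkb : PBd k5) (hbrs : PT brs) (hacc : PT acc)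
    (hrit : PT rit) : PT fun a => dList (E a) (k5 a) (brs a) (acc a) (rit a) := by
  have hA : PT fun a => asg (E a) (k5 a) (acc a) (brs a) := PT.asg hE hk hkb hacc hbrs
  have hcons : PT fun p : γ × (VS × ℕ) =>
      p.2.1 :: hung (acc p.1) (asg (E p.1) (k5 p.1) (acc p.1) (brs p.1)) p.2.2 :=
    PT.cons (PT.fst PT.snd') (PT.hung (hacc.comp PT.fst') (hA.comp PT.fst') (PT.snd PT.snd'))
  unfold dList
  refine PT.append ?_ ?_
  · exact PT.map (f := fun a bi => ((bi.1 :: hung (acc a) (asg (E a) (k5 a) (acc a) (brs a)) bi.2).flatten,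
      joinT (E a) (bi.1 :: hung (acc a) (asg (E a) (k5 a) (acc a) (brs a)) bi.2)))
      (PT.pair (PT.flatten hcons) (PT.joinT (hE.comp PT.fst') hcons)) (PT.zipIdx hbrs)
  · exact PT.map (f := fun a Q => (Q, spt (E a) Q))
      (PT.pair PT.snd' (PT.spt (hE.comp PT.fst') PT.snd')) hrit

theorem pb_finishD (hE : PT E) (hA : PT A) (hr : PT r) (hD : PT Ds) (hu : PT una) :
    PT fun a => finishD (E a) (A a) (r a) (Ds a) (una a) := by
  have hc : PT fun a => comps (E a) (A a) := PT.comps hE hA
  have hmV : PT fun a => mainV (r a) (Ds a) := by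
    unfold mainV
    exact PT.cons hr (PT.flatMap (f := fun _ (D : VS × AS) => D.1) (PT.fst PT.snd') hD)
  have hmT : PT fun a => mainT (E a) (r a) (Ds a) := by
    unfold mainT
    exact PT.flatMap (f := fun a (D : VS × AS) => hook (E a) D.1 (r a) ++ D.2)
      (PT.append (PT.hook (hE.comp PT.fst') (PT.fst PT.snd') (hr.comp PT.fst')) (PT.snd PT.snd')) hD
  have hfP : PT fun a => finParts (E a) (A a) (r a) (Ds a) (una a) := by
    unfold finParts
    exact PT.cons hmV (PT.append hu hc)
  unfold finishD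
  refine PT.pair hc (PT.append (PT.snd (PT.kruskal hE hfP)) (PT.append hmT ?_))
  exact PT.flatMap (f := fun a Q => spt (E a) Q) (PT.spt (hE.comp PT.fst') PT.snd') hu

theorem pb_finish (hk : PT k5) (hkb : PBd k5) (hE : PT E) (hA : PT A) (hr : PT r) (hbrs : PT brs)
    (hits : PT its) : PT fun a => finish (k5 a) (E a) (A a) (r a) (brs a) (its a) := by
  have hadj : PT fun p : γ × VS => adjS (E p.1) p.2 (r p.1) :=
    PT.adjS (hE.comp PT.fst') PT.snd' (hr.comp PT.fst')
  have hrb : PT fun a => r a :: (brs a).flatten := PT.cons hr (PT.flatten hbrs)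
  have haB : PT fun p : γ × VS => accB (E p.1) (r p.1 :: (brs p.1).flatten) p.2 :=
    PT.accB (hE.comp PT.fst') (hrb.comp PT.fst') PT.snd'
  have h1 : PT fun a => rootI (E a) (r a) (its a) := by
    unfold rootI
    exact PT.filter (f := fun a Q => adjS (E a) Q (r a)) hadj hits
  have h2 : PT fun a => accI (E a) (r a) (brs a) (its a) := by
    unfold accI
    exact PT.filter (f := fun a Q => !adjS (E a) Q (r a) && accB (E a) (r a :: (brs a).flatten) Q)
      (PT.and (PT.not hadj) haB) hits
  have h3 : PT fun a => unaI (E a) (r a) (brs a) (its a) := by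
    unfold unaI
    exact PT.filter (f := fun a Q => !adjS (E a) Q (r a) && !accB (E a) (r a :: (brs a).flatten) Q)
      (PT.and (PT.not hadj) (PT.not haB)) hits
  unfold finish
  exact pb_finishD hE hA hr (pb_dList hE hk hkb hbrs h2 h1) h3

theorem pb_split (hE : PT E) (hP : PT P) (hA : PT A) : PT fun a => split (E a) (P a) (A a) := by
  have h1 : PT fun a => comps (E a) (itr (P a) (A a)) ++ comps (E a) (dif (P a) (A a)) :=
    PT.append (PT.comps hE (PT.itr hP hA)) (PT.comps hE (PT.dif hP hA))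
  unfold split
  exact PT.pair h1 (PT.snd (PT.kruskal hE h1))

theorem pb_useOut {o : γ → Out} (hn : PT n) (hnb : PBd n) (hK : PT K) (hKb : PBd K) (hE : PT E)
    (hP : PT P) (ho : PT o) : PT fun a => useOut (n a) (K a) (E a) (P a) (o a) := by
  have hk : PT fun a => 5 * (n a * K a) := PT.mul (PT.const 5) (PT.mul hn hK)
  have hkb : PBd fun a => 5 * (n a * K a) := (PBd.const 5).mul (hnb.mul hKb)
  unfold useOut
  refine (PT.optionCases (o := fun a => (o a).2.1)
    (f := fun a => (match (o a).2.2 with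
      | none => (([] : List VS), spt (E a) (P a))
      | some x => finish (5 * (n a * K a)) (E a) (o a).1.1 (o a).1.2.2 x.1 x.2))
    (g := fun a A => H24S.split (E a) (P a) A) (PT.fst (PT.snd ho)) ?_ ?_).congr fun a => ?_
  · refine (PT.optionCases (o := fun a => (o a).2.2) (f := fun a => (([] : List VS), spt (E a) (P a)))
      (g := fun a x => H24S.finish (5 * (n a * K a)) (E a) (o a).1.1 (o a).1.2.2 x.1 x.2)
      (PT.snd (PT.snd ho)) (PT.pair (PT.const []) (PT.spt hE hP)) ?_).congr fun a => by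
        cases (o a).2.2 <;> rfl
    exact pb_finish (γ := γ × (List VS × List VS)) (k5 := fun p => 5 * (n p.1 * K p.1))
      (E := fun p => E p.1) (A := fun p => (o p.1).1.1) (r := fun p => (o p.1).1.2.2)
      (brs := fun p => p.2.1) (its := fun p => p.2.2)
      (hk.comp PT.fst') (PBd.fst hkb) (hE.comp PT.fst') ((PT.fst (PT.fst ho)).comp PT.fst')
      ((PT.snd (PT.snd (PT.fst ho))).comp PT.fst') (PT.fst PT.snd') (PT.snd PT.snd')
  · exact pb_split (γ := γ × VS) (hE.comp PT.fst') (hP.comp PT.fst') PT.snd'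
  · cases h1 : (o a).2.1 with
    | none =>
      cases h2 : (o a).2.2 with
      | none => simp only
      | some x => simp only
    | some A => simp only

theorem pb_stepE (hn : PT n) (hnb : PBd n) (hK : PT K) (hKb : PBd K) (hE : PT E) (hP : PT P) :
    PT fun a => stepE (n a) (K a) (E a) (P a) := by
  unfold stepE
  refine PT.ite (p := fun a => wL (E a) (P a) ≤ n a * K a)
    (PT.decide_le (PT.wL hE hP) (PT.mul hn hK)) (PT.pair (PT.const []) (PT.spt hE hP)) ?_
  have hf : PT fun a => (P a).find? fun v => vio (K a) (E a) (P a) [v] :=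
    PT.find? (f := fun a v => vio (K a) (E a) (P a) [v])
      (PT.vio (hK.comp PT.fst') (hE.comp PT.fst') (hP.comp PT.fst')
        (PT.cons PT.snd' (PT.const []))) hP
  refine (PT.optionCases (f := fun a => useOut (n a) (K a) (E a) (P a)
      (mainLoop (n a) (K a) (E a) (P a)))
    (g := fun a v => H24S.split (E a) (P a) [v]) hf
    (pb_useOut hn hnb hK hKb hE hP (PT.mainLoop hn hnb hK hKb hE hP))
    (pb_split (γ := γ × ℕ) (hE.comp PT.fst') (hP.comp PT.fst')
      (PT.cons PT.snd' (PT.const [])))).congr fun a => ?_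
  cases (P a).find? fun v => vio (K a) (E a) (P a) [v] <;> rfl

theorem pb_stepF (hn : PT n) (hnb : PBd n) (hK : PT K) (hKb : PBd K) (hE : PT E) (hP : PT P) :
    PT fun a => stepF (n a) (K a) (E a) (P a) := by
  have h1 : PT fun a => H24S.stepE (n a) (K a) (H24S.inside (E a) (P a)) (P a) :=
    pb_stepE hn hnb hK hKb (PT.inside hE hP) hP
  unfold stepF guardP
  have hall : PT fun a => (H24S.stepE (n a) (K a) (H24S.inside (E a) (P a)) (P a)).1.all
      fun Q => !Q.isEmpty && Q.all fun v => decide (v ∈ P a) := by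
    refine PT.all (f := fun a (Q : VS) => !Q.isEmpty && Q.all fun v => decide (v ∈ P a)) ?_
      (PT.fst h1)
    refine PT.and (PT.not (PT.isEmpty PT.snd')) ?_
    exact PT.all (f := fun (p : γ × VS) v => decide (v ∈ P p.1))
      (PT.mem PT.snd' (hP.comp (PT.fst PT.fst'))) PT.snd'
  refine (PT.bif (PT.and (PT.decide_le (PT.length (PT.flatten (PT.fst h1))) (PT.length hP)) hall)
    h1 (PT.pair (PT.const []) (PT.snd h1))).congr fun a => ?_
  rw [cond_eq_ite]
theorem PT.dList (hE : PT E) (hk : PT k5) (hkb : PBd k5) (hbrs : PT brs) (hacc : PT acc)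
    (hrit : PT rit) : PT fun a => dList (E a) (k5 a) (brs a) (acc a) (rit a) :=
  pb_dList hE hk hkb hbrs hacc hrit

theorem PT.finishD (hE : PT E) (hA : PT A) (hr : PT r) (hD : PT Ds) (hu : PT una) :
    PT fun a => finishD (E a) (A a) (r a) (Ds a) (una a) :=
  pb_finishD hE hA hr hD hu

theorem PT.finish (hk : PT k5) (hkb : PBd k5) (hE : PT E) (hA : PT A) (hr : PT r) (hbrs : PT brs)
    (hits : PT its) : PT fun a => finish (k5 a) (E a) (A a) (r a) (brs a) (its a) :=
  pb_finish hk hkb hE hA hr hbrs hits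

theorem PT.split (hE : PT E) (hP : PT P) (hA : PT A) : PT fun a => split (E a) (P a) (A a) :=
  pb_split hE hP hA

theorem PT.stepE (hn : PT n) (hnb : PBd n) (hK : PT K) (hKb : PBd K) (hE : PT E) (hP : PT P) :
    PT fun a => stepE (n a) (K a) (E a) (P a) :=
  pb_stepE hn hnb hK hKb hE hP

theorem PT.stepF (hn : PT n) (hnb : PBd n) (hK : PT K) (hKb : PBd K) (hE : PT E) (hP : PT P) :
    PT fun a => stepF (n a) (K a) (E a) (P a) :=
  pb_stepF hn hnb hK hKb hE hP

end Pool.Agent.H24S
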