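import Pool.Agent.Lib.H24S.PB

/-!
# H24S chunk PC: the whole algorithm in polynomial time

* `PT.roundF`: `PT.flatMap`, `PT.stepF` with the parameters `(a, P)`.
* `PT.solve`: `PT.iterNat` with `b = n`, start `([List.range n], [])` (`PT.rangeN`). Size after `i` rounds for all inputs: the
  pending parts are nonempty, their total length is `≤ n` and their elements are in `range n` (the guard `guardP` in
  `stepF`; for `n = 0` the first part is `[]`: use the total length `+ 1` as a bound for the number of parts), so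
  `sz_lists_le`; each round adds to the arcs at most `(n + 1)` lists `(stepF P).2` of size `≤ c (sz of the parameters)^k`
  (`PT.bdd`).
* `PT.algo`: `parseN`: `PT.find?` on `List.range`, value `≤ |l|`; `parseE`: filter of a product, `PT.getElem?`;
  `getK ≤ n`.
-/

set_option autoImplicit false

namespace Pool.Agent.H24S

open Pool.Agent.PolyTime

variable {γ : Type} [Enc γ] {E : γ → AS} {n K : γ → ℕ}

lemma PT.stepF_pair (hn : PT n) (hnb : PBd n) (hK : PT K) (hKb : PBd K) (hE : PT E) :
    PT fun p : γ × VS => H24S.stepF (n p.1) (K p.1) (E p.1) p.2 :=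
  PT.stepF (n := fun p : γ × VS => n p.1) (K := fun p : γ × VS => K p.1)
    (E := fun p : γ × VS => E p.1) (P := fun p : γ × VS => p.2)
    (hn.comp PT.fst') (PBd.fst hnb) (hK.comp PT.fst') (PBd.fst hKb) (hE.comp PT.fst') PT.snd'

theorem PT.roundF {s : γ → List VS × AS} (hn : PT n) (hnb : PBd n) (hK : PT K) (hKb : PBd K)
    (hE : PT E) (hs : PT s) : PT fun a => H24S.roundF (n a) (K a) (E a) (s a) := by
  have h := PT.stepF_pair hn hnb hK hKb hE
  have h1 : PT fun a => (s a).1.flatMap fun P => (H24S.stepF (n a) (K a) (E a) P).1 :=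
    PT.flatMap (f := fun a P => (H24S.stepF (n a) (K a) (E a) P).1) (PT.fst h) (PT.fst hs)
  have h2 : PT fun a => (s a).1.flatMap fun P => (H24S.stepF (n a) (K a) (E a) P).2 :=
    PT.flatMap (f := fun a P => (H24S.stepF (n a) (K a) (E a) P).2) (PT.snd h) (PT.fst hs)
  exact PT.pair h1 (PT.append h2 (PT.snd hs))

/-- what the guard guarantees -/
lemma guardP_spec (P : VS) (out : List VS × AS) :
    (guardP P out).1.flatten.length ≤ P.length ∧
      ∀ Q ∈ (guardP P out).1, Q ≠ [] ∧ ∀ v ∈ Q, v ∈ P := by
  unfold guardP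
  split_ifs with h
  · rw [Bool.and_eq_true, decide_eq_true_eq, List.all_eq_true] at h
    refine ⟨h.1, fun Q hQ => ?_⟩
    have h1 := h.2 Q hQ
    rw [Bool.and_eq_true, List.all_eq_true] at h1
    refine ⟨?_, fun v hv => ?_⟩
    · rintro rfl
      simp at h1
    · exact of_decide_eq_true (h1.2 v hv)
  · simp

/-- the invariant of the list of the pending parts -/
def PInv (N : ℕ) (L : List VS) : Prop :=
  L.flatten.length ≤ N ∧ (∀ v ∈ L.flatten, v < N) ∧ L.length ≤ N + 1

lemma length_le_flatten {L : List VS} (h : ∀ Q ∈ L, Q ≠ []) : L.length ≤ L.flatten.length := by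
  induction L with
  | nil => simp
  | cons Q L ih =>
    rw [List.length_cons, List.flatten_cons, List.length_append]
    have h1 := ih fun Q' hQ' => h Q' (List.mem_cons_of_mem _ hQ')
    have h2 : 0 < Q.length := List.length_pos_iff.2 (h Q List.mem_cons_self)
    omega

lemma flatten_flatMap_length {L : List VS} {f : VS → List VS}
    (h : ∀ P ∈ L, (f P).flatten.length ≤ P.length) :
    (L.flatMap f).flatten.length ≤ L.flatten.length := by
  induction L with
  | nil => simp
  | cons Q L ih =>
    rw [List.flatMap_cons, List.flatten_append, List.flatten_cons, List.length_append,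
      List.length_append]
    exact Nat.add_le_add (h Q List.mem_cons_self)
      (ih fun Q' hQ' => h Q' (List.mem_cons_of_mem _ hQ'))

lemma PInv.round {N n K : ℕ} {E : AS} {s : List VS × AS} (h : PInv N s.1) :
    PInv N (H24S.roundF n K E s).1 := by
  have h1 : (H24S.roundF n K E s).1 = s.1.flatMap fun P => (H24S.stepF n K E P).1 := rfl
  have hs : ∀ P : VS, (H24S.stepF n K E P).1.flatten.length ≤ P.length ∧
      ∀ Q ∈ (H24S.stepF n K E P).1, Q ≠ [] ∧ ∀ v ∈ Q, v ∈ P := fun P => guardP_spec P _
  have h2 : (s.1.flatMap fun P => (H24S.stepF n K E P).1).flatten.length ≤ s.1.flatten.length :=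
    flatten_flatMap_length fun P _ => (hs P).1
  have h3 : ∀ Q ∈ s.1.flatMap (fun P => (H24S.stepF n K E P).1), Q ≠ [] ∧
      ∀ v ∈ Q, v ∈ s.1.flatten := by
    intro Q hQ
    obtain ⟨P, hP, hQP⟩ := List.mem_flatMap.1 hQ
    refine ⟨((hs P).2 Q hQP).1, fun v hv => ?_⟩
    exact List.mem_flatten.2 ⟨P, hP, ((hs P).2 Q hQP).2 v hv⟩
  rw [h1]
  refine ⟨h2.trans h.1, ?_, ?_⟩
  · intro v hv
    obtain ⟨Q, hQ, hvQ⟩ := List.mem_flatten.1 hv
    exact h.2.1 v ((h3 Q hQ).2 v hvQ)
  · have h4 := length_le_flatten fun Q hQ => (h3 Q hQ).1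
    exact (h4.trans (h2.trans h.1)).trans (Nat.le_succ N)

lemma PInv.start (N : ℕ) : PInv N [List.range N] := by
  refine ⟨by simp, ?_, by simp⟩
  intro v hv
  simpa using hv

lemma PInv.sz_le {N : ℕ} {L : List VS} (h : PInv N L) :
    sz L ≤ (N + 1) * (4 * N + 1 + 4) + 1 :=
  sz_lists_le h.2.2 (h.1.trans (Nat.le_succ N)) fun v hv =>
    (sz_nat_le_self v).trans (by have := h.2.1 v hv; omega)

lemma sz_flatMap_le {α β : Type} [Enc β] {L : List α} {f : α → List β} {R : ℕ}
    (h : ∀ P ∈ L, sz (f P) ≤ R) : sz (L.flatMap f) ≤ 1 + L.length * R := by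
  induction L with
  | nil => simp
  | cons Q L ih =>
    rw [List.flatMap_cons, List.length_cons]
    have h1 := sz_append (f Q) (L.flatMap f)
    have h2 := ih fun Q' hQ' => h Q' (List.mem_cons_of_mem _ hQ')
    have h3 := h Q List.mem_cons_self
    nlinarith

theorem PT.solve (hn : PT n) (hnb : PBd n) (hK : PT K) (hKb : PBd K) (hE : PT E) :
    PT fun a => H24S.solve (n a) (K a) (E a) := by
  obtain ⟨c, k, hck⟩ := PT.bdd (PT.stepF_pair hn hnb hK hKb hE)
  -- bound for the pieces
  obtain ⟨R, hR⟩ : ∃ R : γ → ℕ, R = fun a =>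
      c * (sz a + ((n a + 1) * (4 * n a + 1 + 4) + 1) + 1) ^ k := ⟨_, rfl⟩
  obtain ⟨B, hB⟩ : ∃ B : γ → ℕ, B = fun a => ((n a + 1) * (4 * n a + 1 + 4) + 1) +
      (1 + n a * ((n a + 1) * R a)) + 1 := ⟨_, rfl⟩
  have hL : PBd fun a => (n a + 1) * (4 * n a + 1 + 4) + 1 :=
    PBd.add (PBd.mul (PBd.add hnb (PBd.const 1))
      (PBd.add (PBd.add (PBd.mul (PBd.const 4) hnb) (PBd.const 1)) (PBd.const 4))) (PBd.const 1)
  have hRb : PBd R := by
    rw [hR]
    exact PBd.mul (PBd.const c) (PBd.pow (PBd.add (PBd.add PBd.sz hL) (PBd.const 1)) k)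
  have hBb : PBd B := by
    rw [hB]
    exact PBd.add (PBd.add hL (PBd.add (PBd.const 1) (PBd.mul hnb
      (PBd.mul (PBd.add hnb (PBd.const 1)) hRb)))) (PBd.const 1)
  have key : ∀ a i, i ≤ n a →
      PInv (n a) ((H24S.roundF (n a) (K a) (E a))^[i] ([List.range (n a)], [])).1 ∧
      sz ((H24S.roundF (n a) (K a) (E a))^[i] ([List.range (n a)], [])).2 ≤
        1 + i * ((n a + 1) * R a) := by
    intro a i
    induction i with
    | zero =>
      intro _
      rw [Function.iterate_zero, _root_.id]
      exact ⟨PInv.start _, by simp⟩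
    | succ i ih =>
      intro hi
      obtain ⟨ih1, ih2⟩ := ih (by omega)
      rw [Function.iterate_succ_apply']
      set s := (H24S.roundF (n a) (K a) (E a))^[i] ([List.range (n a)], []) with hs
      refine ⟨ih1.round, ?_⟩
      have e : (H24S.roundF (n a) (K a) (E a) s).2 =
        (s.1.flatMap fun P => (H24S.stepF (n a) (K a) (E a) P).2) ++ s.2 := rfl
      rw [e]
      have h1 := sz_append (s.1.flatMap fun P => (H24S.stepF (n a) (K a) (E a) P).2) s.2
      have h2 : sz (s.1.flatMap fun P => (H24S.stepF (n a) (K a) (E a) P).2) ≤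
          1 + s.1.length * R a := by
        refine sz_flatMap_le fun P hP => ?_
        have h3 := hck (a, P)
        have h4 : sz (H24S.stepF (n a) (K a) (E a) P).2 ≤ sz (H24S.stepF (n a) (K a) (E a) P) := by
          rw [sz_prod]
          omega
        refine h4.trans (h3.trans ?_)
        rw [hR]
        refine Nat.mul_le_mul_left _ (Nat.pow_le_pow_left ?_ k)
        rw [sz_pair]
        have h5 : sz P ≤ sz s.1 := sz_le_of_mem hP
        have h6 := ih1.sz_le
        omega
      have h7 : s.1.length * R a ≤ (n a + 1) * R a := Nat.mul_le_mul_right _ ih1.2.2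
      have h8 : (i + 1) * ((n a + 1) * R a) = i * ((n a + 1) * R a) + (n a + 1) * R a := by ring
      omega
  have hit := PT.iterNat (f := fun a => H24S.roundF (n a) (K a) (E a))
    (s := fun a => ([List.range (n a)], ([] : AS))) (b := n) (B := B)
    (PT.roundF (γ := γ × (List VS × AS)) (n := fun p => n p.1) (K := fun p => K p.1)
      (E := fun p => E p.1) (s := fun p => p.2) (hn.comp PT.fst') (PBd.fst hnb)
      (hK.comp PT.fst') (PBd.fst hKb) (hE.comp PT.fst') PT.snd')
    (PT.pair (PT.cons (PT.rangeN hn hnb) (PT.const _)) (PT.const _)) hn hnb hBb (by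
      intro a i hi
      obtain ⟨h1, h2⟩ := key a i hi
      rw [sz_prod]
      have h3 := h1.sz_le
      have h4 : i * ((n a + 1) * R a) ≤ n a * ((n a + 1) * R a) := Nat.mul_le_mul_right _ hi
      rw [hB]
      show _ ≤ ((n a + 1) * (4 * n a + 1 + 4) + 1) + (1 + n a * ((n a + 1) * R a)) + 1
      omega)
  exact PT.snd hit

/-! ### input and output -/

lemma PT.getD {α β : Type} [Enc α] [Enc β] {o : α → Option β} {d : α → β} (ho : PT o)
    (hd : PT d) : PT fun a => (o a).getD (d a) := by
  refine (PT.optionCases (o := o) (f := d) (g := fun _ b => b) ho hd (by fun_prop)).congr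
    fun a => ?_
  cases o a <;> rfl

lemma PT.parseN : PT H24S.parseN := by
  have h1 : PT fun l : List Bool => List.range (true :: l).length :=
    PT.rangeLength (PT.cons (PT.const true) PT.id)
  have h2 : PT fun l : List Bool =>
      ((List.range (true :: l).length).find? fun k => decide (k * k = l.length)) :=
    PT.find? (f := fun (l : List Bool) (k : ℕ) => decide (k * k = l.length))
      (PT.decide_eq (PT.mul PT.snd' PT.snd') (PT.length PT.fst')) h1
  exact PT.getD h2 (PT.const 0)

lemma parseN_le (l : List Bool) : H24S.parseN l ≤ l.length := by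
  unfold H24S.parseN
  cases h : (List.range (l.length + 1)).find? fun k => decide (k * k = l.length) with
  | none => simp
  | some k =>
    have h1 := List.mem_of_find?_eq_some h
    rw [List.mem_range] at h1
    simp only [Option.getD_some]
    omega

lemma PBd.parseN : PBd H24S.parseN :=
  PBd.mono (fun l => (parseN_le l).trans (length_lt_sz l).le) PBd.sz

lemma PT.parseE : PT fun l : List Bool => H24S.parseE (H24S.parseN l) l := by
  have h1 : PT fun l : List Bool => List.range (H24S.parseN l) :=
    PT.rangeN PT.parseN PBd.parseN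
  refine PT.filter (f := fun (l : List Bool) (x : ℕ × ℕ) =>
    (l[x.1 * H24S.parseN l + x.2]?).getD false) ?_ (PT.product h1 h1)
  have h2 : PT fun p : List Bool × (ℕ × ℕ) => H24S.parseN p.1 :=
    PT.parseN.comp PT.fst'
  exact PT.getD (PT.getElem? PT.fst'
    (PT.add (PT.mul (PT.fst PT.snd') h2) (PT.snd PT.snd'))) (PT.const false)

lemma PT.getK : PT fun l : List Bool =>
    H24S.getK (H24S.parseN l) (H24S.parseE (H24S.parseN l) l) := by
  have h1 : PT fun l : List Bool => List.range (H24S.parseN l + 1) :=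
    PT.rangeN (PT.succ PT.parseN) (PBd.add PBd.parseN (PBd.const 1))
  have h2 : PT fun p : List Bool × ℕ => H24S.parseN p.1 :=
    PT.parseN.comp PT.fst'
  have h3 : PT fun p : List Bool × ℕ => H24S.parseE (H24S.parseN p.1) p.1 :=
    PT.parseE.comp PT.fst'
  have h4 : PT fun l : List Bool => ((List.range (H24S.parseN l + 1)).find? fun k =>
      decide ((H24S.parseE (H24S.parseN l) l).length ≤
        2 * (H24S.parseN l * (k * k)))) :=
    PT.find? (f := fun (l : List Bool) (k : ℕ) =>
      decide ((H24S.parseE (H24S.parseN l) l).length ≤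
        2 * (H24S.parseN l * (k * k))))
      (PT.decide_le (PT.length h3) (PT.mul (PT.const 2) (PT.mul h2 (PT.mul PT.snd' PT.snd')))) h1
  exact PT.getD h4 (PT.const 0)

lemma getK_le (n : ℕ) (E : AS) : H24S.getK n E ≤ n := by
  unfold H24S.getK
  cases h : (List.range (n + 1)).find? fun k => decide (E.length ≤ 2 * (n * (k * k))) with
  | none => simp
  | some k =>
    have h1 := List.mem_of_find?_eq_some h
    rw [List.mem_range] at h1
    simp only [Option.getD_some]
    omega

lemma PBd.getK : PBd fun l : List Bool => H24S.getK (H24S.parseN l)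
    (H24S.parseE (H24S.parseN l) l) :=
  PBd.mono (fun _ => getK_le _ _) PBd.parseN

lemma PT.theTree : PT fun l : List Bool =>
    H24S.theTree (H24S.parseN l) (H24S.parseE (H24S.parseN l) l) := by
  unfold H24S.theTree
  have h1 : PT fun l : List Bool => List.range (H24S.parseN l) :=
    PT.rangeN PT.parseN PBd.parseN
  exact PT.ite (PT.decide_lt PT.getK (PT.const 8)) (PT.spt PT.parseE h1)
    (PT.solve PT.parseN PBd.parseN PT.getK PBd.getK PT.parseE)

lemma PT.memPair {γ : Type} [Enc γ] {f : γ → ℕ × ℕ} {l : γ → AS} (hf : PT f) (hl : PT l) :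
    PT fun a => decide (f a ∈ l a) :=
  (PT.mem hf hl).congr fun _ => decide_eq_decide.2 Iff.rfl

lemma PT.outBits {γ : Type} [Enc γ] {m : γ → ℕ} {T : γ → AS} (hm : PT m) (hmb : PBd m)
    (hT : PT T) : PT fun a => H24S.outBits (m a) (T a) := by
  unfold H24S.outBits
  have h1 : PT fun a => List.range (m a) := PT.rangeN hm hmb
  have h2 : PT fun p : γ × (ℕ × ℕ) => T p.1 := hT.comp PT.fst'
  have h3 : PT fun p : γ × (ℕ × ℕ) => p.2.swap := PT.pair (PT.snd PT.snd') (PT.fst PT.snd')
  exact PT.map (f := fun (a : γ) (x : ℕ × ℕ) => decide (x ∈ T a) || decide (x.swap ∈ T a))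
    (PT.or (PT.memPair PT.snd' h2) (PT.memPair h3 h2)) (PT.product h1 h1)

theorem PT.algo : PT algo :=
  (PT.outBits PT.parseN PBd.parseN PT.theTree).congr fun _ => rfl

end Pool.Agent.H24S
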