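import Pool.Agent.Lib.H24S.S2

/-!
# H24S chunk S3: the recursion

`rounds_ok`, by induction on `k`: if the pending parts (duplicate free and disjoint: `flatten.Nodup`, nonempty,
connected, inside `range n`) have length `≤ k`, then after `k` rounds there is no pending part and the list of
arcs is a permutation of `pend.flatMap tr ++ T0`, with `tr P` a good tree of `P` for every pending part.
Step: `k = 0`: no pending part. `k + 1`: the new pending parts are `pend.flatMap (stepF P).1`, of length
`< |P| ≤ k + 1` (`StepOK.sub`), disjoint for the same `P` (`StepOK.nd`) and for different `P` (subsets). Induction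
hypothesis gives `tr'`; `tr P := (stepF P).2 ++ (stepF P).1.flatMap tr'` is good by `StepOK.tree`.
Permutations: `List.flatMap_append_perm`, `List.flatMap_assoc`, `List.perm_append_comm`.

`solve_ok`: `k = n`, `pend = [List.range n]`.
-/

set_option autoImplicit false

namespace Pool.Agent.H24S

/-- a good tree -/
def GoodT (n K : ℕ) (E : AS) (P : VS) (T : AS) : Prop :=
  Tree E.toFinset P.toFinset T ∧ Cong E.toFinset P.toFinset T K (Bd n K E.toFinset P.toFinset)

lemma s3_flat {α β : Type*} (l : List α) (g : α → List (List β)) :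
    (l.flatMap g).flatten = l.flatMap fun a => (g a).flatten := by
  induction l with
  | nil => rfl
  | cons a l ih => rw [List.flatMap_cons, List.flatten_append, ih, List.flatMap_cons]

theorem rounds_ok {n K : ℕ} {E : AS} (h : GH n K E) (k : ℕ) :
    ∀ (pend : List VS) (T0 : AS), pend.flatten.Nodup →
      (∀ P ∈ pend, P ≠ [] ∧ P.length ≤ k ∧ (∀ v ∈ P, v < n) ∧ Cn E.toFinset P.toFinset) →
      ∃ tr : VS → AS, (∀ P ∈ pend, GoodT n K E P (tr P)) ∧
        (((roundF n K E)^[k] (pend, T0)).2).Perm (pend.flatMap tr ++ T0) := by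
  induction k with
  | zero =>
    intro pend T0 _ hp
    have h1 : pend = [] := by
      rw [List.eq_nil_iff_forall_not_mem]
      intro P hP
      obtain ⟨h2, h3, _⟩ := hp P hP
      exact h2 (List.length_eq_zero_iff.1 (Nat.le_zero.1 h3))
    subst h1
    refine ⟨fun _ => [], fun P hP => absurd hP List.not_mem_nil, ?_⟩
    simp
  | succ k ih =>
    intro pend T0 hnd hp
    have hst : ∀ P ∈ pend, StepOK n K E P (stepF n K E P) := by
      intro P hP
      obtain ⟨h1, _, h3, h4⟩ := hp P hP
      exact stepF_ok h ((List.nodup_flatten.1 hnd).1 P hP) h1 h3 h4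
    rw [Function.iterate_succ_apply]
    have hr : roundF n K E (pend, T0) = (pend.flatMap fun P => (stepF n K E P).1,
        (pend.flatMap fun P => (stepF n K E P).2) ++ T0) := rfl
    rw [hr]
    obtain ⟨tr', h1, h2⟩ := ih (pend.flatMap fun P => (stepF n K E P).1)
      ((pend.flatMap fun P => (stepF n K E P).2) ++ T0) (by
        rw [s3_flat, List.nodup_flatMap]
        refine ⟨fun P hP => (hst P hP).nd, ?_⟩
        refine (List.nodup_flatten.1 hnd).2.imp_of_mem ?_
        intro P P' hP hP' hd
        show List.Disjoint _ _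
        intro v hv hv'
        rw [List.mem_flatten] at hv hv'
        obtain ⟨Q, hQ, hvQ⟩ := hv
        obtain ⟨Q', hQ', hvQ'⟩ := hv'
        exact hd (((hst P hP).sub Q hQ).2.1 v hvQ) (((hst P' hP').sub Q' hQ').2.1 v hvQ')) (by
        intro Q hQ
        rw [List.mem_flatMap] at hQ
        obtain ⟨P, hP, hQ⟩ := hQ
        obtain ⟨h1, h2, h3, h4⟩ := (hst P hP).sub Q hQ
        obtain ⟨_, h5, h6, _⟩ := hp P hP
        exact ⟨h1, by omega, fun v hv => h6 v (h2 v hv), h4⟩)
    refine ⟨fun P => (stepF n K E P).2 ++ (stepF n K E P).1.flatMap tr', ?_, ?_⟩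
    · intro P hP
      exact (hst P hP).tree tr' (fun Q hQ => h1 Q (List.mem_flatMap.2 ⟨P, hP, hQ⟩))
    · refine h2.trans ?_
      rw [List.flatMap_assoc, ← List.append_assoc]
      refine List.Perm.append_right T0 ?_
      refine List.perm_append_comm.trans ?_
      exact List.flatMap_append_perm pend _ _

lemma s3_tree_perm {E : Finset (ℕ × ℕ)} {P : Finset ℕ} {T T' : AS} (hp : T.Perm T')
    (h : Tree E P T) : Tree E P T' := by
  refine ⟨fun t ht => h.sub t (hp.mem_iff.2 ht), ?_, ?_⟩
  · rw [← hp.length_eq]
    exact h.len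
  · intro S h1 h2
    obtain ⟨t, ht, ht'⟩ := h.conn S h1 h2
    exact ⟨t, hp.mem_iff.1 ht, ht'⟩

lemma s3_cong_perm {E : Finset (ℕ × ℕ)} {P : Finset ℕ} {T T' : AS} {K X : ℕ} (hp : T.Perm T')
    (h : Cong E P T K X) : Cong E P T' K X := by
  intro t0 S hO
  exact h t0 S (fun t ht hc => hO t (hp.mem_iff.1 ht) hc)

theorem solve_ok {n K : ℕ} {E : AS} (h : GH n K E) (hn : 0 < n)
    (hc : Cn E.toFinset (List.range n).toFinset) :
    Tree E.toFinset (List.range n).toFinset (solve n K E) ∧
      ∀ (t0 : ℕ × ℕ) (S : Finset ℕ), Only (solve n K E) S t0 →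
        ee E.toFinset ((List.range n).toFinset ∩ S) ((List.range n).toFinset \ S) ≤
          294 * (n * K) := by
  obtain ⟨tr, h1, h2⟩ := rounds_ok h n [List.range n] [] (by
      simpa using List.nodup_range) (by
      intro P hP
      rw [List.mem_singleton] at hP
      subst hP
      refine ⟨?_, ?_, ?_, hc⟩
      · intro h0
        rw [List.range_eq_nil] at h0
        omega
      · rw [List.length_range]
      · intro v hv
        exact List.mem_range.1 hv)
  obtain ⟨hT, hC⟩ := h1 (List.range n) (List.mem_singleton.2 rfl)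
  have h3 : (solve n K E).Perm (tr (List.range n)) := by
    have h4 : [List.range n].flatMap tr ++ [] = tr (List.range n) := by simp
    rw [h4] at h2
    exact h2
  refine ⟨s3_tree_perm h3.symm hT, ?_⟩
  intro t0 S hO
  have h5 := s3_cong_perm h3.symm hC t0 S hO
  have hK0 : 0 < K := by have := h.K8; omega
  refine Nat.le_of_mul_le_mul_left ?_ hK0
  refine h5.trans ?_
  unfold Bd nu
  have h6 : ww (E.toFinset.filter fun x => x.1 ∈ (List.range n).toFinset ∧
      x.2 ∈ (List.range n).toFinset) (List.range n).toFinset ≤ 2 * (n * K) * K := by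
    unfold ww
    refine (Finset.card_le_card ((Finset.filter_subset _ _).trans
      (Finset.filter_subset _ _))).trans ?_
    exact (List.toFinset_card_le E).trans h.wE
  have h7 : (List.range n).toFinset.card = n := by
    rw [List.toFinset_card_of_nodup List.nodup_range, List.length_range]
  rw [h7]
  have h8 : K * (294 * (n * K)) = 150 * K * (n * K) + 3 * (16 * (K * K * n + 2 * (n * K) * K)) := by
    ring
  rw [h8]
  omega

end Pool.Agent.H24S
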