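import Pool.Agent.Lib.H24S.Stm

/-!
# H24S chunk Z2: trees as lists of arcs and Mathlib's trees

`E = arcsG G`, `P = (List.range n).toFinset`.
* `cn_of_connected`: let `S` split `range n`. As `G` is connected there is an edge between `{i : i ∈ S}` and its
  complement (otherwise `S` would be closed under adjacency: induction on a walk; e.g.
  `SimpleGraph.Connected` and `Relation.ReflTransGen`, or `Reachable` induction).
* `treeG_le`, `treeG_isTree`: `T` is connected by `Tree.conn` (take `S` = the vertices reachable from a vertex, no arc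
  of `T` crosses it) and has at most `|T| = n - 1` edges (the edge set is the image of the list `T`),
  `SimpleGraph.isTree_iff_connected_and_card` (a connected graph has at least `n - 1` edges:
  `SimpleGraph.Connected.card_vert_le_card_edgeSet_add_one`).
* `cng_le`: let `u v` be adjacent in `treeG n T`, `S` = the set of the values of the vertices reachable from `u` in
  `T - uv`. An arc `t = (a, b)` of `T` crossing `S`: if `s(a,b) ≠ s(u,v)` then `a, b` are adjacent in `T - uv` and both or none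
  are reachable from `u`. So `Only T S (u, v)`. The edges counted by `cng`: `e = s(a, b)`, `a` reachable from `u`,
  `b` reachable from `v`, not from `u` (in a tree `u` and `v` are not connected in `T - uv`:
  `SimpleGraph.isAcyclic_iff_forall_edge_isBridge`, `IsBridge`), so `(a, b)` is an arc of `G` from
  `range n ∩ S` to `range n \ S`, and `e ↦ (a, b)` is injective: `cng ≤ ee E (P ∩ S) (P \ S)`.
-/

set_option autoImplicit false

namespace Pool.Agent.H24S

theorem Z2_walk {V : Type*} {G : SimpleGraph V} {Q : V → Prop}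
    (h : ∀ a b, G.Adj a b → Q a → Q b) {u v : V} (huv : G.Reachable u v) (hu : Q u) : Q v := by
  obtain ⟨p⟩ := huv
  induction p with
  | nil => exact hu
  | cons hadj p ih => exact ih (h _ _ hadj hu)

theorem Z2_mem {n : ℕ} {G : SimpleGraph (Fin n)} {x : ℕ × ℕ} :
    x ∈ arcsG G ↔ ∃ i j : Fin n, G.Adj i j ∧ x = (i.val, j.val) := by
  classical
  unfold arcsG
  rw [Finset.mem_image]
  constructor
  · rintro ⟨⟨i, j⟩, h, rfl⟩
    rw [Finset.mem_filter] at h
    exact ⟨i, j, h.2, rfl⟩
  · rintro ⟨i, j, h, rfl⟩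
    exact ⟨(i, j), Finset.mem_filter.2 ⟨Finset.mem_univ _, h⟩, rfl⟩

theorem Z2_range {n a : ℕ} : a ∈ (List.range n).toFinset ↔ a < n := by
  rw [List.mem_toFinset, List.mem_range]

theorem cn_of_connected {n : ℕ} {G : SimpleGraph (Fin n)} (h : G.Connected) :
    Cn (arcsG G) (List.range n).toFinset := by
  classical
  intro S hS hS'
  obtain ⟨a, ha⟩ := hS
  obtain ⟨b, hb⟩ := hS'
  rw [Finset.mem_inter, Z2_range] at ha
  rw [Finset.mem_sdiff, Z2_range] at hb
  by_contra hcon
  have hno : ∀ i j : Fin n, G.Adj i j → i.val ∈ S → j.val ∈ S := by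
    intro i j hij hi
    by_contra hj
    exact hcon ⟨(i.val, j.val), Z2_mem.2 ⟨i, j, hij, rfl⟩,
      Finset.mem_inter.2 ⟨Z2_range.2 i.2, hi⟩, Finset.mem_sdiff.2 ⟨Z2_range.2 j.2, hj⟩⟩
  exact hb.2 (Z2_walk (Q := fun i : Fin n => i.val ∈ S) hno
    (h.preconnected ⟨a, ha.1⟩ ⟨b, hb.1⟩) ha.2)

theorem Z2_sub {n : ℕ} {G : SimpleGraph (Fin n)} {T : AS}
    (h : Tree (arcsG G) (List.range n).toFinset T) {t : ℕ × ℕ} (ht : t ∈ T) :
    ∃ i j : Fin n, G.Adj i j ∧ t = (i.val, j.val) ∧ (treeG n T).Adj i j := by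
  obtain ⟨i, j, hij, rfl⟩ := Z2_mem.1 (h.sub t ht).1
  exact ⟨i, j, hij, rfl, hij.ne, Or.inl ht⟩

theorem treeG_le {n : ℕ} {G : SimpleGraph (Fin n)} {T : AS}
    (h : Tree (arcsG G) (List.range n).toFinset T) : treeG n T ≤ G := by
  intro i j hij
  obtain ⟨-, h1 | h1⟩ := hij
  · obtain ⟨i', j', hG, he, -⟩ := Z2_sub h h1
    rw [Prod.mk.injEq] at he
    rw [Fin.ext he.1, Fin.ext he.2]
    exact hG
  · obtain ⟨i', j', hG, he, -⟩ := Z2_sub h h1
    rw [Prod.mk.injEq] at he
    rw [Fin.ext he.1, Fin.ext he.2]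
    exact hG.symm

/-- the edge of an arc -/
def Z2_f {n : ℕ} (hn : 0 < n) (t : ℕ × ℕ) : Sym2 (Fin n) :=
  s(if h : t.1 < n then ⟨t.1, h⟩ else ⟨0, hn⟩, if h : t.2 < n then ⟨t.2, h⟩ else ⟨0, hn⟩)

theorem Z2_f_eq {n : ℕ} (hn : 0 < n) (i j : Fin n) : Z2_f hn (i.val, j.val) = s(i, j) := by
  unfold Z2_f
  simp

theorem treeG_isTree {n : ℕ} {G : SimpleGraph (Fin n)} {T : AS} (hn : 0 < n)
    (h : Tree (arcsG G) (List.range n).toFinset T) : (treeG n T).IsTree := by
  classical
  have hne : Nonempty (Fin n) := ⟨⟨0, hn⟩⟩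
  have hconn : (treeG n T).Connected := by
    refine ⟨fun u v => ?_⟩
    by_contra huv
    let S : Finset ℕ := (Finset.univ.filter fun i : Fin n => (treeG n T).Reachable u i).image
      fun i => i.val
    have hS : ∀ i : Fin n, i.val ∈ S ↔ (treeG n T).Reachable u i := by
      intro i
      simp only [S, Finset.mem_image, Finset.mem_filter, Finset.mem_univ, true_and]
      constructor
      · rintro ⟨j, hj, hji⟩
        rwa [← Fin.ext hji]
      · intro hi
        exact ⟨i, hi, rfl⟩
    obtain ⟨t, ht, hc⟩ := h.conn S ⟨u.val, Finset.mem_inter.2 ⟨Z2_range.2 u.2,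
      (hS u).2 (SimpleGraph.Reachable.refl u)⟩⟩ ⟨v.val, Finset.mem_sdiff.2 ⟨Z2_range.2 v.2,
      fun hv => huv ((hS v).1 hv)⟩⟩
    obtain ⟨i, j, -, rfl, hij⟩ := Z2_sub h ht
    apply hc
    rw [hS, hS]
    exact ⟨fun hi => hi.trans hij.reachable, fun hj => hj.trans hij.symm.reachable⟩
  rw [SimpleGraph.isTree_iff_connected_and_card]
  refine ⟨hconn, le_antisymm ?_ hconn.card_vert_le_card_edgeSet_add_one⟩
  have h1 : (treeG n T).edgeSet ⊆ Z2_f hn '' (T.toFinset : Set (ℕ × ℕ)) := by
    intro e he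
    induction e with
    | h i j =>
      rw [SimpleGraph.mem_edgeSet] at he
      obtain ⟨-, h2 | h2⟩ := he
      · exact ⟨(i.val, j.val), by simpa using h2, Z2_f_eq hn i j⟩
      · exact ⟨(j.val, i.val), by simpa using h2, by rw [Z2_f_eq hn j i, Sym2.eq_swap]⟩
  have h2 : Nat.card (treeG n T).edgeSet ≤ T.length := by
    rw [Nat.card_coe_set_eq]
    refine (Set.ncard_le_ncard h1 (T.toFinset.finite_toSet.image _)).trans ?_
    refine (Set.ncard_image_le T.toFinset.finite_toSet).trans ?_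
    rw [Set.ncard_coe_finset]
    exact List.toFinset_card_le T
  have h3 := h.len
  have h4 : (List.range n).toFinset.card = n := by
    rw [List.toFinset_card_of_nodup List.nodup_range, List.length_range]
  rw [h4] at h3
  rw [Nat.card_eq_fintype_card (α := Fin n), Fintype.card_fin]
  omega

theorem cng_le {n : ℕ} {G : SimpleGraph (Fin n)} {T : AS} (hn : 0 < n)
    (h : Tree (arcsG G) (List.range n).toFinset T) {X : ℕ}
    (hX : ∀ (t0 : ℕ × ℕ) (S : Finset ℕ), Only T S t0 →
      ee (arcsG G) ((List.range n).toFinset ∩ S) ((List.range n).toFinset \ S) ≤ X)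
    {u v : Fin n} (huv : (treeG n T).Adj u v) : cng G (treeG n T) u v ≤ X := by
  classical
  have hbr : ¬ ((treeG n T).deleteEdges {s(u, v)}).Reachable u v := by
    have h1 := (SimpleGraph.isAcyclic_iff_forall_adj_isBridge.1 (treeG_isTree hn h).isAcyclic) huv
    exact SimpleGraph.isBridge_iff.1 h1
  let D := (treeG n T).deleteEdges {s(u, v)}
  let S : Finset ℕ := (Finset.univ.filter fun i : Fin n => D.Reachable u i).image fun i => i.val
  have hS : ∀ i : Fin n, i.val ∈ S ↔ D.Reachable u i := by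
    intro i
    simp only [S, Finset.mem_image, Finset.mem_filter, Finset.mem_univ, true_and]
    constructor
    · rintro ⟨j, hj, hji⟩
      rwa [← Fin.ext hji]
    · intro hi
      exact ⟨i, hi, rfl⟩
  have honly : Only T S (u.val, v.val) := by
    intro t ht hc
    obtain ⟨i, j, -, rfl, hij⟩ := Z2_sub h ht
    by_cases he : s(i, j) = s(u, v)
    · rw [Sym2.eq_iff] at he
      rcases he with ⟨rfl, rfl⟩ | ⟨rfl, rfl⟩
      · exact Or.inl rfl
      · exact Or.inr rfl
    · exfalso
      have hD : D.Adj i j := SimpleGraph.deleteEdges_adj.2 ⟨hij, by simpa using he⟩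
      apply hc
      rw [hS, hS]
      exact ⟨fun hi => hi.trans hD.reachable, fun hj => hj.trans hD.symm.reachable⟩
  refine le_trans ?_ (hX (u.val, v.val) S honly)
  unfold cng ee
  set Fl := (arcsG G).filter fun x => x.1 ∈ (List.range n).toFinset ∩ S ∧
    x.2 ∈ (List.range n).toFinset \ S with hFl
  have hsub : {e : Sym2 (Fin n) | e ∈ G.edgeSet ∧ ∃ a b, e = s(a, b) ∧
      ((treeG n T).deleteEdges {s(u, v)}).Reachable u a ∧
      ((treeG n T).deleteEdges {s(u, v)}).Reachable v b} ⊆ Z2_f hn '' (Fl : Set (ℕ × ℕ)) := by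
    rintro e ⟨he, a, b, rfl, hua, hvb⟩
    rw [SimpleGraph.mem_edgeSet] at he
    refine ⟨(a.val, b.val), ?_, Z2_f_eq hn a b⟩
    rw [Finset.mem_coe, hFl, Finset.mem_filter]
    refine ⟨Z2_mem.2 ⟨a, b, he, rfl⟩, Finset.mem_inter.2 ⟨Z2_range.2 a.2, (hS a).2 hua⟩,
      Finset.mem_sdiff.2 ⟨Z2_range.2 b.2, fun hb => hbr ?_⟩⟩
    exact ((hS b).1 hb).trans hvb.symm
  refine (Set.ncard_le_ncard hsub (Fl.finite_toSet.image _)).trans ?_
  refine (Set.ncard_image_le Fl.finite_toSet).trans ?_
  rw [Set.ncard_coe_finset]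

theorem cng_le_edges {n : ℕ} (G T : SimpleGraph (Fin n)) (u v : Fin n) :
    cng G T u v ≤ G.edgeSet.ncard :=
  Set.ncard_le_ncard (fun _ he => he.1) (Set.toFinite _)

theorem arcs_card {n : ℕ} (G : SimpleGraph (Fin n)) :
    (arcsG G).card = 2 * G.edgeSet.ncard := by
  classical
  have h1 := G.dart_card_eq_twice_card_edges
  have h2 : G.edgeSet.ncard = G.edgeFinset.card := by
    rw [← SimpleGraph.coe_edgeFinset, Set.ncard_coe_finset]
  rw [h2, ← h1, ← Finset.card_univ]
  have h3 : arcsG G = (Finset.univ : Finset G.Dart).image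
      (fun d => (d.fst.val, d.snd.val)) := by
    ext x
    rw [Z2_mem, Finset.mem_image]
    constructor
    · rintro ⟨i, j, hij, rfl⟩
      exact ⟨⟨(i, j), hij⟩, Finset.mem_univ _, rfl⟩
    · rintro ⟨d, -, rfl⟩
      exact ⟨d.fst, d.snd, d.adj, rfl⟩
  rw [h3, Finset.card_image_of_injective]
  intro d d' hd
  have h4 := congrArg Prod.fst hd
  have h5 := congrArg Prod.snd hd
  exact SimpleGraph.Dart.ext _ _ (Prod.ext (Fin.ext h4) (Fin.ext h5))

end Pool.Agent.H24S
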