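import Pool.Agent.Lib.H24S.Stm

/-!
# H24S chunk Z3: numbers

`n ≥ 1` vertices, `m ≥ n - 1` edges, `K` the least number with `m ≤ n K^2`. Then `n K ≤ 2.5 sqrt (m n)`:
`n = 1`: `m = 0` is possible, then `K = 0`; if `m > 0`... in general `m ≤ n (n-1)/2`, so `n = 1` gives `m = 0`, `K = 0`. For `n ≥ 2`:
`m ≥ 1`, `K ≥ 1`, `n (K-1)^2 < m`, so `n (K - 1) < sqrt (m n)` and `n ≤ sqrt (2 m n)` because `n ≤ 2 (n-1) ≤ 2 m`; `sqrt 2 ≤ 1.5`.
`K8n`: if `K ≥ 8` then `(K-1)^2 n < m ≤ n n / 2`, `K ≤ 2 (K-1)`, so `K^2 ≤ 4 (K-1)^2 ≤ 2 n ≤ 3 n`.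
-/

set_option autoImplicit false

namespace Pool.Agent.H24S

theorem numK {n m K : ℕ} (hn : 0 < n) (hm : n ≤ m + 1) (hm2 : 2 * m + n ≤ n * n)
    (h1 : 2 * m ≤ 2 * (n * (K * K))) (h2 : ∀ k, k < K → 2 * (n * (k * k)) < 2 * m) :
    ((n * K : ℕ) : ℝ) ≤ 5 / 2 * Real.sqrt (m * n) := by
  obtain ⟨s, hs⟩ : ∃ s : ℝ, s = Real.sqrt (m * n) := ⟨_, rfl⟩
  have hs0 : 0 ≤ s := hs ▸ Real.sqrt_nonneg _
  have hss : s * s = m * n := by
    rw [hs]
    exact Real.mul_self_sqrt (by positivity)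
  rw [← hs]
  rcases K with _ | k
  · push_cast
    linarith
  · have h3 := h2 k (by omega)
    have h4 : n * (k * k) < m := by omega
    have hm1 : 1 ≤ m := by omega
    have h5 : ((n * (k * k) : ℕ) : ℝ) < m := by exact_mod_cast h4
    push_cast at h5
    have hnR : (0 : ℝ) < n := by exact_mod_cast hn
    have hkR : (0 : ℝ) ≤ k := Nat.cast_nonneg _
    have h6 : (n : ℝ) * k ≤ s := by
      apply abs_le_of_sq_le_sq' _ hs0 |>.2
      have : ((n : ℝ) * k) ^ 2 = n * (n * (k * k)) := by ring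
      rw [this, sq, hss]
      nlinarith
    have h7 : (n : ℝ) ≤ 3 / 2 * s := by
      apply abs_le_of_sq_le_sq' _ (by positivity) |>.2
      have h8 : (n : ℝ) ≤ 2 * m := by
        have : n ≤ 2 * m := by omega
        exact_mod_cast this
      have : (3 / 2 * s) ^ 2 = 9 / 4 * (s * s) := by ring
      rw [this, hss]
      nlinarith
    push_cast
    linarith

theorem K8n {n m K : ℕ} (hm2 : 2 * m + n ≤ n * n) (hK : 8 ≤ K)
    (h2 : ∀ k, k < K → 2 * (n * (k * k)) < 2 * m) : K * K ≤ 3 * n := by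
  obtain ⟨k, rfl⟩ : ∃ k, K = k + 1 := ⟨K - 1, by omega⟩
  have h3 := h2 k (by omega)
  have h4 : n * (2 * (k * k)) < n * n := by
    have : n * (2 * (k * k)) = 2 * (n * (k * k)) := by ring
    omega
  have h5 : 2 * (k * k) < n := lt_of_mul_lt_mul_left h4 (Nat.zero_le n)
  nlinarith

end Pool.Agent.H24S
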