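import Pool.Agent.Lib.H24S.Z1
import Pool.Agent.Lib.H24S.Z2
import Pool.Agent.Lib.H24S.Z3
import Pool.Agent.Lib.H24S.S3

/-!
# H24S chunk Z4: the algorithm is correct

`E = parseE n (adjBits G)`, `K = getK n E`. `|E| = 2 m` (`parseE_toFinset`, `arcs_card`, `parseE_nodup`), `m + 1 ≥ n` (connected:
`SimpleGraph.Connected.card_vert_le_card_edgeSet_add_one`), `2 m + n ≤ n n` (no loops: arcs are pairs of different
elements). `K ≥ 8`: `GH n K E` by `getK_spec`, `K8n`, and `solve_ok`, `treeG_isTree`, `cng_le` with `X = 294 n K`, `numK`: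
`294 * 5/2 = 735`. `K < 8`: `spt_tree`; `cng ≤ m ≤ n K^2 ≤ 7 n K`. `outBits_eq`. `n > 0` because `G` is connected.
-/

set_option autoImplicit false

namespace Pool.Agent.H24S

open Classical in
lemma Z4_arcs {n : ℕ} (G : SimpleGraph (Fin n)) : (arcsG G).card + n ≤ n * n := by
  have h1 : (arcsG G).card ≤ (Finset.univ : Finset (Fin n)).offDiag.card := by
    unfold arcsG
    refine Finset.card_image_le.trans (Finset.card_le_card ?_)
    intro x hx
    rw [Finset.mem_filter] at hx
    rw [Finset.mem_offDiag]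
    exact ⟨Finset.mem_univ _, Finset.mem_univ _, hx.2.ne⟩
  rw [Finset.offDiag_card, Finset.card_univ, Fintype.card_fin] at h1
  have h2 : n ≤ n * n := Nat.le_mul_self n
  omega

theorem algo_ok {n : ℕ} {G : SimpleGraph (Fin n)} (h : G.Connected) :
    ∃ T : SimpleGraph (Fin n), T ≤ G ∧ T.IsTree ∧ algo (adjBits G) = adjBits T ∧
      ∀ u v, T.Adj u v → (cng G T u v : ℝ) ≤ 735 * Real.sqrt (G.edgeSet.ncard * n) := by
  have hn : 0 < n := by
    obtain ⟨x⟩ := h.nonempty
    exact x.pos
  obtain ⟨E, hE⟩ : ∃ E : AS, E = parseE n (adjBits G) := ⟨_, rfl⟩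
  obtain ⟨m, hm⟩ : ∃ m : ℕ, m = G.edgeSet.ncard := ⟨_, rfl⟩
  have hEf : E.toFinset = arcsG G := by rw [hE]; exact parseE_toFinset G
  have hEn : E.Nodup := by rw [hE]; exact parseE_nodup n _
  have hlen : E.length = 2 * m := by
    rw [← List.toFinset_card_of_nodup hEn, hEf, arcs_card, hm]
  have hm1 : n ≤ m + 1 := by
    have h1 := h.card_vert_le_card_edgeSet_add_one
    rw [Nat.card_eq_fintype_card, Fintype.card_fin, Nat.card_coe_set_eq] at h1
    rw [hm]
    exact h1
  have hm2 : 2 * m + n ≤ n * n := by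
    have h1 := Z4_arcs G
    rw [arcs_card, ← hm] at h1
    exact h1
  obtain ⟨hK1, hK2⟩ := getK_spec (n := n) (E := E) (by omega)
  obtain ⟨K, hK⟩ : ∃ K : ℕ, K = getK n E := ⟨_, rfl⟩
  rw [← hK] at hK1 hK2
  rw [hlen] at hK1 hK2
  have hnum := numK hn hm1 hm2 hK1 hK2
  have hcn : Cn E.toFinset (List.range n).toFinset := by
    rw [hEf]
    exact cn_of_connected h
  have hmem : ∀ x : ℕ × ℕ, x ∈ E ↔ ∃ (h1 : x.1 < n) (h2 : x.2 < n), G.Adj ⟨x.1, h1⟩ ⟨x.2, h2⟩ := by
    intro x
    rw [hE]
    exact parseE_mem G x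
  obtain ⟨T, hT⟩ : ∃ T : AS, T = theTree n E := ⟨_, rfl⟩
  have hmain : Tree E.toFinset (List.range n).toFinset T ∧
      ∀ u v : Fin n, (treeG n T).Adj u v → (cng G (treeG n T) u v : ℝ) ≤
        735 * Real.sqrt (m * n) := by
    by_cases hK8 : K < 8
    · have hTe : T = spt E (List.range n) := by
        rw [hT]
        unfold theTree
        rw [← hK, if_pos hK8]
      refine ⟨?_, ?_⟩
      · rw [hTe]
        refine spt_tree E List.nodup_range ?_ hcn
        intro h0
        rw [List.range_eq_nil] at h0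
        omega
      · intro u v _
        have h1 : cng G (treeG n T) u v ≤ 7 * (n * K) := by
          refine (cng_le_edges G _ u v).trans ?_
          rw [← hm]
          have h2 : m ≤ n * (K * K) := by omega
          have h3 : n * (K * K) ≤ 7 * (n * K) := by
            have h4 : K * (n * K) ≤ 7 * (n * K) := Nat.mul_le_mul_right _ (by omega)
            calc n * (K * K) = K * (n * K) := by ring
              _ ≤ _ := h4
          omega
        have h2 : (cng G (treeG n T) u v : ℝ) ≤ 7 * ((n * K : ℕ) : ℝ) := by exact_mod_cast h1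
        have h3 := Real.sqrt_nonneg ((m : ℝ) * n)
        linarith
    · have hTe : T = solve n K E := by
        rw [hT]
        unfold theTree
        rw [← hK, if_neg hK8]
      have hGH : GH n K E := by
        refine ⟨hEn, ?_, ?_, ?_, by omega, K8n hm2 (by omega) hK2, ?_⟩
        · intro x hx
          rw [hmem] at hx ⊢
          obtain ⟨h1, h2, h3⟩ := hx
          exact ⟨h2, h1, h3.symm⟩
        · intro x hx hne
          rw [hmem] at hx
          obtain ⟨h1, h2, h3⟩ := hx
          apply h3.ne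
          exact Fin.ext hne
        · intro x hx
          rw [hmem] at hx
          exact hx.1
        · rw [hlen]
          calc 2 * m ≤ 2 * (n * (K * K)) := hK1
            _ = _ := by ring
      obtain ⟨h1, h2⟩ := solve_ok hGH hn hcn
      rw [← hTe] at h1 h2
      refine ⟨h1, fun u v huv => ?_⟩
      have h3 : cng G (treeG n T) u v ≤ 294 * (n * K) := by
        refine cng_le hn ?_ ?_ huv
        · rw [← hEf]; exact h1
        · rw [← hEf]; exact h2
      have h4 : (cng G (treeG n T) u v : ℝ) ≤ 294 * ((n * K : ℕ) : ℝ) := by exact_mod_cast h3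
      linarith
  obtain ⟨hTree, hc⟩ := hmain
  have hTree' : Tree (arcsG G) (List.range n).toFinset T := by rw [← hEf]; exact hTree
  refine ⟨treeG n T, treeG_le hTree', treeG_isTree hn hTree', ?_, ?_⟩
  · unfold algo
    rw [parseN_adj, ← hE, ← hT]
    apply outBits_eq
    intro t ht hne
    have h1 := (hTree.sub t ht).1
    rw [List.mem_toFinset, hmem] at h1
    obtain ⟨h1, h2, h3⟩ := h1
    apply h3.ne
    exact Fin.ext hne
  · rw [← hm]
    exact hc

end Pool.Agent.H24S
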