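import Pool.Agent.Lib.H24S.PC
import Pool.Agent.Lib.H24S.Z4

/-!
# H24S: the final theorem (assembled)
-/

set_option autoImplicit false

namespace Pool.Agent.H24S

open Pool.Agent.PolyTime

theorem main_theorem : ∃ f : List Bool → List Bool,
    Nonempty (Turing.TM2ComputableInPolyTime (fun l : List Bool => l) (fun l : List Bool => l) f) ∧
    ∀ (n : ℕ) (G : SimpleGraph (Fin n)), G.Connected →
      ∃ T : SimpleGraph (Fin n), T ≤ G ∧ T.IsTree ∧ f (adjBits G) = adjBits T ∧
        ∀ u v, T.Adj u v → (cng G T u v : ℝ) ≤ 735 * Real.sqrt (G.edgeSet.ncard * n) :=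
  ⟨algo, PT.algo.tmRaw, fun _ _ h => algo_ok h⟩

end Pool.Agent.H24S
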