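import Pool.Agent.Lib.H24S.B2

/-!
# H24S chunk T1: joining trees along a tree of the quotient

`L` = list of (part, tree of the part); the parts are disjoint, nonempty, with union `P`; `T'` is a
spanning tree of the quotient. Then `T' ++ (all the trees)` is a spanning tree of `P`.
* `len`: `sum (|T_Q| + 1) = sum |Q| = |P|` (`sum_card_eq`) and `|T'| + 1 = length L`.
* `conn`: let `S` split `P`. If `S` splits a part, its tree crosses `S`. Otherwise every part is inside `S`
  or disjoint from `S`, both kinds occur, and `T'` crosses `S` by `QT.conn`.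

`join_cong`: let at most `t0` (up to reversal) cross `S`. Not more than one part is split by `S` (a split
part `Q` has a crossing arc in its tree, it is `t0` or its reverse, so `t0` has its ends in `Q`;
parts are disjoint). The arcs from `P ∩ S` to `P \ S` inside the part `Q`: `ee E (Q ∩ S) (Q \ S)`, `K` times
this is `≤ Y` by `Cong` for `Q`; inside a part that is not split: none. The arcs `x` from `P ∩ S` to `P \ S`
between different parts: `x` and `x.swap` are both counted by `xe`, and they are different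
(`x.1 ∈ S`, `x.2 ∉ S`), so they are at most `xe / 2`. So `2 K ee(P ∩ S, P \ S) ≤ K xe + 2 Y ≤ 2 X`.
-/

set_option autoImplicit false

namespace Pool.Agent.H24S

variable {V : Type*} [DecidableEq V] {E : Finset (V × V)}

omit [DecidableEq V] in
lemma t1_disj {ι : Type*} {L : List ι} {f : ι → Finset V}
    (hd : L.Pairwise fun a b => Disjoint (f a) (f b)) {a b : ι} (ha : a ∈ L) (hb : b ∈ L)
    (hab : a ≠ b) : Disjoint (f a) (f b) := by
  induction L with
  | nil => exact absurd ha List.not_mem_nil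
  | cons c L ih =>
    rw [List.pairwise_cons] at hd
    rcases List.mem_cons.1 ha with h | h
    · rcases List.mem_cons.1 hb with h' | h'
      · exact absurd (h.trans h'.symm) hab
      · rw [h]
        exact hd.1 b h'
    · rcases List.mem_cons.1 hb with h' | h'
      · rw [h']
        exact (hd.1 a h).symm
      · exact ih hd.2 h h'

lemma t1_split {A S : Finset V} {T : List (V × V)} {t0 : V × V} (hT : Tree E A T)
    (hO : Only T S t0) (h1 : (A ∩ S).Nonempty) (h2 : (A \ S).Nonempty) :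
    t0.1 ∈ A ∧ t0.2 ∈ A := by
  obtain ⟨t, ht, htc⟩ := hT.conn S h1 h2
  have h3 := hT.sub t ht
  rcases hO t ht htc with h | h
  · rw [← h]
    exact h3.2
  · have h4 : t0 = t.swap := by rw [h, Prod.swap_swap]
    rw [h4]
    exact ⟨h3.2.2, h3.2.1⟩

omit [DecidableEq V] in
lemma t1_len (L : List (Finset V × List (V × V))) (hT : ∀ a ∈ L, a.2.length + 1 = a.1.card) :
    L.length + (L.flatMap fun a => a.2).length = (L.map fun a => a.1.card).sum := by
  induction L with
  | nil => simp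
  | cons a L ih =>
    have h1 := hT a List.mem_cons_self
    have h2 := ih (fun b hb => hT b (List.mem_cons_of_mem _ hb))
    simp only [List.flatMap_cons, List.length_append, List.map_cons, List.sum_cons,
      List.length_cons]
    omega

theorem join_tree {P : Finset V} (L : List (Finset V × List (V × V)))
    (hd : L.Pairwise fun a b => Disjoint a.1 b.1) (hP : ∀ v, v ∈ P ↔ ∃ a ∈ L, v ∈ a.1)
    (hne : ∀ a ∈ L, a.1.Nonempty) (hT : ∀ a ∈ L, Tree E a.1 a.2) (T' : List (V × V))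
    (hQ : QT E (L.map fun a => a.1) T') : Tree E P (T' ++ L.flatMap fun a => a.2) := by
  refine ⟨?_, ?_, ?_⟩
  · intro t ht
    rcases List.mem_append.1 ht with h | h
    · obtain ⟨h1, ⟨A, hA, hA'⟩, ⟨B, hB, hB'⟩⟩ := hQ.sub t h
      obtain ⟨a, ha, rfl⟩ := List.mem_map.1 hA
      obtain ⟨b, hb, rfl⟩ := List.mem_map.1 hB
      exact ⟨h1, (hP _).2 ⟨a, ha, hA'⟩, (hP _).2 ⟨b, hb, hB'⟩⟩
    · obtain ⟨a, ha, hta⟩ := List.mem_flatMap.1 h
      have h1 := (hT a ha).sub t hta
      exact ⟨h1.1, (hP _).2 ⟨a, ha, h1.2.1⟩, (hP _).2 ⟨a, ha, h1.2.2⟩⟩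
  · have h1 := t1_len L (fun a ha => (hT a ha).len)
    have h2 := hQ.len
    rw [List.length_map] at h2
    rw [sum_card_eq (f := fun a : Finset V × List (V × V) => a.1) hd hP] at h1
    rw [List.length_append]
    omega
  · intro S h1 h2
    by_cases hs : ∃ a ∈ L, (a.1 ∩ S).Nonempty ∧ (a.1 \ S).Nonempty
    · obtain ⟨a, ha, h3, h4⟩ := hs
      obtain ⟨t, ht, htc⟩ := (hT a ha).conn S h3 h4
      exact ⟨t, List.mem_append.2 (Or.inr (List.mem_flatMap.2 ⟨a, ha, ht⟩)), htc⟩
    · have h5 : ∀ a ∈ L, a.1 ⊆ S ∨ Disjoint a.1 S := by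
        intro a ha
        by_contra hcon
        rw [not_or] at hcon
        apply hs
        refine ⟨a, ha, ?_, ?_⟩
        · rw [Finset.nonempty_iff_ne_empty]
          intro h
          exact hcon.2 (Finset.disjoint_iff_inter_eq_empty.2 h)
        · rw [Finset.sdiff_nonempty]
          exact hcon.1
      obtain ⟨v, hv⟩ := h1
      obtain ⟨w, hw⟩ := h2
      rw [Finset.mem_inter] at hv
      rw [Finset.mem_sdiff] at hw
      obtain ⟨a, ha, hva⟩ := (hP v).1 hv.1
      obtain ⟨b, hb, hwb⟩ := (hP w).1 hw.1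
      have ha' : a.1 ⊆ S := by
        rcases h5 a ha with h | h
        · exact h
        · exact absurd hv.2 (Finset.disjoint_left.1 h hva)
      have hb' : Disjoint b.1 S := by
        rcases h5 b hb with h | h
        · exact absurd (h hwb) hw.2
        · exact h
      obtain ⟨t, ht, htc⟩ := hQ.conn S
        (by
          intro A hA
          obtain ⟨c, hc, rfl⟩ := List.mem_map.1 hA
          exact h5 c hc)
        ⟨a.1, List.mem_map.2 ⟨a, ha, rfl⟩, ⟨v, hva⟩, ha'⟩
        ⟨b.1, List.mem_map.2 ⟨b, hb, rfl⟩, ⟨w, hwb⟩, hb'⟩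
      exact ⟨t, List.mem_append.2 (Or.inl ht), htc⟩

lemma t1_cross (hE : ∀ x ∈ E, x.swap ∈ E) {P S Q : Finset V} (L : List (Finset V))
    (hP : ∀ v, v ∈ P ↔ ∃ A ∈ L, v ∈ A)
    (hQ : ∀ A ∈ L, (A ∩ S).Nonempty → (A \ S).Nonempty → A = Q) :
    2 * ee E (P ∩ S) (P \ S) ≤ 2 * ee E (Q ∩ S) (Q \ S) + xe E L := by
  set F2 : Finset (V × V) := E.filter fun x => (x.1 ∈ S ∧ x.2 ∉ S) ∧
    ∃ A ∈ L, ∃ B ∈ L, A ≠ B ∧ x.1 ∈ A ∧ x.2 ∈ B with hF2
  have h1 : ee E (P ∩ S) (P \ S) ≤ ee E (Q ∩ S) (Q \ S) + F2.card := by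
    unfold ee
    refine le_trans (Finset.card_le_card ?_) (Finset.card_union_le _ _)
    intro x hx
    rw [Finset.mem_filter, Finset.mem_inter, Finset.mem_sdiff] at hx
    obtain ⟨hxE, ⟨hx1, hx2⟩, hx3, hx4⟩ := hx
    obtain ⟨A, hA, hxA⟩ := (hP _).1 hx1
    obtain ⟨B, hB, hxB⟩ := (hP _).1 hx3
    rw [Finset.mem_union]
    by_cases hAB : A = B
    · left
      subst hAB
      have h2 : A = Q := hQ A hA ⟨x.1, Finset.mem_inter.2 ⟨hxA, hx2⟩⟩
        ⟨x.2, Finset.mem_sdiff.2 ⟨hxB, hx4⟩⟩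
      rw [Finset.mem_filter, Finset.mem_inter, Finset.mem_sdiff, ← h2]
      exact ⟨hxE, ⟨hxA, hx2⟩, hxB, hx4⟩
    · right
      rw [hF2, Finset.mem_filter]
      exact ⟨hxE, ⟨hx2, hx4⟩, A, hA, B, hB, hAB, hxA, hxB⟩
  have h2 : F2.card + F2.card ≤ xe E L := by
    have h3 : (F2.image Prod.swap).card = F2.card :=
      Finset.card_image_of_injective _ Prod.swap_injective
    have h4 : Disjoint F2 (F2.image Prod.swap) := by
      rw [Finset.disjoint_left]
      intro x hx hx'
      obtain ⟨y, hy, rfl⟩ := Finset.mem_image.1 hx'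
      rw [hF2, Finset.mem_filter] at hx hy
      exact hy.2.1.2 hx.2.1.1
    calc F2.card + F2.card = F2.card + (F2.image Prod.swap).card := by rw [h3]
      _ = (F2 ∪ F2.image Prod.swap).card := (Finset.card_union_of_disjoint h4).symm
      _ ≤ xe E L := by
        unfold xe
        refine Finset.card_le_card ?_
        intro x hx
        rw [Finset.mem_filter]
        rcases Finset.mem_union.1 hx with h | h
        · rw [hF2, Finset.mem_filter] at h
          exact ⟨h.1, h.2.2⟩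
        · obtain ⟨y, hy, rfl⟩ := Finset.mem_image.1 h
          rw [hF2, Finset.mem_filter] at hy
          obtain ⟨hyE, _, A, hA, B, hB, hAB, h5, h6⟩ := hy
          exact ⟨hE y hyE, B, hB, A, hA, hAB.symm, h6, h5⟩
  omega

theorem join_cong (hE : ∀ x ∈ E, x.swap ∈ E) {P : Finset V} (L : List (Finset V × List (V × V)))
    (hL : L ≠ [])
    (hd : L.Pairwise fun a b => Disjoint a.1 b.1) (hP : ∀ v, v ∈ P ↔ ∃ a ∈ L, v ∈ a.1)
    (hT : ∀ a ∈ L, Tree E a.1 a.2) (T' : List (V × V)) (K X : ℕ)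
    (hX : ∀ a ∈ L, ∃ Y, Cong E a.1 a.2 K Y ∧ K * xe E (L.map fun a => a.1) + 2 * Y ≤ 2 * X) :
    Cong E P (T' ++ L.flatMap fun a => a.2) K X := by
  intro t0 S hO
  have hO' : ∀ a ∈ L, Only a.2 S t0 := by
    intro a ha t ht hc
    exact hO t (List.mem_append.2 (Or.inr (List.mem_flatMap.2 ⟨a, ha, ht⟩))) hc
  have hP' : ∀ v, v ∈ P ↔ ∃ A ∈ L.map (fun a => a.1), v ∈ A := by
    intro v
    rw [hP v]
    constructor
    · rintro ⟨a, ha, hv⟩
      exact ⟨a.1, List.mem_map.2 ⟨a, ha, rfl⟩, hv⟩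
    · rintro ⟨A, hA, hv⟩
      obtain ⟨a, ha, rfl⟩ := List.mem_map.1 hA
      exact ⟨a, ha, hv⟩
  have hk : ∃ a ∈ L, ∀ A ∈ L.map (fun a => a.1), (A ∩ S).Nonempty → (A \ S).Nonempty →
      A = a.1 := by
    by_cases hs : ∃ a ∈ L, (a.1 ∩ S).Nonempty ∧ (a.1 \ S).Nonempty
    · obtain ⟨a, ha, h1, h2⟩ := hs
      refine ⟨a, ha, ?_⟩
      intro A hA h3 h4
      obtain ⟨b, hb, rfl⟩ := List.mem_map.1 hA
      by_contra hne
      have hab : a ≠ b := fun h => hne (by rw [h])
      have hdis : Disjoint a.1 b.1 := t1_disj (f := fun a : Finset V × List (V × V) => a.1)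
        hd ha hb hab
      have h5 := t1_split (hT a ha) (hO' a ha) h1 h2
      have h6 := t1_split (hT b hb) (hO' b hb) h3 h4
      exact Finset.disjoint_left.1 hdis h5.1 h6.1
    · obtain ⟨a, ha⟩ := List.exists_mem_of_ne_nil L hL
      refine ⟨a, ha, ?_⟩
      intro A hA h3 h4
      obtain ⟨b, hb, rfl⟩ := List.mem_map.1 hA
      exact absurd ⟨b, hb, h3, h4⟩ hs
  obtain ⟨a, ha, hk⟩ := hk
  have h1 := t1_cross hE (L.map fun a => a.1) hP' hk
  obtain ⟨Y, hY, hY'⟩ := hX a ha
  have h2 := hY t0 S (hO' a ha)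
  have h3 : K * (2 * ee E (P ∩ S) (P \ S)) ≤
      K * (2 * ee E (a.1 ∩ S) (a.1 \ S) + xe E (L.map fun a => a.1)) :=
    Nat.mul_le_mul_left K h1
  nlinarith

/-- any tree has congestion at most the weight -/
lemma cong_ww (P : Finset V) (T : List (V × V)) (K X : ℕ) (h : K * ww E P ≤ X) :
    Cong E P T K X := by
  intro t0 S _
  refine le_trans (Nat.mul_le_mul_left K ?_) h
  exact le_trans (ee_le_ww _ _) (ww_mono Finset.inter_subset_left)

lemma Tree.perm {P : Finset V} {T T' : List (V × V)} (h : Tree E P T) (hp : T.Perm T') :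
    Tree E P T' := by
  refine ⟨fun t ht => h.sub t (hp.mem_iff.2 ht), ?_, ?_⟩
  · rw [← hp.length_eq]
    exact h.len
  · intro S h1 h2
    obtain ⟨t, ht, hc⟩ := h.conn S h1 h2
    exact ⟨t, hp.mem_iff.1 ht, hc⟩

lemma Cong.perm {P : Finset V} {T T' : List (V × V)} {K X : ℕ} (h : Cong E P T K X)
    (hp : T.Perm T') : Cong E P T' K X := by
  intro t0 S hO
  exact h t0 S fun t ht => hO t (hp.mem_iff.1 ht)

lemma Cong.mono {P : Finset V} {T : List (V × V)} {K X X' : ℕ} (h : Cong E P T K X)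
    (hX : X ≤ X') : Cong E P T K X' := by
  intro t0 S hO
  exact le_trans (h t0 S hO) hX

end Pool.Agent.H24S
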