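import Pool.Agent.Lib.H24S.D2
import Pool.Agent.Lib.H24S.K3
import Pool.Agent.Lib.H24S.T1
import Pool.Agent.Lib.H24S.C1

/-!
# H24S chunk S1: small parts and splitting along a violation

* `small_ok`: `wL E P ≤ n K`: no pending part, tree `spt E P`, `Cong` by `cong_ww`: `K ww P ≤ K (n K) ≤ Bd`.
* `split_ok`: `Z` is a violation: nonempty, `2 nu Z ≤ nu P`, `K bb Z < nu Z`. `itr P Z` has the elements of `Z`.
  Parts: components of `Z` and of `P \ Z`, both sets are nonempty (`Z = P` is excluded by
  `2 nu Z ≤ nu P`, `nu P > 0`). `xe(parts) = 0 + 0 + 2 e(Z, P \ Z) = 2 bb Z` (`xe_append`, `comps_xe`). `kruskal_QT`, `join_tree`,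
  `join_cong` with `X = Bd P`: for a component `C` of `Z`: `Y = Bd C ≤ 150 K (n K) + 3 nu Z` and
  `K xe + 2 Y ≤ 2 nu Z + 300 K (n K) + 6 nu Z ≤ 300 K (n K) + 4 nu P`. For a component `C` of `P \ Z`: `Y ≤ 150 K (n K) + 3 nu (P \ Z)`,
  `nu (P \ Z) = nu P - nu Z`: `K xe + 2 Y ≤ 2 nu Z + 300 K (n K) + 6 nu P - 6 nu Z`.
  (`nu K (E inside C) C ≤ nu K E Z` for `C ⊆ Z`.)
* sizes: `|C| ≤ |Z| < |P|`, `|C| ≤ |P \ Z| < |P|`.
-/

set_option autoImplicit false

namespace Pool.Agent.H24S

/-- hypotheses for one step of the recursion on `(E, P)` -/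
structure PHyp (n K : ℕ) (E : AS) (P : VS) : Prop where
  nE : E.Nodup
  nP : P.Nodup
  ne : P ≠ []
  gr : Gr E.toFinset P.toFinset
  cn : Cn E.toFinset P.toFinset
  K8 : 8 ≤ K
  Kn : K * K ≤ 3 * n
  wP : wL E P ≤ 2 * (n * K) * K
  deg : ∀ v ∈ P, wL E [v] ≤ n

lemma nu_inside_le (K : ℕ) {E : Finset (ℕ × ℕ)} {C Z : Finset ℕ} (h : C ⊆ Z) :
    nu K (E.filter fun x => x.1 ∈ C ∧ x.2 ∈ C) C ≤ nu K E Z := by
  unfold nu
  have h1 := Finset.card_le_card h
  have h2 : ww (E.filter fun x => x.1 ∈ C ∧ x.2 ∈ C) C ≤ ww E Z := by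
    unfold ww
    refine Finset.card_le_card fun x hx => ?_
    rw [Finset.mem_filter, Finset.mem_filter] at hx
    rw [Finset.mem_filter]
    exact ⟨hx.1.1, h hx.2⟩
  gcongr

lemma s1_filter {E : Finset (ℕ × ℕ)} {P : Finset ℕ} (h : Gr E P) :
    (E.filter fun x => x.1 ∈ P ∧ x.2 ∈ P) = E := by
  rw [Finset.filter_eq_self]
  intro x hx
  exact ⟨h.inP x hx, h.inP' x hx⟩

theorem small_ok {n K : ℕ} {E : AS} {P : VS} (h : PHyp n K E P) (hw : wL E P ≤ n * K) :
    StepOK n K E P ([], spt E P) := by
  refine ⟨?_, ?_, ?_⟩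
  · exact List.nodup_nil
  · intro Q hQ
    exact absurd hQ List.not_mem_nil
  · intro tr _
    have h1 : spt E P ++ List.flatMap tr [] = spt E P := by simp
    change Tree E.toFinset P.toFinset (spt E P ++ List.flatMap tr []) ∧
      Cong E.toFinset P.toFinset (spt E P ++ List.flatMap tr []) K (Bd n K E.toFinset P.toFinset)
    rw [h1]
    refine ⟨spt_tree E h.nP h.ne h.cn, ?_⟩
    apply cong_ww
    rw [← wL_eq h.nE]
    unfold Bd
    have h2 : K * wL E P ≤ K * (n * K) := Nat.mul_le_mul_left K hw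
    have h3 : K * (n * K) ≤ 150 * K * (n * K) := Nat.mul_le_mul_right _ (by omega)
    omega

lemma s1_length_le {L : List VS} {Q : VS} (h : Q ∈ L) : Q.length ≤ L.flatten.length := by
  induction L with
  | nil => exact absurd h List.not_mem_nil
  | cons A L ih =>
    rw [List.flatten_cons, List.length_append]
    rcases List.mem_cons.1 h with h | h
    · rw [h]
      omega
    · have := ih h
      omega

theorem split_ok {n K : ℕ} {E : AS} {P Z : VS} (h : PHyp n K E P) (hZ : VioL K E P Z) :
    StepOK n K E P (split E P Z) := by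
  obtain ⟨nZ, hZP, hv⟩ := hZ
  rw [vio_iff h.nE K h.nP nZ] at hv
  obtain ⟨hZne, hZ1, hZ2⟩ := hv
  have hsym : ∀ x ∈ E, x.swap ∈ E := by
    intro x hx
    exact List.mem_toFinset.1 (h.gr.symm x (List.mem_toFinset.2 hx))
  have hsymF : ∀ x ∈ E.toFinset, x.swap ∈ E.toFinset := h.gr.symm
  have nA : (itr P Z).Nodup := itr_nodup Z h.nP
  have nB : (dif P Z).Nodup := dif_nodup Z h.nP
  have hAF : (itr P Z).toFinset = Z.toFinset := by
    ext v
    rw [List.mem_toFinset, List.mem_toFinset, mem_itr]
    exact ⟨fun hv => hv.2, fun hv => ⟨hZP v hv, hv⟩⟩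
  have hBF : (dif P Z).toFinset = P.toFinset \ Z.toFinset := dif_toFinset P Z
  have hdZB : Disjoint Z.toFinset (P.toFinset \ Z.toFinset) := Finset.disjoint_sdiff
  have hZPF : Z.toFinset ⊆ P.toFinset := by
    intro v hv
    rw [List.mem_toFinset] at hv ⊢
    exact hZP v hv
  have hun : Z.toFinset ∪ (P.toFinset \ Z.toFinset) = P.toFinset :=
    Finset.union_sdiff_of_subset hZPF
  have hnu : nu K E.toFinset Z.toFinset + nu K E.toFinset (P.toFinset \ Z.toFinset) =
      nu K E.toFinset P.toFinset := by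
    rw [← nu_union K hdZB, hun]
  have hBne : (P.toFinset \ Z.toFinset).Nonempty := by
    rw [Finset.nonempty_iff_ne_empty]
    intro h0
    rw [h0] at hnu
    have h1 : nu K E.toFinset ∅ = 0 := by simp [nu, ww]
    omega
  have hcardA : (itr P Z).length = Z.toFinset.card := by
    rw [← hAF, List.toFinset_card_of_nodup nA]
  have hcardB : (dif P Z).length = (P.toFinset \ Z.toFinset).card := by
    rw [← hBF, List.toFinset_card_of_nodup nB]
  have hcardP : P.length = Z.toFinset.card + (P.toFinset \ Z.toFinset).card := by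
    rw [← List.toFinset_card_of_nodup h.nP, ← Finset.card_union_of_disjoint hdZB, hun]
  have hZpos : 0 < Z.toFinset.card := by
    rw [Finset.card_pos]
    obtain ⟨v, hv⟩ := List.exists_mem_of_ne_nil Z hZne
    exact ⟨v, List.mem_toFinset.2 hv⟩
  have hBpos : 0 < (P.toFinset \ Z.toFinset).card := Finset.card_pos.2 hBne
  have pA := comps_perm E (itr P Z)
  have pB := comps_perm E (dif P Z)
  have sA := comps_spec hsym nA
  have sB := comps_spec hsym nB
  have hfl : (comps E (itr P Z) ++ comps E (dif P Z)).flatten.Perm (itr P Z ++ dif P Z) := by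
    rw [List.flatten_append]
    exact pA.append pB
  have hndc : (itr P Z ++ dif P Z).Nodup := by
    rw [List.nodup_append]
    refine ⟨nA, nB, ?_⟩
    intro a ha b hb hab
    rw [mem_itr] at ha
    rw [mem_dif] at hb
    rw [hab] at ha
    exact hb.2 ha.2
  have hnd : (comps E (itr P Z) ++ comps E (dif P Z)).flatten.Nodup := hfl.nodup_iff.2 hndc
  have hmemA : ∀ Q ∈ comps E (itr P Z), ∀ v ∈ Q, v ∈ itr P Z := by
    intro Q hQ v hv
    exact pA.mem_iff.1 (List.mem_flatten.2 ⟨Q, hQ, hv⟩)
  have hmemB : ∀ Q ∈ comps E (dif P Z), ∀ v ∈ Q, v ∈ dif P Z := by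
    intro Q hQ v hv
    exact pB.mem_iff.1 (List.mem_flatten.2 ⟨Q, hQ, hv⟩)
  have hallF : (comps E (itr P Z) ++ comps E (dif P Z)).flatten.toFinset = P.toFinset := by
    rw [List.toFinset_eq_of_perm _ _ hfl, List.toFinset_append, hAF, hBF, hun]
  have hne : ∀ Q ∈ comps E (itr P Z) ++ comps E (dif P Z), Q ≠ [] := by
    intro Q hQ
    rcases List.mem_append.1 hQ with hQ | hQ
    · exact (sA Q hQ).1
    · exact (sB Q hQ).1
  refine ⟨hnd, ?_, ?_⟩
  · intro Q hQ
    rcases List.mem_append.1 hQ with hQ | hQ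
    · refine ⟨(sA Q hQ).1, ?_, ?_, (sA Q hQ).2.1⟩
      · intro v hv
        exact (mem_itr.1 (hmemA Q hQ v hv)).1
      · have h1 := s1_length_le hQ
        rw [pA.length_eq] at h1
        omega
    · refine ⟨(sB Q hQ).1, ?_, ?_, (sB Q hQ).2.1⟩
      · intro v hv
        exact (mem_dif.1 (hmemB Q hQ v hv)).1
      · have h1 := s1_length_le hQ
        rw [pB.length_eq] at h1
        omega
  · intro tr htr
    change (∀ Q ∈ comps E (itr P Z) ++ comps E (dif P Z), _) at htr
    change Tree E.toFinset P.toFinset ((kruskal E (comps E (itr P Z) ++ comps E (dif P Z))).2 ++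
        (comps E (itr P Z) ++ comps E (dif P Z)).flatMap tr) ∧
      Cong E.toFinset P.toFinset ((kruskal E (comps E (itr P Z) ++ comps E (dif P Z))).2 ++
        (comps E (itr P Z) ++ comps E (dif P Z)).flatMap tr) K (Bd n K E.toFinset P.toFinset)
    set L0 : List VS := comps E (itr P Z) ++ comps E (dif P Z) with hL0
    set L : List (Finset ℕ × List (ℕ × ℕ)) := L0.map fun Q => (Q.toFinset, tr Q) with hL
    have hL0ne : L0 ≠ [] := by
      intro h0
      rw [h0] at hallF
      have h1 : P.toFinset = ∅ := by rw [← hallF]; rfl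
      rw [h1] at hBne
      simp at hBne
    have hLne : L ≠ [] := by
      rw [hL]
      intro h0
      exact hL0ne (List.map_eq_nil_iff.1 h0)
    have hfm : L0.flatMap tr = L.flatMap fun a => a.2 := by
      rw [hL, List.flatMap_map]
    have hLm : (L.map fun a => a.1) = L0.map List.toFinset := by
      rw [hL, List.map_map]
      rfl
    have hd : L.Pairwise fun a b => Disjoint a.1 b.1 := by
      have h1 := pairwise_of_flatten hnd
      rw [← hLm, List.pairwise_map] at h1
      exact h1
    have hP : ∀ v, v ∈ P.toFinset ↔ ∃ a ∈ L, v ∈ a.1 := by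
      intro v
      rw [← hallF, List.mem_toFinset, List.mem_flatten]
      constructor
      · rintro ⟨Q, hQ, hv⟩
        exact ⟨(Q.toFinset, tr Q), List.mem_map.2 ⟨Q, hQ, rfl⟩, List.mem_toFinset.2 hv⟩
      · rintro ⟨a, ha, hv⟩
        obtain ⟨Q, hQ, rfl⟩ := List.mem_map.1 ha
        exact ⟨Q, hQ, List.mem_toFinset.1 hv⟩
    have hT : ∀ a ∈ L, Tree E.toFinset a.1 a.2 := by
      intro a ha
      obtain ⟨Q, hQ, rfl⟩ := List.mem_map.1 ha
      exact (htr Q hQ).1
    have hne' : ∀ a ∈ L, a.1.Nonempty := by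
      intro a ha
      obtain ⟨Q, hQ, rfl⟩ := List.mem_map.1 ha
      obtain ⟨v, hv⟩ := List.exists_mem_of_ne_nil Q (hne Q hQ)
      exact ⟨v, List.mem_toFinset.2 hv⟩
    have hcn : Cn E.toFinset L0.flatten.toFinset := by
      rw [hallF]
      exact h.cn
    have hQT : QT E.toFinset (L.map fun a => a.1) (kruskal E L0).2 := by
      rw [hLm]
      exact kruskal_QT E hnd hne hL0ne hcn
    rw [hfm]
    refine ⟨join_tree L hd hP hne' hT _ hQT, ?_⟩
    apply join_cong hsymF L hLne hd hP hT
    intro a ha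
    refine ⟨Bd n K E.toFinset a.1, ?_, ?_⟩
    · obtain ⟨Q, hQ, rfl⟩ := List.mem_map.1 ha
      exact (htr Q hQ).2
    · -- the count
      have hxe : xe E.toFinset (L.map fun a => a.1) = 2 * bb E.toFinset Z.toFinset := by
        rw [hLm, hL0, List.map_append]
        have hdd : ((comps E (itr P Z)).map List.toFinset ++
            (comps E (dif P Z)).map List.toFinset).Pairwise fun a b => Disjoint a b := by
          rw [← List.map_append]
          exact pairwise_of_flatten hnd
        rw [xe_append (P := Z.toFinset) (P' := P.toFinset \ Z.toFinset) hsymF hdd ?_ ?_]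
        · rw [comps_xe hsym nA, comps_xe hsym nB, bb_eq_ee h.gr.inP']
          omega
        · intro v
          rw [← mem_map_toFinset, ← hAF, List.mem_toFinset]
          exact pA.mem_iff.symm
        · intro v
          rw [← mem_map_toFinset, ← hBF, List.mem_toFinset]
          exact pB.mem_iff.symm
      rw [hxe]
      unfold Bd
      rw [s1_filter h.gr]
      have h1 : K * (2 * bb E.toFinset Z.toFinset) ≤ 2 * nu K E.toFinset Z.toFinset := by
        have : K * (2 * bb E.toFinset Z.toFinset) = 2 * (K * bb E.toFinset Z.toFinset) := by ring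
        rw [this]
        omega
      obtain ⟨Q, hQ, rfl⟩ := List.mem_map.1 ha
      rcases List.mem_append.1 hQ with hQ | hQ
      · have h2 := nu_inside_le K (E := E.toFinset) (C := Q.toFinset) (Z := Z.toFinset) (by
          intro v hv
          rw [← hAF, List.mem_toFinset]
          exact hmemA Q hQ v (List.mem_toFinset.1 hv))
        dsimp only
        omega
      · have h2 := nu_inside_le K (E := E.toFinset) (C := Q.toFinset)
          (Z := P.toFinset \ Z.toFinset) (by
            intro v hv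
            rw [← hBF, List.mem_toFinset]
            exact hmemB Q hQ v (List.mem_toFinset.1 hv))
        dsimp only
        omega

end Pool.Agent.H24S
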