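import Pool.Agent.Lib.H24S.S1
import Pool.Agent.Lib.H24S.F7
import Pool.Agent.Lib.H24S.I8

/-!
# H24S chunk S2: one step of the recursion is correct

* `ctx_of`: if `n K < wL E P` and no singleton is a violation then `CtxL n K E P`: for `v ∈ P`: `[v]` is not a
  violation, although `2 nL [v] ≤ nL P`: `|P| ≥ 2` (there are arcs and no loops), so `2 K K ≤ K K |P|`, and
  `2 wL [v] ≤ 2 n ≤ n K < wL P`. So `nL [v] ≤ K bL [v] ≤ K wL [v]`, i.e.
  `16 K K + 16 wL [v] ≤ K wL [v]`, hence `16 K ≤ wL [v]`.
* `stepE_ok`: cases of the definition: `small_ok`; a singleton violation `[v]`: `split_ok`; otherwise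
  `mainLoop_ok` and `split_ok` or `finish_ok` (`useOut`).
* `stepF_ok`: `E0` the arcs of the whole graph on `List.range n`, `P` a connected set of vertices: `PHyp` holds for
  `inside E0 P` and `P`. `StepOK` for `inside E0 P` gives `StepOK` for `E0`: all sets `Q` involved are subsets of `P`, so
  `cn_congr`, `tree_congr`, `cong_congr` apply and `Bd n K _ Q` is the same
  (`(inside E0 P)` and `E0` have the same arcs inside `Q`).
  The guard in `stepF` is true: the parts are duplicate free and disjoint subsets of `P`.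
  `wL (inside E0 P) P ≤ |E0| ≤ 2 n K K`; degrees are `≤ n`: the arcs from `v` end in different elements of `range n`.
-/

set_option autoImplicit false

namespace Pool.Agent.H24S

/-- hypotheses on the whole graph -/
structure GH (n K : ℕ) (E : AS) : Prop where
  nE : E.Nodup
  sym : ∀ x ∈ E, x.swap ∈ E
  irr : ∀ x ∈ E, x.1 ≠ x.2
  inR : ∀ x ∈ E, x.1 < n
  K8 : 8 ≤ K
  Kn : K * K ≤ 3 * n
  wE : E.length ≤ 2 * (n * K) * K

theorem ctx_of {n K : ℕ} {E : AS} {P : VS} (h : PHyp n K E P) (hw : n * K < wL E P)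
    (hv : ∀ v ∈ P, vio K E P [v] = false) : CtxL n K E P := by
  have hww : ∀ A : VS, wL E A = ww E.toFinset A.toFinset := fun A => wL_eq h.nE A
  -- at least two vertices
  have hP2 : 2 ≤ P.toFinset.card := by
    have h1 : 0 < wL E P := by omega
    unfold wL at h1
    obtain ⟨x, hx⟩ := List.exists_mem_of_length_pos h1
    rw [List.mem_filter, decide_eq_true_eq] at hx
    have hx1 : x ∈ E.toFinset := List.mem_toFinset.2 hx.1
    have h2 := h.gr.inP x hx1
    have h3 := h.gr.inP' x hx1
    have h4 := h.gr.irr x hx1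
    rw [← Finset.card_pair h4]
    refine Finset.card_le_card ?_
    intro y hy
    rw [Finset.mem_insert, Finset.mem_singleton] at hy
    rcases hy with rfl | rfl
    · exact h2
    · exact h3
  refine ⟨h.nE, h.nP, h.gr, h.K8, h.Kn, ?_, ?_, ?_, ?_, h.cn⟩
  · rw [← hww]; exact h.wP
  · rw [← hww]; exact hw
  · intro v hvP
    rw [List.mem_toFinset] at hvP
    have h1 := hv v hvP
    rw [← Bool.not_eq_true, vio_iff h.nE K h.nP (List.nodup_singleton v)] at h1
    have hs : ([v] : List ℕ).toFinset = {v} := by simp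
    rw [hs] at h1
    have h2 : ww E.toFinset {v} ≤ n := by
      rw [← hs, ← hww]
      exact h.deg v hvP
    have h3 : n * K < ww E.toFinset P.toFinset := by rw [← hww]; exact hw
    have h4 : 2 * nu K E.toFinset {v} ≤ nu K E.toFinset P.toFinset := by
      unfold nu
      rw [Finset.card_singleton]
      have h5 : K * K * 2 ≤ K * K * P.toFinset.card := Nat.mul_le_mul_left _ hP2
      have h6 : n * 8 ≤ n * K := Nat.mul_le_mul_left _ h.K8
      omega
    have h5 : nu K E.toFinset {v} ≤ K * bb E.toFinset {v} := by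
      by_contra h6
      push Not at h6
      exact h1 ⟨by simp, h4, h6⟩
    have h6 := bb_le_ww (E := E.toFinset) ({v} : Finset ℕ)
    have h7 : K * bb E.toFinset {v} ≤ K * ww E.toFinset {v} := Nat.mul_le_mul_left _ h6
    unfold nu at h5
    rw [Finset.card_singleton, Nat.mul_one] at h5
    have h8 : K * (16 * K) ≤ K * ww E.toFinset {v} := by nlinarith
    have hK0 : 0 < K := by have := h.K8; omega
    exact Nat.le_of_mul_le_mul_left h8 hK0
  · intro v hvP
    rw [List.mem_toFinset] at hvP
    have hs : ([v] : List ℕ).toFinset = {v} := by simp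
    rw [← hs, ← hww]
    exact h.deg v hvP

theorem stepE_ok {n K : ℕ} {E : AS} {P : VS} (h : PHyp n K E P) :
    StepOK n K E P (stepE n K E P) := by
  unfold stepE
  by_cases hw : wL E P ≤ n * K
  · rw [if_pos hw]
    exact small_ok h hw
  rw [if_neg hw]
  push Not at hw
  cases hf : P.find? (fun v => vio K E P [v]) with
  | some v =>
    have h1 := List.find?_some hf
    have h2 := List.mem_of_find?_eq_some hf
    refine split_ok h ⟨List.nodup_singleton v, ?_, h1⟩
    intro u hu
    rw [List.mem_singleton] at hu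
    rw [hu]
    exact h2
  | none =>
    rw [List.find?_eq_none] at hf
    have c := ctx_of h hw (fun v hv => by rw [← Bool.not_eq_true]; exact hf v hv)
    show StepOK n K E P (useOut n K E P (mainLoop n K E P))
    unfold useOut
    rcases mainLoop_ok c with ⟨Z, hZ, hZ'⟩ | ⟨h1, brs, its, h2, h3⟩
    · rw [hZ]
      exact split_ok h hZ'
    · rw [h1, h2]
      exact finish_ok c h3

lemma s2_deg {n : ℕ} {E : AS} (nE : E.Nodup) (hn : ∀ x ∈ E, x.2 < n) (v : ℕ) :
    wL E [v] ≤ n := by
  unfold wL
  have h1 : ((E.filter fun x => decide (x.1 ∈ [v])).map Prod.snd).Nodup := by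
    refine List.Nodup.map_on ?_ (nE.filter _)
    intro x hx y hy hxy
    rw [List.mem_filter, decide_eq_true_eq, List.mem_singleton] at hx hy
    exact Prod.ext (hx.2.trans hy.2.symm) hxy
  have h2 : ((E.filter fun x => decide (x.1 ∈ [v])).map Prod.snd) ⊆ List.range n := by
    intro u hu
    rw [List.mem_map] at hu
    obtain ⟨x, hx, rfl⟩ := hu
    rw [List.mem_range]
    exact hn x (List.mem_filter.1 hx).1
  have h3 := (List.Nodup.subperm h1 h2).length_le
  rwa [List.length_map, List.length_range] at h3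

theorem stepF_ok {n K : ℕ} {E : AS} {P : VS} (h : GH n K E) (hP : P.Nodup) (hne : P ≠ [])
    (hsub : ∀ v ∈ P, v < n) (hc : Cn E.toFinset P.toFinset) :
    StepOK n K E P (stepF n K E P) := by
  have hin : ∀ x, x ∈ (inside E P).toFinset ↔ x ∈ E.toFinset ∧ x.1 ∈ P.toFinset ∧
      x.2 ∈ P.toFinset := by
    intro x
    unfold inside
    rw [List.mem_toFinset, List.mem_filter, Bool.and_eq_true, decide_eq_true_eq, decide_eq_true_eq,
      List.mem_toFinset, List.mem_toFinset, List.mem_toFinset]
  have hcongr : ∀ Q : Finset ℕ, Q ⊆ P.toFinset → ∀ x, x.1 ∈ Q → x.2 ∈ Q →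
      (x ∈ E.toFinset ↔ x ∈ (inside E P).toFinset) := by
    intro Q hQ x h1 h2
    rw [hin]
    exact ⟨fun h3 => ⟨h3, hQ h1, hQ h2⟩, fun h3 => h3.1⟩
  have nE' : (inside E P).Nodup := by
    unfold inside
    exact h.nE.filter _
  have hE2 : ∀ x ∈ E, x.2 < n := by
    intro x hx
    have h1 := h.inR x.swap (h.sym x hx)
    exact h1
  have hsubE : ∀ x ∈ inside E P, x ∈ E := by
    intro x hx
    unfold inside at hx
    exact (List.mem_filter.1 hx).1
  have hPH : PHyp n K (inside E P) P := by
    refine ⟨nE', hP, hne, ⟨?_, ?_, ?_⟩, ?_, h.K8, h.Kn, ?_, ?_⟩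
    · intro x hx
      rw [hin] at hx ⊢
      exact ⟨List.mem_toFinset.2 (h.sym x (List.mem_toFinset.1 hx.1)), hx.2.2, hx.2.1⟩
    · intro x hx
      rw [hin] at hx
      exact h.irr x (List.mem_toFinset.1 hx.1)
    · intro x hx
      rw [hin] at hx
      exact hx.2.1
    · exact (cn_congr (hcongr P.toFinset (Finset.Subset.refl _))).1 hc
    · refine le_trans ?_ h.wE
      unfold wL inside
      exact (List.length_filter_le _ _).trans (List.length_filter_le _ _)
    · intro v _
      exact s2_deg nE' (fun x hx => hE2 x (hsubE x hx)) v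
  have hS := stepE_ok hPH
  have hg : (decide ((stepE n K (inside E P) P).1.flatten.length ≤ P.length) &&
      (stepE n K (inside E P) P).1.all fun Q => !Q.isEmpty && Q.all fun v => decide (v ∈ P)) =
      true := by
    rw [Bool.and_eq_true, decide_eq_true_eq, List.all_eq_true]
    constructor
    · refine (List.Nodup.subperm hS.nd ?_).length_le
      intro v hv
      rw [List.mem_flatten] at hv
      obtain ⟨Q, hQ, hvQ⟩ := hv
      exact (hS.sub Q hQ).2.1 v hvQ
    · intro Q hQ
      rw [Bool.and_eq_true, List.all_eq_true]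
      refine ⟨?_, fun v hv => by rw [decide_eq_true_eq]; exact (hS.sub Q hQ).2.1 v hv⟩
      rw [Bool.not_eq_true', ← Bool.not_eq_true, List.isEmpty_iff]
      exact (hS.sub Q hQ).1
  have hF : stepF n K E P = stepE n K (inside E P) P := by
    unfold stepF guardP
    rw [if_pos hg]
  rw [hF]
  have hQP : ∀ Q ∈ (stepE n K (inside E P) P).1, Q.toFinset ⊆ P.toFinset := by
    intro Q hQ v hv
    rw [List.mem_toFinset] at hv ⊢
    exact (hS.sub Q hQ).2.1 v hv
  have hBd : ∀ Q : Finset ℕ, Q ⊆ P.toFinset →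
      Bd n K E.toFinset Q = Bd n K (inside E P).toFinset Q := by
    intro Q hQ
    unfold Bd
    have h1 : (E.toFinset.filter fun x => x.1 ∈ Q ∧ x.2 ∈ Q) =
        ((inside E P).toFinset.filter fun x => x.1 ∈ Q ∧ x.2 ∈ Q) := by
      ext x
      rw [Finset.mem_filter, Finset.mem_filter]
      constructor
      · rintro ⟨h2, h3, h4⟩
        exact ⟨(hcongr Q hQ x h3 h4).1 h2, h3, h4⟩
      · rintro ⟨h2, h3, h4⟩
        exact ⟨(hcongr Q hQ x h3 h4).2 h2, h3, h4⟩
    rw [h1]
  refine ⟨hS.nd, ?_, ?_⟩
  · intro Q hQ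
    obtain ⟨h1, h2, h3, h4⟩ := hS.sub Q hQ
    exact ⟨h1, h2, h3, (cn_congr (hcongr Q.toFinset (hQP Q hQ))).2 h4⟩
  · intro tr htr
    have h1 := hS.tree tr (fun Q hQ => by
      obtain ⟨h2, h3⟩ := htr Q hQ
      refine ⟨(tree_congr (hcongr Q.toFinset (hQP Q hQ))).1 h2, ?_⟩
      rw [← hBd Q.toFinset (hQP Q hQ)]
      exact (cong_congr (hcongr Q.toFinset (hQP Q hQ))).1 h3)
    refine ⟨(tree_congr (hcongr P.toFinset (Finset.Subset.refl _))).2 h1.1, ?_⟩
    rw [hBd P.toFinset (Finset.Subset.refl _)]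
    exact (cong_congr (hcongr P.toFinset (Finset.Subset.refl _))).2 h1.2

end Pool.Agent.H24S
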