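import Pool.Agent.Lib.H24S.D

/-!
# H24S: the definitions of the final statement
-/

set_option autoImplicit false

namespace Pool.Agent.H24S

open Classical in
/-- The adjacency matrix of a graph on `Fin n`, row by row, as a string of `n ^ 2` bits. -/
noncomputable def adjBits {n : ℕ} (G : SimpleGraph (Fin n)) : List Bool :=
  (List.finRange n).flatMap fun i => (List.finRange n).map fun j => decide (G.Adj i j)

/-- The congestion of the edge `uv` of the tree `T`: the number of edges of `G` that join the
component of `u` and the component of `v` in `T - uv`. -/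
noncomputable def cng {n : ℕ} (G T : SimpleGraph (Fin n)) (u v : Fin n) : ℕ :=
  {e : Sym2 (Fin n) | e ∈ G.edgeSet ∧ ∃ a b, e = s(a, b) ∧
    (T.deleteEdges {s(u, v)}).Reachable u a ∧ (T.deleteEdges {s(u, v)}).Reachable v b}.ncard

open Classical in
/-- the arcs of a graph on `Fin n` -/
noncomputable def arcsG {n : ℕ} (G : SimpleGraph (Fin n)) : Finset (ℕ × ℕ) :=
  (Finset.univ.filter fun x : Fin n × Fin n => G.Adj x.1 x.2).image fun x => (x.1.val, x.2.val)

/-- the graph on `Fin n` with the edges in the list `T` -/
def treeG (n : ℕ) (T : AS) : SimpleGraph (Fin n) where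
  Adj i j := i ≠ j ∧ ((i.val, j.val) ∈ T ∨ (j.val, i.val) ∈ T)
  symm := ⟨fun _ _ h => ⟨h.1.symm, h.2.symm⟩⟩
  loopless := ⟨fun _ h => h.1 rfl⟩

end Pool.Agent.H24S
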