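import Pool.Agent.Lib.H24S.Stm

/-!
# H24S chunk Z1: input and output

* `parseN_adj`: the string `adjBits G` has length `n * n`; the first `k` in `range (n*n+1)` with `k*k = n*n` is `n`.
* `parseE_mem`: the bit number `i n + j` of `adjBits G` is `decide (G.Adj i j)` (`List.getElem?` of a `flatMap` of lists of
  equal length `n`; induction or `List.ofFn`; for instance rewrite `adjBits G` as `List.ofFn` over `Fin (n*n)`).
* `parseE_nodup`: filter of a product of duplicate free lists.
* `outBits_eq`: `List.range n ×ˢ List.range n = (range n).flatMap fun i => (range n).map fun j => (i, j)`,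
  `List.range n = (List.finRange n).map Fin.val`; the arcs of `T` are between different numbers.
* `getK_spec`: `find?` on `range (n+1)` finds the least `k` with `|E| ≤ 2 n k^2`, there is one, since
  `|E| ≤ n^2 ≤ 2 n n^2`.
-/

set_option autoImplicit false

namespace Pool.Agent.H24S

lemma Z1_flatten {α : Type} (n : ℕ) : ∀ (L : List (List α)), (∀ a ∈ L, a.length = n) →
    ∀ i j, j < n → L.flatten[i * n + j]? = (L[i]?).bind (fun a => a[j]?) := by
  intro L
  induction L with
  | nil => intro _ i j _; simp
  | cons a L ih =>
    intro h i j hj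
    have ha : a.length = n := h a (List.mem_cons_self ..)
    rw [List.flatten_cons]
    cases i with
    | zero =>
      rw [Nat.zero_mul, Nat.zero_add, List.getElem?_append_left (by omega)]
      simp
    | succ i =>
      have h1 : (i + 1) * n + j = n + (i * n + j) := by ring
      rw [h1, List.getElem?_append_right (by omega), ha, Nat.add_sub_cancel_left,
        ih (fun b hb => h b (List.mem_cons_of_mem _ hb)) i j hj]
      simp

open Classical in
lemma Z1_get {n : ℕ} (G : SimpleGraph (Fin n)) (i j : ℕ) (hi : i < n) (hj : j < n) :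
    (adjBits G)[i * n + j]? = some (decide (G.Adj ⟨i, hi⟩ ⟨j, hj⟩)) := by
  unfold adjBits
  rw [List.flatMap_def, Z1_flatten n _ _ i j hj]
  · rw [List.getElem?_map, List.getElem?_eq_getElem (by simpa using hi)]
    simp only [List.getElem_finRange, Option.map_some, Option.bind_some, List.getElem?_map]
    rw [List.getElem?_eq_getElem (by simpa using hj)]
    simp
  · intro a ha
    rw [List.mem_map] at ha
    obtain ⟨k, _, rfl⟩ := ha
    simp

lemma Z1_len {n : ℕ} (G : SimpleGraph (Fin n)) : (adjBits G).length = n * n := by
  unfold adjBits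
  rw [List.length_flatMap]
  simp

lemma parseN_adj {n : ℕ} (G : SimpleGraph (Fin n)) : parseN (adjBits G) = n := by
  unfold parseN
  rw [Z1_len]
  have h : (List.range (n * n + 1)).find? (fun k => decide (k * k = n * n)) = some n := by
    rw [List.find?_range_eq_some]
    refine ⟨by simp, ?_, ?_⟩
    · rw [List.mem_range]
      nlinarith [Nat.le_mul_self n]
    · intro j hj
      simp only [Bool.not_eq_true', decide_eq_false_iff_not]
      intro h
      have := Nat.mul_self_lt_mul_self hj
      omega
  rw [h]
  rfl

lemma parseE_mem {n : ℕ} (G : SimpleGraph (Fin n)) (x : ℕ × ℕ) :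
    x ∈ parseE n (adjBits G) ↔ ∃ (h1 : x.1 < n) (h2 : x.2 < n), G.Adj ⟨x.1, h1⟩ ⟨x.2, h2⟩ := by
  classical
  unfold parseE
  rw [List.mem_filter]
  constructor
  · rintro ⟨h, h'⟩
    obtain ⟨i, j⟩ := x
    rw [show ((i, j) ∈ List.range n ×ˢ List.range n) ↔ _ from List.pair_mem_product,
      List.mem_range, List.mem_range] at h
    refine ⟨h.1, h.2, ?_⟩
    simp only [Z1_get G i j h.1 h.2, Option.getD_some, decide_eq_true_eq] at h'
    exact h'
  · rintro ⟨h1, h2, h3⟩
    obtain ⟨i, j⟩ := x
    refine ⟨?_, ?_⟩
    · refine List.pair_mem_product.2 ?_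
      rw [List.mem_range, List.mem_range]
      exact ⟨h1, h2⟩
    · simp only [Z1_get G i j h1 h2, Option.getD_some, decide_eq_true_eq]
      exact h3

lemma parseE_nodup (n : ℕ) (l : List Bool) : (parseE n l).Nodup := by
  unfold parseE
  exact (List.Nodup.product List.nodup_range List.nodup_range).filter _

lemma parseE_toFinset {n : ℕ} (G : SimpleGraph (Fin n)) :
    (parseE n (adjBits G)).toFinset = arcsG G := by
  ext x
  rw [List.mem_toFinset, parseE_mem]
  unfold arcsG
  simp only [Finset.mem_image, Finset.mem_filter, Finset.mem_univ, true_and, Prod.exists]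
  constructor
  · rintro ⟨h1, h2, h3⟩
    exact ⟨_, _, h3, rfl⟩
  · rintro ⟨a, b, h, rfl⟩
    exact ⟨a.2, b.2, h⟩

lemma outBits_eq {n : ℕ} {T : AS} (h : ∀ t ∈ T, t.1 ≠ t.2) :
    outBits n T = adjBits (treeG n T) := by
  classical
  unfold outBits adjBits
  have h1 : List.range n = (List.finRange n).map Fin.val := by
    simp
  have h2 : ((List.range n) ×ˢ (List.range n)) =
      (List.range n).flatMap fun i => (List.range n).map fun j => (i, j) := rfl
  rw [h2, h1, List.map_flatMap, List.flatMap_map]
  congr 1
  funext i
  rw [List.map_map, List.map_map]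
  apply List.map_congr_left
  intro j _
  simp only [Function.comp, treeG]
  have h3 : (decide ((i.val, j.val) ∈ T) || decide ((i.val, j.val).swap ∈ T)) =
      decide ((i.val, j.val) ∈ T ∨ (j.val, i.val) ∈ T) := by
    simp
  rw [h3]
  apply decide_eq_decide.2
  constructor
  · intro h4
    refine ⟨?_, h4⟩
    rintro rfl
    rcases h4 with h4 | h4 <;> exact h _ h4 rfl
  · exact fun h4 => h4.2

lemma getK_spec {n : ℕ} {E : AS} (hE : E.length ≤ n * n) :
    E.length ≤ 2 * (n * (getK n E * getK n E)) ∧
      ∀ k, k < getK n E → 2 * (n * (k * k)) < E.length := by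
  unfold getK
  cases hf : (List.range (n + 1)).find? fun k => decide (E.length ≤ 2 * (n * (k * k))) with
  | none =>
    exfalso
    rw [List.find?_eq_none] at hf
    have := hf n (List.mem_range.2 (by omega))
    simp only [decide_eq_true_eq, not_le] at this
    nlinarith [Nat.le_mul_self n, Nat.zero_le n]
  | some k0 =>
    rw [List.find?_range_eq_some] at hf
    obtain ⟨h1, h2, h3⟩ := hf
    simp only [Option.getD_some]
    refine ⟨by simpa using h1, fun k hk => ?_⟩
    have := h3 k hk
    simpa using this

end Pool.Agent.H24S
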